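import Mathlib

/-!
Fewer than `n` polynomials in `n` variables without constant term over an algebraically closed
field have a common non zero zero.
-/

namespace Pool.Agent.Work.PD

open MvPolynomial

variable {K : Type*} [Field K] [IsAlgClosed K]

/-- translation automorphism -/
noncomputable def translate {σ : Type*} (x : σ → K) : MvPolynomial σ K ≃ₐ[K] MvPolynomial σ K :=
  AlgEquiv.ofAlgHom (MvPolynomial.aeval fun i => X i + C (x i))
    (MvPolynomial.aeval fun i => X i - C (x i))
    (by
      apply MvPolynomial.algHom_ext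
      intro i
      simp)
    (by
      apply MvPolynomial.algHom_ext
      intro i
      simp)

theorem height_vanishing_eq {σ : Type*} [Finite σ] (x y : σ → K) :
    (vanishingIdeal K {x}).height = (vanishingIdeal K {y}).height := by
  let e := translate (fun i => x i - y i)
  have h : (vanishingIdeal K {x}) = (vanishingIdeal K {y}).comap (e : MvPolynomial σ K →+* MvPolynomial σ K) := by
    ext p
    rw [Ideal.mem_comap, mem_vanishingIdeal_singleton_iff, mem_vanishingIdeal_singleton_iff]
    have : (MvPolynomial.aeval y) (e p) = (MvPolynomial.aeval x) p := by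
      show (MvPolynomial.aeval y) ((MvPolynomial.aeval fun i => X i + C (x i - y i)) p) = _
      rw [MvPolynomial.comp_aeval_apply]
      congr 2
      funext i
      simp
    show _ ↔ (MvPolynomial.aeval y) (e p) = 0
    rw [this]
  rw [h]
  exact (RingEquiv.height_comap (e : MvPolynomial σ K ≃+* MvPolynomial σ K) (vanishingIdeal K {y}))

theorem exists_common_zero {n m : ℕ} (hmn : m < n) (F : Fin m → MvPolynomial (Fin n) K)
    (hF : ∀ i, MvPolynomial.eval 0 (F i) = 0) :
    ∃ x : Fin n → K, x ≠ 0 ∧ ∀ i, MvPolynomial.eval x (F i) = 0 := by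
  classical
  by_contra hcon
  push Not at hcon
  let I : Ideal (MvPolynomial (Fin n) K) := Ideal.span (Set.range F)
  let M : Ideal (MvPolynomial (Fin n) K) := vanishingIdeal K {(0 : Fin n → K)}
  have hMmax : M.IsMaximal := isMaximal_iff_eq_vanishingIdeal_singleton.mpr ⟨0, rfl⟩
  have hIM : I ≤ M := by
    rw [Ideal.span_le]
    rintro _ ⟨i, rfl⟩
    show F i ∈ M
    rw [mem_vanishingIdeal_singleton_iff]
    exact hF i
  have hmin : M ∈ I.minimalPrimes := by
    refine ⟨⟨hMmax.isPrime, hIM⟩, ?_⟩
    rintro q ⟨hq, hIq⟩ hqM
    have h0 : (0 : Fin n → K) ∈ zeroLocus K q := by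
      rw [mem_zeroLocus_iff]
      intro p hp
      have := hqM hp
      rwa [mem_vanishingIdeal_singleton_iff] at this
    have hz : zeroLocus K q = {(0 : Fin n → K)} := by
      apply Set.eq_singleton_iff_unique_mem.mpr
      refine ⟨h0, ?_⟩
      intro x hx
      by_contra hne
      obtain ⟨i, hi⟩ := hcon x hne
      apply hi
      rw [mem_zeroLocus_iff] at hx
      have := hx (F i) (hIq (Ideal.subset_span ⟨i, rfl⟩))
      rwa [MvPolynomial.aeval_eq_eval] at this
    have hv := IsPrime.vanishingIdeal_zeroLocus (K := K) q
    rw [hz] at hv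
    exact hv.le
  have hht : M.height ≤ m := by
    have h1 := Ideal.height_le_card_of_mem_minimalPrimes_span (Set.finite_range F) hmin
    refine h1.trans ?_
    have : (Set.range F).ncard ≤ m := by
      have := Set.ncard_image_le (f := F) (s := Set.univ) Set.finite_univ
      simpa [Set.image_univ, Set.ncard_univ] using this
    exact_mod_cast this
  have hdim : ringKrullDim (MvPolynomial (Fin n) K) ≤ (m : WithBot ℕ∞) := by
    rw [ringKrullDim_le_iff_isMaximal_height_le]
    intro Q hQ
    obtain ⟨y, hy⟩ := isMaximal_iff_eq_vanishingIdeal_singleton.mp hQ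
    rw [hy, height_vanishing_eq y 0]
    exact_mod_cast hht
  rw [MvPolynomial.ringKrullDim_of_isNoetherianRing, ringKrullDim_eq_zero_of_field, zero_add,
    Nat.card_eq_fintype_card, Fintype.card_fin] at hdim
  have : n ≤ m := by exact_mod_cast hdim
  omega

end Pool.Agent.Work.PD
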