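import Mathlib

/-!
Derivations at the generic point of a hypersurface.
-/

namespace Pool.Agent.Work.PD

open MvPolynomial

section Ext

variable {R S T M : Type*} [CommRing R] [CommRing S] [CommRing T] [Algebra R S] [Algebra R T]
  [Algebra S T] [IsScalarTower R S T] [AddCommGroup M] [Module R M] [Module S M] [Module T M]
  [IsScalarTower R S M] [IsScalarTower S T M] [IsScalarTower R T M]

theorem exists_extend_derivation [Algebra.FormallyEtale S T] (d : Derivation R S M) :
    ∃ d' : Derivation R T M, ∀ s, d' (algebraMap S T s) = d s := by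
  let h := KaehlerDifferential.isBaseChange_of_formallyEtale R S T
  let L : Ω[T⁄R] →ₗ[T] M := h.lift d.liftKaehlerDifferential
  refine ⟨L.compDer (KaehlerDifferential.D R T), ?_⟩
  intro s
  show L (KaehlerDifferential.D R T (algebraMap S T s)) = d s
  have h1 : KaehlerDifferential.D R T (algebraMap S T s) =
      KaehlerDifferential.map R R S T (KaehlerDifferential.D R S s) := by
    rw [KaehlerDifferential.map_D]
  rw [h1]
  have h2 := h.lift_eq d.liftKaehlerDifferential (KaehlerDifferential.D R S s)
  rw [h2, Derivation.liftKaehlerDifferential_comp_D]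

end Ext

section Chain

variable {k E : Type*} [Field k] [Field E] [Algebra k E] {σ : Type*} [Fintype σ]

theorem derivation_aeval (D : Derivation k E E) (y : σ → E) (p : MvPolynomial σ k) :
    D (aeval y p) = ∑ i, aeval y (pderiv i p) * D (y i) := by
  classical
  induction p using MvPolynomial.induction_on with
  | C a => simp
  | add p q hp hq =>
    rw [map_add, map_add, hp, hq, ← Finset.sum_add_distrib]
    refine Finset.sum_congr rfl fun i _ => ?_
    rw [map_add, map_add]; ring
  | mul_X p j hp =>
    rw [map_mul, aeval_X, Derivation.leibniz, hp]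
    have : ∀ i, pderiv i (p * X j) =
        pderiv i p * X j + p * Pi.single (M := fun _ => MvPolynomial σ k) i 1 j := by
      intro i
      rw [pderiv_mul, pderiv_X]
    simp only [this, map_add, map_mul, aeval_X, add_mul, Finset.sum_add_distrib, smul_eq_mul]
    rw [add_comm]
    congr 1
    · rw [Finset.mul_sum]
      refine Finset.sum_congr rfl fun i _ => by ring
    · rw [Finset.sum_eq_single j]
      · simp
      · intro i _ hij
        rw [Pi.single_eq_of_ne (Ne.symm hij)]; simp
      · simp

end Chain

section Gen

variable {k : Type*} [Field k] [CharZero k] {σ : Type*} [Fintype σ]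
variable (g : MvPolynomial σ k) [hg : (Ideal.span {g}).IsPrime]

/-- coordinate ring of the hypersurface -/
abbrev CR := MvPolynomial σ k ⧸ (Ideal.span {g})

/-- function field -/
abbrev FFd := FractionRing (CR g)

/-- its algebraic closure -/
abbrev EE := AlgebraicClosure (FFd g)

/-- the generic point -/
noncomputable def eta (i : σ) : EE g := algebraMap (CR g) (EE g) (Ideal.Quotient.mk _ (X i))

instance instCharZeroFFd : CharZero (FFd g) :=
  charZero_of_injective_algebraMap (algebraMap k (FFd g)).injective

instance instCharZeroEE : CharZero (EE g) :=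
  charZero_of_injective_algebraMap (algebraMap k (EE g)).injective

omit [CharZero k] [Fintype σ] in
theorem aeval_eta (p : MvPolynomial σ k) :
    aeval (eta g) p = algebraMap (CR g) (EE g) (Ideal.Quotient.mk _ p) := by
  have h : (aeval (eta g) : MvPolynomial σ k →ₐ[k] EE g) =
      ((IsScalarTower.toAlgHom k (CR g) (EE g)).comp (Ideal.Quotient.mkₐ k (Ideal.span {g}))) := by
    apply MvPolynomial.algHom_ext
    intro i
    simp [eta]
  rw [h]
  rfl

omit [CharZero k] [Fintype σ] in
theorem aeval_eta_eq_zero_iff (p : MvPolynomial σ k) : aeval (eta g) p = 0 ↔ g ∣ p := by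
  rw [aeval_eta]
  have hinj : Function.Injective (algebraMap (CR g) (EE g)) := by
    rw [IsScalarTower.algebraMap_eq (CR g) (FFd g) (EE g)]
    exact (algebraMap (FFd g) (EE g)).injective.comp (IsFractionRing.injective (CR g) (FFd g))
  rw [map_eq_zero_iff _ hinj, Ideal.Quotient.eq_zero_iff_mem, Ideal.mem_span_singleton]

theorem exists_tangent_derivation (ξ : σ → EE g)
    (hξ : ∑ i, aeval (eta g) (pderiv i g) * ξ i = 0) :
    ∃ D : Derivation k (EE g) (EE g), ∀ i, D (eta g i) = ξ i := by
  classical
  have i1 : Algebra.FormallyEtale (CR g) (FFd g) :=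
    Algebra.FormallyEtale.of_isLocalization (nonZeroDivisors (CR g))
  have i2 : Algebra.FormallyEtale (FFd g) (EE g) := Algebra.FormallyEtale.of_isSeparable _ _
  have i3 : Algebra.FormallyEtale (CR g) (EE g) := Algebra.FormallyEtale.comp (CR g) (FFd g) (EE g)
  -- the derivation on polynomials
  let L : MvPolynomial σ k → EE g := fun p => ∑ i, aeval (eta g) (pderiv i p) * ξ i
  have Ladd : ∀ p q, L (p + q) = L p + L q := by
    intro p q
    simp only [L, map_add, add_mul, Finset.sum_add_distrib]
  have Lmul : ∀ p q, L (p * q) = aeval (eta g) p * L q + aeval (eta g) q * L p := by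
    intro p q
    simp only [L, pderiv_mul, map_add, map_mul, add_mul, Finset.sum_add_distrib, Finset.mul_sum]
    rw [add_comm]
    congr 1
    · refine Finset.sum_congr rfl fun i _ => by ring
    · refine Finset.sum_congr rfl fun i _ => by ring
  have Lg : L g = 0 := hξ
  have Lideal : ∀ p ∈ Ideal.span {g}, L p = 0 := by
    intro p hp
    obtain ⟨q, rfl⟩ := Ideal.mem_span_singleton.mp hp
    rw [Lmul, Lg, (aeval_eta_eq_zero_iff g g).mpr dvd_rfl]
    ring
  have Lneg : ∀ p, L (-p) = - L p := by
    intro p
    simp only [L, map_neg, neg_mul, Finset.sum_neg_distrib]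
  have Lwd : ∀ p q, Ideal.Quotient.mk (Ideal.span {g}) p = Ideal.Quotient.mk (Ideal.span {g}) q →
      L p = L q := by
    intro p q h
    have h1 := Lideal _ (Ideal.Quotient.eq.mp h)
    rw [sub_eq_add_neg, Ladd, Lneg] at h1
    linear_combination h1
  let out : CR g → MvPolynomial σ k := fun b => Function.surjInv Ideal.Quotient.mk_surjective b
  have hout : ∀ b, Ideal.Quotient.mk (Ideal.span {g}) (out b) = b := fun b =>
    Function.surjInv_eq Ideal.Quotient.mk_surjective b
  let dlin : CR g →ₗ[k] EE g :=
    { toFun := fun b => L (out b)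
      map_add' := by
        intro a b
        rw [← Ladd]
        apply Lwd
        rw [map_add, hout, hout, hout]
      map_smul' := by
        intro c b
        have h1 : L (out (c • b)) = L (C c * out b) := by
          apply Lwd
          rw [map_mul, hout, hout]
          obtain ⟨p, rfl⟩ := Ideal.Quotient.mk_surjective b
          rw [← map_mul, ← MvPolynomial.smul_eq_C_mul]
          rfl
        rw [h1, Lmul]
        simp only [L, pderiv_C, map_zero, zero_mul, Finset.sum_const_zero, mul_zero, add_zero,
          aeval_C, RingHom.id_apply]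
        rw [Algebra.smul_def] }
  have hdlin : ∀ p, dlin (Ideal.Quotient.mk _ p) = L p := by
    intro p
    apply Lwd
    rw [hout]
  let d : Derivation k (CR g) (EE g) := Derivation.mk' dlin (by
    intro a b
    obtain ⟨p, rfl⟩ := Ideal.Quotient.mk_surjective a
    obtain ⟨q, rfl⟩ := Ideal.Quotient.mk_surjective b
    rw [← map_mul, hdlin, hdlin, hdlin, Lmul, aeval_eta, aeval_eta, Algebra.smul_def,
      Algebra.smul_def])
  obtain ⟨D, hD⟩ := exists_extend_derivation (R := k) (S := CR g) (T := EE g) (M := EE g) d
  refine ⟨D, ?_⟩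
  intro i
  unfold eta
  rw [hD]
  show dlin (Ideal.Quotient.mk _ (X i)) = ξ i
  rw [hdlin]
  simp only [L]
  rw [Finset.sum_eq_single i]
  · rw [pderiv_X_self]; simp
  · intro j _ hj
    rw [pderiv_X_of_ne (Ne.symm hj)]; simp
  · simp

end Gen

end Pool.Agent.Work.PD
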