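import Mathlib

/-!
A valuation on the fraction field of `K[X]` attached to a prime polynomial, degree bounds, and
first order expansions.
-/

namespace Pool.Agent.Work.PD

open Polynomial

section Val

variable {K : Type*} [Field K] {F : Type*} [Field F] [Algebra K[X] F] [IsFractionRing K[X] F]

theorem exists_val [CharZero K] (π : K[X]) (hπ : Prime π) :
    ∃ v : Valuation F (WithZero (Multiplicative ℤ)),
      (∀ p : K[X], v (algebraMap K[X] F p) ≤ 1) ∧
      (∀ p : K[X], v (algebraMap K[X] F p) < 1 ↔ π ∣ p) ∧
      (∀ n : ℕ, n ≠ 0 → v (n : F) = 1) := by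
  let P : IsDedekindDomain.HeightOneSpectrum K[X] :=
    ⟨Ideal.span {π}, (Ideal.span_singleton_prime hπ.ne_zero).mpr hπ, by
      simpa using hπ.ne_zero⟩
  have h2 : ∀ p : K[X], P.valuation F (algebraMap K[X] F p) < 1 ↔ π ∣ p := by
    intro p
    rw [P.valuation_lt_one_iff_mem]
    exact Ideal.mem_span_singleton
  refine ⟨P.valuation F, fun p => P.valuation_le_one p, h2, ?_⟩
  intro n hn
  have h1 : P.valuation F (algebraMap K[X] F (n : K[X])) ≤ 1 := P.valuation_le_one _
  have h3 : ¬ (P.valuation F (algebraMap K[X] F (n : K[X])) < 1) := by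
    rw [h2]
    intro hdvd
    have hu : IsUnit (n : K[X]) := by
      have : IsUnit (C (n : K)) := isUnit_C.mpr (isUnit_iff_ne_zero.mpr (by exact_mod_cast hn))
      simpa using this
    exact hπ.not_isUnit (isUnit_of_dvd_unit hdvd hu)
  rw [map_natCast (algebraMap K[X] F)] at h1 h3
  exact le_antisymm h1 (not_lt.mp h3)

end Val

section Deg

variable {K R : Type*} [CommRing K] [CommRing R] [Algebra K R] {σ : Type*}

theorem natDegree_aeval_le (f : MvPolynomial σ K) {m : ℕ} (hf : f.totalDegree ≤ m)
    (g : σ → R[X]) (hg : ∀ i, (g i).natDegree ≤ 1) :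
    (MvPolynomial.aeval g f).natDegree ≤ m := by
  classical
  rw [MvPolynomial.aeval_def, MvPolynomial.eval₂_eq]
  refine natDegree_sum_le_of_forall_le _ _ ?_
  intro d hd
  have h1 : (∏ i ∈ d.support, g i ^ d i).natDegree ≤ m := by
    refine (natDegree_prod_le _ _).trans ?_
    have h2 : ∑ i ∈ d.support, (g i ^ d i).natDegree ≤ ∑ i ∈ d.support, d i := by
      refine Finset.sum_le_sum ?_
      intro i _
      refine natDegree_pow_le.trans ?_
      calc d i * (g i).natDegree ≤ d i * 1 := Nat.mul_le_mul_left _ (hg i)
        _ = d i := mul_one _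
    refine h2.trans (le_trans ?_ hf)
    exact MvPolynomial.le_totalDegree hd
  have h3 : (algebraMap K R[X] (MvPolynomial.coeff d f)) = C (algebraMap K R (MvPolynomial.coeff d f)) := by
    rw [Polynomial.algebraMap_apply]
  rw [h3]
  exact (natDegree_C_mul_le _ _).trans h1

/-- the expansion of `f (x + S y)` in powers of `S` -/
noncomputable def expand (f : MvPolynomial σ K) (x y : σ → R) : R[X] :=
  MvPolynomial.aeval (fun i => C (x i) + X * C (y i)) f

theorem eval_expand (f : MvPolynomial σ K) (x y : σ → R) (s : R) :
    (expand f x y).eval s = MvPolynomial.aeval (fun i => x i + s * y i) f := by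
  unfold expand
  have h : ∀ p : R[X], p.eval s = (Polynomial.aeval (R := R) s) p := fun p => by
    rw [Polynomial.coe_aeval_eq_eval]
  rw [MvPolynomial.aeval_def, MvPolynomial.aeval_def]
  rw [← Polynomial.coe_evalRingHom, MvPolynomial.hom_eval₂]
  congr 1
  · ext c
    simp [Polynomial.algebraMap_apply]
  · ext i
    simp only [coe_evalRingHom, eval_add, eval_C, eval_mul, eval_X]

theorem map_expand {R' : Type*} [CommRing R'] [Algebra K R'] (φ : R →ₐ[K] R')
    (f : MvPolynomial σ K) (x y : σ → R) :
    (expand f x y).map (φ : R →+* R') = expand f (fun i => φ (x i)) (fun i => φ (y i)) := by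
  unfold expand
  rw [MvPolynomial.aeval_def, MvPolynomial.aeval_def]
  rw [← Polynomial.coe_mapRingHom, MvPolynomial.hom_eval₂]
  congr 1
  · ext c
    simp [Polynomial.algebraMap_apply]
  · ext i
    simp

theorem natDegree_expand_le (f : MvPolynomial σ K) {m : ℕ} (hf : f.totalDegree ≤ m)
    (x y : σ → R) : (expand f x y).natDegree ≤ m := by
  refine natDegree_aeval_le f hf _ (fun i => ?_)
  refine (natDegree_add_le _ _).trans (max_le (by simp) ?_)
  refine natDegree_mul_le.trans ?_
  have : (X : R[X]).natDegree ≤ 1 := natDegree_X_le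
  simpa using this

theorem coeff_zero_expand (f : MvPolynomial σ K) (x y : σ → R) :
    (expand f x y).coeff 0 = MvPolynomial.aeval x f := by
  rw [coeff_zero_eq_eval_zero, eval_expand]
  simp

theorem coeff_one_expand [Fintype σ] (f : MvPolynomial σ K) (x y : σ → R) :
    (expand f x y).coeff 1 = ∑ i, y i * MvPolynomial.aeval x (MvPolynomial.pderiv i f) := by
  classical
  induction f using MvPolynomial.induction_on with
  | C a =>
    simp [expand, Polynomial.algebraMap_apply]
  | add p q hp hq =>
    have : expand (p + q) x y = expand p x y + expand q x y := by simp [expand]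
    rw [this, coeff_add, hp, hq, ← Finset.sum_add_distrib]
    refine Finset.sum_congr rfl fun i _ => ?_
    rw [map_add, map_add]; ring
  | mul_X p j hp =>
    have : expand (p * MvPolynomial.X j) x y = expand p x y * (C (x j) + X * C (y j)) := by
      simp [expand]
    rw [this, mul_add, coeff_add, coeff_mul_C, hp, ← mul_assoc, coeff_mul_C, coeff_mul_X,
      coeff_zero_expand]
    have : ∀ i, MvPolynomial.pderiv i (p * MvPolynomial.X j) =
        MvPolynomial.pderiv i p * MvPolynomial.X j + p * Pi.single (M := fun _ => MvPolynomial σ K) i 1 j := by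
      intro i
      rw [MvPolynomial.pderiv_mul, MvPolynomial.pderiv_X]
    simp only [this]
    simp only [map_add, map_mul, MvPolynomial.aeval_X, mul_add, Finset.sum_add_distrib]
    rw [Finset.sum_mul]
    congr 1
    · refine Finset.sum_congr rfl fun i _ => by ring
    · rw [Finset.sum_eq_single j]
      · simp [mul_comm]
      · intro i _ hij
        rw [Pi.single_eq_of_ne (Ne.symm hij)]; simp
      · simp

end Deg

end Pool.Agent.Work.PD
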