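import Mathlib
import Pool.Agent.Work.MP_b62148_ag.Val
import Pool.Agent.Work.MP_b62148_ag.HS
import Pool.Agent.Work.MP_b62148_ag.Generic

/-!
Lines through the generic point of a smooth sextic hypersurface of dimension at least six, and
their first order deformations.
-/

namespace Pool.Agent.Work.PD

open Polynomial

section Homog

variable {k E : Type*} [Field k] [Field E] [Algebra k E] {σ : Type*}

theorem aeval_smul_homog {h : MvPolynomial σ k} {m : ℕ} (hh : h.IsHomogeneous m) (c : E)
    (x : σ → E) : MvPolynomial.aeval (fun i => c * x i) h = c ^ m * MvPolynomial.aeval x h := by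
  classical
  rw [MvPolynomial.aeval_def, MvPolynomial.aeval_def, MvPolynomial.eval₂_eq, MvPolynomial.eval₂_eq,
    Finset.mul_sum]
  refine Finset.sum_congr rfl fun d hd => ?_
  have h1 : ∏ i ∈ d.support, (c * x i) ^ d i = c ^ m * ∏ i ∈ d.support, x i ^ d i := by
    simp only [mul_pow]
    rw [Finset.prod_mul_distrib, Finset.prod_pow_eq_pow_sum]
    congr 2
    exact (hh.degree_eq_sum_deg_support hd).symm
  rw [h1]; ring

theorem coeff_top_expand [Infinite E] {h : MvPolynomial σ k} {m : ℕ} (hh : h.IsHomogeneous m)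
    (x y : σ → E) : (expand h x y).coeff m = MvPolynomial.aeval y h := by
  have hdeg : (expand h y x).natDegree ≤ m := natDegree_expand_le h hh.totalDegree_le y x
  have hrefl : expand h x y = reflect m (expand h y x) := by
    refine eq_of_infinite_eval_eq _ _ ?_
    refine (Set.Finite.infinite_compl (Set.finite_singleton (0 : E))).mono ?_
    intro s hs
    have hs0 : s ≠ 0 := by simpa using hs
    show (expand h x y).eval s = (reflect m (expand h y x)).eval s
    let _ : Invertible s⁻¹ := invertibleOfNonzero (inv_ne_zero hs0)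
    have h1 := eval₂_reflect_mul_pow (RingHom.id E) s⁻¹ m (expand h y x) hdeg
    have h2 : (⅟(s⁻¹) : E) = s := by
      rw [invOf_eq_inv, inv_inv]
    rw [h2] at h1
    change (reflect m (expand h y x)).eval s * s⁻¹ ^ m = (expand h y x).eval s⁻¹ at h1
    have h3 : (reflect m (expand h y x)).eval s = s ^ m * (expand h y x).eval s⁻¹ := by
      rw [← h1, inv_pow]
      field_simp
    rw [h3, eval_expand, eval_expand, ← aeval_smul_homog hh]
    congr 2
    funext i
    field_simp
    ring
  rw [hrefl, coeff_reflect, revAt_le le_rfl, Nat.sub_self, coeff_zero_expand]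

end Homog

section Smooth

variable {k : Type*} [Field k] {σ : Type*} [Fintype σ]

/-- the partial derivatives have no common zero except the origin -/
def SmoothForm (f : MvPolynomial σ k) : Prop :=
  ∀ x : σ → AlgebraicClosure k,
    (∀ i, MvPolynomial.aeval x (MvPolynomial.pderiv i f) = 0) → x = 0

theorem SmoothForm.ext {f : MvPolynomial σ k} (hf : SmoothForm f) {E : Type*} [Field E]
    [Algebra k E] (x : σ → E) (hx : ∀ i, MvPolynomial.aeval x (MvPolynomial.pderiv i f) = 0) :
    x = 0 := by
  let I : Ideal (MvPolynomial σ k) := Ideal.span (Set.range fun i => MvPolynomial.pderiv i f)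
  funext j
  have h1 : (MvPolynomial.X j : MvPolynomial σ k) ∈ I.radical := by
    rw [← MvPolynomial.vanishingIdeal_zeroLocus_eq_radical (K := AlgebraicClosure k),
      MvPolynomial.mem_vanishingIdeal_iff]
    intro y hy
    rw [MvPolynomial.mem_zeroLocus_iff] at hy
    have : y = 0 := hf y fun i => hy _ (Ideal.subset_span ⟨i, rfl⟩)
    rw [this]; simp
  obtain ⟨n, hn⟩ := h1
  have h2 : ∀ p ∈ I, MvPolynomial.aeval x p = 0 := by
    intro p hp
    refine Submodule.span_induction (p := fun p _ => MvPolynomial.aeval x p = 0) ?_ ?_ ?_ ?_ hp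
    · rintro _ ⟨i, rfl⟩; exact hx i
    · simp
    · intro a b _ _ ha hb; rw [map_add, ha, hb, add_zero]
    · intro a b _ hb; rw [smul_eq_mul, map_mul, hb, mul_zero]
  have h3 := h2 _ hn
  rw [map_pow, MvPolynomial.aeval_X] at h3
  exact eq_zero_of_pow_eq_zero h3

end Smooth

section GenericLine

variable {k : Type*} [Field k] [CharZero k] {σ : Type*} [Fintype σ]

/-- derivative of `f` in the direction `ξ`, restricted to the line `P + t v`, for points over an
extension `E` -/
noncomputable def dirDE {E : Type*} [CommRing E] [Algebra k E] (f : MvPolynomial σ k)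
    (P v ξ : σ → E) : E[X] :=
  ∑ i, C (ξ i) * expand (MvPolynomial.pderiv i f) P v

section Lin
variable {E : Type*} [Field E] [Algebra k E]

omit [CharZero k] in
theorem dirDE_add (f : MvPolynomial σ k) (P v ξ η : σ → E) :
    dirDE f P v (ξ + η) = dirDE f P v ξ + dirDE f P v η := by
  unfold dirDE
  rw [← Finset.sum_add_distrib]
  refine Finset.sum_congr rfl fun i _ => ?_
  rw [Pi.add_apply, C_add]; ring

omit [CharZero k] in
theorem dirDE_smul (f : MvPolynomial σ k) (P v ξ : σ → E) (c : E) :
    dirDE f P v (c • ξ) = C c * dirDE f P v ξ := by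
  unfold dirDE
  rw [Finset.mul_sum]
  refine Finset.sum_congr rfl fun i _ => ?_
  rw [Pi.smul_apply, smul_eq_mul, C_mul]; ring

omit [CharZero k] in
theorem dirDE_single [DecidableEq σ] (f : MvPolynomial σ k) (P v : σ → E) (i : σ) :
    dirDE f P v (Pi.single i 1) = expand (MvPolynomial.pderiv i f) P v := by
  unfold dirDE
  rw [Finset.sum_eq_single i]
  · simp
  · intro j _ hj; rw [Pi.single_eq_of_ne hj]; simp
  · simp

end Lin

/-- Linear algebra of spaces of polynomials stable under division by `X`. -/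
theorem exists_double_contact {E : Type*} [Field E] [IsAlgClosed E] [Algebra k E]
    (f : MvPolynomial σ k) (P v : σ → E)
    (hstep : ∀ ξ : σ → E, (dirDE f P v ξ).coeff 0 = 0 → ∃ ω : σ → E,
      dirDE f P v ξ = -X * dirDE f P v ω)
    (hnz : ∀ t : E, ∃ ξ : σ → E, (dirDE f P v ξ).eval t ≠ 0)
    (htop : ∃ ξ : σ → E, (dirDE f P v ξ).coeff 5 ≠ 0) :
    ∃ ξ₀ : σ → E, (dirDE f P v ξ₀).coeff 0 = 0 ∧ (dirDE f P v ξ₀).coeff 1 = 0 ∧
      (dirDE f P v ξ₀).coeff 2 ≠ 0 := by
  classical
  by_contra hcon
  push Not at hcon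
  have c1 : ∀ m : ℕ, 2 ≤ m → ∀ ξ : σ → E, (∀ l < m, (dirDE f P v ξ).coeff l = 0) →
      (dirDE f P v ξ).coeff m = 0 := by
    intro m hm
    induction m, hm using Nat.le_induction with
    | base => exact fun ξ h => hcon ξ (h 0 (by norm_num)) (h 1 (by norm_num))
    | succ m hm ih =>
      intro ξ h
      obtain ⟨ω, hω⟩ := hstep ξ (h 0 (by omega))
      have e : ∀ l, (dirDE f P v ξ).coeff (l + 1) = -(dirDE f P v ω).coeff l := by
        intro l
        rw [hω, neg_mul, coeff_neg, coeff_X_mul]
      rw [e, ih ω, neg_zero]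
      intro l hl
      have := h (l + 1) (by omega)
      rw [e] at this
      exact neg_eq_zero.mp this
  have c2 : ∀ ξ : σ → E, (dirDE f P v ξ).coeff 0 = 0 → (dirDE f P v ξ).coeff 1 = 0 →
      dirDE f P v ξ = 0 := by
    intro ξ h0 h1
    ext m
    rw [coeff_zero]
    induction m using Nat.strong_induction_on with
    | _ m ih =>
      rcases Nat.lt_or_ge m 2 with hm | hm
      · interval_cases m
        · exact h0
        · exact h1
      · exact c1 m hm ξ ih
  obtain ⟨ξ₁, hξ₁⟩ := hnz 0
  rw [← coeff_zero_eq_eval_zero] at hξ₁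
  have c3 : ∃ U : E[X], ∀ ξ : σ → E, ∃ α β : E, dirDE f P v ξ = (C α + C β * X) * U := by
    by_cases hA : ∃ ξ₂ : σ → E, (dirDE f P v ξ₂).coeff 0 = 0 ∧ (dirDE f P v ξ₂).coeff 1 ≠ 0
    · obtain ⟨ξ₂, h20, h21⟩ := hA
      obtain ⟨ω, hω⟩ := hstep ξ₂ h20
      have e : ∀ l, (dirDE f P v ξ₂).coeff (l + 1) = -(dirDE f P v ω).coeff l := by
        intro l
        rw [hω, neg_mul, coeff_neg, coeff_X_mul]
      have hω0 : (dirDE f P v ω).coeff 0 ≠ 0 := by
        intro h
        apply h21
        rw [e 0, h, neg_zero]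
      refine ⟨dirDE f P v ω, ?_⟩
      intro ξ
      set α := (dirDE f P v ξ).coeff 0 / (dirDE f P v ω).coeff 0 with hα
      set β := ((dirDE f P v ξ).coeff 1 - α * (dirDE f P v ω).coeff 1) /
        (dirDE f P v ξ₂).coeff 1 with hβ
      have hlin : dirDE f P v (ξ + ((-α) • ω + (-β) • ξ₂)) =
          dirDE f P v ξ + (C (-α) * dirDE f P v ω + C (-β) * dirDE f P v ξ₂) := by
        rw [dirDE_add, dirDE_add, dirDE_smul, dirDE_smul]
      have h0 : (dirDE f P v (ξ + ((-α) • ω + (-β) • ξ₂))).coeff 0 = 0 := by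
        rw [hlin]
        simp only [coeff_add, coeff_C_mul, h20, hα]
        field_simp
        ring
      have h1 : (dirDE f P v (ξ + ((-α) • ω + (-β) • ξ₂))).coeff 1 = 0 := by
        rw [hlin]
        simp only [coeff_add, coeff_C_mul]
        have : β * (dirDE f P v ξ₂).coeff 1 =
            (dirDE f P v ξ).coeff 1 - α * (dirDE f P v ω).coeff 1 := by
          rw [hβ]; field_simp
        linear_combination -this
      have h2 := c2 _ h0 h1
      rw [hlin, hω] at h2
      refine ⟨α, -β, ?_⟩
      simp only [C_neg] at h2 ⊢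
      linear_combination h2
    · push Not at hA
      refine ⟨dirDE f P v ξ₁, ?_⟩
      intro ξ
      set α := (dirDE f P v ξ).coeff 0 / (dirDE f P v ξ₁).coeff 0 with hα
      have hlin : dirDE f P v (ξ + (-α) • ξ₁) = dirDE f P v ξ + C (-α) * dirDE f P v ξ₁ := by
        rw [dirDE_add, dirDE_smul]
      have h0 : (dirDE f P v (ξ + (-α) • ξ₁)).coeff 0 = 0 := by
        rw [hlin]
        simp only [coeff_add, coeff_C_mul, hα]
        field_simp
        ring
      have h2 := c2 _ h0 (hA _ h0)
      rw [hlin] at h2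
      refine ⟨α, 0, ?_⟩
      rw [C_neg] at h2
      rw [C_0]
      linear_combination h2
  obtain ⟨U, hU⟩ := c3
  obtain ⟨ξ₅, hξ₅⟩ := htop
  have hUdeg : U.degree ≠ 0 := by
    intro hU0
    obtain ⟨α, β, h⟩ := hU ξ₅
    apply hξ₅
    rw [h, eq_C_of_degree_eq_zero hU0]
    have : (C α + C β * X) * C (U.coeff 0) = C (α * U.coeff 0) + C (β * U.coeff 0) * X := by
      rw [C_mul, C_mul]; ring
    rw [this, coeff_add, coeff_C, coeff_C_mul, coeff_X]
    norm_num
  obtain ⟨t₀, ht₀⟩ := IsAlgClosed.exists_root U hUdeg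
  obtain ⟨ξ, hξ⟩ := hnz t₀
  obtain ⟨α, β, h⟩ := hU ξ
  apply hξ
  rw [h, eval_mul, ht₀.eq_zero, mul_zero]

end GenericLine

end Pool.Agent.Work.PD
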