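import Mathlib
import Pool.Agent.Work.MP_b62148_ag.ExistLine

/-!
Finiteness of the polar map of a smooth form, via valuation rings, and existence of derivations
which do not kill a given transcendental element.
-/

namespace Pool.Agent.Work.PD

section Val

variable {E K : Type*} [Field E] [IsAlgClosed E] [Field K] [Algebra E K]

theorem mem_range_of_integral (x : K) (hx : IsIntegral E x) : ∃ e : E, algebraMap E K e = x := by
  have h1 := IsAlgClosed.degree_eq_one_of_irreducible E (minpoly.irreducible hx)
  have h2 := minpoly.degree_eq_one_iff.mp h1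
  exact h2

/-- An element outside of the algebraically closed ground field is outside of some valuation ring
containing the ground field. -/
theorem exists_valuationSubring (x : K) (hx : ∀ e : E, algebraMap E K e ≠ x) :
    ∃ V : ValuationSubring K, (∀ e : E, algebraMap E K e ∈ V) ∧ x ∉ V := by
  let S : Subalgebra E K := ⊥
  let R : Subring K := S.toSubring
  have hmem : ∀ y : K, y ∈ R ↔ ∃ e : E, algebraMap E K e = y := by
    intro y
    exact Algebra.mem_bot
  have hxR : x ∉ R := by
    rw [hmem]
    rintro ⟨e, he⟩
    exact hx e he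
  have hR : IsIntegrallyClosedIn R K := by
    rw [Subring.isIntegrallyClosedIn_iff]
    intro y hy
    rw [hmem]
    have hy' : IsIntegral S y := hy
    exact mem_range_of_integral y (isIntegral_trans y hy')
  obtain ⟨V, hV1, hV2⟩ := R.exists_le_valuationSubring_of_isIntegrallyClosedIn hxR
  exact ⟨V, fun e => hV1 ((hmem _).mpr ⟨e, rfl⟩), hV2⟩

/-- normalisation of a vector with respect to a valuation ring -/
theorem exists_max_coord (V : ValuationSubring K) {σ : Type*} [Finite σ] (P : σ → K) (hP : P ≠ 0) :
    ∃ j, P j ≠ 0 ∧ ∀ i, P i / P j ∈ V := by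
  have hne : Nonempty σ := by
    by_contra hcon
    rw [not_nonempty_iff] at hcon
    exact hP (Subsingleton.elim _ _)
  obtain ⟨j, hj⟩ := Finite.exists_max (fun i => V.valuation (P i))
  have hj0 : P j ≠ 0 := by
    intro h0
    apply hP
    funext i
    have := hj i
    rw [h0, map_zero, le_zero_iff, map_eq_zero] at this
    exact this
  refine ⟨j, hj0, fun i => ?_⟩
  rw [← ValuationSubring.valuation_le_one_iff, map_div₀]
  have hpos : 0 < V.valuation (P j) := zero_lt_iff.mpr ((Valuation.ne_zero_iff _).mpr hj0)
  rw [div_le_one₀ hpos]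
  exact hj i

end Val

section Red

universe u

/-- reduction modulo the maximal ideal of a valuation ring, packaged as algebra homomorphisms -/
theorem exists_reduction {k : Type*} {K : Type u} [Field k] [Field K] [Algebra k K]
    (V : ValuationSubring K) (hV : ∀ e : k, algebraMap k K e ∈ V) :
    ∃ (A : Type u) (_ : CommRing A) (_ : Algebra k A) (κ : Type u) (_ : Field κ) (_ : Algebra k κ)
      (i : A →ₐ[k] K) (r : A →ₐ[k] κ), Function.Injective i ∧ (∀ x ∈ V, ∃ a, i a = x) ∧
      (∀ a, r a = 0 ↔ (i a = 0 ∨ (i a)⁻¹ ∉ V)) := by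
  let j : k →+* V :=
    { toFun := fun e => ⟨algebraMap k K e, hV e⟩
      map_one' := Subtype.ext (map_one _)
      map_mul' := fun x y => Subtype.ext (map_mul _ x y)
      map_zero' := Subtype.ext (map_zero _)
      map_add' := fun x y => Subtype.ext (map_add _ x y) }
  let a1 : Algebra k V := j.toAlgebra
  let a2 : Algebra k (IsLocalRing.ResidueField V) := ((IsLocalRing.residue V).comp j).toAlgebra
  let i : V →ₐ[k] K := { V.subtype with commutes' := fun _ => rfl }
  let r : V →ₐ[k] (IsLocalRing.ResidueField V) :=
    { IsLocalRing.residue V with commutes' := fun _ => rfl }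
  refine ⟨V, inferInstance, a1, IsLocalRing.ResidueField V, inferInstance, a2, i, r, ?_, ?_, ?_⟩
  · exact Subtype.val_injective
  · intro x hx
    exact ⟨⟨x, hx⟩, rfl⟩
  · intro a
    have h1 : r a = 0 ↔ a ∈ IsLocalRing.maximalIdeal V := IsLocalRing.residue_eq_zero_iff a
    rw [h1, ← ValuationSubring.coe_mem_nonunits_iff]
    have h2 : i a = (a : K) := rfl
    rw [h2, ← inv_inv (a : K), ValuationSubring.inv_mem_nonunits_iff, inv_inv, inv_eq_zero]

end Red

section Polar

theorem polar_finite {k E K σ : Type*} [Field k] [Field E] [IsAlgClosed E] [Field K] [Algebra k E]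
    [Algebra E K] [Algebra k K] [IsScalarTower k E K] [Fintype σ] (f : MvPolynomial σ k)
    (hf6 : f.IsHomogeneous 6) (hs : SmoothForm f) (x : σ → K) (h : σ → E)
    (hx : ∀ i, MvPolynomial.aeval x (MvPolynomial.pderiv i f) = algebraMap E K (h i)) (j : σ) :
    ∃ e, algebraMap E K e = x j := by
  classical
  by_contra hcon
  push Not at hcon
  obtain ⟨V, hV, hxV⟩ := exists_valuationSubring (x j) hcon
  have hx0 : x ≠ 0 := by
    intro h0
    exact hcon 0 (by rw [map_zero, h0]; rfl)
  obtain ⟨m, hm0, hm⟩ := exists_max_coord V x hx0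
  have hmV : x m ∉ V := by
    intro h1
    apply hxV
    have : x j = x j / x m * x m := by field_simp
    rw [this]
    exact V.mul_mem _ _ (hm j) h1
  have hminv : (x m)⁻¹ ∈ V := (V.mem_or_inv_mem (x m)).resolve_left hmV
  have hVk : ∀ e : k, algebraMap k K e ∈ V := fun e => by
    rw [IsScalarTower.algebraMap_apply k E K]; exact hV _
  obtain ⟨A, _, _, κ, _, _, i, r, hi, hiV, hr⟩ := exists_reduction V hVk
  choose y hy using fun l => hiV _ (hm l)
  obtain ⟨b, hb⟩ := hiV _ hminv
  have hrb : r b = 0 := by
    rw [hr, hb, inv_inv]; right; exact hmV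
  have hfy : ∀ l, r (MvPolynomial.aeval y (MvPolynomial.pderiv l f)) = 0 := by
    intro l
    obtain ⟨c, hc⟩ := hiV _ (hV (h l))
    have h1 : MvPolynomial.aeval y (MvPolynomial.pderiv l f) = b ^ 5 * c := by
      apply hi
      rw [map_mul, map_pow, hb, hc, ← hx l, MvPolynomial.comp_aeval_apply]
      rw [← aeval_smul_homog (hf6.pderiv (i := l))]
      congr 2
      funext i'
      rw [hy, div_eq_inv_mul]
    rw [h1, map_mul, map_pow, hrb]
    ring
  have h2 : (fun l => r (y l)) = 0 := by
    apply hs.ext
    intro l
    rw [← MvPolynomial.comp_aeval_apply]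
    exact hfy l
  have h3 : r (y m) = 0 := congrFun h2 m
  rw [hr, hy, div_self hm0] at h3
  rcases h3 with h3 | h3
  · exact one_ne_zero h3
  · rw [inv_one] at h3
    exact h3 V.one_mem

end Polar

section Der

attribute [local instance] FractionRing.liftAlgebra

theorem exists_derivation_ne_zero {E K : Type*} [Field E] [CharZero E] [Field K] [Algebra E K]
    (g : K) (hg : Transcendental E g) : ∃ D : Derivation E K K, D g ≠ 0 := by
  classical
  have hchar : CharZero K := charZero_of_injective_algebraMap (algebraMap E K).injective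
  have hs : AlgebraicIndepOn E id ({g} : Set K) := by
    have := (algebraicIndependent_singleton_iff (R := E) (ι := ({g} : Set K))
      (x := fun i : ({g} : Set K) => (i : K)) ⟨g, rfl⟩).mpr hg
    exact this
  obtain ⟨t, hgt, ht⟩ := exists_isTranscendenceBasis_superset hs
  have hgt' : g ∈ t := hgt rfl
  let x : t → K := fun i => (i : K)
  let i0 : t := ⟨g, hgt'⟩
  let S := Algebra.adjoin E (Set.range x)
  let e : MvPolynomial t E ≃ₐ[E] S := ht.1.aevalEquiv
  have halg : Algebra.IsAlgebraic S K := ht.isAlgebraic
  let L : S →ₗ[E] K := (S.val.toLinearMap) ∘ₗ e.toLinearMap ∘ₗ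
    ((MvPolynomial.pderiv (R := E) i0 : Derivation E (MvPolynomial t E) (MvPolynomial t E)) :
      MvPolynomial t E →ₗ[E] MvPolynomial t E) ∘ₗ e.symm.toLinearMap
  have hL : ∀ a, L a = ((e (MvPolynomial.pderiv i0 (e.symm a)) : S) : K) := fun a => rfl
  let d : Derivation E S K := Derivation.mk' L (by
    intro a b
    rw [hL, hL, hL, map_mul, Derivation.leibniz, smul_eq_mul, smul_eq_mul, map_add, map_mul,
      map_mul, AlgEquiv.apply_symm_apply, AlgEquiv.apply_symm_apply]
    simp only [Subalgebra.coe_add, Subalgebra.coe_mul]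
    rfl)
  have i1 : Algebra.FormallyEtale S (FractionRing S) :=
    Algebra.FormallyEtale.of_isLocalization (nonZeroDivisors S)
  have halg' : Algebra.IsAlgebraic (FractionRing S) K :=
    (IsFractionRing.comap_isAlgebraic_iff (A := S) (K := FractionRing S) (C := K)).mp halg
  have hchar' : CharZero (FractionRing S) := by
    constructor
    intro m n hmn
    have := congrArg (algebraMap (FractionRing S) K) hmn
    simpa using this
  have i2 : Algebra.FormallyEtale (FractionRing S) K := Algebra.FormallyEtale.of_isSeparable _ _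
  have i3 : Algebra.FormallyEtale S K := Algebra.FormallyEtale.comp S (FractionRing S) K
  obtain ⟨D, hD⟩ := exists_extend_derivation (R := E) (S := S) (T := K) (M := K) d
  refine ⟨D, ?_⟩
  have hgS : g = algebraMap S K (e (MvPolynomial.X i0)) := by
    rw [ht.1.algebraMap_aevalEquiv, MvPolynomial.aeval_X]
  rw [hgS, hD]
  show L (e (MvPolynomial.X i0)) ≠ 0
  rw [hL, AlgEquiv.symm_apply_apply, MvPolynomial.pderiv_X_self, map_one]
  simp

end Der

end Pool.Agent.Work.PD
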