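import Mathlib

/-!
Core lemmas: if a genus one curve `w^2 = quartic(s)` over a field `F` with a valuation has a
rational point over `s = 0` such that the associated point of the Jacobian is close to the origin
for the valuation, then the quartic takes infinitely many square values on `F`.
-/

namespace Pool.Agent.Work.PD

section Doubling

variable {F : Type*} [Field F]

theorem double_on {A B x y : F} (h2 : (2 : F) ≠ 0) (hy : y ≠ 0) (h : y ^ 2 = x ^ 3 + A * x + B) :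
    ∃ x' y' : F, y' ^ 2 = x' ^ 3 + A * x' + B ∧
      x' * (4 * y ^ 2) = x ^ 4 - 2 * A * x ^ 2 - 8 * B * x + A ^ 2 := by
  refine ⟨((3 * x ^ 2 + A) / (2 * y)) ^ 2 - 2 * x,
    -(y + ((3 * x ^ 2 + A) / (2 * y)) * (((3 * x ^ 2 + A) / (2 * y)) ^ 2 - 2 * x - x)), ?_, ?_⟩
  · have hB : B = y ^ 2 - x ^ 3 - A * x := by rw [h]; ring
    subst hB
    field_simp
    ring
  · have hB : B = y ^ 2 - x ^ 3 - A * x := by rw [h]; ring
    subst hB
    field_simp
    ring

variable {Γ₀ : Type*} [LinearOrderedCommGroupWithZero Γ₀]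

theorem infinite_x (v : Valuation F Γ₀) (hv : ∀ n : ℕ, n ≠ 0 → v (n : F) = 1)
    {A B x y : F} (h : y ^ 2 = x ^ 3 + A * x + B)
    (hA : v A < v x ^ 2) (hB : v B < v x ^ 3) :
    {x : F | ∃ y, y ^ 2 = x ^ 3 + A * x + B}.Infinite := by
  have hnz : ∀ n : ℕ, n ≠ 0 → (n : F) ≠ 0 := fun n hn h0 => by
    have := hv n hn
    rw [h0, map_zero] at this
    exact zero_ne_one this
  have h2 : (2 : F) ≠ 0 := by exact_mod_cast hnz 2 (by norm_num)
  have hv2 : v (2 : F) = 1 := by exact_mod_cast hv 2 (by norm_num)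
  have hv3 : v (3 : F) = 1 := by exact_mod_cast hv 3 (by norm_num)
  have hv4 : v (4 : F) = 1 := by exact_mod_cast hv 4 (by norm_num)
  have hv9 : v (9 : F) = 1 := by exact_mod_cast hv 9 (by norm_num)
  have hM0 : 0 < v x := by
    rcases eq_or_ne (v x) 0 with h0 | h0
    · rw [h0] at hA
      simp at hA
    · exact zero_lt_iff.mpr h0
  set M := v x with hM
  have hMne : M ≠ 0 := hM0.ne'
  -- the dominance estimate for any x' of the same size
  have key : ∀ x₁ y₁ : F, v x₁ = M → y₁ ^ 2 = x₁ ^ 3 + A * x₁ + B →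
      ∃ x₂ y₂ : F, y₂ ^ 2 = x₂ ^ 3 + A * x₂ + B ∧ v (4 * x₂ - x₁) < M := by
    intro x₁ y₁ hx₁ h₁
    have hM3 : v (x₁ ^ 3) = M ^ 3 := by rw [map_pow, hx₁]
    have hAx : v (A * x₁) < M ^ 3 := by
      rw [map_mul, hx₁, pow_succ]
      exact mul_lt_mul_of_pos_right hA hM0
    have hy2 : v (y₁ ^ 2) = M ^ 3 := by
      rw [h₁, add_assoc]
      have : v (A * x₁ + B) < v (x₁ ^ 3) := by
        rw [hM3]; exact v.map_add_lt hAx hB
      rw [v.map_add_eq_of_lt_left this, hM3]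
    have hy0 : y₁ ≠ 0 := by
      rintro rfl
      rw [zero_pow two_ne_zero, map_zero] at hy2
      exact (pow_ne_zero 3 hMne) hy2.symm
    obtain ⟨x₂, y₂, hy₂, hx₂⟩ := double_on h2 hy0 h₁
    refine ⟨x₂, y₂, hy₂, ?_⟩
    have e1 : (4 * x₂ - x₁) * y₁ ^ 2 = -(3 * A * x₁ ^ 2) - 9 * B * x₁ + A ^ 2 := by
      have : (4 * x₂ - x₁) * y₁ ^ 2 = x₂ * (4 * y₁ ^ 2) - x₁ * y₁ ^ 2 := by ring
      rw [this, hx₂, h₁]; ring
    have e2 : v ((4 * x₂ - x₁) * y₁ ^ 2) < M ^ 4 := by
      rw [e1]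
      have t1 : v (-(3 * A * x₁ ^ 2)) < M ^ 4 := by
        rw [Valuation.map_neg, map_mul, map_mul, hv3, one_mul, map_pow, hx₁]
        calc v A * M ^ 2 < M ^ 2 * M ^ 2 := mul_lt_mul_of_pos_right hA (pow_pos hM0 2)
          _ = M ^ 4 := by rw [← pow_add]
      have t2 : v (9 * B * x₁) < M ^ 4 := by
        rw [map_mul, map_mul, hv9, one_mul, hx₁]
        calc v B * M < M ^ 3 * M := mul_lt_mul_of_pos_right hB hM0
          _ = M ^ 4 := by rw [← pow_succ]
      have t3 : v (A ^ 2) < M ^ 4 := by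
        rw [map_pow]
        calc (v A) ^ 2 < (M ^ 2) ^ 2 := by
              exact pow_lt_pow_left₀ hA zero_le two_ne_zero
          _ = M ^ 4 := by rw [← pow_mul]
      exact v.map_add_lt (v.map_sub_lt t1 t2) t3
    rw [map_mul, hy2] at e2
    by_contra hcon
    push Not at hcon
    have : M ^ 4 ≤ v (4 * x₂ - x₁) * M ^ 3 := by
      calc M ^ 4 = M * M ^ 3 := by rw [← pow_succ']
        _ ≤ v (4 * x₂ - x₁) * M ^ 3 := mul_le_mul_left hcon _
    exact absurd e2 (not_lt.mpr this)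
  -- iterate
  have it : ∀ m : ℕ, ∃ x₁ y₁ : F, y₁ ^ 2 = x₁ ^ 3 + A * x₁ + B ∧ v (4 ^ m * x₁ - x) < M := by
    intro m
    induction m with
    | zero => exact ⟨x, y, h, by simpa using hM0⟩
    | succ m ih =>
      obtain ⟨x₁, y₁, h₁, hx₁⟩ := ih
      have hxM : v x₁ = M := by
        have e : v (4 ^ m * x₁) = M := by
          have : (4 : F) ^ m * x₁ = x + (4 ^ m * x₁ - x) := by ring
          rw [this, v.map_add_eq_of_lt_left hx₁]
        rwa [map_mul, map_pow, hv4, one_pow, one_mul] at e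
      obtain ⟨x₂, y₂, h₂, hx₂⟩ := key x₁ y₁ hxM h₁
      refine ⟨x₂, y₂, h₂, ?_⟩
      have : (4 : F) ^ (m + 1) * x₂ - x = 4 ^ m * (4 * x₂ - x₁) + (4 ^ m * x₁ - x) := by ring
      rw [this]
      refine v.map_add_lt ?_ hx₁
      rwa [map_mul, map_pow, hv4, one_pow, one_mul]
  choose X Y hXY hX using it
  refine Set.infinite_of_injective_forall_mem (f := X) ?_ (fun m => ⟨Y m, hXY m⟩)
  -- injectivity
  have inj : ∀ m l : ℕ, m < l → X m ≠ X l := by
    intro m l hml heq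
    have e : ((4 ^ (l - m) - 1 : ℕ) : F) * x =
        (4 ^ l * X l - x) - 4 ^ (l - m) * (4 ^ m * X m - x) := by
      have hl : (4 : F) ^ l = 4 ^ (l - m) * 4 ^ m := by
        rw [← pow_add, Nat.sub_add_cancel hml.le]
      rw [heq, hl, Nat.cast_sub (Nat.one_le_pow _ _ (by norm_num))]
      push_cast
      ring
    have hne : (4 ^ (l - m) - 1 : ℕ) ≠ 0 := by
      have : 1 < 4 ^ (l - m) := Nat.one_lt_pow (by omega) (by norm_num)
      omega
    have e' : v (((4 ^ (l - m) - 1 : ℕ) : F) * x) = M := by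
      rw [map_mul, hv _ hne, one_mul]
    rw [e] at e'
    have : v ((4 ^ l * X l - x) - 4 ^ (l - m) * (4 ^ m * X m - x)) < M := by
      refine v.map_sub_lt (hX l) ?_
      rw [map_mul, map_pow, hv4, one_pow, one_mul]
      exact hX m
    exact absurd e' this.ne
  intro m l hml
  rcases lt_trichotomy m l with h' | h' | h'
  · exact absurd hml (inj m l h')
  · exact h'
  · exact absurd hml.symm (inj l m h')

end Doubling

section Transfer

variable {F : Type*} [Field F]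

/-- the short Weierstrass coefficients attached to the quartic `a s^4 + b s^3 + c s^2 + d s + e` -/
def coeffA (e d c b a : F) : F := -(12 * a * e - 3 * b * d + c ^ 2) / 3

def coeffB (e d c b a : F) : F :=
  -(72 * a * c * e + 9 * b * c * d - 27 * a * d ^ 2 - 27 * e * b ^ 2 - 2 * c ^ 3) / 27

theorem start_point {q d c b a : F} (hq : q ≠ 0) (h2 : (2 : F) ≠ 0) (h3 : (3 : F) ≠ 0) :
    ((8 * (q ^ 2) ^ 2 * b - 4 * q ^ 2 * d * c + d ^ 3) / (8 * q ^ 3)) ^ 2 =
      (d ^ 2 / (4 * q ^ 2) - 2 * c / 3) ^ 3 +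
        coeffA (q ^ 2) d c b a * (d ^ 2 / (4 * q ^ 2) - 2 * c / 3) + coeffB (q ^ 2) d c b a := by
  have h8 : (8 : F) ≠ 0 := by
    have : (8 : F) = 2 ^ 3 := by norm_num
    rw [this]; exact pow_ne_zero _ h2
  have h4 : (4 : F) ≠ 0 := by
    have : (4 : F) = 2 ^ 2 := by norm_num
    rw [this]; exact pow_ne_zero _ h2
  have h27 : (27 : F) ≠ 0 := by
    have : (27 : F) = 3 ^ 3 := by norm_num
    rw [this]; exact pow_ne_zero _ h3
  unfold coeffA coeffB
  field_simp
  ring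

theorem long_eq {q d c b a x y X Y α : F} (hq : q ≠ 0) (h2 : (2 : F) ≠ 0) (h3 : (3 : F) ≠ 0)
    (hα : α = c - d ^ 2 / (4 * q ^ 2)) (hxX : x = X + c / 3)
    (hyY : y = Y + (d * X / q + 2 * q * b) / 2)
    (hy : y ^ 2 = x ^ 3 + coeffA (q ^ 2) d c b a * x + coeffB (q ^ 2) d c b a) :
    Y ^ 2 + d / q * X * Y + 2 * q * b * Y = (X + α) * (X ^ 2 - 4 * q ^ 2 * a) := by
  have h4 : (4 : F) ≠ 0 := by
    have : (4 : F) = 2 ^ 2 := by norm_num
    rw [this]; exact pow_ne_zero _ h2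
  have h27 : (27 : F) ≠ 0 := by
    have : (27 : F) = 3 ^ 3 := by norm_num
    rw [this]; exact pow_ne_zero _ h3
  have e : Y ^ 2 + d / q * X * Y + 2 * q * b * Y = y ^ 2 - ((d * X / q + 2 * q * b) / 2) ^ 2 := by
    rw [hyY]; field_simp; ring
  rw [e, hy, hxX, hα]
  unfold coeffA coeffB
  field_simp
  ring

theorem quartic_eq {q d c b a X Y α s : F} (hq : q ≠ 0) (h2 : (2 : F) ≠ 0)
    (hα : 4 * q ^ 2 * α = 4 * q ^ 2 * c - d ^ 2)
    (hW : Y ^ 2 + d / q * X * Y + 2 * q * b * Y = (X + α) * (X ^ 2 - 4 * q ^ 2 * a))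
    (hY0 : Y ≠ 0) (hsY : s * Y = 2 * q * (X + α)) :
    (-q + s * (s * X - d) / (2 * q)) ^ 2 = q ^ 2 + d * s + c * s ^ 2 + b * s ^ 3 + a * s ^ 4 := by
  have h1 : 2 * q * (Y + d / q * X + 2 * q * b) = s * (X ^ 2 - 4 * q ^ 2 * a) := by
    have : Y * (2 * q * (Y + d / q * X + 2 * q * b)) = Y * (s * (X ^ 2 - 4 * q ^ 2 * a)) := by
      linear_combination 2 * q * hW - (X ^ 2 - 4 * q ^ 2 * a) * hsY
    exact mul_left_cancel₀ hY0 this
  have h1' : 2 * q * Y + 2 * d * X + 4 * q ^ 2 * b = s * (X ^ 2 - 4 * q ^ 2 * a) := by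
    rw [← h1]; field_simp; ring
  have h2' : s ^ 2 * X ^ 2 - 2 * s * d * X + d ^ 2 = 4 * q ^ 2 * (a * s ^ 2 + b * s + X + c) := by
    linear_combination -s * h1' + 2 * q * hsY + hα
  field_simp
  linear_combination s ^ 2 * h2'

theorem infinite_s {q d c b a : F} (hq : q ≠ 0) (h2 : (2 : F) ≠ 0) (h3 : (3 : F) ≠ 0)
    (hinf : {x : F | ∃ y, y ^ 2 =
      x ^ 3 + coeffA (q ^ 2) d c b a * x + coeffB (q ^ 2) d c b a}.Infinite) :
    {s : F | IsSquare (q ^ 2 + d * s + c * s ^ 2 + b * s ^ 3 + a * s ^ 4)}.Infinite := by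
  classical
  intro hfin
  apply hinf
  have h4 : (4 : F) ≠ 0 := by
    have : (4 : F) = 2 ^ 2 := by norm_num
    rw [this]; exact pow_ne_zero _ h2
  have h27 : (27 : F) ≠ 0 := by
    have : (27 : F) = 3 ^ 3 := by norm_num
    rw [this]; exact pow_ne_zero _ h3
  -- exceptional set 1 : roots of (X + a2)(X^2 + a4)
  have hE1 : {x : F | (x - c / 3 + (c - d ^ 2 / (4 * q ^ 2))) *
      ((x - c / 3) ^ 2 - 4 * q ^ 2 * a) = 0}.Finite := by
    have : {x : F | (x - c / 3 + (c - d ^ 2 / (4 * q ^ 2))) *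
      ((x - c / 3) ^ 2 - 4 * q ^ 2 * a) = 0} ⊆
      {c / 3 - (c - d ^ 2 / (4 * q ^ 2))} ∪
        {x : F | (x - c / 3) ^ 2 = 4 * q ^ 2 * a} := by
      intro x hx
      rcases mul_eq_zero.mp hx with h | h
      · left; simp only [Set.mem_singleton_iff]; linear_combination h
      · right; simp only [Set.mem_ofPred_eq]; linear_combination h
    refine Set.Finite.subset (Set.Finite.union (Set.finite_singleton _) ?_) this
    have hsub : {x : F | (x - c / 3) ^ 2 = 4 * q ^ 2 * a} ⊆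
        (fun r => r + c / 3) '' {r : F | r ^ 2 = 4 * q ^ 2 * a} := by
      intro x hx
      exact ⟨x - c / 3, hx, by ring⟩
    refine Set.Finite.subset (Set.Finite.image _ ?_) hsub
    by_cases hs : ∃ r₀ : F, r₀ ^ 2 = 4 * q ^ 2 * a
    · obtain ⟨r₀, hr₀⟩ := hs
      refine Set.Finite.subset (Set.toFinite {r₀, -r₀}) ?_
      intro r hr
      have : (r - r₀) * (r + r₀) = 0 := by
        have hr' : r ^ 2 = 4 * q ^ 2 * a := hr
        linear_combination hr' - hr₀
      rcases mul_eq_zero.mp this with h | h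
      · left; linear_combination h
      · right; simp only [Set.mem_singleton_iff]; linear_combination h
    · convert Set.finite_empty (α := F)
      ext r
      simp only [Set.mem_ofPred_eq, Set.mem_empty_iff_false, iff_false]
      exact fun h => hs ⟨r, h⟩
  -- fibres over s
  have hE3 : ∀ s : F, s ≠ 0 → {x : F | (s ^ 2 * (x - c / 3) - d * s - 2 * q ^ 2) ^ 2 =
      4 * q ^ 2 * (q ^ 2 + d * s + c * s ^ 2 + b * s ^ 3 + a * s ^ 4)}.Finite := by
    intro s hs
    by_cases hr : ∃ x₀ : F, (s ^ 2 * (x₀ - c / 3) - d * s - 2 * q ^ 2) ^ 2 =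
      4 * q ^ 2 * (q ^ 2 + d * s + c * s ^ 2 + b * s ^ 3 + a * s ^ 4)
    · obtain ⟨x₀, hx₀⟩ := hr
      set r₀ := s ^ 2 * (x₀ - c / 3) - d * s - 2 * q ^ 2 with hr₀
      refine Set.Finite.subset (Set.toFinite {x₀, c / 3 + (d * s + 2 * q ^ 2 - r₀) / s ^ 2}) ?_
      intro x hx
      have hx' : (s ^ 2 * (x - c / 3) - d * s - 2 * q ^ 2) ^ 2 = r₀ ^ 2 := by
        rw [hx₀]; exact hx
      have : (s ^ 2 * (x - c / 3) - d * s - 2 * q ^ 2 - r₀) *
          (s ^ 2 * (x - c / 3) - d * s - 2 * q ^ 2 + r₀) = 0 := by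
        linear_combination hx'
      rcases mul_eq_zero.mp this with h | h
      · left
        have : s ^ 2 * (x - x₀) = 0 := by rw [hr₀] at h; linear_combination h
        rcases mul_eq_zero.mp this with h' | h'
        · exact absurd h' (pow_ne_zero _ hs)
        · linear_combination h'
      · right
        have h5 : x - c / 3 = (d * s + 2 * q ^ 2 - r₀) / s ^ 2 := by
          rw [eq_div_iff (pow_ne_zero _ hs)]; linear_combination h
        simp only [Set.mem_singleton_iff]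
        linear_combination h5
    · convert Set.finite_empty (α := F)
      ext r
      simp only [Set.mem_ofPred_eq, Set.mem_empty_iff_false, iff_false]
      exact fun h => hr ⟨r, h⟩
  set S := {s : F | IsSquare (q ^ 2 + d * s + c * s ^ 2 + b * s ^ 3 + a * s ^ 4)} with hS
  have hE3' : (⋃ s ∈ S \ {0}, {x : F | (s ^ 2 * (x - c / 3) - d * s - 2 * q ^ 2) ^ 2 =
      4 * q ^ 2 * (q ^ 2 + d * s + c * s ^ 2 + b * s ^ 3 + a * s ^ 4)}).Finite := by
    refine Set.Finite.biUnion (hfin.subset Set.sdiff_subset) ?_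
    intro s hs
    exact hE3 s (fun h => hs.2 (by simpa using h))
  refine Set.Finite.subset
    ((hE1.union (Set.finite_singleton (c / 3 + (-c + d ^ 2 / (4 * q ^ 2))))).union hE3') ?_
  rintro x ⟨y, hy⟩
  obtain ⟨X, hxX⟩ : ∃ X, x = X + c / 3 := ⟨x - c / 3, by ring⟩
  obtain ⟨Y, hyY⟩ : ∃ Y, y = Y + (d * X / q + 2 * q * b) / 2 :=
    ⟨y - (d * X / q + 2 * q * b) / 2, by ring⟩
  obtain ⟨α, hα⟩ : ∃ α, α = c - d ^ 2 / (4 * q ^ 2) := ⟨_, rfl⟩
  have hα' : 4 * q ^ 2 * α = 4 * q ^ 2 * c - d ^ 2 := by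
    rw [hα]; field_simp
  have hX : x - c / 3 = X := by rw [hxX]; ring
  have hW := long_eq hq h2 h3 hα hxX hyY hy
  by_cases hY0 : Y = 0
  · left; left
    rw [hY0] at hW
    show (x - c / 3 + (c - d ^ 2 / (4 * q ^ 2))) * ((x - c / 3) ^ 2 - 4 * q ^ 2 * a) = 0
    rw [hX, ← hα]
    linear_combination -hW
  by_cases hs0 : X + α = 0
  · left; right
    show x = c / 3 + (-c + d ^ 2 / (4 * q ^ 2))
    rw [hxX]
    linear_combination hs0 - hα
  right
  obtain ⟨s, hs⟩ : ∃ s, s = 2 * q * (X + α) / Y := ⟨_, rfl⟩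
  have hsY : s * Y = 2 * q * (X + α) := by
    rw [hs]; field_simp
  have hsne : s ≠ 0 := by
    intro h0
    rw [h0, zero_mul] at hsY
    exact mul_ne_zero (mul_ne_zero h2 hq) hs0 hsY.symm
  have hw : (-q + s * (s * X - d) / (2 * q)) ^ 2 =
      q ^ 2 + d * s + c * s ^ 2 + b * s ^ 3 + a * s ^ 4 := quartic_eq hq h2 hα' hW hY0 hsY
  refine Set.mem_biUnion (x := s) (s := S \ {0}) ⟨⟨-q + s * (s * X - d) / (2 * q), ?_⟩, hsne⟩ ?_
  · rw [← hw]; ring
  · show (s ^ 2 * (x - c / 3) - d * s - 2 * q ^ 2) ^ 2 =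
      4 * q ^ 2 * (q ^ 2 + d * s + c * s ^ 2 + b * s ^ 3 + a * s ^ 4)
    rw [← hw, hX]
    field_simp
    ring

variable {Γ₀ : Type*} [LinearOrderedCommGroupWithZero Γ₀]

/-- Main criterion. -/
theorem core_infinite (v : Valuation F Γ₀) (hv : ∀ n : ℕ, n ≠ 0 → v (n : F) = 1)
    {q d c b a : F} (hq : q ≠ 0) {V : Γ₀} (hqV : v (q ^ 2) < V) (hd : v d = V)
    (hc : v c ≤ V) (hb : v b ≤ V) (ha : v a ≤ V) :
    {s : F | IsSquare (q ^ 2 + d * s + c * s ^ 2 + b * s ^ 3 + a * s ^ 4)}.Infinite := by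
  have hnz : ∀ n : ℕ, n ≠ 0 → (n : F) ≠ 0 := fun n hn h0 => by
    have := hv n hn
    rw [h0, map_zero] at this
    exact zero_ne_one this
  have h2 : (2 : F) ≠ 0 := by exact_mod_cast hnz 2 (by norm_num)
  have h3 : (3 : F) ≠ 0 := by exact_mod_cast hnz 3 (by norm_num)
  have hvn : ∀ n : ℕ, n ≠ 0 → ∀ z : F, v (n * z) = v z := fun n hn z => by
    rw [map_mul, hv n hn, one_mul]
  have hV0 : 0 < V := lt_of_le_of_lt zero_le hqV
  set N := v (q ^ 2) with hN
  have hN0 : 0 < N := zero_lt_iff.mpr ((Valuation.ne_zero_iff v).mpr (pow_ne_zero 2 hq))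
  refine infinite_s hq h2 h3 ?_
  -- size of the starting x-coordinate
  have hM : v (d ^ 2 / (4 * q ^ 2)) = V ^ 2 / N := by
    rw [map_div₀, map_pow, hd, map_mul, ← hN]
    have : v (4 : F) = 1 := by exact_mod_cast hv 4 (by norm_num)
    rw [this, one_mul]
  have hVM : V < V ^ 2 / N := by
    rw [lt_div_iff₀ hN0, pow_two]
    exact mul_lt_mul_of_pos_left hqV hV0
  have hv3 : v (3 : F) = 1 := by exact_mod_cast hv 3 (by norm_num)
  have hv27 : v (27 : F) = 1 := by exact_mod_cast hv 27 (by norm_num)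
  have hx : v (d ^ 2 / (4 * q ^ 2) - 2 * c / 3) = V ^ 2 / N := by
    rw [sub_eq_add_neg, v.map_add_eq_of_lt_left, hM]
    rw [Valuation.map_neg, map_div₀, hv3, div_one, hM]
    refine lt_of_le_of_lt ?_ hVM
    have := hvn 2 (by norm_num) c
    push_cast at this
    rw [this]; exact hc
  have hM0 : 0 < V ^ 2 / N := lt_trans hV0 hVM
  have hNV : N ≤ V := hqV.le
  refine infinite_x v hv (start_point (a := a) (b := b) (c := c) (d := d) hq h2 h3) ?_ ?_
  · -- A
    rw [hx]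
    refine lt_of_le_of_lt ?_ (pow_lt_pow_left₀ hVM hV0.le two_ne_zero)
    unfold coeffA
    rw [map_div₀, hv3, div_one, Valuation.map_neg]
    refine v.map_add_le (v.map_sub_le ?_ ?_) ?_
    · have := hvn 12 (by norm_num) (a * q ^ 2)
      push_cast at this
      rw [mul_assoc, this, map_mul, ← hN, pow_two]
      exact mul_le_mul' ha hNV
    · have := hvn 3 (by norm_num) (b * d)
      push_cast at this
      rw [mul_assoc, this, map_mul, hd, pow_two]
      exact mul_le_mul' hb le_rfl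
    · rw [map_pow]
      exact pow_le_pow_left' hc 2
  · rw [hx]
    refine lt_of_le_of_lt ?_ (pow_lt_pow_left₀ hVM hV0.le three_ne_zero)
    unfold coeffB
    rw [map_div₀, hv27, div_one, Valuation.map_neg]
    have e3 : V ^ 3 = V * V * V := by rw [pow_succ, pow_two]
    refine v.map_sub_le (v.map_sub_le (v.map_sub_le (v.map_add_le ?_ ?_) ?_) ?_) ?_
    · have := hvn 72 (by norm_num) (a * c * q ^ 2)
      push_cast at this
      rw [show 72 * a * c * q ^ 2 = 72 * (a * c * q ^ 2) by ring, this, map_mul, map_mul, ← hN, e3]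
      exact mul_le_mul' (mul_le_mul' ha hc) hNV
    · have := hvn 9 (by norm_num) (b * c * d)
      push_cast at this
      rw [show 9 * b * c * d = 9 * (b * c * d) by ring, this, map_mul, map_mul, hd, e3]
      exact mul_le_mul' (mul_le_mul' hb hc) le_rfl
    · have := hvn 27 (by norm_num) (a * d * d)
      push_cast at this
      rw [show 27 * a * d ^ 2 = 27 * (a * d * d) by ring, this, map_mul, map_mul, hd, e3]
      exact mul_le_mul' (mul_le_mul' ha le_rfl) le_rfl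
    · have := hvn 27 (by norm_num) (q ^ 2 * b * b)
      push_cast at this
      rw [show 27 * q ^ 2 * b ^ 2 = 27 * (q ^ 2 * b * b) by ring, this, map_mul, map_mul, ← hN, e3]
      exact mul_le_mul' (mul_le_mul' hNV hb) hb
    · have := hvn 2 (by norm_num) (c * c * c)
      push_cast at this
      rw [show 2 * c ^ 3 = 2 * (c * c * c) by ring, this, map_mul, map_mul, e3]
      exact mul_le_mul' (mul_le_mul' hc hc) hc

end Transfer

end Pool.Agent.Work.PD
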