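import Mathlib

/-!
Elementary facts on symmetric bilinear forms over a domain.
-/

namespace Pool.Agent.Work.PD

section Bil

variable {A : Type*} [CommRing A] {n : ℕ}

/-- the bilinear form with matrix `S` -/
def bil (S : Fin n → Fin n → A) (u u' : Fin n → A) : A := ∑ i, ∑ j, S i j * u i * u' j

theorem bil_add_left (S : Fin n → Fin n → A) (u v w : Fin n → A) :
    bil S (u + v) w = bil S u w + bil S v w := by
  unfold bil
  simp only [Pi.add_apply, mul_add, add_mul, Finset.sum_add_distrib]

theorem bil_add_right (S : Fin n → Fin n → A) (u v w : Fin n → A) :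
    bil S u (v + w) = bil S u v + bil S u w := by
  unfold bil
  simp only [Pi.add_apply, mul_add, Finset.sum_add_distrib]

theorem bil_smul_left (S : Fin n → Fin n → A) (c : A) (u v : Fin n → A) :
    bil S (c • u) v = c * bil S u v := by
  unfold bil
  simp only [Pi.smul_apply, smul_eq_mul, Finset.mul_sum]
  refine Finset.sum_congr rfl fun i _ => Finset.sum_congr rfl fun j _ => ?_
  ring

theorem bil_smul_right (S : Fin n → Fin n → A) (c : A) (u v : Fin n → A) :
    bil S u (c • v) = c * bil S u v := by
  unfold bil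
  simp only [Pi.smul_apply, smul_eq_mul, Finset.mul_sum]
  refine Finset.sum_congr rfl fun i _ => Finset.sum_congr rfl fun j _ => ?_
  ring

theorem bil_symm {S : Fin n → Fin n → A} (hS : ∀ i j, S i j = S j i) (u v : Fin n → A) :
    bil S u v = bil S v u := by
  unfold bil
  rw [Finset.sum_comm]
  refine Finset.sum_congr rfl fun i _ => Finset.sum_congr rfl fun j _ => ?_
  rw [hS j i]; ring

theorem bil_single_left (S : Fin n → Fin n → A) (i : Fin n) (v : Fin n → A) :
    bil S (Pi.single i 1) v = ∑ j, S i j * v j := by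
  unfold bil
  rw [Finset.sum_eq_single i]
  · simp
  · intro b _ hb
    simp [Pi.single_eq_of_ne hb]
  · simp

theorem bil_single_single (S : Fin n → Fin n → A) (i j : Fin n) :
    bil S (Pi.single i 1) (Pi.single j 1) = S i j := by
  rw [bil_single_left, Finset.sum_eq_single j]
  · simp
  · intro b _ hb
    simp [Pi.single_eq_of_ne hb]
  · simp

theorem map_bil {B : Type*} [CommRing B] (φ : A →+* B) (S : Fin n → Fin n → A)
    (u v : Fin n → A) : φ (bil S u v) = bil (fun i j => φ (S i j)) (fun i => φ (u i))
      (fun i => φ (v i)) := by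
  unfold bil
  simp only [map_sum, map_mul]

/-- polarisation -/
theorem bil_polar (S : Fin n → Fin n → A) (hS : ∀ i j, S i j = S j i) (u v : Fin n → A) :
    bil S (u + v) (u + v) = bil S u u + 2 * bil S u v + bil S v v := by
  rw [bil_add_left, bil_add_right, bil_add_right, bil_symm hS v u]
  ring

variable [IsDomain A]

theorem eq_zero_of_bil_eq_zero (S : Matrix (Fin n) (Fin n) A) (hdet : S.det ≠ 0) (v : Fin n → A)
    (h : ∀ u, bil (fun i j => S i j) u v = 0) : v = 0 := by
  apply Matrix.eq_zero_of_mulVec_eq_zero hdet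
  funext i
  have := h (Pi.single i 1)
  rw [bil_single_left] at this
  exact this

theorem not_rank_one (h2 : (2 : A) ≠ 0) (hn : 2 ≤ n) (S : Matrix (Fin n) (Fin n) A)
    (hS : ∀ i j, S i j = S j i) (hdet : S.det ≠ 0) (v : Fin n → A) (w : A) (hw : w ≠ 0) :
    ¬ ∀ u, bil (fun i j => S i j) v u ^ 2 = w * bil (fun i j => S i j) u u := by
  intro h
  set B := bil (fun i j => S i j) with hB
  have hpol : ∀ u u', B v u * B v u' = w * B u u' := by
    intro u u'
    have h1 := h (u + u')
    have h3 := h u
    have h4 := h u'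
    rw [hB] at h1 h3 h4 ⊢
    rw [bil_polar _ hS, bil_add_right] at h1
    have h5 : (2 : A) * (bil (fun i j => S i j) v u * bil (fun i j => S i j) v u' -
        w * bil (fun i j => S i j) u u') = 0 := by
      linear_combination h1 - h3 - h4
    exact sub_eq_zero.mp ((mul_eq_zero.mp h5).resolve_left h2)
  obtain ⟨u, hu0, hu⟩ : ∃ u : Fin n → A, u ≠ 0 ∧ B v u = 0 := by
    let i0 : Fin n := ⟨0, by omega⟩
    let i1 : Fin n := ⟨1, by omega⟩
    have h01 : i0 ≠ i1 := by simp [i0, i1]
    by_cases hb : B v (Pi.single i0 1) = 0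
    · refine ⟨Pi.single i0 1, ?_, hb⟩
      intro h0
      have := congrFun h0 i0
      simp at this
    · refine ⟨(B v (Pi.single i1 1)) • Pi.single i0 1 + (-(B v (Pi.single i0 1))) • Pi.single i1 1,
        ?_, ?_⟩
      · intro h0
        have := congrFun h0 i1
        simp [Pi.single_eq_of_ne h01.symm] at this
        exact hb this
      · rw [hB, bil_add_right, bil_smul_right, bil_smul_right]
        ring
  apply hu0
  apply eq_zero_of_bil_eq_zero S hdet
  intro u'
  have := hpol u' u
  rw [hu, mul_zero] at this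
  exact (mul_eq_zero.mp this.symm).resolve_left hw

theorem proportional_of_forms (h2 : (2 : A) ≠ 0) (S T : Fin n → Fin n → A)
    (hS : ∀ i j, S i j = S j i) (hT : ∀ i j, T i j = T j i) (α β : A)
    (h : ∀ u, α * bil S u u = β * bil T u u) (i j : Fin n) : α * S i j = β * T i j := by
  have h1 := h (Pi.single i 1 + Pi.single j 1)
  have h3 := h (Pi.single i 1)
  have h4 := h (Pi.single j 1)
  rw [bil_polar _ hS, bil_polar _ hT] at h1
  simp only [bil_single_single] at h1 h3 h4
  have h5 : (2 : A) * (α * S i j - β * T i j) = 0 := by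
    linear_combination h1 - h3 - h4
  exact sub_eq_zero.mp ((mul_eq_zero.mp h5).resolve_left h2)

end Bil

end Pool.Agent.Work.PD
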