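import Mathlib
import Pool.Agent.Work.MP_b62148_ag.HS
import Pool.Agent.Work.MP_b62148_ag.QBil

/-!
A quadratic form in more than `2 ^ m` variables over a polynomial ring in `m` variables over an
algebraically closed field has a nontrivial zero (Tsen, Lang).
-/

namespace Pool.Agent.Work.PD

section Lang

theorem exists_large (m N D : ℕ) (hN : 2 ^ m < N) :
    ∃ t : ℕ, 0 < t ∧ (D + 2 * t) ^ m < N * t ^ m := by
  have h1 : Filter.Tendsto (fun t : ℕ => ((D : ℝ) / (t : ℝ) + 2) ^ m) Filter.atTop
      (nhds ((0 + 2) ^ m)) := by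
    refine Filter.Tendsto.pow ?_ m
    exact (tendsto_const_div_atTop_nhds_zero_nat (D : ℝ)).add tendsto_const_nhds
  have h2 : ((0 : ℝ) + 2) ^ m < (N : ℝ) := by
    rw [zero_add]
    exact_mod_cast hN
  have h3 := (h1.eventually_lt_const h2).and (Filter.eventually_gt_atTop 0)
  obtain ⟨t, ht, ht0⟩ := h3.exists
  refine ⟨t, ht0, ?_⟩
  have ht0' : (0 : ℝ) < (t : ℝ) := by exact_mod_cast ht0
  have h4 : ((D : ℝ) + 2 * t) ^ m < (N : ℝ) * (t : ℝ) ^ m := by
    have h5 : ((D : ℝ) + 2 * t) = ((D : ℝ) / t + 2) * t := by field_simp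
    rw [h5, mul_pow]
    exact mul_lt_mul_of_pos_right ht (pow_pos ht0' m)
  exact_mod_cast h4

variable {K : Type*} [Field K]

/-- the exponent vector attached to a bounded function -/
noncomputable def expo {m t : ℕ} (α : Fin m → Fin t) : Fin m →₀ ℕ :=
  Finsupp.equivFunOnFinite.symm fun j => (α j : ℕ)

theorem expo_apply {m t : ℕ} (α : Fin m → Fin t) (j : Fin m) : expo α j = (α j : ℕ) := rfl

theorem expo_injective {m t : ℕ} : Function.Injective (expo : (Fin m → Fin t) → _) := by
  intro α β h
  funext j
  have := congrArg (fun q : Fin m →₀ ℕ => q j) h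
  simp only [expo_apply] at this
  exact Fin.ext this

theorem exists_isotropic [IsAlgClosed K] {N m : ℕ} (hN : 2 ^ m < N)
    (S : Fin N → Fin N → MvPolynomial (Fin m) K) :
    ∃ v : Fin N → MvPolynomial (Fin m) K, v ≠ 0 ∧ bil S v v = 0 := by
  classical
  obtain ⟨D, hD⟩ : ∃ D : ℕ, ∀ i j l, (S i j).degreeOf l ≤ D := by
    refine ⟨∑ i, ∑ j, ∑ l, (S i j).degreeOf l, fun i j l => ?_⟩
    calc (S i j).degreeOf l ≤ ∑ l, (S i j).degreeOf l :=
          Finset.single_le_sum (f := fun l => (S i j).degreeOf l) (fun _ _ => Nat.zero_le _)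
            (Finset.mem_univ l)
      _ ≤ ∑ j, ∑ l, (S i j).degreeOf l :=
          Finset.single_le_sum (f := fun j => ∑ l, (S i j).degreeOf l) (fun _ _ => Nat.zero_le _)
            (Finset.mem_univ j)
      _ ≤ _ := Finset.single_le_sum (f := fun i => ∑ j, ∑ l, (S i j).degreeOf l)
            (fun _ _ => Nat.zero_le _) (Finset.mem_univ i)
  obtain ⟨t, ht0, ht⟩ := exists_large m N D hN
  let T := D + 2 * t
  let I := Fin N × (Fin m → Fin t)
  let J := Fin m → Fin T
  let e : I ≃ Fin (Fintype.card I) := Fintype.equivFin I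
  let e' : J ≃ Fin (Fintype.card J) := Fintype.equivFin J
  have hcard : Fintype.card J < Fintype.card I := by
    simp only [I, J, T, Fintype.card_prod, Fintype.card_fun, Fintype.card_fin]
    exact ht
  let R := MvPolynomial (Fin (Fintype.card I)) K
  let V : Fin N → MvPolynomial (Fin m) R := fun i =>
    ∑ α : Fin m → Fin t, MvPolynomial.monomial (expo α) (MvPolynomial.X (e (i, α)))
  let Q : MvPolynomial (Fin m) R := bil (fun i j => MvPolynomial.map MvPolynomial.C (S i j)) V V
  let vx : (Fin (Fintype.card I) → K) → Fin N → MvPolynomial (Fin m) K := fun x i =>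
    ∑ α : Fin m → Fin t, MvPolynomial.monomial (expo α) (x (e (i, α)))
  have hmap : ∀ x : Fin (Fintype.card I) → K,
      MvPolynomial.map (MvPolynomial.eval x) Q = bil S (vx x) (vx x) := by
    intro x
    simp only [Q]
    rw [map_bil]
    have h1 : (fun i j => MvPolynomial.map (MvPolynomial.eval x)
        (MvPolynomial.map MvPolynomial.C (S i j))) = S := by
      funext i j
      rw [MvPolynomial.map_map]
      have : (MvPolynomial.eval x).comp MvPolynomial.C = RingHom.id K := by
        ext c; simp
      rw [this, MvPolynomial.map_id]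
    have h2 : (fun i => MvPolynomial.map (MvPolynomial.eval x) (V i)) = vx x := by
      funext i
      simp only [V, vx, map_sum, MvPolynomial.map_monomial, MvPolynomial.eval_X]
    rw [h1, h2]
  obtain ⟨x, hx0, hx⟩ := exists_common_zero (K := K) hcard
    (fun β => MvPolynomial.coeff (expo (e'.symm β)) Q) (by
      intro β
      have h1 := congrArg (MvPolynomial.coeff (expo (e'.symm β))) (hmap 0)
      rw [MvPolynomial.coeff_map] at h1
      rw [h1]
      have h2 : vx 0 = 0 := by
        funext i
        simp [vx]
      rw [h2]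
      simp [bil])
  refine ⟨vx x, ?_, ?_⟩
  · intro h0
    apply hx0
    funext l
    obtain ⟨⟨i, α⟩, rfl⟩ := e.surjective l
    have h1 := congrArg (MvPolynomial.coeff (expo α)) (congrFun h0 i)
    simp only [vx, MvPolynomial.coeff_sum, MvPolynomial.coeff_monomial, Pi.zero_apply,
      MvPolynomial.coeff_zero] at h1
    rw [Finset.sum_eq_single α] at h1
    · simpa using h1
    · intro β _ hβ
      rw [if_neg]
      intro h
      exact hβ (expo_injective h)
    · simp
  · -- all coefficients vanish
    have hdegv : ∀ i l, (vx x i).degreeOf l ≤ t - 1 := by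
      intro i l
      refine (MvPolynomial.degreeOf_sum_le l Finset.univ _).trans ?_
      refine Finset.sup_le fun α _ => ?_
      rw [MvPolynomial.degreeOf_le_iff]
      intro d hd
      have hd' := MvPolynomial.support_monomial_subset hd
      rw [Finset.mem_singleton] at hd'
      rw [hd', expo_apply]
      have := (α l).2
      omega
    have hdegQ : ∀ l, (bil S (vx x) (vx x)).degreeOf l < T := by
      intro l
      have h1 : (bil S (vx x) (vx x)).degreeOf l ≤ D + (t - 1) + (t - 1) := by
        unfold bil
        refine (MvPolynomial.degreeOf_sum_le l Finset.univ _).trans ?_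
        refine Finset.sup_le fun i _ => ?_
        refine (MvPolynomial.degreeOf_sum_le l Finset.univ _).trans ?_
        refine Finset.sup_le fun j _ => ?_
        refine (MvPolynomial.degreeOf_mul_le _ _ _).trans ?_
        refine add_le_add ?_ (hdegv j l)
        refine (MvPolynomial.degreeOf_mul_le _ _ _).trans ?_
        exact add_le_add (hD i j l) (hdegv i l)
      simp only [T]
      omega
    ext d
    rw [MvPolynomial.coeff_zero]
    by_cases hd : ∀ l, d l < T
    · let β : J := fun l => ⟨d l, hd l⟩
      have h1 := hx (e' β)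
      rw [Equiv.symm_apply_apply] at h1
      have h2 : expo β = d := by
        ext l; rfl
      rw [h2] at h1
      rw [← hmap, MvPolynomial.coeff_map]
      exact h1
    · push Not at hd
      obtain ⟨l, hl⟩ := hd
      by_contra hne
      have h1 : d ∈ (bil S (vx x) (vx x)).support := MvPolynomial.mem_support_iff.mpr hne
      have h2 := MvPolynomial.monomial_le_degreeOf l h1
      have := hdegQ l
      omega

end Lang

end Pool.Agent.Work.PD
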