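import Mathlib
import Pool.Agent.Work.MP_b62148_ag.Core

/-!
Second core criterion: the point reduces to a point of order two on a curve of good reduction but
is not itself of order two.
-/

namespace Pool.Agent.Work.PD

variable {F : Type*} [Field F] {Γ₀ : Type*} [LinearOrderedCommGroupWithZero Γ₀]

theorem core_infinite_two (v : Valuation F Γ₀) (hv : ∀ n : ℕ, n ≠ 0 → v (n : F) = 1)
    {d c b a : F} (hd : v d < 1) (hc : v c ≤ 1) (hb : v b < 1) (ha : v a ≤ 1)
    (hca : v (c ^ 2 - 4 * a) = 1) (hD : 8 * b - 4 * d * c + d ^ 3 ≠ 0) :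
    {s : F | IsSquare (1 + d * s + c * s ^ 2 + b * s ^ 3 + a * s ^ 4)}.Infinite := by
  have hnz : ∀ n : ℕ, n ≠ 0 → (n : F) ≠ 0 := fun n hn h0 => by
    have := hv n hn
    rw [h0, map_zero] at this
    exact zero_ne_one this
  have h2 : (2 : F) ≠ 0 := by exact_mod_cast hnz 2 (by norm_num)
  have h3 : (3 : F) ≠ 0 := by exact_mod_cast hnz 3 (by norm_num)
  have h8 : (8 : F) ≠ 0 := by exact_mod_cast hnz 8 (by norm_num)
  have hv2 : v (2 : F) = 1 := by exact_mod_cast hv 2 (by norm_num)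
  have hv3 : v (3 : F) = 1 := by exact_mod_cast hv 3 (by norm_num)
  have hv4 : v (4 : F) = 1 := by exact_mod_cast hv 4 (by norm_num)
  have hv8 : v (8 : F) = 1 := by exact_mod_cast hv 8 (by norm_num)
  have hv9 : v (9 : F) = 1 := by exact_mod_cast hv 9 (by norm_num)
  have hv12 : v (12 : F) = 1 := by exact_mod_cast hv 12 (by norm_num)
  have hv16 : v (16 : F) = 1 := by exact_mod_cast hv 16 (by norm_num)
  have hv27 : v (27 : F) = 1 := by exact_mod_cast hv 27 (by norm_num)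
  have hv72 : v (72 : F) = 1 := by exact_mod_cast hv 72 (by norm_num)
  have mle : ∀ {x y : F}, v x ≤ 1 → v y ≤ 1 → v (x * y) ≤ 1 := fun hx hy => by
    rw [map_mul]; exact mul_le_one' hx hy
  have mlt : ∀ {x y : F}, v x < 1 → v y ≤ 1 → v (x * y) < 1 := fun hx hy => by
    rw [map_mul]; exact mul_lt_one_of_lt_of_le hx hy
  have ple : ∀ {x : F} (n : ℕ), v x ≤ 1 → v (x ^ n) ≤ 1 := fun n hx => by
    rw [map_pow]; exact pow_le_one' hx n
  have key := infinite_s (q := (1 : F)) (d := d) (c := c) (b := b) (a := a) one_ne_zero h2 h3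
  simp only [one_pow] at key
  refine key ?_
  have hst := start_point (q := (1 : F)) (d := d) (c := c) (b := b) (a := a) one_ne_zero h2 h3
  simp only [one_pow, mul_one] at hst
  set x₀ := d ^ 2 / 4 - 2 * c / 3 with hx₀
  set y₀ := (8 * b - 4 * d * c + d ^ 3) / 8 with hy₀
  set A := coeffA 1 d c b a with hA
  set B := coeffB 1 d c b a with hB
  have hy0 : y₀ ≠ 0 := div_ne_zero hD h8
  have hvx : v x₀ ≤ 1 := by
    rw [hx₀]
    refine v.map_sub_le ?_ ?_
    · rw [map_div₀, hv4, div_one]; exact ple 2 hd.le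
    · rw [map_div₀, hv3, div_one]; exact mle hv2.le hc
  have hvy : v y₀ < 1 := by
    rw [hy₀, map_div₀, hv8, div_one]
    refine v.map_add_lt (v.map_sub_lt ?_ ?_) ?_
    · rw [mul_comm]; exact mlt hb hv8.le
    · rw [show 4 * d * c = d * (4 * c) by ring]; exact mlt hd (mle hv4.le hc)
    · rw [pow_succ, mul_comm]; exact mlt hd (ple 2 hd.le)
  have hvA : v A ≤ 1 := by
    rw [hA]; unfold coeffA
    rw [map_div₀, hv3, div_one, Valuation.map_neg]
    refine v.map_add_le (v.map_sub_le ?_ ?_) (ple 2 hc)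
    · exact mle (mle hv12.le ha) (by rw [map_one])
    · exact mle (mle hv3.le hb.le) hd.le
  have hvB : v B ≤ 1 := by
    rw [hB]; unfold coeffB
    rw [map_div₀, hv27, div_one, Valuation.map_neg]
    refine v.map_sub_le (v.map_sub_le (v.map_sub_le (v.map_add_le ?_ ?_) ?_) ?_) ?_
    · exact mle (mle (mle hv72.le ha) hc) (by rw [map_one])
    · exact mle (mle (mle hv9.le hb.le) hc) hd.le
    · exact mle (mle hv27.le ha) (ple 2 hd.le)
    · exact mle (mle hv27.le (by rw [map_one])) (ple 2 hb.le)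
    · exact mle hv2.le (ple 3 hc)
  have hvN : v (3 * x₀ ^ 2 + A) = 1 := by
    have e : 3 * x₀ ^ 2 + A = (c ^ 2 - 4 * a) + d * (3 * d ^ 3 / 16 - d * c + b) := by
      rw [hx₀, hA]; unfold coeffA
      have h4 : (4 : F) ≠ 0 := by exact_mod_cast hnz 4 (by norm_num)
      have h16 : (16 : F) ≠ 0 := by exact_mod_cast hnz 16 (by norm_num)
      field_simp
      ring
    rw [e, v.map_add_eq_of_lt_left, hca]
    rw [hca]
    refine mlt hd (v.map_add_le (v.map_sub_le ?_ (mle hd.le hc)) hb.le)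
    rw [map_div₀, hv16, div_one]
    exact mle hv3.le (ple 3 hd.le)
  obtain ⟨x₁, y₁, h₁, hx₁⟩ := double_on h2 hy0 hst
  have hx₁' : x₁ * (4 * y₀ ^ 2) = (3 * x₀ ^ 2 + A) ^ 2 - 8 * x₀ * y₀ ^ 2 := by
    rw [hx₁, hst]; ring
  have hvy0 : v y₀ ≠ 0 := (Valuation.ne_zero_iff v).mpr hy0
  have hvx₁ : v x₁ * v y₀ ^ 2 = 1 := by
    have h4 : v (x₁ * (4 * y₀ ^ 2)) = 1 := by
      rw [hx₁', sub_eq_add_neg, v.map_add_eq_of_lt_left, map_pow, hvN, one_pow]
      rw [map_pow, hvN, one_pow, Valuation.map_neg]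
      rw [show 8 * x₀ * y₀ ^ 2 = y₀ * (8 * x₀ * y₀) by ring]
      exact mlt hvy (mle (mle hv8.le hvx) hvy.le)
    rwa [map_mul, map_mul, hv4, one_mul, map_pow] at h4
  have h1x : 1 < v x₁ := by
    by_contra hcon
    push Not at hcon
    have h5 : v x₁ * v y₀ ^ 2 < 1 := by
      calc v x₁ * v y₀ ^ 2 ≤ 1 * v y₀ ^ 2 := mul_le_mul_left hcon _
        _ = v y₀ * v y₀ := by rw [one_mul, pow_two]
        _ < 1 := mul_lt_one_of_lt_of_le hvy hvy.le
    exact absurd hvx₁ h5.ne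
  refine infinite_x v hv h₁ ?_ ?_
  · exact lt_of_le_of_lt hvA (one_lt_pow₀ h1x two_ne_zero)
  · exact lt_of_le_of_lt hvB (one_lt_pow₀ h1x three_ne_zero)

end Pool.Agent.Work.PD
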