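import Mathlib

/-!
From density of the square values to density of the points of the double cover.
-/

namespace Pool.Agent.Work.PD

open Polynomial

theorem dvd_of_vanish {K : Type*} [Field K] [CharZero K] {σ : Type*} (f : MvPolynomial σ K)
    (hf : f ≠ 0)
    (hsq : ∀ G : MvPolynomial σ K,
      (∀ x : σ → K, IsSquare (MvPolynomial.eval x f) → MvPolynomial.eval x G = 0) → G = 0)
    (G : (MvPolynomial σ K)[X])
    (hG : ∀ (x : σ → K) (w : K), w ^ 2 = MvPolynomial.eval x f →
      (G.map (MvPolynomial.eval x)).eval w = 0) :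
    (X ^ 2 - C f) ∣ G := by
  have hmonic : (X ^ 2 - C f : (MvPolynomial σ K)[X]).Monic := monic_X_pow_sub_C f (by norm_num)
  set R := G %ₘ (X ^ 2 - C f) with hR
  set Q := G /ₘ (X ^ 2 - C f) with hQ
  have hdiv : R + (X ^ 2 - C f) * Q = G := modByMonic_add_div G (X ^ 2 - C f)
  have hdeg : R.degree ≤ 1 := by
    have h1 : R.degree < (X ^ 2 - C f : (MvPolynomial σ K)[X]).degree :=
      degree_modByMonic_lt _ hmonic
    rw [degree_X_pow_sub_C (by norm_num), degree_lt_iff_coeff_zero] at h1
    rw [show (1 : WithBot ℕ) = ((1 : ℕ) : WithBot ℕ) from rfl, degree_le_iff_coeff_zero]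
    intro m hm
    exact h1 m (by exact_mod_cast hm)
  have hRe : R = C (R.coeff 1) * X + C (R.coeff 0) := eq_X_add_C_of_degree_le_one hdeg
  set a := R.coeff 1 with ha
  set b := R.coeff 0 with hb
  have hev : ∀ (x : σ → K) (w : K), w ^ 2 = MvPolynomial.eval x f →
      MvPolynomial.eval x a * w + MvPolynomial.eval x b = 0 := by
    intro x w hw
    have h1 := hG x w hw
    rw [← hdiv, hRe] at h1
    simp only [Polynomial.map_add, Polynomial.map_mul, Polynomial.map_sub, Polynomial.map_pow,
      map_X, map_C, eval_add, eval_mul, eval_sub, eval_pow, eval_X, eval_C] at h1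
    rw [hw, sub_self, zero_mul, add_zero] at h1
    exact h1
  have hb0 : b = 0 := by
    apply hsq
    rintro x ⟨w, hw⟩
    have h1 := hev x w (by rw [hw]; ring)
    have h2 := hev x (-w) (by rw [hw]; ring)
    have h3 : 2 * MvPolynomial.eval x b = 0 := by linear_combination h1 + h2
    simpa using h3
  have ha0 : a * f = 0 := by
    apply hsq
    rintro x ⟨w, hw⟩
    have h1 := hev x w (by rw [hw]; ring)
    rw [hb0, map_zero, add_zero] at h1
    rw [map_mul, hw]
    linear_combination w * h1
  have ha1 : a = 0 := (mul_eq_zero.mp ha0).resolve_right hf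
  rw [← hdiv, hRe, ha1, hb0]
  simp

end Pool.Agent.Work.PD
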