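import Mathlib

/-!
Specialisation: if a polynomial `G` vanishes at all `K`-points where `f` is a square, then it
vanishes at all `K(t)`-points where `f` is a square.
-/

namespace Pool.Agent.Work.PD

open Polynomial

section Spec

variable {K : Type*} [Field K] {F : Type*} [Field F] [Algebra K[X] F] [IsFractionRing K[X] F]
  [Algebra K F] [IsScalarTower K K[X] F]

theorem spec_square [Infinite K] {σ : Type*} [Finite σ] (f G : MvPolynomial σ K)
    (h : ∀ x : σ → K, IsSquare (MvPolynomial.eval x f) → MvPolynomial.eval x G = 0)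
    (x : σ → F) (hx : IsSquare (MvPolynomial.aeval x f)) : MvPolynomial.aeval x G = 0 := by
  classical
  obtain ⟨w, hw⟩ := hx
  -- common denominator
  obtain ⟨N, hN⟩ := IsLocalization.exist_integer_multiples_of_finite (nonZeroDivisors K[X])
    (fun i : Option σ => i.elim w x)
  have hN0 : (N : K[X]) ≠ 0 := nonZeroDivisors.ne_zero N.2
  let R' := Localization.Away (N : K[X])
  have hunit : IsUnit (algebraMap K[X] F (N : K[X])) := by
    rw [isUnit_iff_ne_zero]
    simpa using hN0
  let g : R' →+* F := IsLocalization.Away.lift (N : K[X]) hunit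
  have hgalg : ∀ p : K[X], g (algebraMap K[X] R' p) = algebraMap K[X] F p := fun p =>
    IsLocalization.Away.lift_eq _ _ _
  have hginj : Function.Injective g := by
    rw [injective_iff_map_eq_zero]
    intro r hr
    obtain ⟨k, p, hp⟩ := IsLocalization.Away.surj (N : K[X]) r
    have h1 : g (algebraMap K[X] R' p) = 0 := by rw [← hp, map_mul, hr, zero_mul]
    rw [hgalg] at h1
    have h2 : p = 0 := by simpa using h1
    rw [h2, map_zero] at hp
    have hu : IsUnit ((algebraMap K[X] R' N) ^ k) :=
      (IsLocalization.Away.algebraMap_isUnit (N : K[X])).pow k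
    exact (hu.mul_left_eq_zero).mp hp
  -- lifts
  have lift : ∀ i : Option σ, ∃ r : R', g r = i.elim w x := by
    intro i
    obtain ⟨p, hp⟩ := hN i
    obtain ⟨u, hu⟩ := IsLocalization.Away.algebraMap_isUnit (S := R') (N : K[X])
    refine ⟨algebraMap K[X] R' p * ↑u⁻¹, ?_⟩
    have h1 : g (algebraMap K[X] R' p * ↑u⁻¹) * algebraMap K[X] F N = algebraMap K[X] F p := by
      rw [← hgalg N, ← map_mul, mul_assoc, ← hu, Units.inv_mul, mul_one, hgalg]
    have h2 : algebraMap K[X] F (N : K[X]) ≠ 0 := hunit.ne_zero
    have h3 : (i.elim w x) * algebraMap K[X] F N = algebraMap K[X] F p := by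
      rw [hp, Algebra.smul_def, mul_comm]
    exact mul_right_cancel₀ h2 (h1.trans h3.symm)
  choose r hr using lift
  let x' : σ → R' := fun i => r (some i)
  let w' : R' := r none
  have hx' : ∀ i, g (x' i) = x i := fun i => hr (some i)
  have hw' : g w' = w := hr none
  -- evaluation of polynomials
  have halg : ∀ c : K, g (algebraMap K[X] R' (C c)) = algebraMap K F c := by
    intro c
    rw [hgalg, IsScalarTower.algebraMap_apply K K[X] F, Polynomial.algebraMap_apply]
    rfl
  let φ : K →+* R' := (algebraMap K[X] R').comp C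
  have evalg : ∀ P : MvPolynomial σ K,
      g (MvPolynomial.eval₂ φ x' P) = MvPolynomial.aeval x P := by
    intro P
    rw [MvPolynomial.hom_eval₂]
    rw [MvPolynomial.aeval_def]
    congr 1
    · ext c; exact halg c
    · ext i; exact hx' i
  have hf' : MvPolynomial.eval₂ φ x' f = w' * w' := by
    apply hginj
    rw [evalg, map_mul, hw', hw]
  -- evaluations
  have key : ∀ θ : K, eval θ (N : K[X]) ≠ 0 → ∀ (ev : R' →+* K),
      (∀ p : K[X], ev (algebraMap K[X] R' p) = eval θ p) →
      ev (MvPolynomial.eval₂ φ x' G) = 0 := by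
    intro θ _ ev hev
    have e : ∀ P : MvPolynomial σ K,
        ev (MvPolynomial.eval₂ φ x' P) = MvPolynomial.eval (fun i => ev (x' i)) P := by
      intro P
      rw [MvPolynomial.hom_eval₂, MvPolynomial.eval, MvPolynomial.coe_eval₂Hom]
      congr 1
      ext c
      simp [φ, hev]
    rw [e]
    apply h
    rw [← e, hf', map_mul]
    exact ⟨_, rfl⟩
  have hG : MvPolynomial.eval₂ φ x' G = 0 := by
    obtain ⟨k, p, hp⟩ := IsLocalization.Away.surj (N : K[X]) (MvPolynomial.eval₂ φ x' G)
    have hp0 : (N : K[X]) * p = 0 := by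
      by_contra hne
      apply Set.infinite_univ (α := K)
      refine Set.Finite.subset ((N : K[X]) * p).roots.toFinset.finite_toSet ?_
      intro θ _
      simp only [Finset.mem_coe, Multiset.mem_toFinset, mem_roots', ne_eq, hne,
        not_false_eq_true, IsRoot.def, eval_mul, mul_eq_zero, true_and]
      by_cases hθ : eval θ (N : K[X]) = 0
      · left; exact hθ
      · right
        have hu : IsUnit ((evalRingHom θ) (N : K[X])) := by
          rw [isUnit_iff_ne_zero]; exact hθ
        have := key θ hθ (IsLocalization.Away.lift (N : K[X]) hu) (fun p =>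
          IsLocalization.Away.lift_eq _ _ _)
        have h4 := congrArg (IsLocalization.Away.lift (S := R') (N : K[X]) hu) hp
        rw [map_mul, this, zero_mul, IsLocalization.Away.lift_eq] at h4
        exact h4.symm
    rcases mul_eq_zero.mp hp0 with h0 | h0
    · exact absurd h0 hN0
    · rw [h0, map_zero] at hp
      have hu : IsUnit ((algebraMap K[X] R' N) ^ k) :=
        (IsLocalization.Away.algebraMap_isUnit (N : K[X])).pow k
      exact (hu.mul_left_eq_zero).mp hp
  rw [← evalg, hG, map_zero]

end Spec

end Pool.Agent.Work.PD
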