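import Mathlib
import Pool.Agent.Work.MP_b62148_ag.Core
import Pool.Agent.Work.MP_b62148_ag.CoreTwo
import Pool.Agent.Work.MP_b62148_ag.Spec
import Pool.Agent.Work.MP_b62148_ag.Val

/-!
Vanishing on one parameter families of rational curves `s ↦ γ(θ, s)` along which `f` is
`s ^ 2` times a quartic polynomial.
-/

namespace Pool.Agent.Work.PD

open Polynomial

variable {K : Type*} [Field K] [CharZero K] {σ : Type*} [Finite σ]

/-- If along a one parameter family of curves `f` is `s ^ 2` times a polynomial of degree at most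
four in `s` taking infinitely many square values over `K(θ)`, then `G` vanishes on the family. -/
theorem curve_vanish_aux (f G : MvPolynomial σ K)
    (hG : ∀ x : σ → K, IsSquare (MvPolynomial.eval x f) → MvPolynomial.eval x G = 0)
    (γ : σ → K[X][X])
    (hinf : {s : RatFunc K | IsSquare (((MvPolynomial.aeval γ f : K[X][X]).map
      (algebraMap K[X] (RatFunc K))).eval s)}.Infinite) :
    (MvPolynomial.aeval γ G : K[X][X]) = 0 := by
  classical
  let F := RatFunc K
  let ι : K[X] →ₐ[K] F := IsScalarTower.toAlgHom K K[X] F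
  have hιinj : Function.Injective ι := IsFractionRing.injective K[X] F
  let m : K[X][X] →ₐ[K] F[X] := Polynomial.mapAlgHom ι
  have hm : ∀ p : MvPolynomial σ K, ∀ s : F,
      ((MvPolynomial.aeval γ p : K[X][X]).map (algebraMap K[X] F)).eval s =
        MvPolynomial.aeval (fun i => ((γ i).map (algebraMap K[X] F)).eval s) p := by
    intro p s
    have h1 : (MvPolynomial.aeval γ p : K[X][X]).map (algebraMap K[X] F) =
        MvPolynomial.aeval (fun i => (γ i).map (algebraMap K[X] F)) p := by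
      have := MvPolynomial.comp_aeval_apply (f := γ) m p
      exact this
    rw [h1]
    let e : F[X] →ₐ[K] F := (Polynomial.aeval s).restrictScalars K
    have he : ∀ q : F[X], q.eval s = e q := fun q => by
      simp [e, Polynomial.coe_aeval_eq_eval]
    rw [he, MvPolynomial.comp_aeval_apply]
    simp only [he]
  by_contra hne
  have hne' : (MvPolynomial.aeval γ G : K[X][X]).map (algebraMap K[X] F) ≠ 0 := by
    intro h
    exact hne ((Polynomial.map_eq_zero_iff (f := (ι : K[X] →+* F)) hιinj).mp h)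
  apply hinf
  refine Set.Finite.subset
    ((MvPolynomial.aeval γ G : K[X][X]).map (algebraMap K[X] F)).roots.toFinset.finite_toSet ?_
  intro s hs
  have hs' : IsSquare (((MvPolynomial.aeval γ f : K[X][X]).map
      (algebraMap K[X] (RatFunc K))).eval s) := hs
  rw [hm] at hs'
  have := spec_square f G hG _ hs'
  rw [← hm] at this
  simp only [Finset.mem_coe, Multiset.mem_toFinset, mem_roots', ne_eq, hne',
    not_false_eq_true, IsRoot.def, true_and]
  exact this

omit [CharZero K] in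
theorem eval_of_le_six {R : Type*} [CommRing R] (E : R[X]) (hdeg : E.natDegree ≤ 6)
    (h0 : E.coeff 0 = 0) (h1 : E.coeff 1 = 0) (s : R) :
    E.eval s = s ^ 2 * (E.coeff 2 + E.coeff 3 * s + E.coeff 4 * s ^ 2 + E.coeff 5 * s ^ 3 +
      E.coeff 6 * s ^ 4) := by
  rw [eval_eq_sum_range' (Nat.lt_succ_of_le hdeg)]
  simp only [Finset.sum_range_succ, Finset.sum_range_zero, h0, h1]
  ring

theorem curve_vanish (f G : MvPolynomial σ K)
    (hG : ∀ x : σ → K, IsSquare (MvPolynomial.eval x f) → MvPolynomial.eval x G = 0)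
    (γ : σ → K[X][X]) (E : K[X][X]) (hE : E = MvPolynomial.aeval γ f) (hdeg : E.natDegree ≤ 6)
    (h0 : E.coeff 0 = 0) (h1 : E.coeff 1 = 0) (h2 : E.coeff 2 = X ^ 2)
    (h3 : (E.coeff 3).coeff 0 ≠ 0) :
    (MvPolynomial.aeval γ G : K[X][X]) = 0 := by
  classical
  apply curve_vanish_aux f G hG γ
  rw [← hE]
  let F := RatFunc K
  let ι : K[X] →+* F := algebraMap K[X] F
  have hιinj : Function.Injective ι := IsFractionRing.injective K[X] F
  obtain ⟨v₀, hv1, hv2, hv3⟩ := exists_val (F := F) (X : K[X]) Polynomial.prime_X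
  have hvunit : ∀ q : K[X], q.coeff 0 ≠ 0 → v₀ (ι q) = 1 := by
    intro q hq
    refine le_antisymm (hv1 q) (not_lt.mp ?_)
    intro h
    rw [hv2, Polynomial.X_dvd_iff] at h
    exact hq h
  have hX : ι X ≠ 0 := fun h => X_ne_zero (hιinj (by rw [h, map_zero]))
  have hcore := core_infinite v₀ hv3 (q := ι X) (d := ι (E.coeff 3)) (c := ι (E.coeff 4))
    (b := ι (E.coeff 5)) (a := ι (E.coeff 6)) hX (V := 1)
    (by
      rw [← map_pow, hv2]
      exact dvd_pow_self X two_ne_zero)
    (hvunit _ h3) (hv1 _) (hv1 _) (hv1 _)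
  refine hcore.mono ?_
  rintro s ⟨z, hz⟩
  refine ⟨s * z, ?_⟩
  have hdeg' : (E.map ι).natDegree ≤ 6 := natDegree_map_le.trans hdeg
  rw [eval_of_le_six (E.map ι) hdeg' (by rw [coeff_map, h0, map_zero])
    (by rw [coeff_map, h1, map_zero])]
  simp only [coeff_map, h2, map_pow]
  rw [hz]; ring

theorem curve_vanish_two (f G : MvPolynomial σ K)
    (hG : ∀ x : σ → K, IsSquare (MvPolynomial.eval x f) → MvPolynomial.eval x G = 0)
    (γ : σ → K[X][X]) (E : K[X][X]) (hE : E = MvPolynomial.aeval γ f) (hdeg : E.natDegree ≤ 6)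
    (h0 : E.coeff 0 = 0) (h1 : E.coeff 1 = 0) (h2 : E.coeff 2 = 1)
    (h3 : (E.coeff 3).coeff 0 = 0) (h5 : (E.coeff 5).coeff 0 = 0)
    (h46 : (E.coeff 4).coeff 0 ^ 2 ≠ 4 * (E.coeff 6).coeff 0)
    (hD : 8 * E.coeff 5 - 4 * E.coeff 3 * E.coeff 4 + E.coeff 3 ^ 3 ≠ 0) :
    (MvPolynomial.aeval γ G : K[X][X]) = 0 := by
  classical
  apply curve_vanish_aux f G hG γ
  rw [← hE]
  let F := RatFunc K
  let ι : K[X] →+* F := algebraMap K[X] F
  have hιinj : Function.Injective ι := IsFractionRing.injective K[X] F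
  obtain ⟨v₀, hv1, hv2, hv3⟩ := exists_val (F := F) (X : K[X]) Polynomial.prime_X
  have hvunit : ∀ q : K[X], q.coeff 0 ≠ 0 → v₀ (ι q) = 1 := by
    intro q hq
    refine le_antisymm (hv1 q) (not_lt.mp ?_)
    intro h
    rw [hv2, Polynomial.X_dvd_iff] at h
    exact hq h
  have hvlt : ∀ q : K[X], q.coeff 0 = 0 → v₀ (ι q) < 1 := by
    intro q hq
    rw [hv2, Polynomial.X_dvd_iff]; exact hq
  have hcore := core_infinite_two v₀ hv3 (d := ι (E.coeff 3)) (c := ι (E.coeff 4))
    (b := ι (E.coeff 5)) (a := ι (E.coeff 6)) (hvlt _ h3) (hv1 _) (hvlt _ h5) (hv1 _)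
    (by
      have : ι (E.coeff 4) ^ 2 - 4 * ι (E.coeff 6) = ι (E.coeff 4 ^ 2 - 4 * E.coeff 6) := by
        rw [map_sub, map_pow, map_mul, map_ofNat]
      rw [this]
      apply hvunit
      rw [coeff_zero_eq_eval_zero, eval_sub, eval_mul, eval_pow, eval_ofNat,
        ← coeff_zero_eq_eval_zero, ← coeff_zero_eq_eval_zero]
      exact sub_ne_zero.mpr h46)
    (by
      have : 8 * ι (E.coeff 5) - 4 * ι (E.coeff 3) * ι (E.coeff 4) + ι (E.coeff 3) ^ 3 =
          ι (8 * E.coeff 5 - 4 * E.coeff 3 * E.coeff 4 + E.coeff 3 ^ 3) := by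
        simp only [map_add, map_sub, map_mul, map_pow, map_ofNat]
      rw [this]
      intro h
      exact hD (hιinj (by rw [h, map_zero])))
  refine hcore.mono ?_
  rintro s ⟨z, hz⟩
  refine ⟨s * z, ?_⟩
  have hdeg' : (E.map ι).natDegree ≤ 6 := natDegree_map_le.trans hdeg
  rw [eval_of_le_six (E.map ι) hdeg' (by rw [coeff_map, h0, map_zero])
    (by rw [coeff_map, h1, map_zero])]
  simp only [coeff_map, h2, map_one]
  rw [hz]; ring

end Pool.Agent.Work.PD
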