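import Mathlib
import Pool.Agent.Work.MP_b62148_ag.Curve

/-!
Del Pezzo surfaces of degree one with a rational point of order two on a smooth fibre.
-/

namespace Pool.Agent.Work.PD

open Polynomial

section

variable {K : Type*} [Field K]

/-- the polynomial `z ^ 3 + c(x) z ^ 2 + a(x) z + b(x)` -/
noncomputable def cubicPoly (c a b : K[X]) : MvPolynomial (Fin 2) K :=
  MvPolynomial.X 1 ^ 3 + aeval (MvPolynomial.X 0) c * MvPolynomial.X 1 ^ 2 +
    aeval (MvPolynomial.X 0) a * MvPolynomial.X 1 + aeval (MvPolynomial.X 0) b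

/-- the curves `x = θ s`, `z = s ^ 2 / a₀` -/
noncomputable def parab (r : K) : Fin 2 → K[X][X] :=
  ![C X * X, C (C r) * X ^ 2]

theorem coeff_aeval_scale (p : K[X]) (i : ℕ) :
    (aeval (C X * X : K[X][X]) p).coeff i = C (p.coeff i) * X ^ i := by
  have h : (aeval (C X * X : K[X][X]) p) = (p.map C).comp (C X * X) := by
    rw [comp, eval₂_map, aeval_def]
    rfl
  rw [h, comp_C_mul_X_coeff, coeff_map]

theorem natDegree_aeval_scale (p : K[X]) {m : ℕ} (hp : p.natDegree ≤ m) :
    (aeval (C X * X : K[X][X]) p).natDegree ≤ m := by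
  rw [natDegree_le_iff_coeff_eq_zero]
  intro N hN
  rw [coeff_aeval_scale, coeff_eq_zero_of_natDegree_lt (lt_of_le_of_lt hp hN)]
  simp

theorem aeval_parab (c a b : K[X]) (r : K) :
    MvPolynomial.aeval (parab r) (cubicPoly c a b) =
      C (C (r ^ 3)) * X ^ 6 + C (C (r ^ 2)) * aeval (C X * X : K[X][X]) c * X ^ 4 +
        C (C r) * aeval (C X * X : K[X][X]) a * X ^ 2 + aeval (C X * X : K[X][X]) b := by
  have h : ∀ p : K[X], MvPolynomial.aeval (parab r) (aeval (MvPolynomial.X 0 : MvPolynomial (Fin 2) K) p) =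
      aeval (C X * X : K[X][X]) p := by
    intro p
    have := Polynomial.aeval_algHom_apply
      (MvPolynomial.aeval (parab r) : MvPolynomial (Fin 2) K →ₐ[K] K[X][X]) (MvPolynomial.X 0) p
    rw [← this, MvPolynomial.aeval_X]
    rfl
  unfold cubicPoly
  rw [map_add, map_add, map_add, map_mul, map_mul, map_pow, map_pow, h, h, h, MvPolynomial.aeval_X]
  simp only [parab, Matrix.cons_val_one, Matrix.cons_val_zero, C_pow]
  ring

end

section

variable {K : Type*} [Field K] [CharZero K]

theorem dP1_dense (c a b : K[X]) (hc : c.natDegree ≤ 2) (ha : a.natDegree ≤ 4)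
    (hb : b.natDegree ≤ 6) (hb0 : b.coeff 0 = 0) (hb1 : b.coeff 1 = 0) (hb2 : b.coeff 2 = 0)
    (ha0 : a.coeff 0 ≠ 0) (hca : c.coeff 0 ^ 2 ≠ 4 * a.coeff 0)
    (hex : ¬ (b.coeff 3 = 0 ∧ 2 * a.coeff 0 * c.coeff 1 = a.coeff 1 * c.coeff 0 ∧
      8 * a.coeff 0 ^ 2 * a.coeff 3 + a.coeff 1 ^ 3 = 4 * a.coeff 0 * a.coeff 1 * a.coeff 2 ∧
      2 * a.coeff 0 * b.coeff 5 = a.coeff 1 * b.coeff 4))
    (G : MvPolynomial (Fin 2) K)
    (hG : ∀ x : Fin 2 → K, IsSquare (MvPolynomial.eval x (cubicPoly c a b)) →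
      MvPolynomial.eval x G = 0) : G = 0 := by
  classical
  obtain ⟨r, hr⟩ : ∃ r : K, r = (a.coeff 0)⁻¹ := ⟨_, rfl⟩
  have hra : r * a.coeff 0 = 1 := by rw [hr]; exact inv_mul_cancel₀ ha0
  have hr0 : r ≠ 0 := by rw [hr]; exact inv_ne_zero ha0
  set E : K[X][X] := MvPolynomial.aeval (parab r) (cubicPoly c a b) with hE
  have hEe := aeval_parab c a b r
  rw [← hE] at hEe
  have co : ∀ n, E.coeff n = (if n = 6 then C (r ^ 3) else 0) +
      (if 4 ≤ n then C (r ^ 2) * (C (c.coeff (n - 4)) * X ^ (n - 4)) else 0) +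
      (if 2 ≤ n then C r * (C (a.coeff (n - 2)) * X ^ (n - 2)) else 0) +
      C (b.coeff n) * X ^ n := by
    intro n
    rw [hEe, coeff_add, coeff_add, coeff_add, coeff_C_mul, coeff_X_pow, mul_assoc, mul_assoc,
      coeff_C_mul, coeff_C_mul, coeff_mul_X_pow', coeff_mul_X_pow', coeff_aeval_scale,
      coeff_aeval_scale, coeff_aeval_scale]
    simp only [mul_ite, mul_one, mul_zero]
  have c0 : E.coeff 0 = 0 := by rw [co]; simp [hb0]
  have c1 : E.coeff 1 = 0 := by rw [co]; simp [hb1]
  have c2 : E.coeff 2 = 1 := by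
    rw [co]
    simp only [hb2]
    norm_num
    rw [← C_mul, hra, C_1]
  have c3 : E.coeff 3 = C (r * a.coeff 1) * X + C (b.coeff 3) * X ^ 3 := by
    rw [co]
    norm_num
    ring
  have c4 : E.coeff 4 = C (r ^ 2 * c.coeff 0) + C (r * a.coeff 2) * X ^ 2 +
      C (b.coeff 4) * X ^ 4 := by
    rw [co]
    norm_num
    ring
  have c5 : E.coeff 5 = C (r ^ 2 * c.coeff 1) * X + C (r * a.coeff 3) * X ^ 3 +
      C (b.coeff 5) * X ^ 5 := by
    rw [co]
    norm_num
    ring
  have c6 : E.coeff 6 = C (r ^ 3) + C (r ^ 2 * c.coeff 2) * X ^ 2 + C (r * a.coeff 4) * X ^ 4 +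
      C (b.coeff 6) * X ^ 6 := by
    rw [co]
    norm_num
    ring
  have hdeg : E.natDegree ≤ 6 := by
    rw [natDegree_le_iff_coeff_eq_zero]
    intro N hN
    rw [co, coeff_eq_zero_of_natDegree_lt (lt_of_le_of_lt hc (by omega : 2 < N - 4)),
      coeff_eq_zero_of_natDegree_lt (lt_of_le_of_lt ha (by omega : 4 < N - 2)),
      coeff_eq_zero_of_natDegree_lt (lt_of_le_of_lt hb (by omega : 6 < N))]
    rw [if_neg (by omega)]
    simp
  have key := curve_vanish_two (cubicPoly c a b) G hG (parab r) E hE hdeg c0 c1 c2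
    (by rw [c3]; simp) (by rw [c5]; simp)
    (by
      rw [c4, c6]
      simp only [coeff_add, coeff_C_zero, coeff_C_mul, coeff_X_pow]
      norm_num
      intro h
      apply hca
      have h1 : (r * a.coeff 0) ^ 4 * c.coeff 0 ^ 2 = 4 * (r * a.coeff 0) ^ 3 * a.coeff 0 := by
        linear_combination a.coeff 0 ^ 4 * h
      rw [hra] at h1
      linear_combination h1)
    (by
      intro h
      apply hex
      rw [c3, c4, c5] at h
      have hc9 := congrArg (fun q : K[X] => q.coeff 9) h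
      have e : 8 * (C (r ^ 2 * c.coeff 1) * X + C (r * a.coeff 3) * X ^ 3 + C (b.coeff 5) * X ^ 5)
          - 4 * (C (r * a.coeff 1) * X + C (b.coeff 3) * X ^ 3) *
            (C (r ^ 2 * c.coeff 0) + C (r * a.coeff 2) * X ^ 2 + C (b.coeff 4) * X ^ 4) +
          (C (r * a.coeff 1) * X + C (b.coeff 3) * X ^ 3) ^ 3 =
          C (8 * (r ^ 2 * c.coeff 1) - 4 * (r * a.coeff 1) * (r ^ 2 * c.coeff 0)) * X ^ 1 +
          C (8 * (r * a.coeff 3) - 4 * ((r * a.coeff 1) * (r * a.coeff 2) +
            b.coeff 3 * (r ^ 2 * c.coeff 0)) + (r * a.coeff 1) ^ 3) * X ^ 3 +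
          C (8 * b.coeff 5 - 4 * ((r * a.coeff 1) * b.coeff 4 + b.coeff 3 * (r * a.coeff 2)) +
            3 * (r * a.coeff 1) ^ 2 * b.coeff 3) * X ^ 5 +
          C (-4 * b.coeff 3 * b.coeff 4 + 3 * (r * a.coeff 1) * b.coeff 3 ^ 2) * X ^ 7 +
          C (b.coeff 3 ^ 3) * X ^ 9 := by
        simp only [map_add, map_sub, map_mul, map_pow, map_ofNat, map_neg]
        ring
      rw [e] at h
      have h9 := congrArg (fun q : K[X] => q.coeff 9) h
      have h1 := congrArg (fun q : K[X] => q.coeff 1) h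
      have h3 := congrArg (fun q : K[X] => q.coeff 3) h
      have h5 := congrArg (fun q : K[X] => q.coeff 5) h
      simp only [coeff_add, coeff_C_mul, coeff_X_pow, coeff_zero] at h1 h3 h5 h9
      norm_num at h1 h3 h5 h9
      rw [h9] at h3 h5
      refine ⟨h9, ?_, ?_, ?_⟩
      · have h1' : (r * a.coeff 0) ^ 2 * (8 * c.coeff 1 * a.coeff 0) -
            4 * (r * a.coeff 0) ^ 3 * (a.coeff 1 * c.coeff 0) = 0 := by
          linear_combination a.coeff 0 ^ 3 * h1
        rw [hra] at h1'
        have : (4 : K) * (2 * a.coeff 0 * c.coeff 1 - a.coeff 1 * c.coeff 0) = 0 := by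
          linear_combination h1'
        rcases mul_eq_zero.mp this with h | h
        · norm_num at h
        · linear_combination h
      · have h3' : 8 * (r * a.coeff 0) * a.coeff 3 * a.coeff 0 ^ 2 -
            4 * (r * a.coeff 0) ^ 2 * a.coeff 0 * a.coeff 1 * a.coeff 2 +
            (r * a.coeff 0) ^ 3 * a.coeff 1 ^ 3 = 0 := by
          linear_combination a.coeff 0 ^ 3 * h3
        rw [hra] at h3'
        linear_combination h3'
      · have h5' : 8 * b.coeff 5 * a.coeff 0 - 4 * (r * a.coeff 0) * a.coeff 1 * b.coeff 4 = 0 := by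
          linear_combination a.coeff 0 * h5
        rw [hra] at h5'
        have : (4 : K) * (2 * a.coeff 0 * b.coeff 5 - a.coeff 1 * b.coeff 4) = 0 := by
          linear_combination h5'
        rcases mul_eq_zero.mp this with h | h
        · norm_num at h
        · linear_combination h)
  -- conclusion
  have hval : ∀ θ s : K, MvPolynomial.eval ![θ * s, r * s ^ 2] G = 0 := by
    intro θ s
    have h1 := congrArg (fun q : K[X][X] => (q.eval (C s)).eval θ) key
    simp only [eval_zero] at h1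
    let e : K[X][X] →+* K := (evalRingHom θ).comp (evalRingHom (C s))
    have h2 : e (MvPolynomial.aeval (parab r) G) = MvPolynomial.eval (fun i => e (parab r i)) G := by
      rw [MvPolynomial.aeval_def, MvPolynomial.hom_eval₂]
      unfold MvPolynomial.eval
      rw [MvPolynomial.coe_eval₂Hom]
      congr 1
      ext x
      simp [e, Polynomial.algebraMap_apply]
    have h3 : (fun i => e (parab r i)) = ![θ * s, r * s ^ 2] := by
      funext i
      fin_cases i
      · simp [e, parab]
        ring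
      · simp [e, parab]
    rw [← h3, ← h2]
    exact h1
  apply MvPolynomial.funext
  intro x
  rw [map_zero]
  -- fix the first coordinate
  let Q : K[X] := MvPolynomial.aeval ![C (x 0), X] G
  have hQ : ∀ z : K, Q.eval z = MvPolynomial.eval ![x 0, z] G := by
    intro z
    simp only [Q]
    rw [← Polynomial.coe_evalRingHom, MvPolynomial.aeval_def, MvPolynomial.hom_eval₂]
    unfold MvPolynomial.eval
    rw [MvPolynomial.coe_eval₂Hom]
    congr 1
    · ext x
      simp
    · funext i
      fin_cases i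
      · simp
      · simp
  have hQ0 : Q = 0 := by
    refine eq_zero_of_infinite_isRoot _ ?_
    have hinf : (Set.range fun n : ℕ => r * ((n : K) + 1) ^ 2).Infinite := by
      refine Set.infinite_range_of_injective ?_
      intro m n hmn
      have h1 : ((m : K) + 1) ^ 2 = ((n : K) + 1) ^ 2 := mul_left_cancel₀ hr0 hmn
      have h2 : (((m + 1) ^ 2 : ℕ) : K) = (((n + 1) ^ 2 : ℕ) : K) := by push_cast; exact h1
      have h3 : (m + 1) ^ 2 = (n + 1) ^ 2 := by exact_mod_cast h2
      have h4 := Nat.pow_left_injective (two_ne_zero) h3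
      simpa using h4
    refine hinf.mono ?_
    rintro _ ⟨n, rfl⟩
    show Q.eval (r * ((n : K) + 1) ^ 2) = 0
    rw [hQ]
    have hn : ((n : K) + 1) ≠ 0 := by exact_mod_cast Nat.succ_ne_zero n
    have := hval (x 0 / ((n : K) + 1)) ((n : K) + 1)
    rwa [div_mul_cancel₀ _ hn] at this
  have := hQ (x 1)
  rw [hQ0, eval_zero] at this
  have hx : ![x 0, x 1] = x := by
    funext i
    fin_cases i <;> rfl
  rw [hx] at this
  exact this.symm

end

end Pool.Agent.Work.PD
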