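import Mathlib
import Pool.Agent.Work.MP_b62148_ag.Core
import Pool.Agent.Work.MP_b62148_ag.Spec
import Pool.Agent.Work.MP_b62148_ag.Val

/-!
One parameter families of genus one curves on a double cover `w^2 = f(x)`.
-/

namespace Pool.Agent.Work.PD

open Polynomial

section IntPoly

variable {F : Type*} [Field F] {Γ₀ : Type*} [LinearOrderedCommGroupWithZero Γ₀]

/-- polynomials with `v`-integral coefficients -/
def intPoly (v : Valuation F Γ₀) : Subring F[X] where
  carrier := {p | ∀ n, v (p.coeff n) ≤ 1}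
  mul_mem' := by
    intro p q hp hq n
    rw [coeff_mul]
    refine v.map_sum_le ?_
    intro i _
    rw [map_mul]
    exact mul_le_one' (hp _) (hq _)
  one_mem' := by
    intro n
    rw [coeff_one]
    split_ifs
    · rw [map_one]
    · rw [map_zero]; exact zero_le_one
  add_mem' := by
    intro p q hp hq n
    rw [coeff_add]
    exact v.map_add_le (hp _) (hq _)
  zero_mem' := by
    intro n
    rw [coeff_zero, map_zero]; exact zero_le_one
  neg_mem' := by
    intro p hp n
    rw [coeff_neg, Valuation.map_neg]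
    exact hp n

theorem mem_intPoly {v : Valuation F Γ₀} {p : F[X]} : p ∈ intPoly v ↔ ∀ n, v (p.coeff n) ≤ 1 :=
  Iff.rfl

theorem C_mem_intPoly {v : Valuation F Γ₀} {c : F} (hc : v c ≤ 1) : C c ∈ intPoly v := by
  intro n
  rw [coeff_C]
  split_ifs
  · exact hc
  · rw [map_zero]; exact zero_le_one

theorem X_mem_intPoly {v : Valuation F Γ₀} : (X : F[X]) ∈ intPoly v := by
  intro n
  rw [coeff_X]
  split_ifs
  · rw [map_one]
  · rw [map_zero]; exact zero_le_one

theorem divX_mem_intPoly {v : Valuation F Γ₀} {p : F[X]} (hp : p ∈ intPoly v) :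
    divX p ∈ intPoly v := by
  intro n
  rw [coeff_divX]
  exact hp _

theorem eval_mem_intPoly {v : Valuation F Γ₀} {Ψ : F[X][X]} (hΨ : ∀ n, Ψ.coeff n ∈ intPoly v)
    {s : F[X]} (hs : s ∈ intPoly v) : Ψ.eval s ∈ intPoly v := by
  rw [eval_eq_sum_range]
  exact Subring.sum_mem _ fun i _ => Subring.mul_mem _ (hΨ i) (Subring.pow_mem _ hs i)

theorem quartic_family (v : Valuation F Γ₀) (hv : ∀ n : ℕ, n ≠ 0 → v (n : F) = 1)
    (Ψ : F[X][X]) (hΨ : ∀ n, Ψ.coeff n ∈ intPoly v) (b w : F) (hb0 : b ≠ 0) (hb : v b < 1)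
    (hw : w ≠ 0) (hvw : v w ≤ 1)
    (h0 : Ψ.coeff 0 = 0) (h10 : (Ψ.coeff 1).coeff 0 = 0)
    (hγ : v ((Ψ.coeff 1).coeff 2) = 1)
    (hbw : b * (w ^ 2 - (Ψ.coeff 2).coeff 0) = (Ψ.coeff 1).coeff 1)
    (hdeg : (Ψ.eval (C b * X)).natDegree ≤ 6) :
    {τ : F | IsSquare ((Ψ.eval (C b * X)).eval τ)}.Infinite := by
  set s : F[X] := C b * X with hs
  have hsint : s ∈ intPoly v := Subring.mul_mem _ (C_mem_intPoly hb.le) X_mem_intPoly
  -- decomposition of Ψ
  have d1 : Ψ = divX Ψ * X := by
    conv_lhs => rw [← divX_mul_X_add Ψ, h0, C_0, add_zero]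
  have d2 : divX Ψ = divX (divX Ψ) * X + C (Ψ.coeff 1) := by
    conv_lhs => rw [← divX_mul_X_add (divX Ψ), coeff_divX]
  have d3 : divX (divX Ψ) = divX (divX (divX Ψ)) * X + C (Ψ.coeff 2) := by
    conv_lhs => rw [← divX_mul_X_add (divX (divX Ψ)), coeff_divX, coeff_divX]
  set e1 := Ψ.coeff 1 with he1
  set Ψ2 := divX (divX Ψ) with hΨ2
  set Q := Ψ2.eval s with hQ
  have hQint : Q ∈ intPoly v := by
    refine eval_mem_intPoly (fun n => ?_) hsint
    rw [hΨ2, coeff_divX, coeff_divX]
    exact hΨ _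
  have hQ0 : Q.coeff 0 = (Ψ.coeff 2).coeff 0 := by
    rw [hQ, d3, eval_add, eval_mul, eval_X, eval_C, coeff_add, hs, mul_left_comm,
      coeff_C_mul, coeff_mul_X_zero, mul_zero, zero_add]
  have d4 : Q = divX Q * X + C ((Ψ.coeff 2).coeff 0) := by
    conv_lhs => rw [← divX_mul_X_add Q, hQ0]
  have d5 : e1 = divX e1 * X := by
    conv_lhs => rw [← divX_mul_X_add e1, h10, C_0, add_zero]
  have d6 : divX e1 = divX (divX e1) * X + C (e1.coeff 1) := by
    conv_lhs => rw [← divX_mul_X_add (divX e1), coeff_divX]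
  set M := C b * divX Q + divX (divX e1) with hM
  have hMint : M ∈ intPoly v :=
    Subring.add_mem _ (Subring.mul_mem _ (C_mem_intPoly hb.le) (divX_mem_intPoly hQint))
      (divX_mem_intPoly (divX_mem_intPoly (hΨ 1)))
  have hM0 : v (M.coeff 0) = 1 := by
    rw [hM, coeff_add, coeff_C_mul, coeff_divX, coeff_divX, coeff_divX]
    rw [v.map_add_eq_of_lt_right]
    · exact hγ
    · rw [hγ, map_mul]
      calc v b * v (Q.coeff (0 + 1)) ≤ v b * 1 := mul_le_mul_right (hQint _) _
        _ < 1 := by rwa [mul_one]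
  have hΦ : Ψ.eval s = C b * X ^ 2 * (C (b * w ^ 2) + X * M) := by
    have : Ψ.eval s = s * (s * Q + e1) := by
      conv_lhs => rw [d1, eval_mul, eval_X, d2, eval_add, eval_mul, eval_X, eval_C]
      ring
    rw [this, hs]
    have hbw' : C b * C (w ^ 2) = C b * C ((Ψ.coeff 2).coeff 0) + C (e1.coeff 1) := by
      rw [← C_mul, ← C_mul, ← C_add, ← hbw]; congr 1; ring
    have e1' : e1 = (divX (divX e1) * X + C (e1.coeff 1)) * X := by
      conv_lhs => rw [d5, d6]
    calc C b * X * (C b * X * Q + e1)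
        = C b * X * (C b * X * (divX Q * X + C ((Ψ.coeff 2).coeff 0)) +
            (divX (divX e1) * X + C (e1.coeff 1)) * X) := by
          rw [← d4, ← e1']
      _ = C b * X ^ 2 * (C b * C ((Ψ.coeff 2).coeff 0) + C (e1.coeff 1) +
            X * (C b * divX Q + divX (divX e1))) := by ring
      _ = C b * X ^ 2 * (C (b * w ^ 2) + X * M) := by
          rw [← hbw', ← C_mul, hM]
  have hMdeg : ∀ k, 4 ≤ k → M.coeff k = 0 := by
    intro k hk
    have h1 : (Ψ.eval s).coeff (k + 3) = 0 :=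
      coeff_eq_zero_of_natDegree_lt (lt_of_le_of_lt hdeg (by omega))
    have h2 : (Ψ.eval s).coeff (k + 3) = b * M.coeff k := by
      rw [hΦ, mul_assoc, coeff_C_mul, mul_add, coeff_add]
      have e : (X : F[X]) ^ 2 * (X * M) = M * X ^ 3 := by ring
      rw [e, coeff_mul_X_pow, mul_comm (X ^ 2), coeff_C_mul, coeff_X_pow]
      simp
    rw [h2] at h1
    exact (mul_eq_zero.mp h1).resolve_left hb0
  have hMeval : ∀ τ : F, M.eval τ = M.coeff 0 + M.coeff 1 * τ + M.coeff 2 * τ ^ 2 +
      M.coeff 3 * τ ^ 3 := by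
    intro τ
    have : M.natDegree < 4 := by
      rw [Nat.lt_iff_add_one_le]
      by_contra hcon
      have h4 : 4 ≤ M.natDegree := by omega
      have h5 := hMdeg _ h4
      have h6 : M ≠ 0 := by
        rintro h7
        rw [h7] at h4
        simp at h4
      exact (leadingCoeff_ne_zero.mpr h6) h5
    rw [eval_eq_sum_range' this]
    simp [Finset.sum_range_succ]
  have hvb0 : v b ≠ 0 := (Valuation.ne_zero_iff v).mpr hb0
  have hV : v (M.coeff 0 / b) = (v b)⁻¹ := by rw [map_div₀, hM0, one_div]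
  have hVle : ∀ k, v (M.coeff k / b) ≤ (v b)⁻¹ := by
    intro k
    rw [map_div₀, div_eq_mul_inv]
    calc v (M.coeff k) * (v b)⁻¹ ≤ 1 * (v b)⁻¹ := mul_le_mul_left (hMint k) _
      _ = (v b)⁻¹ := one_mul _
  have h1V : 1 < (v b)⁻¹ := (one_lt_inv₀ (zero_lt_iff.mpr hvb0)).mpr hb
  have hcore := core_infinite v hv (q := w) (d := M.coeff 0 / b) (c := M.coeff 1 / b)
    (b := M.coeff 2 / b) (a := M.coeff 3 / b) hw (V := (v b)⁻¹)
    (lt_of_le_of_lt (by rw [map_pow]; exact pow_le_one' hvw 2) h1V) hV (hVle 1) (hVle 2) (hVle 3)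
  refine hcore.mono ?_
  intro τ hτ
  obtain ⟨z, hz⟩ := hτ
  refine ⟨b * τ * z, ?_⟩
  rw [hΦ]
  simp only [eval_mul, eval_add, eval_C, eval_pow, eval_X]
  rw [hMeval]
  have : b * τ * z * (b * τ * z) = (b * τ) ^ 2 * (z * z) := by ring
  rw [this, ← hz]
  field_simp
  ring

end IntPoly

section Family

variable {K : Type*} [Field K] [CharZero K] {σ : Type*} [Finite σ]

/-- the point `P + (θ + τ) v` over `K[θ][τ]` -/
noncomputable def basePt (P v : σ → K) : σ → K[X][X] :=
  fun i => C (C (P i) + X * C (v i)) + X * C (C (v i))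

/-- expansion of `f (P + (θ + τ) v + S ζ(θ))` in powers of `S`, over `K[θ][τ]` -/
noncomputable def expand3 (f : MvPolynomial σ K) (P v : σ → K) (ζ : σ → K[X]) : K[X][X][X] :=
  expand f (basePt P v) (fun i => C (ζ i))

theorem expand3_coeff_zero (f : MvPolynomial σ K) (P v : σ → K) (ζ : σ → K[X])
    (hline : expand f P v = 0) : (expand3 f P v ζ).coeff 0 = 0 := by
  unfold expand3
  rw [coeff_zero_expand]
  have h1 : (Polynomial.aeval (C X + X : K[X][X]) : K[X] →ₐ[K] K[X][X]) (expand f P v) =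
      MvPolynomial.aeval (basePt P v) f := by
    unfold expand
    rw [MvPolynomial.comp_aeval_apply]
    have : (fun i => (Polynomial.aeval (C X + X : K[X][X]) : K[X] →ₐ[K] K[X][X])
        (C (P i) + X * C (v i))) = basePt P v := by
      funext i
      have hc : ∀ c : K, (Polynomial.aeval (C X + X : K[X][X]) : K[X] →ₐ[K] K[X][X]) (C c) =
          C (C c) := fun c => by
        rw [Polynomial.aeval_C]; rfl
      rw [map_add, map_mul, hc, hc, Polynomial.aeval_X, basePt, C_add, C_mul]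
      ring
    rw [this]
  rw [← h1, hline, map_zero]

theorem family_vanish (f G : MvPolynomial σ K) (hf : f.totalDegree ≤ 6)
    (hG : ∀ x : σ → K, IsSquare (MvPolynomial.eval x f) → MvPolynomial.eval x G = 0)
    (P v : σ → K) (hline : expand f P v = 0) (ζ : σ → K[X]) (w : K) (hw : w ≠ 0)
    (h10 : ((expand3 f P v ζ).coeff 1).coeff 0 = 0)
    (hα : ((expand3 f P v ζ).coeff 1).coeff 1 ≠ 0)
    (hα0 : (((expand3 f P v ζ).coeff 1).coeff 1).coeff 0 = 0)
    (hγ : (((expand3 f P v ζ).coeff 1).coeff 2).coeff 0 ≠ 0)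
    (hβ : w ^ 2 - (((expand3 f P v ζ).coeff 2).coeff 0).coeff 0 ≠ 0) (p T : K) :
    MvPolynomial.eval (fun i => P i + p * v i +
      T * ((w ^ 2 - (((expand3 f P v ζ).coeff 2).coeff 0).eval p) * v i +
        (((expand3 f P v ζ).coeff 1).coeff 1).eval p * (ζ i).eval p)) G = 0 := by
  classical
  set α : K[X] := ((expand3 f P v ζ).coeff 1).coeff 1 with hαdef
  set γ : K[X] := ((expand3 f P v ζ).coeff 1).coeff 2 with hγdef
  set ε : K[X] := ((expand3 f P v ζ).coeff 2).coeff 0 with hεdef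
  set β : K[X] := C (w ^ 2) - ε with hβdef
  have hβ0 : β.coeff 0 ≠ 0 := by
    rw [hβdef, coeff_sub, coeff_C_zero]; exact hβ
  have hβne : β ≠ 0 := by
    rintro h; rw [h] at hβ0; simp at hβ0
  let F := RatFunc K
  let ι : K[X] →ₐ[K] F := IsScalarTower.toAlgHom K K[X] F
  have hι : ∀ q, ι q = algebraMap K[X] F q := fun q => rfl
  have hιinj : Function.Injective ι := IsFractionRing.injective K[X] F
  have hιne : ∀ q : K[X], q ≠ 0 → ι q ≠ 0 := fun q hq h => hq (hιinj (by rw [h, map_zero]))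
  obtain ⟨v₀, hv1, hv2, hv3⟩ := exists_val (F := F) (X : K[X]) Polynomial.prime_X
  have hvunit : ∀ q : K[X], q.coeff 0 ≠ 0 → v₀ (ι q) = 1 := by
    intro q hq
    refine le_antisymm (hv1 q) (not_lt.mp ?_)
    intro h
    rw [hι, hv2, Polynomial.X_dvd_iff] at h
    exact hq h
  set b : F := ι α / ι β with hbdef
  have hb0 : b ≠ 0 := div_ne_zero (hιne _ hα) (hιne _ hβne)
  have hb : v₀ b < 1 := by
    rw [hbdef, map_div₀, hvunit β hβ0, div_one, hι, hv2, Polynomial.X_dvd_iff]
    exact hα0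
  let m : K[X][X] →ₐ[K] F[X] := Polynomial.mapAlgHom ι
  set Ψ : F[X][X] := (expand3 f P v ζ).map (m : K[X][X] →+* F[X]) with hΨdef
  have hΨc : ∀ n, Ψ.coeff n = ((expand3 f P v ζ).coeff n).map (ι : K[X] →+* F) := by
    intro n
    rw [hΨdef, coeff_map]
    rfl
  have hΨcc : ∀ n k, (Ψ.coeff n).coeff k = ι (((expand3 f P v ζ).coeff n).coeff k) := by
    intro n k
    rw [hΨc, coeff_map]
    rfl
  have hΨint : ∀ n, Ψ.coeff n ∈ intPoly v₀ := by
    intro n k
    rw [hΨcc]
    exact hv1 _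
  -- the curve
  let Pθ : σ → F := fun i => ι (C (P i) + X * C (v i))
  let u : σ → F := fun i => ι (C (v i)) + b * ι (ζ i)
  have hcurve : Ψ.eval (C b * X) = expand f Pθ u := by
    rw [hΨdef]
    unfold expand3
    rw [map_expand, eval_expand]
    unfold expand
    congr 2
    funext i
    simp only [basePt, m, Polynomial.coe_mapAlgHom, Polynomial.map_add, Polynomial.map_mul,
      Polynomial.map_C, Polynomial.map_X, Pθ, u, RingHom.coe_coe]
    rw [C_add, C_mul]
    ring
  have hdeg : (Ψ.eval (C b * X)).natDegree ≤ 6 := by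
    rw [hcurve]; exact natDegree_expand_le f hf _ _
  have hwF : algebraMap K F w ≠ 0 := by
    simpa using hw
  have hwι : algebraMap K F w = ι (C w) := by
    rw [hι, IsScalarTower.algebraMap_apply K K[X] F]; rfl
  have hinf := quartic_family v₀ hv3 Ψ hΨint b (algebraMap K F w) hb0 hb hwF
    (by rw [hwι]; exact hv1 _)
    (by rw [hΨc, expand3_coeff_zero f P v ζ hline, Polynomial.map_zero])
    (by rw [hΨcc, h10, map_zero])
    (by rw [hΨcc]; exact hvunit γ hγ)
    (by
      rw [hΨcc, hΨcc, ← hαdef, ← hεdef, hwι, ← map_pow, ← C_pow, ← map_sub, ← hβdef, hbdef]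
      exact div_mul_cancel₀ _ (hιne _ hβne))
    hdeg
  have hGzero : expand G Pθ u = 0 := by
    by_contra hne
    apply hinf
    refine Set.Finite.subset (expand G Pθ u).roots.toFinset.finite_toSet ?_
    intro τ hτ
    have hτ' : IsSquare ((Ψ.eval (C b * X)).eval τ) := hτ
    rw [hcurve, eval_expand] at hτ'
    have := spec_square f G hG _ hτ'
    rw [← eval_expand] at this
    simp only [Finset.mem_coe, Multiset.mem_toFinset, mem_roots', ne_eq, hne,
      not_false_eq_true, IsRoot.def, true_and]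
    exact this
  -- clear denominators
  let Pp : σ → K[X] := fun i => C (P i) + X * C (v i)
  let uu : σ → K[X] := fun i => β * C (v i) + α * ζ i
  have hclear : expand G Pp uu = 0 := by
    have hmap : (expand G Pp uu).map (ι : K[X] →+* F) = 0 := by
      rw [map_expand]
      apply Polynomial.funext
      intro s
      rw [eval_expand, eval_zero]
      have h1 : (fun i => ι (Pp i) + s * ι (uu i)) = (fun i => Pθ i + (s * ι β) * u i) := by
        funext i
        simp only [Pp, uu, Pθ, u, map_add, map_mul]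
        have : ι β * b = ι α := by
          rw [hbdef]; exact mul_div_cancel₀ _ (hιne _ hβne)
        linear_combination -s * ι (ζ i) * this
      rw [h1, ← eval_expand, hGzero, eval_zero]
    exact (Polynomial.map_eq_zero_iff (f := (ι : K[X] →+* F)) hιinj).mp hmap
  have hfin : ((expand G Pp uu).map (Polynomial.aeval p : K[X] →ₐ[K] K).toRingHom).eval T = 0 := by
    rw [hclear, Polynomial.map_zero, eval_zero]
  have hfin' : ((expand G Pp uu).map ((Polynomial.aeval p : K[X] →ₐ[K] K) : K[X] →+* K)).eval T = 0 :=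
    hfin
  rw [map_expand, eval_expand] at hfin'
  rw [← MvPolynomial.aeval_eq_eval]
  have hfun : (fun i => P i + p * v i + T * ((w ^ 2 - ε.eval p) * v i + α.eval p * (ζ i).eval p)) =
      (fun i => (Polynomial.aeval p : K[X] →ₐ[K] K) (Pp i) +
        T * (Polynomial.aeval p : K[X] →ₐ[K] K) (uu i)) := by
    funext i
    simp only [Pp, uu, hβdef, map_add, map_mul, map_sub, Polynomial.aeval_C, Polynomial.aeval_X,
      Algebra.algebraMap_self, RingHom.id_apply, Polynomial.coe_aeval_eq_eval]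
  rw [hfun]
  exact hfin'

end Family

end Pool.Agent.Work.PD
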