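import Mathlib
import Pool.Agent.Work.MP_b62148_ag.Family

/-!
A polynomial of total degree at most six vanishing on a line, mildly non degenerate, takes square
values on a Zariski dense set.
-/

namespace Pool.Agent.Work.PD

open Polynomial

section Aux

variable {K : Type*} [Field K]

theorem aeval_taylor_coeff (q : K[X]) (n : ℕ) :
    ((Polynomial.aeval (C X + X : K[X][X]) : K[X] →ₐ[K] K[X][X]) q).coeff n = hasseDeriv n q := by
  have h1 : (Polynomial.aeval (C X + X : K[X][X]) : K[X] →ₐ[K] K[X][X]) q =
      taylor (X : K[X]) (q.map C) := by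
    rw [taylor_apply, comp, eval₂_map, aeval_def, add_comm]
    rfl
  rw [h1, taylor_coeff]
  -- hasseDeriv commutes with map
  have h2 : ∀ q : K[X], (hasseDeriv n (q.map C)) = (hasseDeriv n q).map (C : K →+* K[X]) := by
    intro q
    ext1 k
    rw [hasseDeriv_coeff, coeff_map, coeff_map, hasseDeriv_coeff, map_mul, map_natCast]
  rw [h2, eval_map]
  exact eval₂_C_X

theorem eq_zero_of_cofinite {p : K[X]} [Infinite K] (S : Finset K) (h : ∀ x, x ∉ S → p.eval x = 0) :
    p = 0 := by
  refine eq_zero_of_infinite_isRoot p ?_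
  refine (Set.Finite.infinite_compl S.finite_toSet).mono ?_
  intro x hx
  exact h x (by simpa using hx)

end Aux

section Line

variable {K : Type*} [Field K] {σ : Type*} [Fintype σ]

/-- the restriction to the line `P + t v` of the `i`-th partial derivative of `f` -/
noncomputable def grad (f : MvPolynomial σ K) (P v : σ → K) (i : σ) : K[X] :=
  expand (MvPolynomial.pderiv i f) P v

/-- the restriction to the line `P + t v` of the derivative of `f` in the direction `ξ` -/
noncomputable def dirD (f : MvPolynomial σ K) (P v ξ : σ → K) : K[X] :=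
  ∑ i, C (ξ i) * grad f P v i

theorem dirD_add (f : MvPolynomial σ K) (P v ξ η : σ → K) :
    dirD f P v (ξ + η) = dirD f P v ξ + dirD f P v η := by
  unfold dirD
  rw [← Finset.sum_add_distrib]
  refine Finset.sum_congr rfl fun i _ => ?_
  rw [Pi.add_apply, C_add]; ring

theorem dirD_smul (f : MvPolynomial σ K) (P v ξ : σ → K) (c : K) :
    dirD f P v (c • ξ) = C c * dirD f P v ξ := by
  unfold dirD
  rw [Finset.mul_sum]
  refine Finset.sum_congr rfl fun i _ => ?_
  rw [Pi.smul_apply, smul_eq_mul, C_mul]; ring

omit [Fintype σ] in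
theorem aeval_basePt (h : MvPolynomial σ K) (P v : σ → K) :
    MvPolynomial.aeval (basePt P v) h =
      (Polynomial.aeval (C X + X : K[X][X]) : K[X] →ₐ[K] K[X][X]) (expand h P v) := by
  unfold expand
  rw [MvPolynomial.comp_aeval_apply]
  have : (fun i => (Polynomial.aeval (C X + X : K[X][X]) : K[X] →ₐ[K] K[X][X])
      (C (P i) + X * C (v i))) = basePt P v := by
    funext i
    have hc : ∀ c : K, (Polynomial.aeval (C X + X : K[X][X]) : K[X] →ₐ[K] K[X][X]) (C c) =
        C (C c) := fun c => by
      rw [Polynomial.aeval_C]; rfl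
    rw [map_add, map_mul, hc, hc, Polynomial.aeval_X, basePt, C_add, C_mul]
    ring
  rw [this]

theorem expand3_coeff_one (f : MvPolynomial σ K) (P v : σ → K) (ζ : σ → K[X]) (n : ℕ) :
    ((expand3 f P v ζ).coeff 1).coeff n = ∑ i, ζ i * hasseDeriv n (grad f P v i) := by
  unfold expand3
  rw [coeff_one_expand, finsetSum_coeff]
  refine Finset.sum_congr rfl fun i _ => ?_
  rw [coeff_C_mul, aeval_basePt, aeval_taylor_coeff]
  rfl

theorem dirD_self (f : MvPolynomial σ K) (P v : σ → K) (hline : expand f P v = 0) :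
    dirD f P v v = 0 := by
  have h1 : (expand f (fun i => C (P i) + X * C (v i)) (fun i => C (v i)) : K[X][X]) = 0 := by
    have : (expand f (fun i => C (P i) + X * C (v i)) (fun i => C (v i)) : K[X][X]) =
        MvPolynomial.aeval (basePt P v) f := rfl
    rw [this, aeval_basePt, hline, map_zero]
  have h2 := congrArg (fun q : K[X][X] => q.coeff 1) h1
  simp only [coeff_one_expand, coeff_zero] at h2
  exact h2

theorem eval_dirD (f : MvPolynomial σ K) (P v ξ : σ → K) (p : K) :
    (dirD f P v ξ).eval p = ∑ i, ξ i * (grad f P v i).eval p := by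
  unfold dirD
  rw [eval_finsetSum]
  simp

theorem eval_derivative_dirD (f : MvPolynomial σ K) (P v ξ : σ → K) (p : K) :
    (derivative (dirD f P v ξ)).eval p = ∑ i, ξ i * (derivative (grad f P v i)).eval p := by
  unfold dirD
  rw [derivative_sum, eval_finsetSum]
  simp

theorem coeff_dirD (f : MvPolynomial σ K) (P v ξ : σ → K) (n : ℕ) :
    (dirD f P v ξ).coeff n = ∑ i, ξ i * (grad f P v i).coeff n := by
  unfold dirD
  rw [finsetSum_coeff]
  simp

/-- Step 1 : `G` vanishes at the general point of each tangent space. -/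
theorem step1 [CharZero K] (f G : MvPolynomial σ K) (hf : f.totalDegree ≤ 6)
    (hG : ∀ x : σ → K, IsSquare (MvPolynomial.eval x f) → MvPolynomial.eval x G = 0)
    (P v : σ → K) (hline : expand f P v = 0) (ξ₀ ξ₁ : σ → K)
    (h00 : (dirD f P v ξ₀).coeff 0 = 0) (h01 : (dirD f P v ξ₀).coeff 1 = 0)
    (h02 : (dirD f P v ξ₀).coeff 2 ≠ 0) (h10 : (dirD f P v ξ₁).coeff 0 ≠ 0)
    (p : K) (hp : p ≠ 0) (hp1 : (dirD f P v ξ₁).eval p ≠ 0) (ξ : σ → K)
    (hξ : (dirD f P v ξ).eval p = 0) (hξ' : (derivative (dirD f P v ξ)).eval p ≠ 0) :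
    MvPolynomial.eval (fun i => P i + p * v i + ξ i) G = 0 := by
  classical
  set a₀ := dirD f P v ξ₀ with ha₀
  set a₁ := dirD f P v ξ₁ with ha₁
  set a := dirD f P v ξ with ha
  let B : K[X] := C p * a₀ + X * (a - a₀)
  let ζ : σ → K[X] := fun i => a₁ * (C p * C (ξ₀ i) + X * (C (ξ i) - C (ξ₀ i))) - B * C (ξ₁ i)
  have hζ0 : ∀ i, (ζ i).eval 0 = a₁.coeff 0 * p * ξ₀ i := by
    intro i
    simp only [ζ, B, eval_sub, eval_mul, eval_add, eval_C, eval_X, zero_mul, add_zero]
    rw [← coeff_zero_eq_eval_zero, ← coeff_zero_eq_eval_zero, h00]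
    ring
  have hζp : ∀ i, (ζ i).eval p = a₁.eval p * p * ξ i := by
    intro i
    simp only [ζ, B, eval_sub, eval_mul, eval_add, eval_C, eval_X, hξ]
    ring
  have hcoef : ∀ n, ((expand3 f P v ζ).coeff 1).coeff n = ∑ i, ζ i * hasseDeriv n (grad f P v i) :=
    fun n => expand3_coeff_one f P v ζ n
  have e0 : ((expand3 f P v ζ).coeff 1).coeff 0 = 0 := by
    rw [hcoef]
    simp only [hasseDeriv_zero']
    have h1 : ∑ i, ζ i * grad f P v i =
        a₁ * C p * a₀ + a₁ * X * a - a₁ * X * a₀ - B * a₁ := by
      calc ∑ i, ζ i * grad f P v i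
          = ∑ i, (a₁ * C p * (C (ξ₀ i) * grad f P v i) + a₁ * X * (C (ξ i) * grad f P v i)
              - a₁ * X * (C (ξ₀ i) * grad f P v i) - B * (C (ξ₁ i) * grad f P v i)) := by
            refine Finset.sum_congr rfl fun i _ => ?_
            simp only [ζ]
            ring
        _ = _ := by
            rw [Finset.sum_sub_distrib, Finset.sum_sub_distrib, Finset.sum_add_distrib,
              ← Finset.mul_sum, ← Finset.mul_sum, ← Finset.mul_sum, ← Finset.mul_sum]
            rfl
    rw [h1]
    simp only [B]
    ring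
  have e1 : ∀ n, (((expand3 f P v ζ).coeff 1).coeff n).eval 0 =
      a₁.coeff 0 * p * a₀.coeff n := by
    intro n
    rw [hcoef, eval_finsetSum, ha₀, coeff_dirD f P v ξ₀ n, Finset.mul_sum]
    refine Finset.sum_congr rfl fun i _ => ?_
    rw [eval_mul, hζ0, ← coeff_zero_eq_eval_zero (hasseDeriv n _), hasseDeriv_coeff]
    simp only [zero_add, Nat.choose_self, Nat.cast_one, one_mul]
    ring
  have e2 : (((expand3 f P v ζ).coeff 1).coeff 1).eval p =
      a₁.eval p * p * (derivative a).eval p := by
    rw [hcoef, eval_finsetSum, ha, eval_derivative_dirD f P v ξ p, Finset.mul_sum]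
    refine Finset.sum_congr rfl fun i _ => ?_
    rw [eval_mul, hζp, hasseDeriv_one']
    ring
  have e2ne : (((expand3 f P v ζ).coeff 1).coeff 1).eval p ≠ 0 := by
    rw [e2]; exact mul_ne_zero (mul_ne_zero hp1 hp) hξ'
  set α := ((expand3 f P v ζ).coeff 1).coeff 1 with hα
  set ε := ((expand3 f P v ζ).coeff 2).coeff 0 with hε
  have hαne : α ≠ 0 := by
    rintro h; rw [h] at e2ne; simp at e2ne
  have hα0 : α.coeff 0 = 0 := by
    rw [coeff_zero_eq_eval_zero, hα, e1, h01, mul_zero]
  have hγ : (((expand3 f P v ζ).coeff 1).coeff 2).coeff 0 ≠ 0 := by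
    rw [coeff_zero_eq_eval_zero, e1]
    exact mul_ne_zero (mul_ne_zero h10 hp) h02
  -- the conclusion of `family_vanish`
  have key : ∀ w : K, w ≠ 0 → w ^ 2 - ε.coeff 0 ≠ 0 → ∀ T : K,
      MvPolynomial.eval (fun i => P i + p * v i +
        T * ((w ^ 2 - ε.eval p) * v i + α.eval p * (ζ i).eval p)) G = 0 := by
    intro w hw hw2 T
    exact family_vanish f G hf hG P v hline ζ w hw e0 hαne hα0 hγ hw2 p T
  -- the polynomial in the direction `v`
  let κ : K := α.eval p * (a₁.eval p * p)
  have hκ : κ ≠ 0 := mul_ne_zero e2ne (mul_ne_zero hp1 hp)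
  let Q : K[X] := expand G (fun i => P i + p * v i + ξ i) v
  have hQ : ∀ w : K, w ≠ 0 → w ^ 2 - ε.coeff 0 ≠ 0 → Q.eval ((w ^ 2 - ε.eval p) * κ⁻¹) = 0 := by
    intro w hw hw2
    have h1 := key w hw hw2 κ⁻¹
    rw [eval_expand, MvPolynomial.aeval_eq_eval]
    rw [← h1]
    have hfun : (fun i => P i + p * v i + ξ i + (w ^ 2 - ε.eval p) * κ⁻¹ * v i) =
        (fun i => P i + p * v i +
          κ⁻¹ * ((w ^ 2 - ε.eval p) * v i + α.eval p * (ζ i).eval p)) := by
      funext i
      rw [hζp]
      have h2 : κ⁻¹ * (α.eval p * (a₁.eval p * p)) = 1 := inv_mul_cancel₀ hκ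
      linear_combination -ξ i * h2
    rw [hfun]
  have hQ0 : Q = 0 := by
    have hR : Q.comp ((X ^ 2 - C (ε.eval p)) * C κ⁻¹) = 0 := by
      have hfin : ((X * (X ^ 2 - C (ε.coeff 0)) : K[X])) ≠ 0 := by
        refine mul_ne_zero X_ne_zero ?_
        exact X_pow_sub_C_ne_zero (by norm_num) _
      refine eq_zero_of_cofinite (X * (X ^ 2 - C (ε.coeff 0)) : K[X]).roots.toFinset ?_
      intro w hw
      rw [Multiset.mem_toFinset, mem_roots hfin, IsRoot.def, eval_mul, eval_X, eval_sub, eval_pow,
        eval_X, eval_C, mul_eq_zero, not_or] at hw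
      rw [eval_comp]
      simp only [eval_mul, eval_sub, eval_pow, eval_X, eval_C]
      exact hQ w hw.1 hw.2
    rw [comp_eq_zero_iff] at hR
    rcases hR with hR | ⟨_, hR⟩
    · exact hR
    · exfalso
      have := congrArg (fun q : K[X] => q.coeff 2) hR
      simp [coeff_X_pow, coeff_C] at this
      exact hκ this
  have := congrArg (fun q : K[X] => q.eval 0) hQ0
  simp only [Q, eval_zero] at this
  rw [eval_expand, MvPolynomial.aeval_eq_eval] at this
  simpa using this

/-- Step 2 : `G` vanishes identically. -/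
theorem dense_of_line [CharZero K] (f G : MvPolynomial σ K) (hf : f.totalDegree ≤ 6)
    (hG : ∀ x : σ → K, IsSquare (MvPolynomial.eval x f) → MvPolynomial.eval x G = 0)
    (P v : σ → K) (hline : expand f P v = 0) (ξ₀ ξ₁ : σ → K)
    (h00 : (dirD f P v ξ₀).coeff 0 = 0) (h01 : (dirD f P v ξ₀).coeff 1 = 0)
    (h02 : (dirD f P v ξ₀).coeff 2 ≠ 0) (h10 : (dirD f P v ξ₁).coeff 0 ≠ 0) : G = 0 := by
  classical
  set a₀ := dirD f P v ξ₀ with ha₀
  set a₁ := dirD f P v ξ₁ with ha₁
  let W : (σ → K) → K[X] := fun y =>
    derivative (dirD f P v y) * a₁ - dirD f P v y * derivative a₁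
  have hW0 : W ξ₀ ≠ 0 := by
    intro h
    have h1 := congrArg (fun q : K[X] => q.coeff 1) h
    simp only [W] at h1
    rw [coeff_sub, mul_coeff_one, mul_coeff_one, coeff_derivative, coeff_derivative, ← ha₀,
      h00, h01, coeff_zero] at h1
    norm_num at h1
    rcases h1 with h1 | h1
    · exact h02 h1
    · exact h10 h1
  have hinf : ∀ q : K[X], q ≠ 0 → {x : K | q.eval x = 0}.Finite := by
    intro q hq
    refine q.roots.toFinset.finite_toSet.subset ?_
    intro x hx
    simp only [Finset.mem_coe, Multiset.mem_toFinset, mem_roots hq]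
    exact hx
  have ha₁0 : a₁ ≠ 0 := by rintro h; rw [h] at h10; simp at h10
  -- step 2a
  have s2a : ∀ y : σ → K, W y ≠ 0 → MvPolynomial.eval (fun i => P i + y i) G = 0 := by
    intro y hWy
    let Q : K[X] := expand G (fun i => P i + y i) (fun i => - ξ₁ i)
    have hQr : ∀ p : K, p ≠ 0 → a₁.eval p ≠ 0 → (W y).eval p ≠ 0 →
        Q.eval ((dirD f P v y).eval p / a₁.eval p) = 0 := by
      intro p hp hp1 hWp
      set r := (dirD f P v y).eval p / a₁.eval p with hr
      let ξ : σ → K := y + ((-p) • v + (-r) • ξ₁)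
      have hdir : dirD f P v ξ = dirD f P v y + C (-r) * a₁ := by
        simp only [ξ]
        rw [dirD_add, dirD_add, dirD_smul, dirD_smul, dirD_self f P v hline]
        ring
      have h1 : (dirD f P v ξ).eval p = 0 := by
        rw [hdir]
        simp only [eval_add, eval_mul, eval_C, hr]
        field_simp
        ring
      have h2 : (derivative (dirD f P v ξ)).eval p ≠ 0 := by
        have h3 : (derivative (dirD f P v ξ)).eval p * a₁.eval p = (W y).eval p := by
          rw [hdir]
          simp only [W, derivative_add, derivative_mul, derivative_C, zero_mul, zero_add, eval_add,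
            eval_mul, eval_C, eval_sub, hr]
          field_simp
          ring
        intro h4
        rw [h4, zero_mul] at h3
        exact hWp h3.symm
      have h5 := step1 f G hf hG P v hline ξ₀ ξ₁ h00 h01 h02 h10 p hp hp1 ξ h1 h2
      simp only [Q]
      rw [eval_expand, MvPolynomial.aeval_eq_eval]
      have hfun : (fun i => P i + y i + r * -ξ₁ i) = (fun i => P i + p * v i + ξ i) := by
        funext i
        simp only [ξ, Pi.add_apply, Pi.smul_apply, smul_eq_mul]
        ring
      rw [hfun]
      exact h5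
    have hQ0 : Q = 0 := by
      by_contra hne
      -- the set of good p is covered by finitely many finite sets
      have hcover : (Set.univ : Set K) ⊆ ({0} ∪ {p | a₁.eval p = 0} ∪ {p | (W y).eval p = 0}) ∪
          ⋃ ρ ∈ (Q.roots.toFinset : Set K), {p | (dirD f P v y - C ρ * a₁).eval p = 0} := by
        intro p _
        by_cases hp : p = 0
        · left; left; left; exact hp
        by_cases hp1 : a₁.eval p = 0
        · left; left; right; exact hp1
        by_cases hWp : (W y).eval p = 0
        · left; right; exact hWp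
        right
        have := hQr p hp hp1 hWp
        refine Set.mem_biUnion (x := (dirD f P v y).eval p / a₁.eval p) ?_ ?_
        · simp only [Finset.mem_coe, Multiset.mem_toFinset, mem_roots hne]
          exact this
        · show (dirD f P v y - C ((dirD f P v y).eval p / a₁.eval p) * a₁).eval p = 0
          rw [eval_sub, eval_mul, eval_C]
          field_simp
          ring
      refine Set.infinite_univ (α := K) (Set.Finite.subset ?_ hcover)
      refine ((((Set.finite_singleton 0).union (hinf _ ha₁0)).union (hinf _ hWy))).union ?_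
      refine Set.Finite.biUnion (Finset.finite_toSet _) ?_
      intro ρ _
      refine hinf _ ?_
      intro h
      apply hWy
      have h6 : dirD f P v y = C ρ * a₁ := sub_eq_zero.mp h
      simp only [W, h6, derivative_mul, derivative_C, zero_mul, zero_add]
      ring
    have := congrArg (fun q : K[X] => q.eval 0) hQ0
    simp only [Q, eval_zero] at this
    rw [eval_expand, MvPolynomial.aeval_eq_eval] at this
    simpa using this
  -- step 2b
  have s2b : ∀ y : σ → K, MvPolynomial.eval (fun i => P i + y i) G = 0 := by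
    intro y
    let Q : K[X] := expand G (fun i => P i + y i) ξ₀
    have hWlin : ∀ s : K, W (y + s • ξ₀) = W y + C s * W ξ₀ := by
      intro s
      simp only [W]
      rw [dirD_add, dirD_smul]
      simp only [derivative_add, derivative_mul, derivative_C, zero_mul, zero_add]
      ring
    have hbad : {s : K | W (y + s • ξ₀) = 0}.Subsingleton := by
      intro s hs t ht
      have hs' : W y + C s * W ξ₀ = 0 := by rw [← hWlin]; exact hs
      have ht' : W y + C t * W ξ₀ = 0 := by rw [← hWlin]; exact ht
      have h1 : C (s - t) * W ξ₀ = 0 := by rw [C_sub]; linear_combination hs' - ht'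
      rcases mul_eq_zero.mp h1 with h2 | h2
      · rw [C_eq_zero] at h2; exact sub_eq_zero.mp h2
      · exact absurd h2 hW0
    have hQ0 : Q = 0 := by
      refine eq_zero_of_cofinite hbad.finite.toFinset ?_
      intro s hs
      have hs' : W (y + s • ξ₀) ≠ 0 := by simpa using hs
      have := s2a _ hs'
      simp only [Q]
      rw [eval_expand, MvPolynomial.aeval_eq_eval]
      have hfun : (fun i => P i + y i + s * ξ₀ i) = (fun i => P i + (y + s • ξ₀) i) := by
        funext i
        simp only [Pi.add_apply, Pi.smul_apply, smul_eq_mul]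
        ring
      rw [hfun]
      exact this
    have := congrArg (fun q : K[X] => q.eval 0) hQ0
    simp only [Q, eval_zero] at this
    rw [eval_expand, MvPolynomial.aeval_eq_eval] at this
    simpa using this
  apply MvPolynomial.funext
  intro x
  have := s2b (fun i => x i - P i)
  simpa using this

end Line

end Pool.Agent.Work.PD
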