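import Mathlib
import Pool.Agent.Work.MP_b62148_ag.ExistLine
import Pool.Agent.Work.MP_b62148_ag.Line

/-!
Descent of the good line to a finite extension of the ground field.
-/

namespace Pool.Agent.Work.PD

open Polynomial

section

variable {k : Type*} [Field k] {σ : Type*} [Fintype σ]

theorem map_dirDE {R R' : Type*} [CommRing R] [Algebra k R] [CommRing R'] [Algebra k R']
    (φ : R →ₐ[k] R') (f : MvPolynomial σ k) (x y ξ : σ → R) :
    (dirDE f x y ξ).map (φ : R →+* R') =
      dirDE f (fun i => φ (x i)) (fun i => φ (y i)) (fun i => φ (ξ i)) := by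
  unfold dirDE
  rw [Polynomial.map_sum]
  refine Finset.sum_congr rfl fun i _ => ?_
  rw [Polynomial.map_mul, map_expand, map_C]
  rfl

theorem dirDE_map {L : Type*} [Field L] [Algebra k L] (f : MvPolynomial σ k) (P v ξ : σ → L) :
    dirD (MvPolynomial.map (algebraMap k L) f) P v ξ = dirDE f P v ξ := by
  unfold dirD dirDE grad
  refine Finset.sum_congr rfl fun i _ => ?_
  rw [MvPolynomial.pderiv_map]
  unfold expand
  rw [MvPolynomial.aeval_map_algebraMap]

omit [Fintype σ] in
theorem expand_map {L : Type*} [Field L] [Algebra k L] (f : MvPolynomial σ k) (P v : σ → L) :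
    expand (MvPolynomial.map (algebraMap k L) f) P v = expand f P v := by
  unfold expand
  rw [MvPolynomial.aeval_map_algebraMap]

/-- A system of polynomial equations and one inequation solvable in some extension is solvable in
a finite extension. -/
theorem exists_finite_solution {τ : Type*} [Finite τ] (I : Set (MvPolynomial τ k))
    (J : MvPolynomial τ k) {E : Type*} [Field E] [Algebra k E] (x : τ → E)
    (hI : ∀ p ∈ I, MvPolynomial.aeval x p = 0) (hJ : MvPolynomial.aeval x J ≠ 0) :
    ∃ (L : IntermediateField k (AlgebraicClosure k)) (_ : FiniteDimensional k L) (y : τ → L),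
      (∀ p ∈ I, MvPolynomial.aeval y p = 0) ∧ MvPolynomial.aeval y J ≠ 0 := by
  classical
  have h1 : J ∉ (Ideal.span I).radical := by
    rintro ⟨n, hn⟩
    have h2 : ∀ p ∈ Ideal.span I, MvPolynomial.aeval x p = 0 := by
      intro p hp
      refine Submodule.span_induction (p := fun p _ => MvPolynomial.aeval x p = 0) ?_ ?_ ?_ ?_ hp
      · exact hI
      · simp
      · intro a b _ _ ha hb; rw [map_add, ha, hb, add_zero]
      · intro a b _ hb; rw [smul_eq_mul, map_mul, hb, mul_zero]
    have h3 := h2 _ hn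
    rw [map_pow] at h3
    exact hJ (eq_zero_of_pow_eq_zero h3)
  rw [← MvPolynomial.vanishingIdeal_zeroLocus_eq_radical (K := AlgebraicClosure k),
    MvPolynomial.mem_vanishingIdeal_iff] at h1
  push Not at h1
  obtain ⟨z, hz, hzJ⟩ := h1
  rw [MvPolynomial.mem_zeroLocus_iff] at hz
  let L : IntermediateField k (AlgebraicClosure k) := IntermediateField.adjoin k (Set.range z)
  have hfd : FiniteDimensional k L := by
    apply IntermediateField.finiteDimensional_adjoin
    intro a _
    exact Algebra.IsIntegral.isIntegral a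
  let y : τ → L := fun i => ⟨z i, IntermediateField.subset_adjoin k _ ⟨i, rfl⟩⟩
  have hy : ∀ p : MvPolynomial τ k, algebraMap L (AlgebraicClosure k) (MvPolynomial.aeval y p) =
      MvPolynomial.aeval z p := by
    intro p
    rw [← MvPolynomial.aeval_algebraMap_apply]
    rfl
  refine ⟨L, hfd, y, ?_, ?_⟩
  · intro p hp
    apply (algebraMap L (AlgebraicClosure k)).injective
    rw [hy, map_zero]
    exact hz p (Ideal.subset_span hp)
  · intro h0
    apply hzJ
    rw [← hy, h0, map_zero]

omit [Fintype σ] in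
theorem generic_expand {τ : Type*} {E : Type*} [Field E] [Algebra k E] (f : MvPolynomial σ k)
    (a b : σ → τ) (x : τ → E) :
    (expand f (fun i => (MvPolynomial.X (a i) : MvPolynomial τ k))
      (fun i => MvPolynomial.X (b i))).map
      ((MvPolynomial.aeval x : MvPolynomial τ k →ₐ[k] E) : MvPolynomial τ k →+* E) =
      expand f (fun i => x (a i)) (fun i => x (b i)) := by
  rw [map_expand]
  congr 1
  · funext i; exact MvPolynomial.aeval_X _ _
  · funext i; exact MvPolynomial.aeval_X _ _

theorem generic_dirDE {τ : Type*} {E : Type*} [Field E] [Algebra k E] (f : MvPolynomial σ k)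
    (a b c : σ → τ) (x : τ → E) :
    (dirDE f (fun i => (MvPolynomial.X (a i) : MvPolynomial τ k))
      (fun i => MvPolynomial.X (b i)) (fun i => MvPolynomial.X (c i))).map
      ((MvPolynomial.aeval x : MvPolynomial τ k →ₐ[k] E) : MvPolynomial τ k →+* E) =
      dirDE f (fun i => x (a i)) (fun i => x (b i)) (fun i => x (c i)) := by
  rw [map_dirDE]
  congr 1
  · funext i; exact MvPolynomial.aeval_X _ _
  · funext i; exact MvPolynomial.aeval_X _ _
  · funext i; exact MvPolynomial.aeval_X _ _

/-- The data of a good line descends to a finite extension. -/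
theorem exists_finite_line (f : MvPolynomial σ k) {E : Type*} [Field E] [Algebra k E]
    (P v ξ₀ ξ₁ : σ → E) (hline : expand f P v = 0) (h00 : (dirDE f P v ξ₀).coeff 0 = 0)
    (h01 : (dirDE f P v ξ₀).coeff 1 = 0) (h02 : (dirDE f P v ξ₀).coeff 2 ≠ 0)
    (h10 : (dirDE f P v ξ₁).coeff 0 ≠ 0) :
    ∃ (L : IntermediateField k (AlgebraicClosure k)) (_ : FiniteDimensional k L)
      (P v ξ₀ ξ₁ : σ → L), expand f P v = 0 ∧ (dirDE f P v ξ₀).coeff 0 = 0 ∧
      (dirDE f P v ξ₀).coeff 1 = 0 ∧ (dirDE f P v ξ₀).coeff 2 ≠ 0 ∧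
      (dirDE f P v ξ₁).coeff 0 ≠ 0 := by
  classical
  let τ := σ × Fin 4
  let Xd : Fin 4 → σ → MvPolynomial τ k := fun j i => MvPolynomial.X (i, j)
  let A : (MvPolynomial τ k)[X] := expand f (Xd 0) (Xd 1)
  let B : (MvPolynomial τ k)[X] := dirDE f (Xd 0) (Xd 1) (Xd 2)
  let B' : (MvPolynomial τ k)[X] := dirDE f (Xd 0) (Xd 1) (Xd 3)
  let I : Set (MvPolynomial τ k) := Set.range (fun m => A.coeff m) ∪ {B.coeff 0, B.coeff 1}
  let J : MvPolynomial τ k := B.coeff 2 * B'.coeff 0
  let x : τ → E := fun ij => ![P, v, ξ₀, ξ₁] ij.2 ij.1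
  have evA := generic_expand f (fun i : σ => ((i, 0) : τ)) (fun i => (i, 1)) x
  have evB := generic_dirDE f (fun i : σ => ((i, 0) : τ)) (fun i => (i, 1)) (fun i => (i, 2)) x
  have evB' := generic_dirDE f (fun i : σ => ((i, 0) : τ)) (fun i => (i, 1)) (fun i => (i, 3)) x
  have e1 : (fun i : σ => x (i, 0)) = P := rfl
  have e2 : (fun i : σ => x (i, 1)) = v := rfl
  have e3 : (fun i : σ => x (i, 2)) = ξ₀ := rfl
  have e4 : (fun i : σ => x (i, 3)) = ξ₁ := rfl
  rw [e1, e2] at evA evB evB'
  rw [e3] at evB
  rw [e4] at evB'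
  obtain ⟨L, hL, y, hy1, hy2⟩ := exists_finite_solution I J x (by
    rintro p (⟨m, rfl⟩ | hp)
    · have := congrArg (fun q : E[X] => q.coeff m) evA
      simp only [coeff_map, hline, coeff_zero] at this
      exact this
    · rcases hp with rfl | rfl
      · have := congrArg (fun q : E[X] => q.coeff 0) evB
        simp only [coeff_map, h00] at this
        exact this
      · have := congrArg (fun q : E[X] => q.coeff 1) evB
        simp only [coeff_map, h01] at this
        exact this) (by
    have h1 := congrArg (fun q : E[X] => q.coeff 2) evB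
    have h2 := congrArg (fun q : E[X] => q.coeff 0) evB'
    simp only [coeff_map] at h1 h2
    show MvPolynomial.aeval x (B.coeff 2 * B'.coeff 0) ≠ 0
    rw [map_mul]
    refine mul_ne_zero ?_ ?_
    · intro h; exact h02 (h1.symm.trans h)
    · intro h; exact h10 (h2.symm.trans h))
  have evA := generic_expand f (fun i : σ => ((i, 0) : τ)) (fun i => (i, 1)) y
  have evB := generic_dirDE f (fun i : σ => ((i, 0) : τ)) (fun i => (i, 1)) (fun i => (i, 2)) y
  have evB' := generic_dirDE f (fun i : σ => ((i, 0) : τ)) (fun i => (i, 1)) (fun i => (i, 3)) y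
  refine ⟨L, hL, fun i => y (i, 0), fun i => y (i, 1), fun i => y (i, 2), fun i => y (i, 3),
    ?_, ?_, ?_, ?_, ?_⟩
  · rw [← evA]
    ext1 m
    rw [coeff_map, coeff_zero]
    exact hy1 _ (Or.inl ⟨m, rfl⟩)
  · rw [← evB, coeff_map]
    exact hy1 _ (Or.inr (Or.inl rfl))
  · rw [← evB, coeff_map]
    exact hy1 _ (Or.inr (Or.inr rfl))
  · rw [← evB, coeff_map]
    intro h
    apply hy2
    show MvPolynomial.aeval y (B.coeff 2 * B'.coeff 0) = 0
    rw [map_mul]
    exact mul_eq_zero_of_left h _
  · rw [← evB', coeff_map]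
    intro h
    apply hy2
    show MvPolynomial.aeval y (B.coeff 2 * B'.coeff 0) = 0
    rw [map_mul]
    exact mul_eq_zero_of_right _ h

end

end Pool.Agent.Work.PD
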