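import Mathlib
import Pool.Agent.Work.MP_b62148_ag.Curve
import Pool.Agent.Work.MP_b62148_ag.Line
import Pool.Agent.Work.MP_b62148_ag.Descent

/-!
Second density criterion for a polynomial of degree at most six vanishing on a line: some line
through a point `P` of the given line meets the hypersurface at `P` with multiplicity exactly three
and is not tangent to it along the plane spanned by the two lines.
-/

namespace Pool.Agent.Work.PD

open Polynomial

section Coeff

variable {K : Type*} [Field K] {R : Type*} [CommRing R] [Algebra K R] {σ : Type*} [Fintype σ]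

omit [Fintype σ] in
theorem expand_mul_X (p : MvPolynomial σ K) (j : σ) (x y : σ → R) :
    expand (p * MvPolynomial.X j) x y = expand p x y * (C (x j) + X * C (y j)) := by
  simp [expand]

omit [Fintype σ] in
theorem expand_add (p q : MvPolynomial σ K) (x y : σ → R) :
    expand (p + q) x y = expand p x y + expand q x y := by
  simp [expand]

omit [Fintype σ] in
theorem expand_mul (p q : MvPolynomial σ K) (x y : σ → R) :
    expand (p * q) x y = expand p x y * expand q x y := by
  simp [expand]

omit [Fintype σ] in
theorem coeff_two_expand_mul_X (p : MvPolynomial σ K) (j : σ) (x y : σ → R) :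
    (expand (p * MvPolynomial.X j) x y).coeff 2 =
      (expand p x y).coeff 2 * x j + (expand p x y).coeff 1 * y j := by
  rw [expand_mul_X, mul_add, coeff_add, coeff_mul_C, ← mul_assoc, coeff_mul_C, coeff_mul_X]

omit [Fintype σ] in
theorem coeff_one_expand_mul_X (p : MvPolynomial σ K) (j : σ) (x y : σ → R) :
    (expand (p * MvPolynomial.X j) x y).coeff 1 =
      (expand p x y).coeff 1 * x j + (expand p x y).coeff 0 * y j := by
  rw [expand_mul_X, mul_add, coeff_add, coeff_mul_C, ← mul_assoc, coeff_mul_C, coeff_mul_X]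

theorem coeff_two_expand_add_smul (f : MvPolynomial σ K) (x ξ v : σ → R) (τ : R) :
    (expand f x (fun i => ξ i + τ * v i)).coeff 2 =
      (expand f x ξ).coeff 2 + τ * (dirDE f x v ξ).coeff 1 + τ ^ 2 * (expand f x v).coeff 2 := by
  classical
  induction f using MvPolynomial.induction_on with
  | C a =>
    have h1 : ∀ y : σ → R, (expand (MvPolynomial.C a : MvPolynomial σ K) x y).coeff 2 = 0 := by
      intro y
      simp only [expand, MvPolynomial.aeval_C, Polynomial.algebraMap_apply, coeff_C]
      norm_num
    have h2 : (dirDE (MvPolynomial.C a : MvPolynomial σ K) x v ξ).coeff 1 = 0 := by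
      unfold dirDE
      simp [expand]
    rw [h1, h1, h1, h2]; ring
  | add p q hp hq =>
    have h2 : dirDE (p + q) x v ξ = dirDE p x v ξ + dirDE q x v ξ := by
      unfold dirDE
      rw [← Finset.sum_add_distrib]
      refine Finset.sum_congr rfl fun i _ => ?_
      rw [map_add, expand_add]; ring
    rw [expand_add, expand_add, expand_add, coeff_add, coeff_add, coeff_add, hp, hq, h2, coeff_add]
    ring
  | mul_X p j hp =>
    have h2 : (dirDE (p * MvPolynomial.X j) x v ξ).coeff 1 =
        (dirDE p x v ξ).coeff 1 * x j + (∑ i, ξ i * MvPolynomial.aeval x (MvPolynomial.pderiv i p)) * v j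
          + ξ j * (expand p x v).coeff 1 := by
      unfold dirDE
      rw [finsetSum_coeff, finsetSum_coeff, Finset.sum_mul, Finset.sum_mul]
      have e : ∀ i, (C (ξ i) * expand (MvPolynomial.pderiv i (p * MvPolynomial.X j)) x v).coeff 1 =
          (C (ξ i) * expand (MvPolynomial.pderiv i p) x v).coeff 1 * x j +
          ξ i * MvPolynomial.aeval x (MvPolynomial.pderiv i p) * v j +
          (if i = j then ξ j * (expand p x v).coeff 1 else 0) := by
        intro i
        rw [MvPolynomial.pderiv_mul, expand_add, mul_add, coeff_add, coeff_C_mul, coeff_C_mul,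
          coeff_C_mul, coeff_one_expand_mul_X, coeff_zero_expand, MvPolynomial.pderiv_X]
        split_ifs with h
        · subst h
          rw [Pi.single_eq_same, mul_one]
          ring
        · rw [Pi.single_eq_of_ne (Ne.symm h), mul_zero]
          simp [expand]
          ring
      simp only [e]
      rw [Finset.sum_add_distrib, Finset.sum_add_distrib, Finset.sum_ite_eq' Finset.univ j]
      simp
    rw [coeff_two_expand_mul_X, coeff_two_expand_mul_X, coeff_two_expand_mul_X, hp, h2,
      coeff_one_expand, coeff_one_expand, coeff_one_expand]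
    have h3 : ∑ i, (ξ i + τ * v i) * MvPolynomial.aeval x (MvPolynomial.pderiv i p) =
        (∑ i, ξ i * MvPolynomial.aeval x (MvPolynomial.pderiv i p)) +
          τ * ∑ i, v i * MvPolynomial.aeval x (MvPolynomial.pderiv i p) := by
      rw [Finset.mul_sum, ← Finset.sum_add_distrib]
      exact Finset.sum_congr rfl fun i _ => by ring
    rw [h3]
    ring

omit [Fintype σ] in
theorem coeff_expand_smul (f : MvPolynomial σ K) (x y : σ → R) (c : R) (n : ℕ) :
    (expand f x (fun i => c * y i)).coeff n = c ^ n * (expand f x y).coeff n := by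
  have h : expand f x (fun i => c * y i) = (expand f x y).comp (C c * X) := by
    unfold expand
    have h1 : (fun i => C (x i) + X * C (c * y i)) =
        fun i => ((aeval (C c * X : R[X]) : R[X] →ₐ[R] R[X]).restrictScalars K)
          (C (x i) + X * C (y i)) := by
      funext i
      simp only [AlgHom.restrictScalars_apply, map_add, map_mul, aeval_C, aeval_X, C_mul]
      rw [Polynomial.algebraMap_eq]
      ring
    rw [h1, ← MvPolynomial.comp_aeval_apply]
    simp only [AlgHom.restrictScalars_apply]
    rfl
  rw [h, comp_C_mul_X_coeff, mul_comm]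

end Coeff

section Dense

variable {K : Type*} [Field K] [CharZero K] {σ : Type*} [Fintype σ]

/-- Basic step: `ξ` has contact exactly three at `P`. -/
theorem plane_vanish (f G : MvPolynomial σ K) (hf : f.totalDegree ≤ 6)
    (hG : ∀ x : σ → K, IsSquare (MvPolynomial.eval x f) → MvPolynomial.eval x G = 0)
    (P v ξ : σ → K) (hline : expand f P v = 0) (h1 : (expand f P ξ).coeff 1 = 0)
    (h2 : (expand f P ξ).coeff 2 = 0) (h3 : (expand f P ξ).coeff 3 ≠ 0)
    (he : (dirDE f P v ξ).coeff 1 ≠ 0) (s τ : K) :
    MvPolynomial.eval (fun i => P i + s * (ξ i + τ * v i)) G = 0 := by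
  classical
  set e := (dirDE f P v ξ).coeff 1 with hedef
  let φ : K →ₐ[K] K[X] := Algebra.ofId K K[X]
  have hφ : ∀ c, φ c = C c := fun c => rfl
  let T : K[X] := C e⁻¹ * X ^ 2
  let u : σ → K[X] := fun i => C (ξ i) + T * C (v i)
  let γ : σ → K[X][X] := fun i => C (C (P i)) + X * C (u i)
  set E : K[X][X] := MvPolynomial.aeval γ f with hE
  have hEx : E = expand f (fun i => C (P i)) u := rfl
  have hfP : MvPolynomial.aeval P f = 0 := by
    rw [← coeff_zero_expand f P v, hline, coeff_zero]
  have hmapξ : expand f (fun i => (C (P i) : K[X])) (fun i => C (ξ i)) =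
      (expand f P ξ).map (C : K →+* K[X]) := (map_expand φ f P ξ).symm
  have hmapv : expand f (fun i => (C (P i) : K[X])) (fun i => C (v i)) =
      (expand f P v).map (C : K →+* K[X]) := (map_expand φ f P v).symm
  have hmapd : dirDE f (fun i => (C (P i) : K[X])) (fun i => C (v i)) (fun i => C (ξ i)) =
      (dirDE f P v ξ).map (C : K →+* K[X]) := (map_dirDE φ f P v ξ).symm
  have c0 : E.coeff 0 = 0 := by
    rw [hEx, coeff_zero_expand]
    have : (fun i => (C (P i) : K[X])) = (algebraMap K K[X]) ∘ P := rfl
    rw [this, MvPolynomial.aeval_algebraMap_apply, hfP, map_zero]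
  have c1 : E.coeff 1 = 0 := by
    have e1 : E.coeff 1 = (expand f (fun i => (C (P i) : K[X])) (fun i => C (ξ i))).coeff 1 +
        T * (expand f (fun i => (C (P i) : K[X])) (fun i => C (v i))).coeff 1 := by
      rw [hEx, coeff_one_expand, coeff_one_expand, coeff_one_expand, Finset.mul_sum,
        ← Finset.sum_add_distrib]
      refine Finset.sum_congr rfl fun i _ => ?_
      simp only [u]
      ring
    rw [e1, hmapξ, hmapv, coeff_map, coeff_map, h1, hline, coeff_zero, map_zero, mul_zero, add_zero]
  have c2 : E.coeff 2 = X ^ 2 := by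
    rw [hEx]
    have := coeff_two_expand_add_smul f (fun i => (C (P i) : K[X])) (fun i => C (ξ i))
      (fun i => C (v i)) T
    rw [this, hmapξ, hmapv, hmapd, coeff_map, coeff_map, coeff_map, h2, hline, coeff_zero,
      ← hedef, map_zero]
    simp only [T, mul_zero, add_zero, zero_add]
    rw [mul_right_comm, ← C_mul, inv_mul_cancel₀ he, C_1, one_mul]
  have c3 : (E.coeff 3).coeff 0 ≠ 0 := by
    have h4 : (E.map ((Polynomial.aeval (0 : K) : K[X] →ₐ[K] K) : K[X] →+* K)) =
        expand f P ξ := by
      rw [hEx, map_expand]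
      congr 1
      · funext i
        rw [Polynomial.aeval_C]; rfl
      · funext i
        simp only [u, T, map_add, map_mul, map_pow, Polynomial.aeval_X]
        rw [Polynomial.aeval_C]
        simp
    have h5 := congrArg (fun q : K[X] => q.coeff 3) h4
    simp only [coeff_map] at h5
    rw [coeff_zero_eq_eval_zero]
    intro h6
    apply h3
    rw [← h5]
    simpa [Polynomial.coe_aeval_eq_eval] using h6
  have hdeg : E.natDegree ≤ 6 := by
    rw [hEx]; exact natDegree_expand_le f hf _ _
  have key := curve_vanish f G hG γ E hE hdeg c0 c1 c2 c3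
  have hGx : expand G (fun i => (C (P i) : K[X])) u = 0 := key
  -- evaluate
  have hval : ∀ w : K, MvPolynomial.eval (fun i => P i + s * (ξ i + (e⁻¹ * w ^ 2) * v i)) G = 0 := by
    intro w
    have h5 := map_expand (Polynomial.aeval (w : K) : K[X] →ₐ[K] K) G (fun i => (C (P i) : K[X])) u
    rw [hGx, Polynomial.map_zero] at h5
    have h6 := congrArg (fun q : K[X] => q.eval s) h5.symm
    simp only [eval_zero] at h6
    rw [eval_expand, MvPolynomial.aeval_eq_eval] at h6
    rw [← h6]
    have hfun : (fun i => P i + s * (ξ i + (e⁻¹ * w ^ 2) * v i)) =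
        (fun i => (Polynomial.aeval (w : K) : K[X] →ₐ[K] K) (C (P i)) +
          s * (Polynomial.aeval (w : K) : K[X] →ₐ[K] K) (u i)) := by
      funext i
      simp only [u, T, map_add, map_mul, map_pow, Polynomial.aeval_X, Polynomial.aeval_C,
        Algebra.algebraMap_self, RingHom.id_apply]
    rw [hfun]
  -- polynomial in τ
  let Q : K[X] := expand G (fun i => P i + s * ξ i) (fun i => s * v i)
  have hQ0 : Q = 0 := by
    refine eq_zero_of_infinite_isRoot _ ?_
    have hinf : (Set.range fun n : ℕ => e⁻¹ * (n : K) ^ 2).Infinite := by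
      refine Set.infinite_range_of_injective ?_
      intro m n hmn
      have h7 : ((m : K)) ^ 2 = ((n : K)) ^ 2 := mul_left_cancel₀ (inv_ne_zero he) hmn
      have h8 : (m ^ 2 : ℕ) = (n ^ 2 : ℕ) := by exact_mod_cast h7
      exact Nat.pow_left_injective (two_ne_zero) h8
    refine hinf.mono ?_
    rintro _ ⟨n, rfl⟩
    show Q.eval (e⁻¹ * (n : K) ^ 2) = 0
    simp only [Q]
    rw [eval_expand, MvPolynomial.aeval_eq_eval, ← hval n]
    have hfun : (fun i => P i + s * ξ i + (e⁻¹ * (n : K) ^ 2) * (s * v i)) =
        (fun i => P i + s * (ξ i + (e⁻¹ * (n : K) ^ 2) * v i)) := by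
      funext i; ring
    rw [hfun]
  have h9 := congrArg (fun q : K[X] => q.eval τ) hQ0
  simp only [Q, eval_zero] at h9
  rw [eval_expand, MvPolynomial.aeval_eq_eval] at h9
  rw [← h9]
  have hfun : (fun i => P i + s * (ξ i + τ * v i)) =
      (fun i => P i + s * ξ i + τ * (s * v i)) := by
    funext i; ring
  rw [hfun]

/-- value of the mixed second derivative -/
noncomputable def ee {R : Type*} [CommRing R] [Algebra K R] (f : MvPolynomial σ K)
    (P v ξ : σ → R) : R := (dirDE f P v ξ).coeff 1

/-- the cubic form of `f` at `P` in the asymptotic direction of the plane spanned by `v`, `ξ` -/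
noncomputable def nn {R : Type*} [CommRing R] [Algebra K R] (f : MvPolynomial σ K)
    (P v ξ : σ → R) : R :=
  (expand f P (fun i => ee f P v ξ * ξ i - (expand f P ξ).coeff 2 * v i)).coeff 3

omit [CharZero K] in
theorem map_ee {R R' : Type*} [CommRing R] [Algebra K R] [CommRing R'] [Algebra K R']
    (φ : R →ₐ[K] R') (f : MvPolynomial σ K) (P v ξ : σ → R) :
    φ (ee f P v ξ) = ee f (fun i => φ (P i)) (fun i => φ (v i)) (fun i => φ (ξ i)) := by
  unfold ee
  rw [← map_dirDE, coeff_map]
  rfl

omit [CharZero K] in
theorem map_nn {R R' : Type*} [CommRing R] [Algebra K R] [CommRing R'] [Algebra K R']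
    (φ : R →ₐ[K] R') (f : MvPolynomial σ K) (P v ξ : σ → R) :
    φ (nn f P v ξ) = nn f (fun i => φ (P i)) (fun i => φ (v i)) (fun i => φ (ξ i)) := by
  unfold nn
  have h1 : (fun i => ee f (fun i => φ (P i)) (fun i => φ (v i)) (fun i => φ (ξ i)) * φ (ξ i) -
      (expand f (fun i => φ (P i)) (fun i => φ (ξ i))).coeff 2 * φ (v i)) =
      (fun i => φ (ee f P v ξ * ξ i - (expand f P ξ).coeff 2 * v i)) := by
    funext i
    rw [map_sub, map_mul, map_mul, map_ee, ← map_expand, coeff_map]
    rfl
  rw [h1, ← map_expand, coeff_map]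
  rfl

/-- Step 1. -/
theorem vanish_of_good (f G : MvPolynomial σ K) (hf : f.totalDegree ≤ 6)
    (hG : ∀ x : σ → K, IsSquare (MvPolynomial.eval x f) → MvPolynomial.eval x G = 0)
    (P v ξ : σ → K) (hline : expand f P v = 0) (h1 : (expand f P ξ).coeff 1 = 0)
    (he : ee f P v ξ ≠ 0) (hn : nn f P v ξ ≠ 0) :
    MvPolynomial.eval (fun i => P i + ξ i) G = 0 := by
  classical
  set e := ee f P v ξ with hedef
  set q := (expand f P ξ).coeff 2 with hq
  -- the direction with vanishing second order term
  let ξ' : σ → K := fun i => e * ξ i - q * v i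
  have hξ' : ξ' = fun i => e * (ξ i + (-(q / e)) * v i) := by
    funext i
    simp only [ξ']
    field_simp
    ring
  have hv1 : (expand f P v).coeff 1 = 0 := by rw [hline, coeff_zero]
  have a1 : (expand f P (fun i => ξ i + (-(q / e)) * v i)).coeff 1 = 0 := by
    rw [coeff_one_expand] at h1 hv1 ⊢
    calc ∑ i, (ξ i + -(q / e) * v i) * MvPolynomial.aeval P (MvPolynomial.pderiv i f)
        = (∑ i, ξ i * MvPolynomial.aeval P (MvPolynomial.pderiv i f)) +
          (-(q / e)) * ∑ i, v i * MvPolynomial.aeval P (MvPolynomial.pderiv i f) := by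
          rw [Finset.mul_sum, ← Finset.sum_add_distrib]
          exact Finset.sum_congr rfl fun i _ => by ring
      _ = 0 := by rw [h1, hv1]; ring
  have a2 : (expand f P (fun i => ξ i + (-(q / e)) * v i)).coeff 2 = 0 := by
    rw [coeff_two_expand_add_smul, hline, coeff_zero]
    have : (dirDE f P v ξ).coeff 1 = e := rfl
    rw [this, ← hq]
    field_simp
    ring
  have b1 : (expand f P ξ').coeff 1 = 0 := by
    rw [hξ', coeff_expand_smul, a1, mul_zero]
  have b2 : (expand f P ξ').coeff 2 = 0 := by
    rw [hξ', coeff_expand_smul, a2, mul_zero]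
  have b3 : (expand f P ξ').coeff 3 ≠ 0 := hn
  have be : (dirDE f P v ξ').coeff 1 ≠ 0 := by
    have h2 : dirDE f P v ξ' = C e * dirDE f P v ξ + C (-q) * dirDE f P v v := by
      rw [← dirDE_smul, ← dirDE_smul, ← dirDE_add]
      congr 1
      funext i
      simp only [ξ', Pi.add_apply, Pi.smul_apply, smul_eq_mul]
      ring
    have h3 : dirDE f P v v = 0 := dirD_self f P v hline
    rw [h2, h3, mul_zero, add_zero, coeff_C_mul]
    exact mul_ne_zero he he
  have := plane_vanish f G hf hG P v ξ' hline b1 b2 b3 be e⁻¹ q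
  have hfun : (fun i => P i + e⁻¹ * (ξ' i + q * v i)) = fun i => P i + ξ i := by
    funext i
    simp only [ξ']
    field_simp
    ring
  rwa [hfun] at this

omit [CharZero K] in
theorem ee_smul {R : Type*} [CommRing R] [Algebra K R] (f : MvPolynomial σ K) (P v ξ : σ → R)
    (c : R) : ee f P v (fun i => c * ξ i) = c * ee f P v ξ := by
  unfold ee
  have : dirDE f P v (fun i => c * ξ i) = C c * dirDE f P v ξ := by
    unfold dirDE
    rw [Finset.mul_sum]
    refine Finset.sum_congr rfl fun i _ => ?_
    rw [C_mul]; ring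
  rw [this, coeff_C_mul]

omit [CharZero K] in
theorem nn_smul {R : Type*} [CommRing R] [Algebra K R] (f : MvPolynomial σ K) (P v ξ : σ → R)
    (c : R) : nn f P v (fun i => c * ξ i) = c ^ 6 * nn f P v ξ := by
  unfold nn
  have : (fun i => ee f P v (fun i => c * ξ i) * (c * ξ i) -
      (expand f P (fun i => c * ξ i)).coeff 2 * v i) =
      fun i => c ^ 2 * (ee f P v ξ * ξ i - (expand f P ξ).coeff 2 * v i) := by
    funext i
    rw [ee_smul, coeff_expand_smul]
    ring
  rw [this, coeff_expand_smul]
  ring

omit [CharZero K] [Fintype σ] in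
theorem expand_shift (f : MvPolynomial σ K) (P v : σ → K) (hline : expand f P v = 0) (p : K) :
    expand f (fun i => P i + p * v i) v = 0 := by
  have h : expand f (fun i => P i + p * v i) v = (expand f P v).comp (X + C p) := by
    unfold expand
    have h1 : (fun i => C (P i + p * v i) + X * C (v i)) =
        fun i => ((aeval (X + C p : K[X]) : K[X] →ₐ[K] K[X])) (C (P i) + X * C (v i)) := by
      funext i
      simp only [map_add, map_mul, aeval_X, aeval_C, Polynomial.algebraMap_eq]
      ring
    rw [h1, ← MvPolynomial.comp_aeval_apply]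
    rfl
  rw [h, hline, zero_comp]

/-- Step A: the family of all tangent planes along the line. -/
theorem stepA (f G : MvPolynomial σ K) (hf : f.totalDegree ≤ 6)
    (hG : ∀ x : σ → K, IsSquare (MvPolynomial.eval x f) → MvPolynomial.eval x G = 0)
    (P v ξ ζ : σ → K) (hline : expand f P v = 0) (h1 : (expand f P ξ).coeff 1 = 0)
    (he : ee f P v ξ ≠ 0) (hn : nn f P v ξ ≠ 0) (hζ : (expand f P ζ).coeff 1 ≠ 0)
    (p : K) (y : σ → K) :
    MvPolynomial.eval (fun i => P i + p * v i +
      ((expand f (fun i => P i + p * v i) ζ).coeff 1 * y i -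
        (expand f (fun i => P i + p * v i) y).coeff 1 * ζ i)) G = 0 := by
  classical
  -- everything over K[t]
  let Pt : σ → K[X] := fun i => C (P i) + X * C (p * v i)
  let yt : σ → K[X] := fun i => C (ξ i) + X * C (y i - ξ i)
  let vt : σ → K[X] := fun i => C (v i)
  let ζt : σ → K[X] := fun i => C (ζ i)
  let ξt : σ → K[X] := fun i => (expand f Pt ζt).coeff 1 * yt i - (expand f Pt yt).coeff 1 * ζt i
  -- evaluation at t
  have evP : ∀ t : K, (fun i => (aeval t : K[X] →ₐ[K] K) (Pt i)) = fun i => P i + (t * p) * v i := by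
    intro t; funext i
    simp only [Pt, map_add, map_mul, aeval_X, aeval_C, Algebra.algebraMap_self, RingHom.id_apply]
    ring
  have evy : ∀ t : K, (fun i => (aeval t : K[X] →ₐ[K] K) (yt i)) =
      fun i => ξ i + t * (y i - ξ i) := by
    intro t; funext i
    simp only [yt, map_add, map_mul, aeval_X, aeval_C, Algebra.algebraMap_self, RingHom.id_apply]
  have evv : ∀ t : K, (fun i => (aeval t : K[X] →ₐ[K] K) (vt i)) = v := by
    intro t; funext i
    simp only [vt, aeval_C, Algebra.algebraMap_self, RingHom.id_apply]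
  have evζ : ∀ t : K, (fun i => (aeval t : K[X] →ₐ[K] K) (ζt i)) = ζ := by
    intro t; funext i
    simp only [ζt, aeval_C, Algebra.algebraMap_self, RingHom.id_apply]
  have evξ : ∀ t : K, (fun i => (aeval t : K[X] →ₐ[K] K) (ξt i)) =
      fun i => (expand f (fun i => P i + (t * p) * v i) ζ).coeff 1 * (ξ i + t * (y i - ξ i)) -
        (expand f (fun i => P i + (t * p) * v i) (fun i => ξ i + t * (y i - ξ i))).coeff 1 * ζ i := by
    intro t; funext i
    simp only [ξt, map_sub, map_mul]
    have e1 := map_expand (aeval t : K[X] →ₐ[K] K) f Pt ζt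
    have e2 := map_expand (aeval t : K[X] →ₐ[K] K) f Pt yt
    rw [evP, evζ] at e1
    rw [evP, evy] at e2
    have e1' := congrArg (fun q : K[X] => q.coeff 1) e1
    have e2' := congrArg (fun q : K[X] => q.coeff 1) e2
    simp only [coeff_map, RingHom.coe_coe] at e1' e2'
    rw [e1', e2']
    have e3 : (aeval t : K[X] →ₐ[K] K) (yt i) = ξ i + t * (y i - ξ i) := congrFun (evy t) i
    have e4 : (aeval t : K[X] →ₐ[K] K) (ζt i) = ζ i := congrFun (evζ t) i
    rw [e3, e4]
  let N : K[X] := ee f Pt vt ξt * nn f Pt vt ξt
  have hNt : ∀ t : K, N.eval t = ee f (fun i => P i + (t * p) * v i) v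
        (fun i => (aeval t : K[X] →ₐ[K] K) (ξt i)) *
      nn f (fun i => P i + (t * p) * v i) v (fun i => (aeval t : K[X] →ₐ[K] K) (ξt i)) := by
    intro t
    have e1 := map_ee (aeval t : K[X] →ₐ[K] K) f Pt vt ξt
    have e2 := map_nn (aeval t : K[X] →ₐ[K] K) f Pt vt ξt
    rw [evP, evv] at e1 e2
    rw [← e1, ← e2, ← map_mul, Polynomial.coe_aeval_eq_eval]
  have hN0 : N ≠ 0 := by
    intro h0
    have h2 := hNt 0
    rw [h0, eval_zero, evξ 0] at h2
    have h3 : (fun i => P i + (0 * p) * v i) = P := by funext i; ring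
    have h4 : (fun i => ξ i + 0 * (y i - ξ i)) = ξ := by funext i; ring
    have h5 : (fun i => (expand f P ζ).coeff 1 * (ξ i + 0 * (y i - ξ i)) -
        (expand f P ξ).coeff 1 * ζ i) = fun i => (expand f P ζ).coeff 1 * ξ i := by
      funext i; rw [h1]; ring
    rw [h3, h4, h5, ee_smul, nn_smul] at h2
    exact (mul_ne_zero (mul_ne_zero hζ he) (mul_ne_zero (pow_ne_zero 6 hζ) hn)) h2.symm
  -- the polynomial to vanish
  let Q : K[X] := MvPolynomial.aeval (fun i => Pt i + ξt i) G
  have hQt : ∀ t : K, Q.eval t = MvPolynomial.eval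
      (fun i => (aeval t : K[X] →ₐ[K] K) (Pt i) + (aeval t : K[X] →ₐ[K] K) (ξt i)) G := by
    intro t
    simp only [Q]
    rw [← Polynomial.coe_aeval_eq_eval, MvPolynomial.comp_aeval_apply, ← MvPolynomial.aeval_eq_eval]
    simp only [map_add]
  have hQ0 : Q = 0 := by
    refine eq_zero_of_cofinite N.roots.toFinset ?_
    intro t ht
    rw [Multiset.mem_toFinset, mem_roots hN0, IsRoot.def, hNt, mul_eq_zero, not_or] at ht
    rw [hQt]
    have h6 : (fun i => (aeval t : K[X] →ₐ[K] K) (Pt i) + (aeval t : K[X] →ₐ[K] K) (ξt i)) =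
        fun i => (P i + (t * p) * v i) + (aeval t : K[X] →ₐ[K] K) (ξt i) := by
      funext i
      have : (aeval t : K[X] →ₐ[K] K) (Pt i) = P i + (t * p) * v i := congrFun (evP t) i
      rw [this]
    rw [h6]
    refine vanish_of_good f G hf hG _ v _ (expand_shift f P v hline (t * p)) ?_ ht.1 ht.2
    rw [coeff_one_expand]
    have h7 : ∀ i, (aeval t : K[X] →ₐ[K] K) (ξt i) = _ := fun i => congrFun (evξ t) i
    simp only [h7]
    set P' : σ → K := fun i => P i + (t * p) * v i with hP'
    set y' : σ → K := fun i => ξ i + t * (y i - ξ i) with hy'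
    have h8 : ∀ i, ((expand f P' ζ).coeff 1 * (ξ i + t * (y i - ξ i)) -
        (expand f P' y').coeff 1 * ζ i) * MvPolynomial.aeval P' (MvPolynomial.pderiv i f) =
        (expand f P' ζ).coeff 1 * (y' i * MvPolynomial.aeval P' (MvPolynomial.pderiv i f)) -
        (expand f P' y').coeff 1 * (ζ i * MvPolynomial.aeval P' (MvPolynomial.pderiv i f)) := by
      intro i; simp only [hy']; ring
    simp only [h8]
    rw [Finset.sum_sub_distrib, ← Finset.mul_sum, ← Finset.mul_sum, ← coeff_one_expand,
      ← coeff_one_expand]
    ring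
  have h9 := hQt 1
  rw [hQ0, eval_zero] at h9
  have h10 : (fun i => (aeval (1 : K) : K[X] →ₐ[K] K) (Pt i) + (aeval (1 : K) : K[X] →ₐ[K] K) (ξt i)) =
      (fun i => P i + p * v i +
      ((expand f (fun i => P i + p * v i) ζ).coeff 1 * y i -
        (expand f (fun i => P i + p * v i) y).coeff 1 * ζ i)) := by
    have e1 := evP 1
    have e2 := evξ 1
    have e3 : (fun i => ξ i + 1 * (y i - ξ i)) = y := by funext i; ring
    rw [e3] at e2
    have e6 : (fun i => P i + (1 * p) * v i) = fun i => P i + p * v i := by funext i; ring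
    rw [e6] at e1 e2
    funext i
    have e4 : (aeval (1 : K) : K[X] →ₐ[K] K) (Pt i) = P i + p * v i := congrFun e1 i
    have e5 : (aeval (1 : K) : K[X] →ₐ[K] K) (ξt i) = _ := congrFun e2 i
    rw [e4, e5]
    have e7 : ξ i + 1 * (y i - ξ i) = y i := by ring
    rw [e7]
  rw [h10] at h9
  exact h9.symm

omit [CharZero K] in
theorem coeff_one_shift (f : MvPolynomial σ K) (P v y : σ → K) (p : K) :
    (expand f (fun i => P i + p * v i) y).coeff 1 = (dirD f P v y).eval p := by
  rw [coeff_one_expand, eval_dirD]
  refine Finset.sum_congr rfl fun i _ => ?_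
  unfold grad
  rw [eval_expand]

/-- Step B: `G` vanishes identically. -/
theorem dense_of_line2 (f G : MvPolynomial σ K) (hf : f.totalDegree ≤ 6)
    (hG : ∀ x : σ → K, IsSquare (MvPolynomial.eval x f) → MvPolynomial.eval x G = 0)
    (P v ξ ζ : σ → K) (hline : expand f P v = 0) (h1 : (expand f P ξ).coeff 1 = 0)
    (he : ee f P v ξ ≠ 0) (hn : nn f P v ξ ≠ 0) (hζ : (expand f P ζ).coeff 1 ≠ 0) : G = 0 := by
  classical
  have hP0 : (fun i => P i + (0 : K) * v i) = P := by funext i; ring
  have hζ' : (dirD f P v ζ).coeff 0 ≠ 0 := by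
    rw [coeff_zero_eq_eval_zero, ← coeff_one_shift, hP0]; exact hζ
  have hξ0 : (dirD f P v ξ).coeff 0 = 0 := by
    rw [coeff_zero_eq_eval_zero, ← coeff_one_shift, hP0]; exact h1
  have hξ1 : (dirD f P v ξ).coeff 1 ≠ 0 := he
  set a₁ := dirD f P v ζ with ha₁
  let W : (σ → K) → K[X] := fun y =>
    derivative (dirD f P v y) * a₁ - dirD f P v y * derivative a₁
  have hW0 : W ξ ≠ 0 := by
    intro h
    have h2 := congrArg (fun q : K[X] => q.coeff 0) h
    simp only [W] at h2
    rw [coeff_sub, mul_coeff_zero, mul_coeff_zero, coeff_derivative, hξ0, zero_mul, sub_zero,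
      coeff_zero] at h2
    norm_num at h2
    rcases h2 with h2 | h2
    · exact hξ1 h2
    · exact hζ' h2
  have hinf : ∀ q : K[X], q ≠ 0 → {x : K | q.eval x = 0}.Finite := by
    intro q hq
    refine q.roots.toFinset.finite_toSet.subset ?_
    intro x hx
    simp only [Finset.mem_coe, Multiset.mem_toFinset, mem_roots hq]
    exact hx
  have ha₁0 : a₁ ≠ 0 := by rintro h; rw [h] at hζ'; simp at hζ'
  -- step 2a
  have s2a : ∀ y : σ → K, W y ≠ 0 → MvPolynomial.eval (fun i => P i + y i) G = 0 := by
    intro y hWy
    let Q : K[X] := expand G (fun i => P i + y i) (fun i => - ζ i)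
    have hQr : ∀ p : K, a₁.eval p ≠ 0 → Q.eval ((dirD f P v y).eval p / a₁.eval p) = 0 := by
      intro p hp1
      set r := (dirD f P v y).eval p / a₁.eval p with hr
      let y' : σ → K := fun i => (a₁.eval p)⁻¹ * (y i - p * v i)
      have h5 := stepA f G hf hG P v ξ ζ hline h1 he hn hζ p y'
      rw [coeff_one_shift, coeff_one_shift] at h5
      have h6 : (dirD f P v y').eval p = r := by
        have : dirD f P v y' = C (a₁.eval p)⁻¹ * dirD f P v y + C (-(a₁.eval p)⁻¹ * p) *
            dirD f P v v := by
          rw [← dirD_smul, ← dirD_smul, ← dirD_add]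
          congr 1
          funext i
          simp only [y', Pi.add_apply, Pi.smul_apply, smul_eq_mul]
          ring
        rw [this, dirD_self f P v hline, mul_zero, add_zero, eval_mul, eval_C, hr]
        field_simp
      rw [h6, ← ha₁] at h5
      simp only [Q]
      rw [eval_expand, MvPolynomial.aeval_eq_eval]
      have hfun : (fun i => P i + y i + r * -ζ i) =
          (fun i => P i + p * v i + (a₁.eval p * y' i - r * ζ i)) := by
        funext i
        simp only [y']
        have : a₁.eval p * ((a₁.eval p)⁻¹ * (y i - p * v i)) = y i - p * v i := by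
          field_simp
        rw [this]
        ring
      rw [hfun]
      exact h5
    have hQ0 : Q = 0 := by
      by_contra hne
      have hcover : (Set.univ : Set K) ⊆ {p | a₁.eval p = 0} ∪
          ⋃ ρ ∈ (Q.roots.toFinset : Set K), {p | (dirD f P v y - C ρ * a₁).eval p = 0} := by
        intro p _
        by_cases hp1 : a₁.eval p = 0
        · left; exact hp1
        right
        have := hQr p hp1
        refine Set.mem_biUnion (x := (dirD f P v y).eval p / a₁.eval p) ?_ ?_
        · simp only [Finset.mem_coe, Multiset.mem_toFinset, mem_roots hne]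
          exact this
        · show (dirD f P v y - C ((dirD f P v y).eval p / a₁.eval p) * a₁).eval p = 0
          rw [eval_sub, eval_mul, eval_C]
          field_simp
          ring
      refine Set.infinite_univ (α := K) (Set.Finite.subset ?_ hcover)
      refine (hinf _ ha₁0).union ?_
      refine Set.Finite.biUnion (Finset.finite_toSet _) ?_
      intro ρ _
      refine hinf _ ?_
      intro h
      apply hWy
      have h6 : dirD f P v y = C ρ * a₁ := sub_eq_zero.mp h
      simp only [W, h6, derivative_mul, derivative_C, zero_mul, zero_add]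
      ring
    have := congrArg (fun q : K[X] => q.eval 0) hQ0
    simp only [Q, eval_zero] at this
    rw [eval_expand, MvPolynomial.aeval_eq_eval] at this
    simpa using this
  -- step 2b
  have s2b : ∀ y : σ → K, MvPolynomial.eval (fun i => P i + y i) G = 0 := by
    intro y
    let Q : K[X] := expand G (fun i => P i + y i) ξ
    have hWlin : ∀ s : K, W (y + s • ξ) = W y + C s * W ξ := by
      intro s
      simp only [W]
      rw [dirD_add, dirD_smul]
      simp only [derivative_add, derivative_mul, derivative_C, zero_mul, zero_add]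
      ring
    have hbad : {s : K | W (y + s • ξ) = 0}.Subsingleton := by
      intro s hs t ht
      have hs' : W y + C s * W ξ = 0 := by rw [← hWlin]; exact hs
      have ht' : W y + C t * W ξ = 0 := by rw [← hWlin]; exact ht
      have h1 : C (s - t) * W ξ = 0 := by rw [C_sub]; linear_combination hs' - ht'
      rcases mul_eq_zero.mp h1 with h2 | h2
      · rw [C_eq_zero] at h2; exact sub_eq_zero.mp h2
      · exact absurd h2 hW0
    have hQ0 : Q = 0 := by
      refine eq_zero_of_cofinite hbad.finite.toFinset ?_
      intro s hs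
      have hs' : W (y + s • ξ) ≠ 0 := by simpa using hs
      have := s2a _ hs'
      simp only [Q]
      rw [eval_expand, MvPolynomial.aeval_eq_eval]
      have hfun : (fun i => P i + y i + s * ξ i) = (fun i => P i + (y + s • ξ) i) := by
        funext i
        simp only [Pi.add_apply, Pi.smul_apply, smul_eq_mul]
        ring
      rw [hfun]
      exact this
    have := congrArg (fun q : K[X] => q.eval 0) hQ0
    simp only [Q, eval_zero] at this
    rw [eval_expand, MvPolynomial.aeval_eq_eval] at this
    simpa using this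
  apply MvPolynomial.funext
  intro x
  have := s2b (fun i => x i - P i)
  simpa using this

end Dense

end Pool.Agent.Work.PD
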