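import Mathlib
import Pool.Agent.Work.MP_b62148_ag.Descent
import Pool.Agent.Work.MP_b62148_ag.Line2

/-!
Descent of the second kind of good line to a finite extension of the ground field.
-/

namespace Pool.Agent.Work.PD

open Polynomial

section

variable {k : Type*} [Field k] {σ : Type*} [Fintype σ]

theorem dirDE_map' {L : Type*} [Field L] [Algebra k L] (f : MvPolynomial σ k) (P v ξ : σ → L) :
    dirDE (MvPolynomial.map (algebraMap k L) f) P v ξ = dirDE f P v ξ := by
  unfold dirDE
  refine Finset.sum_congr rfl fun i _ => ?_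
  rw [MvPolynomial.pderiv_map]
  unfold expand
  rw [MvPolynomial.aeval_map_algebraMap]

theorem ee_map {L : Type*} [Field L] [Algebra k L] (f : MvPolynomial σ k) (P v ξ : σ → L) :
    ee (MvPolynomial.map (algebraMap k L) f) P v ξ = ee f P v ξ := by
  unfold ee
  rw [dirDE_map']

theorem nn_map {L : Type*} [Field L] [Algebra k L] (f : MvPolynomial σ k) (P v ξ : σ → L) :
    nn (MvPolynomial.map (algebraMap k L) f) P v ξ = nn f P v ξ := by
  unfold nn
  rw [ee_map, expand_map, expand_map]

theorem generic_ee {τ : Type*} {E : Type*} [Field E] [Algebra k E] (f : MvPolynomial σ k)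
    (a b c : σ → τ) (x : τ → E) :
    MvPolynomial.aeval x (ee f (fun i => (MvPolynomial.X (a i) : MvPolynomial τ k))
      (fun i => MvPolynomial.X (b i)) (fun i => MvPolynomial.X (c i))) =
      ee f (fun i => x (a i)) (fun i => x (b i)) (fun i => x (c i)) := by
  rw [map_ee]
  congr 1
  · funext i; exact MvPolynomial.aeval_X _ _
  · funext i; exact MvPolynomial.aeval_X _ _
  · funext i; exact MvPolynomial.aeval_X _ _

theorem generic_nn {τ : Type*} {E : Type*} [Field E] [Algebra k E] (f : MvPolynomial σ k)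
    (a b c : σ → τ) (x : τ → E) :
    MvPolynomial.aeval x (nn f (fun i => (MvPolynomial.X (a i) : MvPolynomial τ k))
      (fun i => MvPolynomial.X (b i)) (fun i => MvPolynomial.X (c i))) =
      nn f (fun i => x (a i)) (fun i => x (b i)) (fun i => x (c i)) := by
  rw [map_nn]
  congr 1
  · funext i; exact MvPolynomial.aeval_X _ _
  · funext i; exact MvPolynomial.aeval_X _ _
  · funext i; exact MvPolynomial.aeval_X _ _

/-- The data of a good line of the second kind descends to a finite extension. -/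
theorem exists_finite_line2 (f : MvPolynomial σ k) {E : Type*} [Field E] [Algebra k E]
    (P v ξ ζ : σ → E) (hline : expand f P v = 0) (h1 : (expand f P ξ).coeff 1 = 0)
    (he : ee f P v ξ ≠ 0) (hn : nn f P v ξ ≠ 0) (hζ : (expand f P ζ).coeff 1 ≠ 0) :
    ∃ (L : IntermediateField k (AlgebraicClosure k)) (_ : FiniteDimensional k L)
      (P v ξ ζ : σ → L), expand f P v = 0 ∧ (expand f P ξ).coeff 1 = 0 ∧
      ee f P v ξ ≠ 0 ∧ nn f P v ξ ≠ 0 ∧ (expand f P ζ).coeff 1 ≠ 0 := by
  classical
  let τ := σ × Fin 4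
  let Xd : Fin 4 → σ → MvPolynomial τ k := fun j i => MvPolynomial.X (i, j)
  let A : (MvPolynomial τ k)[X] := expand f (Xd 0) (Xd 1)
  let B : (MvPolynomial τ k)[X] := expand f (Xd 0) (Xd 2)
  let B' : (MvPolynomial τ k)[X] := expand f (Xd 0) (Xd 3)
  let ge : MvPolynomial τ k := ee f (Xd 0) (Xd 1) (Xd 2)
  let gn : MvPolynomial τ k := nn f (Xd 0) (Xd 1) (Xd 2)
  let I : Set (MvPolynomial τ k) := Set.range (fun m => A.coeff m) ∪ {B.coeff 1}
  let J : MvPolynomial τ k := ge * gn * B'.coeff 1
  let x : τ → E := fun ij => ![P, v, ξ, ζ] ij.2 ij.1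
  have evA := generic_expand f (fun i : σ => ((i, 0) : τ)) (fun i => (i, 1)) x
  have evB := generic_expand f (fun i : σ => ((i, 0) : τ)) (fun i => (i, 2)) x
  have evB' := generic_expand f (fun i : σ => ((i, 0) : τ)) (fun i => (i, 3)) x
  have eve : MvPolynomial.aeval x ge = ee f P v ξ :=
    generic_ee f (fun i : σ => ((i, 0) : τ)) (fun i => (i, 1)) (fun i => (i, 2)) x
  have evn : MvPolynomial.aeval x gn = nn f P v ξ :=
    generic_nn f (fun i : σ => ((i, 0) : τ)) (fun i => (i, 1)) (fun i => (i, 2)) x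
  have e1 : (fun i : σ => x (i, 0)) = P := rfl
  have e2 : (fun i : σ => x (i, 1)) = v := rfl
  have e3 : (fun i : σ => x (i, 2)) = ξ := rfl
  have e4 : (fun i : σ => x (i, 3)) = ζ := rfl
  rw [e1, e2] at evA
  rw [e1, e3] at evB
  rw [e1, e4] at evB'
  obtain ⟨L, hL, y, hy1, hy2⟩ := exists_finite_solution I J x (by
    rintro p (⟨m, rfl⟩ | hp)
    · have := congrArg (fun q : E[X] => q.coeff m) evA
      simp only [coeff_map, hline, coeff_zero] at this
      exact this
    · rw [Set.mem_singleton_iff] at hp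
      rw [hp]
      have := congrArg (fun q : E[X] => q.coeff 1) evB
      simp only [coeff_map, h1] at this
      exact this) (by
    have h2 := congrArg (fun q : E[X] => q.coeff 1) evB'
    simp only [coeff_map] at h2
    show MvPolynomial.aeval x (ge * gn * B'.coeff 1) ≠ 0
    rw [map_mul, map_mul, eve, evn]
    refine mul_ne_zero (mul_ne_zero he hn) ?_
    intro h; exact hζ (h2.symm.trans h))
  have evA := generic_expand f (fun i : σ => ((i, 0) : τ)) (fun i => (i, 1)) y
  have evB := generic_expand f (fun i : σ => ((i, 0) : τ)) (fun i => (i, 2)) y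
  have evB' := generic_expand f (fun i : σ => ((i, 0) : τ)) (fun i => (i, 3)) y
  have eve : MvPolynomial.aeval y ge = ee f (fun i => y (i, 0)) (fun i => y (i, 1))
      (fun i => y (i, 2)) :=
    generic_ee f (fun i : σ => ((i, 0) : τ)) (fun i => (i, 1)) (fun i => (i, 2)) y
  have evn : MvPolynomial.aeval y gn = nn f (fun i => y (i, 0)) (fun i => y (i, 1))
      (fun i => y (i, 2)) :=
    generic_nn f (fun i : σ => ((i, 0) : τ)) (fun i => (i, 1)) (fun i => (i, 2)) y
  have hJ : MvPolynomial.aeval y ge ≠ 0 ∧ MvPolynomial.aeval y gn ≠ 0 ∧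
      MvPolynomial.aeval y (B'.coeff 1) ≠ 0 := by
    refine ⟨?_, ?_, ?_⟩
    all_goals
      intro h
      apply hy2
      show MvPolynomial.aeval y (ge * gn * B'.coeff 1) = 0
      rw [map_mul, map_mul, h]
      ring
  refine ⟨L, hL, fun i => y (i, 0), fun i => y (i, 1), fun i => y (i, 2), fun i => y (i, 3),
    ?_, ?_, ?_, ?_, ?_⟩
  · rw [← evA]
    ext1 m
    rw [coeff_map, coeff_zero]
    exact hy1 _ (Or.inl ⟨m, rfl⟩)
  · rw [← evB, coeff_map]
    exact hy1 _ (Or.inr rfl)
  · rw [← eve]; exact hJ.1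
  · rw [← evn]; exact hJ.2.1
  · rw [← evB', coeff_map]; exact hJ.2.2

end

end Pool.Agent.Work.PD
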