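import Mathlib
import Pool.Agent.Work.MP_b62148_ag.Polar
import Pool.Agent.Work.MP_b62148_ag.Line2

/-!
Points of a smooth sextic hypersurface at which the second fundamental form vanishes are defined
over the algebraic closure of the ground field.
-/

namespace Pool.Agent.Work.PD

open Polynomial

theorem const_of_flat {k E K σ : Type*} [Field k] [Field E] [IsAlgClosed E] [CharZero E] [Field K]
    [IsAlgClosed K] [Algebra k E] [Algebra E K] [Algebra k K] [IsScalarTower k E K] [Fintype σ]
    (f : MvPolynomial σ k) (hf6 : f.IsHomogeneous 6) (hs : SmoothForm f) (x : σ → K) (hx0 : x ≠ 0)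
    (hfx : MvPolynomial.aeval x f = 0)
    (hflat : ∀ ξ : σ → K, (expand f x ξ).coeff 1 = 0 → (expand f x ξ).coeff 2 = 0) :
    ∃ c : K, c ≠ 0 ∧ ∀ j, ∃ e : E, algebraMap E K e = c * x j := by
  classical
  obtain ⟨j, hj⟩ : ∃ j, MvPolynomial.aeval x (MvPolynomial.pderiv j f) ≠ 0 := by
    by_contra hcon
    push Not at hcon
    exact hx0 (hs.ext x hcon)
  set F : σ → K := fun i => MvPolynomial.aeval x (MvPolynomial.pderiv i f) with hF
  have hFj : F j ≠ 0 := hj
  have hrat : ∀ i, ∃ e : E, algebraMap E K e = F i / F j := by
    intro i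
    by_contra hcon
    have htr : Transcendental E (F i / F j) := by
      intro halg
      exact hcon (mem_range_of_integral _ halg.isIntegral)
    obtain ⟨D, hD⟩ := exists_derivation_ne_zero (F i / F j) htr
    apply hD
    -- the derivation over k
    have chain : ∀ p : MvPolynomial σ k, D (MvPolynomial.aeval x p) =
        ∑ l, MvPolynomial.aeval x (MvPolynomial.pderiv l p) * D (x l) := by
      intro p
      exact derivation_aeval (D.restrictScalars k) x p
    let ξ : σ → K := fun l => D (x l)
    let η : σ → K := fun l => F j * (Pi.single i (1 : K) : σ → K) l - F i * (Pi.single j (1 : K) : σ → K) l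
    have hξ : (expand f x ξ).coeff 1 = 0 := by
      rw [coeff_one_expand]
      have h1 := chain f
      rw [hfx, map_zero] at h1
      rw [h1]
      exact Finset.sum_congr rfl fun l _ => mul_comm _ _
    have hsumη : ∀ g : σ → K, ∑ l, η l * g l = F j * g i - F i * g j := by
      intro g
      simp only [η, sub_mul, Finset.sum_sub_distrib, mul_assoc, ← Finset.mul_sum]
      congr 2
      · rw [Finset.sum_eq_single i]
        · simp
        · intro b _ hb; rw [Pi.single_eq_of_ne hb]; simp
        · simp
      · rw [Finset.sum_eq_single j]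
        · simp
        · intro b _ hb; rw [Pi.single_eq_of_ne hb]; simp
        · simp
    have hη : (expand f x η).coeff 1 = 0 := by
      rw [coeff_one_expand, hsumη]
      ring
    have hηξ : (expand f x (fun l => η l + 1 * ξ l)).coeff 1 = 0 := by
      rw [coeff_one_expand] at hξ hη ⊢
      calc ∑ l, (η l + 1 * ξ l) * MvPolynomial.aeval x (MvPolynomial.pderiv l f)
          = (∑ l, η l * MvPolynomial.aeval x (MvPolynomial.pderiv l f)) +
            ∑ l, ξ l * MvPolynomial.aeval x (MvPolynomial.pderiv l f) := by
            rw [← Finset.sum_add_distrib]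
            exact Finset.sum_congr rfl fun l _ => by ring
        _ = 0 := by rw [hξ, hη, add_zero]
    have hmix := coeff_two_expand_add_smul f x η ξ 1
    rw [hflat _ hηξ, hflat _ hη, hflat _ hξ] at hmix
    have hd : (dirDE f x ξ η).coeff 1 = ∑ m, η m * D (F m) := by
      unfold dirDE
      rw [finsetSum_coeff]
      refine Finset.sum_congr rfl fun m _ => ?_
      rw [coeff_C_mul, coeff_one_expand, hF, chain]
      congr 1
      exact Finset.sum_congr rfl fun l _ => mul_comm _ _
    rw [hd, hsumη] at hmix
    have hq : F i = (F i / F j) * F j := by field_simp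
    have hDi : D (F i) = (F i / F j) * D (F j) + F j * D (F i / F j) := by
      conv_lhs => rw [hq, Derivation.leibniz]
      simp only [smul_eq_mul]
    have h2 : F j ^ 2 * D (F i / F j) = 0 := by
      have h3 : F j * D (F i) - F i * D (F j) = 0 := by linear_combination -hmix
      rw [hDi] at h3
      have h4 : F j * ((F i / F j) * D (F j)) = F i * D (F j) := by
        field_simp
      linear_combination h3 - h4
    exact (mul_eq_zero.mp h2).resolve_left (pow_ne_zero 2 hFj)
  choose h hh using hrat
  obtain ⟨c, hc⟩ := IsAlgClosed.exists_pow_nat_eq (F j)⁻¹ (n := 5) (by norm_num)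
  have hc0 : c ≠ 0 := by
    rintro rfl
    rw [zero_pow (by norm_num)] at hc
    exact inv_ne_zero hFj hc.symm
  refine ⟨c, hc0, ?_⟩
  intro l
  refine polar_finite f hf6 hs (fun i => c * x i) h ?_ l
  intro i
  rw [aeval_smul_homog (hf6.pderiv (i := i)), hh]
  have : F i = MvPolynomial.aeval x (MvPolynomial.pderiv i f) := rfl
  rw [← this]
  norm_num
  rw [hc, div_eq_inv_mul]

end Pool.Agent.Work.PD
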