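import Mathlib
import Pool.Agent.Work.MP_b62148_ag.ExistLine

/-!
Existence, over an extension field, of a line on a smooth sextic form in at least eight variables
which satisfies the non degeneracy conditions.
-/

namespace Pool.Agent.Work.PD

open Polynomial

section

variable {k : Type*} [Field k] {σ : Type*}

theorem expand_zero_right {R : Type*} [CommRing R] [Algebra k R] (f : MvPolynomial σ k)
    (x : σ → R) : expand f x (fun _ => 0) = C (MvPolynomial.aeval x f) := by
  unfold expand
  have h : (fun i => C (x i) + X * C (0 : R)) = (algebraMap R R[X]) ∘ x := by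
    funext i
    simp
  rw [h, MvPolynomial.aeval_algebraMap_apply]
  rfl

theorem SmoothForm.ne_zero [Fintype σ] [Nonempty σ] {f : MvPolynomial σ k} (hs : SmoothForm f) :
    f ≠ 0 := by
  rintro rfl
  have := hs (fun _ => 1) (fun i => by simp)
  have h1 := congrFun this (Classical.arbitrary σ)
  simp at h1

theorem aeval_zero_homog {E : Type*} [Field E] [Algebra k E] {h : MvPolynomial σ k} {m : ℕ}
    (hh : h.IsHomogeneous m) (hm : m ≠ 0) : MvPolynomial.aeval (fun _ => (0 : E)) h = 0 := by
  have h1 := aeval_smul_homog hh (0 : E) (fun _ => (0 : E))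
  simp only [mul_zero] at h1
  rw [h1, zero_pow hm, zero_mul]

theorem not_isUnit_homog {h : MvPolynomial σ k} {m : ℕ}
    (hh : h.IsHomogeneous m) (hm : m ≠ 0) : ¬ IsUnit h := by
  intro hu
  have h1 := hu.map (MvPolynomial.aeval (fun _ => (0 : k)) : MvPolynomial σ k →ₐ[k] k)
  have h2 : MvPolynomial.aeval (fun _ => (0 : k)) h = 0 := aeval_zero_homog hh hm
  rw [h2] at h1
  exact not_isUnit_zero h1

end

section Main

variable {k : Type*} [Field k] [CharZero k] {σ : Type*} [Fintype σ]

omit [CharZero k] in
theorem eta_ne_zero (g : MvPolynomial σ k) [hg : (Ideal.span {g}).IsPrime] (hg0 : g ≠ 0)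
    (hcard : 2 ≤ Fintype.card σ) : eta g ≠ 0 := by
  classical
  intro h0
  have hp : Prime g := (Ideal.span_singleton_prime hg0).mp hg
  have hdvd : ∀ i, g ∣ MvPolynomial.X i := by
    intro i
    rw [← aeval_eta_eq_zero_iff, MvPolynomial.aeval_X, h0]
    rfl
  obtain ⟨i, j, hij⟩ := Fintype.exists_pair_of_one_lt_card (α := σ) (by omega)
  have h1 : (MvPolynomial.X i : MvPolynomial σ k) ∣ g := by
    have hXi : Irreducible (MvPolynomial.X i : MvPolynomial σ k) := MvPolynomial.X_prime.irreducible
    exact (hp.irreducible.dvd_comm hXi).mp (hdvd i)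
  obtain ⟨q, hq⟩ := h1.trans (hdvd j)
  have h2 := congrArg (MvPolynomial.eval (Pi.single j (1 : k))) hq
  rw [map_mul, MvPolynomial.eval_X, MvPolynomial.eval_X, Pi.single_eq_same,
    Pi.single_eq_of_ne hij, zero_mul] at h2
  exact one_ne_zero h2

omit [CharZero k] in
theorem exists_direction {E : Type*} [Field E] [IsAlgClosed E] [Algebra k E]
    (f : MvPolynomial σ k) (hf6 : f.IsHomogeneous 6) (hcard : 8 ≤ Fintype.card σ)
    (P : σ → E) (hP : MvPolynomial.aeval P f = 0) (j : σ) :
    ∃ v : σ → E, v ≠ 0 ∧ v j = 0 ∧ expand f P v = 0 := by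
  classical
  have hN : 6 < Fintype.card {i : σ // i ≠ j} := by
    rw [Fintype.card_subtype_compl, Fintype.card_subtype_eq]
    omega
  set N := Fintype.card {i : σ // i ≠ j} with hNdef
  let e : {i : σ // i ≠ j} ≃ Fin N := Fintype.equivFin _
  let Y : σ → MvPolynomial (Fin N) E := fun i =>
    if h : i ≠ j then MvPolynomial.X (e ⟨i, h⟩) else 0
  let H : (MvPolynomial (Fin N) E)[X] := expand f (fun i => MvPolynomial.C (P i)) Y
  let F : Fin 6 → MvPolynomial (Fin N) E := fun l => H.coeff (l + 1)
  -- evaluation of the coefficients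
  have hev : ∀ x : Fin N → E, H.map (MvPolynomial.eval x) =
      expand f P (fun i => if h : i ≠ j then x (e ⟨i, h⟩) else 0) := by
    intro x
    have h1 := map_expand (K := k) ((MvPolynomial.aeval x : MvPolynomial (Fin N) E →ₐ[E] E).restrictScalars k)
      f (fun i => MvPolynomial.C (P i)) Y
    have h2 : (((MvPolynomial.aeval x : MvPolynomial (Fin N) E →ₐ[E] E).restrictScalars k :
        MvPolynomial (Fin N) E →ₐ[k] E) : MvPolynomial (Fin N) E →+* E) = MvPolynomial.eval x := by
      apply MvPolynomial.ringHom_ext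
      · intro c; simp
      · intro i; simp
    rw [h2] at h1
    rw [h1]
    congr 1
    · funext i
      simp
    · funext i
      simp only [Y]
      split_ifs with h
      · simp
      · simp
  obtain ⟨x, hx0, hx⟩ := exists_common_zero hN F (by
    intro l
    have h1 := hev 0
    have h2 := congrArg (fun q : E[X] => q.coeff (l + 1)) h1
    simp only [coeff_map] at h2
    rw [show F l = H.coeff (l + 1) from rfl, h2]
    have h3 : (fun i => if h : i ≠ j then (0 : Fin N → E) (e ⟨i, h⟩) else 0) = (fun _ : σ => (0 : E)) := by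
      funext i
      split_ifs <;> rfl
    rw [h3, expand_zero_right, coeff_C]
    simp)
  refine ⟨fun i => if h : i ≠ j then x (e ⟨i, h⟩) else 0, ?_, ?_, ?_⟩
  · intro h0
    apply hx0
    funext l
    have h1 := congrFun h0 (e.symm l).1
    simp only [Pi.zero_apply] at h1
    rw [dif_pos (e.symm l).2] at h1
    simpa using h1
  · simp
  · rw [← hev x]
    ext m
    rw [coeff_map, coeff_zero]
    rcases Nat.eq_zero_or_pos m with hm | hm
    · have h1 := congrArg (fun q : E[X] => q.coeff 0) (hev x)
      simp only [coeff_map] at h1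
      rw [hm, h1, coeff_zero_expand, hP]
    · rcases Nat.lt_or_ge m 7 with hm7 | hm7
      · have := hx ⟨m - 1, by omega⟩
        simp only [F] at this
        rwa [Nat.sub_add_cancel hm] at this
      · have h1 : H.natDegree ≤ 6 := natDegree_expand_le f hf6.totalDegree_le _ _
        rw [coeff_eq_zero_of_natDegree_lt (by omega), map_zero]

theorem exists_generic_line (f : MvPolynomial σ k) (hf6 : f.IsHomogeneous 6) (hs : SmoothForm f)
    (hcard : 8 ≤ Fintype.card σ) :
    ∃ (g : MvPolynomial σ k) (_ : (Ideal.span {g}).IsPrime) (P v ξ₀ ξ₁ : σ → EE g),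
      expand f P v = 0 ∧ (dirDE f P v ξ₀).coeff 0 = 0 ∧ (dirDE f P v ξ₀).coeff 1 = 0 ∧
      (dirDE f P v ξ₀).coeff 2 ≠ 0 ∧ (dirDE f P v ξ₁).coeff 0 ≠ 0 := by
  classical
  have hne : Nonempty σ := Fintype.card_pos_iff.mp (by omega)
  have hf0 : f ≠ 0 := hs.ne_zero
  have hfu : ¬ IsUnit f := not_isUnit_homog hf6 (by norm_num)
  obtain ⟨g, hgirr, h, hfgh⟩ := WfDvdMonoid.exists_irreducible_factor hfu hf0
  have hgp : Prime g := hgirr.prime
  have hprime : (Ideal.span {g}).IsPrime := (Ideal.span_singleton_prime hgp.ne_zero).mpr hgp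
  refine ⟨g, hprime, ?_⟩
  have hη0 : eta g ≠ 0 := eta_ne_zero g hgp.ne_zero (by omega)
  obtain ⟨j, hj⟩ : ∃ j, eta g j ≠ 0 := by
    by_contra hcon
    push Not at hcon
    exact hη0 (funext hcon)
  have hgη : MvPolynomial.aeval (eta g) g = 0 := (aeval_eta_eq_zero_iff g g).mpr dvd_rfl
  have hfη : MvPolynomial.aeval (eta g) f = 0 := by
    rw [hfgh, map_mul, hgη, zero_mul]
  have hpd : ∀ i, MvPolynomial.aeval (eta g) (MvPolynomial.pderiv i f) =
      MvPolynomial.aeval (eta g) (MvPolynomial.pderiv i g) * MvPolynomial.aeval (eta g) h := by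
    intro i
    rw [hfgh, MvPolynomial.pderiv_mul, map_add, map_mul, map_mul, hgη]
    ring
  have hhη : MvPolynomial.aeval (eta g) h ≠ 0 := by
    intro h0
    apply hη0
    apply hs.ext
    intro i
    rw [hpd, h0, mul_zero]
  obtain ⟨v, hv0, hvj, hline⟩ := exists_direction f hf6 hcard (eta g) hfη j
  have hev : ∀ t : EE g, MvPolynomial.aeval (fun i => eta g i + t * v i) f = 0 := by
    intro t
    rw [← eval_expand, hline, eval_zero]
  have hnz : ∀ t : EE g, ∃ ξ : σ → EE g, (dirDE f (eta g) v ξ).eval t ≠ 0 := by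
    intro t
    by_contra hcon
    push Not at hcon
    have h1 : (fun i => eta g i + t * v i) = 0 := by
      apply hs.ext
      intro i
      have := hcon (Pi.single i 1)
      rwa [dirDE_single, eval_expand] at this
    have h2 := congrFun h1 j
    simp only [hvj, mul_zero, add_zero, Pi.zero_apply] at h2
    exact hj h2
  have htop : ∃ ξ : σ → EE g, (dirDE f (eta g) v ξ).coeff 5 ≠ 0 := by
    by_contra hcon
    push Not at hcon
    apply hv0
    apply hs.ext
    intro i
    have := hcon (Pi.single i 1)
    rw [dirDE_single] at this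
    rwa [coeff_top_expand (hf6.pderiv (i := i))] at this
  have hstep : ∀ ξ : σ → EE g, (dirDE f (eta g) v ξ).coeff 0 = 0 → ∃ ω : σ → EE g,
      dirDE f (eta g) v ξ = -X * dirDE f (eta g) v ω := by
    intro ξ hξ
    have h1 : ∑ i, MvPolynomial.aeval (eta g) (MvPolynomial.pderiv i g) * ξ i = 0 := by
      have h2 : (∑ i, MvPolynomial.aeval (eta g) (MvPolynomial.pderiv i g) * ξ i) *
          MvPolynomial.aeval (eta g) h = 0 := by
        rw [← hξ]
        unfold dirDE
        rw [finsetSum_coeff, Finset.sum_mul]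
        refine Finset.sum_congr rfl fun i _ => ?_
        rw [coeff_C_mul, coeff_zero_expand, hpd]
        ring
      exact (mul_eq_zero.mp h2).resolve_right hhη
    obtain ⟨D, hD⟩ := exists_tangent_derivation g ξ h1
    refine ⟨fun i => D (v i), ?_⟩
    have h3 : ∀ t : k, (dirDE f (eta g) v ξ + X * dirDE f (eta g) v (fun i => D (v i))).eval
        (algebraMap k (EE g) t) = 0 := by
      intro t
      have h4 := congrArg D (hev (algebraMap k (EE g) t))
      rw [derivation_aeval, map_zero] at h4
      rw [← h4]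
      unfold dirDE
      rw [eval_add, eval_mul, eval_finsetSum, eval_finsetSum, eval_X, Finset.mul_sum,
        ← Finset.sum_add_distrib]
      refine Finset.sum_congr rfl fun i _ => ?_
      rw [eval_mul, eval_mul, eval_C, eval_C, eval_expand, map_add, Derivation.leibniz, hD,
        Derivation.map_algebraMap]
      simp only [smul_eq_mul]
      ring
    have h5 : dirDE f (eta g) v ξ + X * dirDE f (eta g) v (fun i => D (v i)) = 0 := by
      refine eq_zero_of_infinite_isRoot _ ?_
      refine (Set.infinite_range_of_injective (algebraMap k (EE g)).injective).mono ?_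
      rintro _ ⟨t, rfl⟩
      exact h3 t
    linear_combination h5
  obtain ⟨ξ₀, h00, h01, h02⟩ := exists_double_contact f (eta g) v hstep hnz htop
  obtain ⟨ξ₁, h1⟩ := hnz 0
  rw [← coeff_zero_eq_eval_zero] at h1
  exact ⟨eta g, v, ξ₀, ξ₁, hline, h00, h01, h02, h1⟩

end Main

end Pool.Agent.Work.PD
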