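import Mathlib
import Pool.Agent.Work.MP_b62148_ag.Line2

/-!
From a point of the line where the second fundamental form does not vanish and where the Gauss map
is ramified along the line to the data of the second density criterion at a nearby point.
-/

namespace Pool.Agent.Work.PD

open Polynomial

section Cubic

variable {K : Type*} [Field K] {R : Type*} [CommRing R] [Algebra K R] {σ : Type*} [Fintype σ]

theorem dirDE_mul_X (p : MvPolynomial σ K) (j : σ) (x v ξ : σ → R) :
    dirDE (p * MvPolynomial.X j) x v ξ =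
      dirDE p x v ξ * (C (x j) + X * C (v j)) + C (ξ j) * expand p x v := by
  classical
  unfold dirDE
  rw [Finset.sum_mul]
  have e : ∀ i, C (ξ i) * expand (MvPolynomial.pderiv i (p * MvPolynomial.X j)) x v =
      C (ξ i) * expand (MvPolynomial.pderiv i p) x v * (C (x j) + X * C (v j)) +
        (if i = j then C (ξ j) * expand p x v else 0) := by
    intro i
    rw [MvPolynomial.pderiv_mul, expand_add, expand_mul_X, MvPolynomial.pderiv_X]
    split_ifs with h
    · subst h
      rw [Pi.single_eq_same, mul_one]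
      ring
    · rw [Pi.single_eq_of_ne (Ne.symm h), mul_zero]
      simp only [expand, map_zero, add_zero]
      ring
  simp only [e]
  rw [Finset.sum_add_distrib, Finset.sum_ite_eq' Finset.univ j]
  simp

omit [Fintype σ] in
theorem coeff_three_expand_mul_X (p : MvPolynomial σ K) (j : σ) (x y : σ → R) :
    (expand (p * MvPolynomial.X j) x y).coeff 3 =
      (expand p x y).coeff 3 * x j + (expand p x y).coeff 2 * y j := by
  rw [expand_mul_X, mul_add, coeff_add, coeff_mul_C, ← mul_assoc, coeff_mul_C, coeff_mul_X]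

theorem coeff_three_expand_comb (f : MvPolynomial σ K) (x ξ v : σ → R) (a b : R) :
    ∃ Ω : R, (expand f x (fun i => a * ξ i + b * v i)).coeff 3 =
      a ^ 2 * Ω + a * b ^ 2 * (dirDE f x v ξ).coeff 2 + b ^ 3 * (expand f x v).coeff 3 := by
  classical
  induction f using MvPolynomial.induction_on with
  | C c =>
    have h1 : ∀ y : σ → R, (expand (MvPolynomial.C c : MvPolynomial σ K) x y).coeff 3 = 0 := by
      intro y
      simp only [expand, MvPolynomial.aeval_C, Polynomial.algebraMap_apply, coeff_C]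
      norm_num
    have h2 : (dirDE (MvPolynomial.C c : MvPolynomial σ K) x v ξ).coeff 2 = 0 := by
      unfold dirDE
      simp [expand]
    refine ⟨0, ?_⟩
    rw [h1, h1, h2]; ring
  | add p q hp hq =>
    obtain ⟨Ω₁, h₁⟩ := hp
    obtain ⟨Ω₂, h₂⟩ := hq
    refine ⟨Ω₁ + Ω₂, ?_⟩
    have h2 : dirDE (p + q) x v ξ = dirDE p x v ξ + dirDE q x v ξ := by
      unfold dirDE
      rw [← Finset.sum_add_distrib]
      refine Finset.sum_congr rfl fun i _ => ?_
      rw [map_add, expand_add]; ring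
    rw [expand_add, expand_add, coeff_add, coeff_add, h₁, h₂, h2, coeff_add]
    ring
  | mul_X p j hp =>
    obtain ⟨Ω, h⟩ := hp
    -- quadratic part of p
    have hq : (expand p x (fun i => a * ξ i + b * v i)).coeff 2 =
        a ^ 2 * (expand p x ξ).coeff 2 + a * b * (dirDE p x v ξ).coeff 1 +
          b ^ 2 * (expand p x v).coeff 2 := by
      have h3 := coeff_two_expand_add_smul p x (fun i => a * ξ i) v b
      have h4 : (dirDE p x v (fun i => a * ξ i)).coeff 1 = a * (dirDE p x v ξ).coeff 1 := by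
        have := ee_smul p x v ξ a
        exact this
      rw [h3, h4, coeff_expand_smul]
      ring
    have hc : (dirDE p x v ξ * (C (x j) + X * C (v j)) + C (ξ j) * expand p x v).coeff 2 =
        (dirDE p x v ξ).coeff 2 * x j + (dirDE p x v ξ).coeff 1 * v j +
          ξ j * (expand p x v).coeff 2 := by
      rw [coeff_add, mul_add, coeff_add, coeff_mul_C, ← mul_assoc, coeff_mul_C, coeff_mul_X,
        coeff_C_mul]
    rw [coeff_three_expand_mul_X, h, hq, dirDE_mul_X, hc, coeff_three_expand_mul_X]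
    refine ⟨Ω * x j + (expand p x ξ).coeff 2 * (a * ξ j + b * v j) +
      b * (dirDE p x v ξ).coeff 1 * ξ j, ?_⟩
    ring

end Cubic

section Near

variable {k : Type*} [Field k] {K : Type*} [Field K] [Algebra k K] [CharZero K] {σ : Type*}
  [Fintype σ]

omit [CharZero K] [Fintype σ] in
/-- expansion around the moving point of the line -/
theorem coeff_expand_moving (h : MvPolynomial σ k) (P v : σ → K) (n : ℕ) :
    (expand h (fun i => C (P i) + X * C (v i) : σ → K[X]) (fun i => C (v i))).coeff n =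
      hasseDeriv n (expand h P v) := by
  rw [← aeval_taylor_coeff]
  congr 1
  unfold expand
  have h1 : (fun i => (C (C (P i) + X * C (v i)) + X * C (C (v i)) : K[X][X])) =
      fun i => ((Polynomial.aeval (C X + X : K[X][X]) : K[X] →ₐ[K] K[X][X]).restrictScalars k)
        (C (P i) + X * C (v i)) := by
    funext i
    have hc : ∀ c : K, (Polynomial.aeval (C X + X : K[X][X]) : K[X] →ₐ[K] K[X][X]) (C c) =
        C (C c) := fun c => by
      rw [Polynomial.aeval_C]; rfl
    have h2 : ((Polynomial.aeval (C X + X : K[X][X]) : K[X] →ₐ[K] K[X][X]).restrictScalars k)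
        (C (P i) + X * C (v i)) = C (C (P i)) + (C X + X) * C (C (v i)) := by
      show (Polynomial.aeval (C X + X : K[X][X]) : K[X] →ₐ[K] K[X][X]) (C (P i) + X * C (v i)) = _
      rw [map_add, map_mul, hc, hc, Polynomial.aeval_X]
    rw [h2, C_add, C_mul]
    ring
  rw [h1, ← MvPolynomial.comp_aeval_apply]
  rfl

/-- Passage from a ramification point with non zero second fundamental form to the data of the
second density criterion. -/
theorem exists_near (f : MvPolynomial σ k) (P v ξ₀ ζ : σ → K) (hline : expand f P v = 0)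
    (hA0 : (dirDE f P v ξ₀).coeff 0 = 0) (hA1 : (dirDE f P v ξ₀).coeff 1 = 0)
    (hA : dirDE f P v ξ₀ ≠ 0) (hq : (expand f P ξ₀).coeff 2 ≠ 0)
    (hζ : (dirDE f P v ζ).coeff 0 ≠ 0) :
    ∃ (t : K) (ξ : σ → K), (expand f (fun i => P i + t * v i) ξ).coeff 1 = 0 ∧
      ee f (fun i => P i + t * v i) v ξ ≠ 0 ∧ nn f (fun i => P i + t * v i) v ξ ≠ 0 ∧
      (expand f (fun i => P i + t * v i) ζ).coeff 1 ≠ 0 := by
  classical
  set A₀ := dirDE f P v ξ₀ with hA₀
  set Z := dirDE f P v ζ with hZ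
  let Pt : σ → K[X] := fun i => C (P i) + X * C (v i)
  let vt : σ → K[X] := fun i => C (v i)
  let ξt : σ → K[X] := fun i => Z * C (ξ₀ i) - A₀ * C (ζ i)
  -- directional derivatives at the moving point
  have hgrad : ∀ (y : σ → K) (n : ℕ), ∑ i, C (y i) * hasseDeriv n (expand (MvPolynomial.pderiv i f) P v) =
      hasseDeriv n (dirDE f P v y) := by
    intro y n
    unfold dirDE
    rw [map_sum]
    refine Finset.sum_congr rfl fun i _ => ?_
    ext m
    rw [coeff_C_mul, hasseDeriv_coeff, hasseDeriv_coeff, coeff_C_mul]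
    ring
  have hdir : ∀ n, (dirDE f Pt vt ξt).coeff n = Z * hasseDeriv n A₀ - A₀ * hasseDeriv n Z := by
    intro n
    have h1 : (dirDE f Pt vt ξt).coeff n =
        ∑ i, ξt i * hasseDeriv n (expand (MvPolynomial.pderiv i f) P v) := by
      unfold dirDE
      rw [finsetSum_coeff]
      refine Finset.sum_congr rfl fun i _ => ?_
      rw [coeff_C_mul, coeff_expand_moving]
    rw [h1, hA₀, hZ, ← hgrad, ← hgrad, Finset.mul_sum, Finset.mul_sum, ← Finset.sum_sub_distrib]
    refine Finset.sum_congr rfl fun i _ => ?_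
    simp only [ξt]
    ring
  have hlin : ∀ y : σ → K[X], (expand f Pt y).coeff 1 =
      ∑ i, y i * expand (MvPolynomial.pderiv i f) P v := by
    intro y
    rw [coeff_one_expand]
    rfl
  have h1t : (expand f Pt ξt).coeff 1 = 0 := by
    rw [hlin]
    have h2 := hgrad ξ₀ 0
    have h3 := hgrad ζ 0
    simp only [hasseDeriv_zero'] at h2 h3
    have h4 : ∑ i, ξt i * expand (MvPolynomial.pderiv i f) P v =
        Z * (∑ i, C (ξ₀ i) * expand (MvPolynomial.pderiv i f) P v) -
          A₀ * ∑ i, C (ζ i) * expand (MvPolynomial.pderiv i f) P v := by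
      rw [Finset.mul_sum, Finset.mul_sum, ← Finset.sum_sub_distrib]
      refine Finset.sum_congr rfl fun i _ => ?_
      simp only [ξt]
      ring
    rw [h4, h2, h3, hA₀, hZ]
    ring
  have hζt : (expand f Pt (fun i => C (ζ i))).coeff 1 = Z := by
    rw [hlin]
    have h3 := hgrad ζ 0
    simp only [hasseDeriv_zero'] at h3
    rw [h3]
  -- order of vanishing
  obtain ⟨g, hg1, hg2⟩ := exists_eq_pow_rootMultiplicity_mul_and_not_dvd A₀ hA 0
  rw [C_0, sub_zero] at hg1 hg2
  set e := rootMultiplicity 0 A₀ with he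
  rw [X_dvd_iff] at hg2
  have he2 : 2 ≤ e := by
    by_contra hcon
    push Not at hcon
    interval_cases e
    · rw [pow_zero, one_mul] at hg1
      rw [hg1] at hA0
      exact hg2 hA0
    · rw [pow_one] at hg1
      rw [hg1, coeff_X_mul] at hA1
      exact hg2 hA1
  obtain ⟨m, hm⟩ : ∃ m, e = m + 2 := ⟨e - 2, by omega⟩
  rw [hm] at hg1
  set E₁ := ee f Pt vt ξt with hE₁
  set Q₂ := (expand f Pt ξt).coeff 2 with hQ₂
  set N₁ := nn f Pt vt ξt with hN₁
  obtain ⟨c₂, hc₂⟩ : ∃ c₂ : K, c₂ = ((m + 2 : ℕ) : K) := ⟨_, rfl⟩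
  obtain ⟨c₁, hc₁⟩ : ∃ c₁ : K, c₁ = ((m + 1 : ℕ) : K) := ⟨_, rfl⟩
  have hc₂0 : c₂ ≠ 0 := by rw [hc₂]; exact_mod_cast (by omega : m + 2 ≠ 0)
  have hc₁0 : c₁ ≠ 0 := by rw [hc₁]; exact_mod_cast (by omega : m + 1 ≠ 0)
  have hdA : derivative A₀ = X ^ (m + 1) * (C c₂ * g + X * derivative g) := by
    rw [hg1, derivative_mul, derivative_X_pow, ← hc₂]
    have : m + 2 - 1 = m + 1 := by omega
    rw [this]
    ring
  have hddA : derivative (derivative A₀) = X ^ m * (C (c₂ * c₁) * g +
      2 * C c₂ * X * derivative g + X ^ 2 * derivative (derivative g)) := by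
    rw [hdA, derivative_mul, derivative_X_pow, ← hc₁]
    have : m + 1 - 1 = m := by omega
    rw [this]
    simp only [derivative_add, derivative_mul, derivative_C, derivative_X]
    have h1 : (C c₂ : K[X]) = C c₁ + 1 := by
      rw [hc₂, hc₁, ← C_1, ← C_add]; congr 1; push_cast; ring
    rw [C_mul, h1]
    ring
  obtain ⟨u₁, hu₁, hu₁0⟩ : ∃ u₁ : K[X], E₁ = X ^ (m + 1) * u₁ ∧ u₁.coeff 0 ≠ 0 := by
    refine ⟨Z * (C c₂ * g + X * derivative g) - X * g * derivative Z, ?_, ?_⟩
    · have : E₁ = Z * hasseDeriv 1 A₀ - A₀ * hasseDeriv 1 Z := hdir 1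
      rw [this, hasseDeriv_one', hasseDeriv_one', hdA, hg1]
      ring
    · rw [coeff_zero_eq_eval_zero]
      simp only [eval_sub, eval_mul, eval_add, eval_X, eval_C, zero_mul, sub_zero, add_zero]
      rw [← coeff_zero_eq_eval_zero, ← coeff_zero_eq_eval_zero]
      exact mul_ne_zero hζ (mul_ne_zero hc₂0 hg2)
  obtain ⟨u₂, hu₂, hu₂0⟩ : ∃ u₂ : K[X], (dirDE f Pt vt ξt).coeff 2 = X ^ m * u₂ ∧
      u₂.coeff 0 ≠ 0 := by
    -- second Hasse derivative
    have hh : ∀ p : K[X], 2 * hasseDeriv 2 p = derivative (derivative p) := by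
      intro p
      have := factorial_smul_hasseDeriv (R := K) 2
      have h2 := congrFun this p
      have h3 : (2 : ℕ) • hasseDeriv 2 p = derivative (derivative p) := h2
      rw [← h3, two_nsmul, two_mul]
    have h2ne : (2 : K) ≠ 0 := two_ne_zero
    refine ⟨C (2⁻¹ : K) * (Z * (C (c₂ * c₁) * g + 2 * C c₂ * X * derivative g +
      X ^ 2 * derivative (derivative g)) - X ^ 2 * g * derivative (derivative Z)), ?_, ?_⟩
    · rw [hdir 2]
      have h3 : (2 : K[X]) * (Z * hasseDeriv 2 A₀ - A₀ * hasseDeriv 2 Z) =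
          X ^ m * (Z * (C (c₂ * c₁) * g + 2 * C c₂ * X * derivative g +
          X ^ 2 * derivative (derivative g)) - X ^ 2 * g * derivative (derivative Z)) := by
        have h4 : (2 : K[X]) * (Z * hasseDeriv 2 A₀ - A₀ * hasseDeriv 2 Z) =
            Z * (2 * hasseDeriv 2 A₀) - A₀ * (2 * hasseDeriv 2 Z) := by ring
        rw [h4, hh, hh, hddA, hg1]
        ring
      have h5 : C (2⁻¹ : K) * (2 : K[X]) = 1 := by
        have : (2 : K[X]) = C 2 := (map_ofNat C 2).symm
        rw [this, ← C_mul, inv_mul_cancel₀ h2ne, C_1]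
      calc Z * hasseDeriv 2 A₀ - A₀ * hasseDeriv 2 Z
          = (C (2⁻¹ : K) * (2 : K[X])) * (Z * hasseDeriv 2 A₀ - A₀ * hasseDeriv 2 Z) := by
            rw [h5, one_mul]
        _ = C (2⁻¹ : K) * ((2 : K[X]) * (Z * hasseDeriv 2 A₀ - A₀ * hasseDeriv 2 Z)) := by ring
        _ = _ := by rw [h3]; ring
    · have h6 : (C (2⁻¹ : K) * (Z * (C (c₂ * c₁) * g + 2 * C c₂ * X * derivative g +
          X ^ 2 * derivative (derivative g)) - X ^ 2 * g * derivative (derivative Z))).coeff 0 =
          2⁻¹ * (Z.coeff 0 * (c₂ * c₁ * g.coeff 0)) := by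
        rw [coeff_zero_eq_eval_zero, coeff_zero_eq_eval_zero, coeff_zero_eq_eval_zero]
        simp only [eval_sub, eval_mul, eval_add, eval_X, eval_C, eval_pow]
        ring
      rw [h6]
      exact mul_ne_zero (inv_ne_zero h2ne) (mul_ne_zero hζ
        (mul_ne_zero (mul_ne_zero hc₂0 hc₁0) hg2))
  -- value of Q₂ at zero
  have hQ0 : Q₂.coeff 0 ≠ 0 := by
    have h1 := map_expand ((Polynomial.aeval (0 : K) : K[X] →ₐ[K] K).restrictScalars k) f Pt ξt
    have h2 : (fun i => ((Polynomial.aeval (0 : K) : K[X] →ₐ[K] K).restrictScalars k) (Pt i)) = P := by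
      funext i
      show (Polynomial.aeval (0 : K) : K[X] →ₐ[K] K) (C (P i) + X * C (v i)) = P i
      simp
    have h3 : (fun i => ((Polynomial.aeval (0 : K) : K[X] →ₐ[K] K).restrictScalars k) (ξt i)) =
        fun i => Z.coeff 0 * ξ₀ i := by
      funext i
      show (Polynomial.aeval (0 : K) : K[X] →ₐ[K] K) (Z * C (ξ₀ i) - A₀ * C (ζ i)) = _
      rw [Polynomial.coe_aeval_eq_eval, eval_sub, eval_mul, eval_mul, eval_C, eval_C,
        ← coeff_zero_eq_eval_zero, ← coeff_zero_eq_eval_zero, hA0, zero_mul, sub_zero]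
    rw [h2, h3] at h1
    have h4 := congrArg (fun q : K[X] => q.coeff 2) h1
    simp only [coeff_map] at h4
    rw [coeff_expand_smul] at h4
    have h5 : Q₂.coeff 0 = Z.coeff 0 ^ 2 * (expand f P ξ₀).coeff 2 := by
      rw [← h4, coeff_zero_eq_eval_zero, ← Polynomial.coe_aeval_eq_eval]
      rfl
    rw [h5]
    exact mul_ne_zero (pow_ne_zero 2 hζ) hq
  have hE₁0 : E₁ ≠ 0 := by
    rw [hu₁]
    refine mul_ne_zero (pow_ne_zero _ X_ne_zero) ?_
    rintro h; rw [h] at hu₁0; simp at hu₁0
  have hlinet : expand f Pt vt = 0 := by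
    ext1 n
    rw [coeff_expand_moving, hline, map_zero, coeff_zero]
  have hN₁0 : N₁ ≠ 0 := by
    obtain ⟨Ω, hΩ⟩ := coeff_three_expand_comb f Pt ξt vt E₁ (-Q₂)
    have h1 : N₁ = E₁ ^ 2 * Ω + E₁ * (-Q₂) ^ 2 * (dirDE f Pt vt ξt).coeff 2 := by
      have h2 : N₁ = (expand f Pt (fun i => E₁ * ξt i + -Q₂ * vt i)).coeff 3 := by
        rw [hN₁]
        unfold nn
        have : (fun i => ee f Pt vt ξt * ξt i - (expand f Pt ξt).coeff 2 * vt i) =
            fun i => E₁ * ξt i + -Q₂ * vt i := by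
          funext i
          rw [← hE₁, ← hQ₂]
          ring
        rw [this]
      rw [h2, hΩ, hlinet, coeff_zero]
      ring
    have h3 : N₁ = E₁ * (X ^ m * (X * u₁ * Ω + Q₂ ^ 2 * u₂)) := by
      rw [h1, hu₂]
      have : E₁ ^ 2 * Ω = E₁ * (X ^ m * (X * u₁ * Ω)) := by
        rw [pow_two, hu₁]; ring
      rw [this]; ring
    rw [h3]
    refine mul_ne_zero hE₁0 (mul_ne_zero (pow_ne_zero _ X_ne_zero) ?_)
    intro h4
    have h5 := congrArg (fun q : K[X] => q.eval 0) h4
    simp only [eval_add, eval_mul, eval_X, zero_mul, zero_add, eval_pow, eval_zero] at h5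
    rw [← coeff_zero_eq_eval_zero, ← coeff_zero_eq_eval_zero] at h5
    exact mul_ne_zero (pow_ne_zero 2 hQ0) hu₂0 h5
  have hZ0 : Z ≠ 0 := by rintro h; rw [h] at hζ; simp at hζ
  -- choose t
  obtain ⟨t, ht⟩ : ∃ t : K, (E₁ * N₁ * Z).eval t ≠ 0 := by
    by_contra hcon
    push Not at hcon
    exact mul_ne_zero (mul_ne_zero hE₁0 hN₁0) hZ0 (Polynomial.funext (by simpa using hcon))
  rw [eval_mul, eval_mul] at ht
  have ht1 : E₁.eval t ≠ 0 := fun h => ht (by rw [h]; ring)
  have ht2 : N₁.eval t ≠ 0 := fun h => ht (by rw [h]; ring)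
  have ht3 : Z.eval t ≠ 0 := fun h => ht (by rw [h]; ring)
  let φ : K[X] →ₐ[k] K := (Polynomial.aeval t : K[X] →ₐ[K] K).restrictScalars k
  have hφ : ∀ q : K[X], φ q = q.eval t := fun q => by
    show (Polynomial.aeval t : K[X] →ₐ[K] K) q = _
    rw [Polynomial.coe_aeval_eq_eval]
  have hφP : (fun i => φ (Pt i)) = fun i => P i + t * v i := by
    funext i; rw [hφ]; simp [Pt]; ring
  have hφv : (fun i => φ (vt i)) = v := by
    funext i; rw [hφ]; simp [vt]
  have hφζ : (fun i => φ (C (ζ i))) = ζ := by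
    funext i; rw [hφ]; simp
  refine ⟨t, fun i => φ (ξt i), ?_, ?_, ?_, ?_⟩
  · have h1 := congrArg (fun q : K[X] => q.coeff 1) (map_expand φ f Pt ξt)
    simp only [coeff_map, h1t, map_zero] at h1
    rw [hφP] at h1
    exact h1.symm
  · have h1 := map_ee φ f Pt vt ξt
    rw [hφP, hφv] at h1
    rw [← h1, ← hE₁, hφ]
    exact ht1
  · have h1 := map_nn φ f Pt vt ξt
    rw [hφP, hφv] at h1
    rw [← h1, ← hN₁, hφ]
    exact ht2
  · have h1 := congrArg (fun q : K[X] => q.coeff 1) (map_expand φ f Pt (fun i => C (ζ i)))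
    simp only [coeff_map] at h1
    rw [hφP, hφζ, hζt] at h1
    rw [← h1]
    show φ Z ≠ 0
    rw [hφ]
    exact ht3

end Near

end Pool.Agent.Work.PD
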