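import Mathlib
import Pool.Agent.Work.MP_b62148_ag.Flat
import Pool.Agent.Work.MP_b62148_ag.Near

/-!
A line of a smooth sextic hypersurface which is not defined over the (algebraically closed) ground
field carries one of the two kinds of data used for density.
-/

namespace Pool.Agent.Work.PD

open Polynomial

section TopCoeff

variable {K : Type*} [Field K]

/-- the Euler operator -/
noncomputable def euler (p : K[X]) : K[X] := X * derivative p

theorem coeff_euler (p : K[X]) (n : ℕ) : (euler p).coeff n = n * p.coeff n := by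
  unfold euler
  cases n with
  | zero => simp
  | succ n => rw [coeff_X_mul, coeff_derivative]; push_cast; ring

theorem natDegree_euler_le (p : K[X]) {n : ℕ} (hp : p.natDegree ≤ n) : (euler p).natDegree ≤ n := by
  rw [natDegree_le_iff_coeff_eq_zero]
  intro N hN
  rw [coeff_euler, coeff_eq_zero_of_natDegree_lt (lt_of_le_of_lt hp hN), mul_zero]

theorem wronskian_ne_zero [CharZero K] (A B : K[X]) (hA : A ≠ 0) (hB : B ≠ 0)
    (hAB : A.natDegree ≠ B.natDegree) :
    (X * (A * derivative B - derivative A * B)).coeff (A.natDegree + B.natDegree) ≠ 0 := by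
  have h : X * (A * derivative B - derivative A * B) = A * euler B - euler A * B := by
    unfold euler; ring
  rw [h, coeff_sub, coeff_mul_add_eq_of_natDegree_le le_rfl (natDegree_euler_le B le_rfl),
    coeff_mul_add_eq_of_natDegree_le (natDegree_euler_le A le_rfl) le_rfl, coeff_euler, coeff_euler]
  have h1 : A.coeff A.natDegree * (↑B.natDegree * B.coeff B.natDegree) -
      ↑A.natDegree * A.coeff A.natDegree * B.coeff B.natDegree =
      ((B.natDegree : K) - A.natDegree) * (A.leadingCoeff * B.leadingCoeff) := by
    unfold leadingCoeff; ring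
  rw [h1]
  refine mul_ne_zero ?_ (mul_ne_zero (leadingCoeff_ne_zero.mpr hA) (leadingCoeff_ne_zero.mpr hB))
  rw [sub_ne_zero]
  exact_mod_cast hAB.symm

/-- three polynomials with distinct degrees have non zero Wronskian -/
theorem wronskian_three_ne_zero [CharZero K] (A B D : K[X]) (hA : A ≠ 0) (hB : B ≠ 0) (hD : D ≠ 0)
    (hAB : B.natDegree < A.natDegree) (hBD : D.natDegree < B.natDegree) :
    derivative (derivative A) * (B * derivative D - derivative B * D) -
      derivative (derivative B) * (A * derivative D - derivative A * D) +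
      derivative (derivative D) * (A * derivative B - derivative A * B) ≠ 0 := by
  intro h0
  have h1 : euler (euler A) * (B * euler D - euler B * D) -
      euler (euler B) * (A * euler D - euler A * D) +
      euler (euler D) * (A * euler B - euler A * B) = 0 := by
    have : euler (euler A) * (B * euler D - euler B * D) -
      euler (euler B) * (A * euler D - euler A * D) +
      euler (euler D) * (A * euler B - euler A * B) =
      X ^ 3 * (derivative (derivative A) * (B * derivative D - derivative B * D) -
      derivative (derivative B) * (A * derivative D - derivative A * D) +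
      derivative (derivative D) * (A * derivative B - derivative A * B)) := by
      unfold euler
      simp only [derivative_mul, derivative_X]
      ring
    rw [this, h0, mul_zero]
  set a := A.natDegree with ha
  set b := B.natDegree with hb
  set d := D.natDegree with hd
  have dA : (euler A).natDegree ≤ a := natDegree_euler_le A le_rfl
  have dB : (euler B).natDegree ≤ b := natDegree_euler_le B le_rfl
  have dD : (euler D).natDegree ≤ d := natDegree_euler_le D le_rfl
  have dAA : (euler (euler A)).natDegree ≤ a := natDegree_euler_le _ dA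
  have dBB : (euler (euler B)).natDegree ≤ b := natDegree_euler_le _ dB
  have dDD : (euler (euler D)).natDegree ≤ d := natDegree_euler_le _ dD
  have e1 : ∀ (P Q R : K[X]) (p q r : ℕ), P.natDegree ≤ p → Q.natDegree ≤ q → R.natDegree ≤ r →
      (euler (euler P) * (Q * euler R - euler Q * R)).coeff (p + (q + r)) =
        (p : K) ^ 2 * ((r : K) - q) * (P.coeff p * Q.coeff q * R.coeff r) := by
    intro P Q R p q r hP hQ hR
    have hs : (Q * euler R - euler Q * R).natDegree ≤ q + r := by
      refine (natDegree_sub_le _ _).trans (max_le ?_ ?_)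
      · exact (natDegree_mul_le).trans (add_le_add hQ (natDegree_euler_le R hR))
      · exact (natDegree_mul_le).trans (add_le_add (natDegree_euler_le Q hQ) hR)
    rw [coeff_mul_add_eq_of_natDegree_le (natDegree_euler_le _ (natDegree_euler_le P hP)) hs, coeff_sub,
      coeff_mul_add_eq_of_natDegree_le hQ (natDegree_euler_le R hR),
      coeff_mul_add_eq_of_natDegree_le (natDegree_euler_le Q hQ) hR, coeff_euler, coeff_euler, coeff_euler,
      coeff_euler]
    ring
  have h2 := congrArg (fun q : K[X] => q.coeff (a + b + d)) h1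
  simp only [coeff_add, coeff_sub, coeff_zero] at h2
  have e2 := e1 A B D a b d le_rfl le_rfl le_rfl
  have e3 := e1 B A D b a d le_rfl le_rfl le_rfl
  have e4 := e1 D A B d a b le_rfl le_rfl le_rfl
  rw [show a + b + d = a + (b + d) by ring] at h2
  rw [← coeff_sub] at h2
  have h3 : (euler (euler A) * (B * euler D - euler B * D)).coeff (a + (b + d)) -
      (euler (euler B) * (A * euler D - euler A * D)).coeff (a + (b + d)) +
      (euler (euler D) * (A * euler B - euler A * B)).coeff (a + (b + d)) = 0 := by
    rw [← coeff_sub, ← coeff_add]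
    rw [h1]
    simp
  rw [e2, show a + (b + d) = b + (a + d) by ring, e3, show b + (a + d) = d + (a + b) by ring, e4]
    at h3
  have h4 : ((b : K) - a) * ((d : K) - a) * ((d : K) - b) *
      (A.leadingCoeff * B.leadingCoeff * D.leadingCoeff) = 0 := by
    have hlA : A.coeff a = A.leadingCoeff := rfl
    have hlB : B.coeff b = B.leadingCoeff := rfl
    have hlD : D.coeff d = D.leadingCoeff := rfl
    rw [hlA, hlB, hlD] at h3
    linear_combination h3
  have n1 : ((b : K) - a) ≠ 0 := by
    rw [sub_ne_zero]; exact_mod_cast hAB.ne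
  have n2 : ((d : K) - a) ≠ 0 := by
    rw [sub_ne_zero]; exact_mod_cast (hBD.trans hAB).ne
  have n3 : ((d : K) - b) ≠ 0 := by
    rw [sub_ne_zero]; exact_mod_cast hBD.ne
  exact mul_ne_zero (mul_ne_zero (mul_ne_zero n1 n2) n3)
    (mul_ne_zero (mul_ne_zero (leadingCoeff_ne_zero.mpr hA) (leadingCoeff_ne_zero.mpr hB))
      (leadingCoeff_ne_zero.mpr hD)) h4

end TopCoeff

section Shift

variable {k K σ : Type*} [Field k] [Field K] [Algebra k K]

theorem expand_taylor (h : MvPolynomial σ k) (P v : σ → K) (r : K) :
    expand h (fun i => P i + r * v i) v = taylor r (expand h P v) := by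
  rw [taylor_apply]
  unfold expand
  have h1 : (fun i => C (P i + r * v i) + X * C (v i)) =
      fun i => ((aeval (X + C r : K[X]) : K[X] →ₐ[K] K[X]).restrictScalars k)
        (C (P i) + X * C (v i)) := by
    funext i
    show _ = (aeval (X + C r : K[X]) : K[X] →ₐ[K] K[X]) (C (P i) + X * C (v i))
    simp only [map_add, map_mul, aeval_X, aeval_C, Polynomial.algebraMap_eq]
    ring
  rw [h1, ← MvPolynomial.comp_aeval_apply]
  rfl

variable [Fintype σ]

theorem dirDE_taylor (f : MvPolynomial σ k) (P v ξ : σ → K) (r : K) :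
    dirDE f (fun i => P i + r * v i) v ξ = taylor r (dirDE f P v ξ) := by
  unfold dirDE
  rw [map_sum]
  refine Finset.sum_congr rfl fun i _ => ?_
  rw [expand_taylor, taylor_mul, taylor_C]

end Shift

section Data

variable {k E K σ : Type*} [Field k] [Field E] [IsAlgClosed E] [CharZero E] [Field K]
  [IsAlgClosed K] [Algebra k E] [Algebra E K] [Algebra k K] [IsScalarTower k E K] [Fintype σ]

theorem exists_good_data (f : MvPolynomial σ k) (hf6 : f.IsHomogeneous 6) (hs : SmoothForm f)
    (P v : σ → K) (hline : expand f P v = 0) (hv0 : v ≠ 0)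
    (hnr : ∀ r c : K, c ≠ 0 → ¬ ∀ j, ∃ e : E, algebraMap E K e = c * (P j + r * v j)) :
    ∃ P' : σ → K, expand f P' v = 0 ∧
      ((∃ ξ₀ ξ₁ : σ → K, (dirDE f P' v ξ₀).coeff 0 = 0 ∧ (dirDE f P' v ξ₀).coeff 1 = 0 ∧
        (dirDE f P' v ξ₀).coeff 2 ≠ 0 ∧ (dirDE f P' v ξ₁).coeff 0 ≠ 0) ∨
      (∃ ξ ζ : σ → K, (expand f P' ξ).coeff 1 = 0 ∧ ee f P' v ξ ≠ 0 ∧ nn f P' v ξ ≠ 0 ∧
        (expand f P' ζ).coeff 1 ≠ 0)) := by
  classical
  have hchar : CharZero K := charZero_of_injective_algebraMap (algebraMap E K).injective
  -- shifted lines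
  have hshift : ∀ r : K, expand f (fun i => P i + r * v i) v = 0 := by
    intro r; rw [expand_taylor, hline, map_zero]
  have hPne : ∀ r : K, (fun i => P i + r * v i) ≠ 0 := by
    intro r h0
    refine hnr r 1 one_ne_zero fun j => ⟨0, ?_⟩
    have := congrFun h0 j
    simp only [Pi.zero_apply] at this
    rw [this]; simp
  have hval : ∀ r : K, MvPolynomial.aeval (fun i => P i + r * v i) f = 0 := by
    intro r
    rw [← eval_expand, hline, eval_zero]
  let a : (σ → K) → K[X] := fun ξ => dirDE f P v ξ
  have hadd : ∀ ξ η, a (ξ + η) = a ξ + a η := fun ξ η => dirDE_add f P v ξ η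
  have hsmul : ∀ (c : K) ξ, a (c • ξ) = C c * a ξ := fun c ξ => dirDE_smul f P v ξ c
  have hdeg5 : ∀ ξ, (a ξ).natDegree ≤ 5 := by
    intro ξ
    simp only [a]
    unfold dirDE
    refine natDegree_sum_le_of_forall_le _ _ fun i _ => ?_
    exact (natDegree_C_mul_le _ _).trans
      (natDegree_expand_le _ (hf6.pderiv (i := i)).totalDegree_le _ _)
  have hnz : ∀ t : K, ∃ ξ : σ → K, (a ξ).eval t ≠ 0 := by
    intro t
    by_contra hcon
    push Not at hcon
    apply hPne t
    apply hs.ext
    intro i
    have := hcon (Pi.single i 1)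
    simp only [a] at this
    rwa [dirDE_single, eval_expand] at this
  have htop : ∃ ξ : σ → K, (a ξ).coeff 5 ≠ 0 := by
    by_contra hcon
    push Not at hcon
    apply hv0
    apply hs.ext
    intro i
    have := hcon (Pi.single i 1)
    simp only [a] at this
    rw [dirDE_single] at this
    rwa [coeff_top_expand (hf6.pderiv (i := i))] at this
  obtain ⟨ξA, hξA⟩ := htop
  set A := a ξA with hA
  have hAne : A ≠ 0 := by rintro h; rw [h] at hξA; simp at hξA
  have hAdeg : A.natDegree = 5 := le_antisymm (hdeg5 _) (le_natDegree_of_ne_zero hξA)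
  -- an element of smaller degree
  have hred5 : ∀ ξ, ∃ α : K, a (ξ + (-α) • ξA) = a ξ - C α * A ∧
      (a (ξ + (-α) • ξA) = 0 ∨ (a (ξ + (-α) • ξA)).natDegree < 5) := by
    intro ξ
    refine ⟨(a ξ).coeff 5 / A.coeff 5, ?_, ?_⟩
    · rw [hadd, hsmul, C_neg]; ring
    · by_contra hcon
      push Not at hcon
      obtain ⟨h1, h2⟩ := hcon
      have h3 : (a (ξ + (-((a ξ).coeff 5 / A.coeff 5)) • ξA)).natDegree = 5 :=
        le_antisymm (hdeg5 _) h2
      have h4 : (a (ξ + (-((a ξ).coeff 5 / A.coeff 5)) • ξA)).coeff 5 = 0 := by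
        rw [hadd, hsmul, coeff_add, coeff_C_mul, ← hA]
        field_simp
        ring
      refine leadingCoeff_ne_zero.mpr h1 ?_
      rw [leadingCoeff, h3]
      exact h4
  let S : ℕ → Prop := fun m => ∃ ξ, a ξ ≠ 0 ∧ (a ξ).natDegree = m ∧ m < 5
  have hSne : ∃ m, m < 5 ∧ S m := by
    obtain ⟨r, hr⟩ := IsAlgClosed.exists_root A (by
      rw [degree_eq_natDegree hAne, hAdeg]; norm_num)
    obtain ⟨ξ, hξ⟩ := hnz r
    obtain ⟨α, h1, h2⟩ := hred5 ξ
    have h3 : a (ξ + (-α) • ξA) ≠ 0 := by
      intro h0
      rw [h0] at h1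
      have := congrArg (fun q : K[X] => q.eval r) h1
      simp only [eval_zero, eval_sub, eval_mul, eval_C] at this
      rw [hr.eq_zero, mul_zero, sub_zero] at this
      exact hξ this.symm
    refine ⟨_, h2.resolve_left h3, ξ + (-α) • ξA, h3, rfl, h2.resolve_left h3⟩
  obtain ⟨m₀, hm₀5, hm₀⟩ := hSne
  set m := Nat.findGreatest S 5 with hm
  have hSm : S m := Nat.findGreatest_spec hm₀5.le hm₀
  have hmmax : ∀ ξ, a ξ ≠ 0 → (a ξ).natDegree < 5 → (a ξ).natDegree ≤ m := by
    intro ξ h1 h2
    exact Nat.le_findGreatest h2.le ⟨ξ, h1, rfl, h2⟩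
  obtain ⟨ξB, hB0, hBdeg, hm5⟩ := hSm
  set B := a ξB with hB
  by_cases hcase : ∃ ξ, a ξ ≠ 0 ∧ (a ξ).natDegree < m
  · -- Case A
    obtain ⟨ξD, hD0, hDdeg⟩ := hcase
    set D := a ξD with hD
    have hW := wronskian_three_ne_zero A B D hAne hB0 hD0 (by omega) (by omega)
    set W := derivative (derivative A) * (B * derivative D - derivative B * D) -
      derivative (derivative B) * (A * derivative D - derivative A * D) +
      derivative (derivative D) * (A * derivative B - derivative A * B) with hWdef
    obtain ⟨r, hr⟩ : ∃ r : K, W.eval r ≠ 0 := by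
      by_contra hcon
      push Not at hcon
      exact hW (Polynomial.funext (by simpa using hcon))
    obtain ⟨ξ₁, hξ₁⟩ := hnz r
    refine ⟨fun i => P i + r * v i, hshift r, Or.inl ?_⟩
    let w₁ := (B * derivative D - derivative B * D).eval r
    let w₂ := (A * derivative D - derivative A * D).eval r
    let w₃ := (A * derivative B - derivative A * B).eval r
    refine ⟨w₁ • ξA + ((-w₂) • ξB + w₃ • ξD), ξ₁, ?_, ?_, ?_, ?_⟩
    · rw [dirDE_taylor, taylor_coeff_zero]
      show (a _).eval r = 0
      rw [hadd, hadd, hsmul, hsmul, hsmul, ← hA, ← hB, ← hD]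
      simp only [w₁, w₂, w₃, eval_add, eval_mul, eval_C, eval_sub]
      ring
    · rw [dirDE_taylor, taylor_coeff_one]
      show (derivative (a _)).eval r = 0
      rw [hadd, hadd, hsmul, hsmul, hsmul, ← hA, ← hB, ← hD]
      simp only [w₁, w₂, w₃, derivative_add, derivative_mul, derivative_C, zero_mul, zero_add,
        eval_add, eval_mul, eval_C, eval_sub]
      ring
    · rw [dirDE_taylor, taylor_coeff]
      intro h0
      apply hr
      have h1 : (2 : K) * (hasseDeriv 2 (dirDE f P v (w₁ • ξA + ((-w₂) • ξB + w₃ • ξD)))).eval r =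
          W.eval r := by
        have h2 : (2 : ℕ) • hasseDeriv 2 (dirDE f P v (w₁ • ξA + ((-w₂) • ξB + w₃ • ξD))) =
            derivative (derivative (dirDE f P v (w₁ • ξA + ((-w₂) • ξB + w₃ • ξD)))) :=
          congrFun (factorial_smul_hasseDeriv (R := K) 2) _
        have h3 := congrArg (fun q : K[X] => q.eval r) h2
        simp only [nsmul_eq_mul, Nat.cast_ofNat, eval_mul, eval_ofNat] at h3
        rw [h3]
        show (derivative (derivative (a _))).eval r = _
        rw [hadd, hadd, hsmul, hsmul, hsmul, ← hA, ← hB, ← hD, hWdef]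
        simp only [w₁, w₂, w₃, derivative_add, derivative_mul, derivative_C, zero_mul, zero_add,
          eval_add, eval_mul, eval_C, eval_sub]
        ring
      rw [← h1, h0, mul_zero]
    · rw [dirDE_taylor, taylor_coeff_zero]
      exact hξ₁
  · -- Case B
    push Not at hcase
    have hspan : ∀ ξ, ∃ α β : K, a ξ = C α * A + C β * B := by
      intro ξ
      obtain ⟨α, h1, h2⟩ := hred5 ξ
      set ξ' := ξ + (-α) • ξA with hξ'
      by_cases h0 : a ξ' = 0
      · refine ⟨α, 0, ?_⟩
        rw [h0] at h1
        rw [C_0, zero_mul, add_zero]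
        linear_combination -h1
      have h3 := h2.resolve_left h0
      have h4 : (a ξ').natDegree = m := le_antisymm (hmmax _ h0 h3) (hcase _ h0)
      set β := (a ξ').coeff m / B.coeff m with hβ
      have hBm : B.coeff m ≠ 0 := by
        rw [← hBdeg]; exact leadingCoeff_ne_zero.mpr hB0
      have h5 : a (ξ' + (-β) • ξB) = a ξ' - C β * B := by
        rw [hadd, hsmul, C_neg]; ring
      have h6 : a (ξ' + (-β) • ξB) = 0 := by
        by_contra h7
        have h8 := hcase _ h7
        have h9 : (a (ξ' + (-β) • ξB)).natDegree ≤ m := by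
          rw [h5]
          refine (natDegree_sub_le _ _).trans (max_le h4.le ?_)
          exact (natDegree_C_mul_le _ _).trans hBdeg.le
        have h10 : (a (ξ' + (-β) • ξB)).natDegree = m := le_antisymm h9 h8
        have h11 : (a (ξ' + (-β) • ξB)).coeff m = 0 := by
          rw [h5, coeff_sub, coeff_C_mul, hβ]
          field_simp
          ring
        rw [← h10] at h11
        exact leadingCoeff_ne_zero.mpr h7 h11
      refine ⟨α, β, ?_⟩
      linear_combination -h1 - h5 + h6
    -- the Wronskian has a root
    set W := A * derivative B - derivative A * B with hWdef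
    have hWc := wronskian_ne_zero A B hAne hB0 (by omega)
    rw [← hWdef, hAdeg, hBdeg] at hWc
    have hW4 : W.coeff (4 + m) ≠ 0 := by
      rw [show 5 + m = (4 + m) + 1 by ring, coeff_X_mul] at hWc
      exact hWc
    have hWne : W ≠ 0 := by rintro h; rw [h] at hW4; simp at hW4
    obtain ⟨r, hr⟩ := IsAlgClosed.exists_root W (by
      rw [degree_eq_natDegree hWne]
      have := le_natDegree_of_ne_zero hW4
      intro h
      have h' : W.natDegree = 0 := by exact_mod_cast h
      omega)
    have hWr : A.eval r * (derivative B).eval r - (derivative A).eval r * B.eval r = 0 := by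
      have := hr.eq_zero
      rw [hWdef] at this
      simpa using this
    have hABr : A.eval r ≠ 0 ∨ B.eval r ≠ 0 := by
      by_contra hcon
      push Not at hcon
      obtain ⟨ξ, hξ⟩ := hnz r
      obtain ⟨α, β, h1⟩ := hspan ξ
      apply hξ
      rw [h1]
      simp only [eval_add, eval_mul, hcon.1, hcon.2, mul_zero, add_zero]
    -- derivative vanishes together with the value
    have hder : ∀ ξ, (a ξ).eval r = 0 → (derivative (a ξ)).eval r = 0 := by
      intro ξ hξ
      obtain ⟨α, β, h1⟩ := hspan ξ
      rw [h1] at hξ ⊢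
      simp only [eval_add, eval_mul, eval_C, derivative_add, derivative_mul, derivative_C, zero_mul,
        zero_add] at hξ ⊢
      rcases hABr with h2 | h2
      · have h3 : A.eval r * (α * (derivative A).eval r + β * (derivative B).eval r) = 0 := by
          linear_combination β * hWr + (derivative A).eval r * hξ
        exact (mul_eq_zero.mp h3).resolve_left h2
      · have h3 : B.eval r * (α * (derivative A).eval r + β * (derivative B).eval r) = 0 := by
          linear_combination (-α) * hWr + (derivative B).eval r * hξ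
        exact (mul_eq_zero.mp h3).resolve_left h2
    -- a non zero element of the tangent pencil
    obtain ⟨ξs, hξs0, hξs⟩ : ∃ ξs, (a ξs).eval r = 0 ∧ a ξs ≠ 0 := by
      refine ⟨(A.eval r) • ξB + (-(B.eval r)) • ξA, ?_, ?_⟩
      · rw [hadd, hsmul, hsmul, ← hA, ← hB]
        simp only [eval_add, eval_mul, eval_C]
        ring
      · rw [hadd, hsmul, hsmul, ← hA, ← hB]
        intro h0
        have h5 := congrArg (fun q : K[X] => q.coeff 5) h0
        simp only [coeff_add, coeff_C_mul, coeff_zero] at h5
        have hB5 : B.coeff 5 = 0 := coeff_eq_zero_of_natDegree_lt (by omega)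
        rw [hB5, mul_zero, zero_add] at h5
        have hBr : B.eval r = 0 := by
          have := (mul_eq_zero.mp h5).resolve_right hξA
          simpa using this
        have hAr : A.eval r ≠ 0 := hABr.resolve_right (fun h => h hBr)
        rw [hBr, neg_zero, C_0, zero_mul, add_zero] at h0
        rcases mul_eq_zero.mp h0 with h6 | h6
        · exact hAr (by simpa using h6)
        · exact hB0 h6
    -- the point is not flat
    set P' : σ → K := fun i => P i + r * v i with hP'
    have hlin1 : ∀ ξ, (expand f P' ξ).coeff 1 = (a ξ).eval r := by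
      intro ξ
      rw [coeff_one_expand]
      simp only [a]
      unfold dirDE
      rw [eval_finsetSum]
      refine Finset.sum_congr rfl fun i _ => ?_
      rw [eval_mul, eval_C, eval_expand]
    obtain ⟨ξ₁, hξ₁1, hξ₁2⟩ : ∃ ξ, (expand f P' ξ).coeff 1 = 0 ∧ (expand f P' ξ).coeff 2 ≠ 0 := by
      by_contra hcon
      push Not at hcon
      obtain ⟨c, hc0, hc⟩ := const_of_flat (E := E) f hf6 hs P' (hPne r) (hval r) hcon
      exact hnr r c hc0 hc
    obtain ⟨ξ₀, h1, h2, h3⟩ : ∃ ξ₀, (a ξ₀).eval r = 0 ∧ (expand f P' ξ₀).coeff 2 ≠ 0 ∧ a ξ₀ ≠ 0 := by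
      by_cases h0 : a ξ₁ = 0
      · -- perturb
        let q : K[X] := C ((expand f P' ξ₁).coeff 2) + X * C ((dirDE f P' ξs ξ₁).coeff 1) +
          X ^ 2 * C ((expand f P' ξs).coeff 2)
        have hq : X * q ≠ 0 := by
          refine mul_ne_zero X_ne_zero ?_
          intro h
          have := congrArg (fun p : K[X] => p.eval 0) h
          simp only [q, eval_add, eval_mul, eval_C, eval_X, zero_mul, add_zero, eval_pow, eval_zero,
            ne_eq, OfNat.ofNat_ne_zero, not_false_eq_true, zero_pow] at this
          exact hξ₁2 this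
        obtain ⟨s, hs'⟩ : ∃ s : K, (X * q).eval s ≠ 0 := by
          by_contra hcon
          push Not at hcon
          exact hq (Polynomial.funext (by simpa using hcon))
        rw [eval_mul, eval_X] at hs'
        have hs0 : s ≠ 0 := fun h => hs' (by rw [h]; ring)
        have hqs : q.eval s ≠ 0 := fun h => hs' (by rw [h]; ring)
        refine ⟨fun i => ξ₁ i + s * ξs i, ?_, ?_, ?_⟩
        · have : (fun i => ξ₁ i + s * ξs i) = ξ₁ + s • ξs := by
            funext i; simp
          rw [this, hadd, hsmul, h0, zero_add, eval_mul, hξs0, mul_zero]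
        · rw [coeff_two_expand_add_smul]
          have : q.eval s = (expand f P' ξ₁).coeff 2 + s * (dirDE f P' ξs ξ₁).coeff 1 +
              s ^ 2 * (expand f P' ξs).coeff 2 := by
            simp only [q, eval_add, eval_mul, eval_C, eval_X, eval_pow]
          rw [← this]
          exact hqs
        · have : (fun i => ξ₁ i + s * ξs i) = ξ₁ + s • ξs := by
            funext i; simp
          rw [this, hadd, hsmul, h0, zero_add]
          exact mul_ne_zero (by simpa using hs0) hξs
      · exact ⟨ξ₁, by rw [← hlin1]; exact hξ₁1, hξ₁2, h0⟩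
    obtain ⟨ζ, hζ⟩ := hnz r
    obtain ⟨t, ξ, g1, g2, g3, g4⟩ := exists_near f P' v ξ₀ ζ (hshift r)
      (by rw [hP', dirDE_taylor, taylor_coeff_zero]; exact h1)
      (by rw [hP', dirDE_taylor, taylor_coeff_one]; exact hder _ h1)
      (by
        rw [hP', dirDE_taylor]
        intro h
        exact h3 ((taylor_injective r) (by rw [h, map_zero])))
      h2
      (by rw [hP', dirDE_taylor, taylor_coeff_zero]; exact hζ)
    refine ⟨fun i => P' i + t * v i, ?_, Or.inr ⟨ξ, ζ, g1, g2, g3, g4⟩⟩
    rw [expand_taylor, hshift r, map_zero]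

end Data

end Pool.Agent.Work.PD
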