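import Mathlib
import Pool.Agent.Work.MP_b62148_ag.HS
import Pool.Agent.Work.MP_b62148_ag.Polar

/-!
Existence, over an extension field, of a line meeting a given linear space of codimension two on
every sextic form in six variables, by deformation to a special form and specialisation along a
valuation ring.
-/

namespace Pool.Agent.Work.PD

open Polynomial

section Height

variable {K : Type*} [Field K] [IsAlgClosed K]

theorem not_height_le {n m : ℕ} (hmn : m < n) :
    ¬ (MvPolynomial.vanishingIdeal K {(0 : Fin n → K)}).height ≤ m := by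
  intro hht
  have hdim : ringKrullDim (MvPolynomial (Fin n) K) ≤ (m : WithBot ℕ∞) := by
    rw [ringKrullDim_le_iff_isMaximal_height_le]
    intro Q hQ
    obtain ⟨y, hy⟩ := MvPolynomial.isMaximal_iff_eq_vanishingIdeal_singleton.mp hQ
    rw [hy, height_vanishing_eq y 0]
    exact_mod_cast hht
  rw [MvPolynomial.ringKrullDim_of_isNoetherianRing, ringKrullDim_eq_zero_of_field, zero_add,
    Nat.card_eq_fintype_card, Fintype.card_fin] at hdim
  have : n ≤ m := by exact_mod_cast hdim
  omega

end Height

section Special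

variable {E : Type*} [Field E]

/-- the special sextic form -/
noncomputable def f₁ (E : Type*) [Field E] : MvPolynomial (Fin 6) E :=
  MvPolynomial.X 0 ^ 5 * MvPolynomial.X 2 + MvPolynomial.X 0 ^ 3 * MvPolynomial.X 1 ^ 2 * MvPolynomial.X 3 +
    MvPolynomial.X 0 * MvPolynomial.X 1 ^ 4 * MvPolynomial.X 4 + MvPolynomial.X 1 ^ 5 * MvPolynomial.X 5

theorem f₁_homog : (f₁ E).IsHomogeneous 6 := by
  unfold f₁
  have hX : ∀ i : Fin 6, (MvPolynomial.X i : MvPolynomial (Fin 6) E).IsHomogeneous 1 :=
    fun i => MvPolynomial.isHomogeneous_X E i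
  refine ((MvPolynomial.IsHomogeneous.add ?_ ?_).add ?_).add ?_
  · exact ((hX 0).pow 5).mul (hX 2)
  · exact (((hX 0).pow 3).mul ((hX 1).pow 2)).mul (hX 3)
  · exact ((hX 0).mul ((hX 1).pow 4)).mul (hX 4)
  · exact ((hX 1).pow 5).mul (hX 5)

/-- base point of the universal line -/
noncomputable def Pz (E : Type*) [Field E] : Fin 6 → MvPolynomial (Fin 8) E :=
  ![1, 0, MvPolynomial.X 0, MvPolynomial.X 1, MvPolynomial.X 2, 0]

/-- direction of the universal line -/
noncomputable def vz (E : Type*) [Field E] : Fin 6 → MvPolynomial (Fin 8) E :=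
  ![0, 1, MvPolynomial.X 3, MvPolynomial.X 4, MvPolynomial.X 5, MvPolynomial.X 6]

theorem expand_f₁ : expand (f₁ E) (Pz E) (vz E) =
    C (MvPolynomial.X 0) + C (MvPolynomial.X 3) * X + C (MvPolynomial.X 1) * X ^ 2 +
      C (MvPolynomial.X 4) * X ^ 3 + C (MvPolynomial.X 2) * X ^ 4 + C (MvPolynomial.X 5) * X ^ 5 +
      C (MvPolynomial.X 6) * X ^ 6 := by
  unfold expand f₁ Pz vz
  simp only [map_add, map_mul, map_pow, MvPolynomial.aeval_X, Matrix.cons_val_zero,
    Matrix.cons_val_one, Matrix.cons_val, C_0, C_1, zero_add, mul_zero, add_zero, mul_one]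
  ring

/-- the index of the variable which is the linear part of the `m`-th equation -/
def idx : Fin 7 → Fin 8 := ![0, 3, 1, 4, 2, 5, 6]

theorem coeff_expand_f₁ (m : Fin 7) :
    (expand (f₁ E) (Pz E) (vz E)).coeff m = MvPolynomial.X (idx m) := by
  rw [expand_f₁]
  fin_cases m <;> simp [idx, coeff_X, coeff_C]

end Special

section Exist

universe u

variable {E : Type u} [Field E] [IsAlgClosed E]

/-- the deformation argument: a line on `(1 - λ) f₁ + λ h` with `λ` transcendental -/
theorem exists_deformed_line (h : MvPolynomial (Fin 6) E) (hh : h.IsHomogeneous 6) :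
    ∃ (K : Type u) (_ : Field K) (_ : Algebra E K) (l : K) (P v : Fin 6 → K),
      (∀ e : E, algebraMap E K e ≠ l) ∧
      C (1 - l) * expand (f₁ E) P v + C l * expand h P v = 0 ∧
      P 0 = 1 ∧ P 1 = 0 ∧ P 5 = 0 ∧ v 0 = 0 ∧ v 1 = 1 := by
  classical
  let R := MvPolynomial (Fin 8) E
  let lam : R := MvPolynomial.X 7
  let cc : R[X] := C (1 - lam) * expand (f₁ E) (Pz E) (vz E) + C lam * expand h (Pz E) (vz E)
  have hccdeg : cc.natDegree ≤ 6 := by
    refine (natDegree_add_le _ _).trans (max_le ?_ ?_)
    · exact (natDegree_C_mul_le _ _).trans (natDegree_expand_le _ f₁_homog.totalDegree_le _ _)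
    · exact (natDegree_C_mul_le _ _).trans (natDegree_expand_le _ hh.totalDegree_le _ _)
  let c : Fin 7 → R := fun m => cc.coeff m
  have hc : ∀ m, c m = (1 - lam) * MvPolynomial.X (idx m) +
      lam * (expand h (Pz E) (vz E)).coeff m := by
    intro m
    simp only [c, cc]
    rw [coeff_add, coeff_C_mul, coeff_C_mul, coeff_expand_f₁]
  let I : Ideal R := Ideal.span (Set.range c)
  let M : Ideal R := MvPolynomial.vanishingIdeal E {(0 : Fin 8 → E)}
  have hMmax : M.IsMaximal := MvPolynomial.isMaximal_iff_eq_vanishingIdeal_singleton.mpr ⟨0, rfl⟩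
  have hMmem : ∀ p : R, p ∈ M ↔ MvPolynomial.aeval (0 : Fin 8 → E) p = 0 := by
    intro p
    exact MvPolynomial.mem_vanishingIdeal_singleton_iff (k := E) (0 : Fin 8 → E) p
  have hIM : I ≤ M := by
    rw [Ideal.span_le]
    rintro _ ⟨m, rfl⟩
    show c m ∈ M
    rw [hMmem, hc]
    simp [lam]
  obtain ⟨𝔭, h𝔭min, h𝔭M⟩ := Ideal.exists_minimalPrimes_le hIM
  have h𝔭prime : 𝔭.IsPrime := h𝔭min.1.1
  have hI𝔭 : I ≤ 𝔭 := h𝔭min.1.2
  have hht : 𝔭.height ≤ 7 := by
    have h1 := Ideal.height_le_card_of_mem_minimalPrimes_span (Set.finite_range c) h𝔭min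
    refine h1.trans ?_
    have : (Set.range c).ncard ≤ 7 := by
      have := Set.ncard_image_le (f := c) (s := Set.univ) Set.finite_univ
      simpa [Set.image_univ, Set.ncard_univ] using this
    exact_mod_cast this
  have hne : 𝔭 ≠ M := by
    rintro rfl
    exact not_height_le (K := E) (n := 8) (m := 7) (by norm_num) hht
  have hcm : ∀ m, c m ∈ 𝔭 := fun m => hI𝔭 (Ideal.subset_span ⟨m, rfl⟩)
  have hlam : lam ∉ 𝔭 := by
    intro hl
    apply hne
    refine le_antisymm h𝔭M ?_
    -- all variables belong to the prime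
    have hX : ∀ i : Fin 8, (MvPolynomial.X i : R) ∈ 𝔭 := by
      intro i
      by_cases hi : i = 7
      · rw [hi]; exact hl
      obtain ⟨m, hm⟩ : ∃ m : Fin 7, idx m = i := by
        revert hi
        revert i
        decide
      have h1 : (MvPolynomial.X i : R) = c m + lam * (MvPolynomial.X (idx m) -
          (expand h (Pz E) (vz E)).coeff m) := by
        rw [hc, hm]; ring
      rw [h1]
      exact 𝔭.add_mem (hcm m) (𝔭.mul_mem_right _ hl)
    intro p hp
    rw [hMmem] at hp
    -- p is congruent to its constant term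
    have hcong : ∀ q : R, q - MvPolynomial.C (MvPolynomial.aeval (0 : Fin 8 → E) q) ∈ 𝔭 := by
      intro q
      induction q using MvPolynomial.induction_on with
      | C a => simp
      | add p q hp hq =>
        have : p + q - MvPolynomial.C (MvPolynomial.aeval (0 : Fin 8 → E) (p + q)) =
            (p - MvPolynomial.C (MvPolynomial.aeval (0 : Fin 8 → E) p)) +
            (q - MvPolynomial.C (MvPolynomial.aeval (0 : Fin 8 → E) q)) := by
          rw [map_add, map_add]; ring
        rw [this]
        exact 𝔭.add_mem hp hq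
      | mul_X p i hp =>
        have : p * MvPolynomial.X i - MvPolynomial.C (MvPolynomial.aeval (0 : Fin 8 → E)
            (p * MvPolynomial.X i)) = p * MvPolynomial.X i := by
          rw [map_mul, MvPolynomial.aeval_X, Pi.zero_apply, mul_zero, map_zero, sub_zero]
        rw [this]
        exact 𝔭.mul_mem_left _ (hX i)
    have := hcong p
    rw [hp, map_zero, sub_zero] at this
    exact this
  let A := R ⧸ 𝔭
  have hdom : IsDomain A := Ideal.Quotient.isDomain 𝔭
  let K := FractionRing A
  let π : R →ₐ[E] K := (IsScalarTower.toAlgHom E A K).comp (Ideal.Quotient.mkₐ E 𝔭)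
  have hπ : ∀ p : R, π p = 0 ↔ p ∈ 𝔭 := by
    intro p
    show algebraMap A K (Ideal.Quotient.mk 𝔭 p) = 0 ↔ _
    rw [map_eq_zero_iff _ (IsFractionRing.injective A K), Ideal.Quotient.eq_zero_iff_mem]
  refine ⟨K, inferInstance, inferInstance, π lam, fun i => π (Pz E i), fun i => π (vz E i),
    ?_, ?_, ?_, ?_, ?_, ?_, ?_⟩
  · intro e he
    have h1 : lam - MvPolynomial.C e ∈ 𝔭 := by
      rw [← hπ, map_sub, ← he]
      have : π (MvPolynomial.C e) = algebraMap E K e := by
        have := π.commutes e
        rw [MvPolynomial.algebraMap_eq] at this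
        exact this
      rw [this, sub_self]
    have h2 := h𝔭M h1
    rw [hMmem, map_sub, MvPolynomial.aeval_X, MvPolynomial.aeval_C] at h2
    simp only [Pi.zero_apply, Algebra.algebraMap_self, RingHom.id_apply, zero_sub,
      neg_eq_zero] at h2
    rw [h2, map_zero, sub_zero] at h1
    exact hlam h1
  · have h1 : cc.map (π : R →+* K) = 0 := by
      ext n
      rw [coeff_map, coeff_zero]
      by_cases hn : n < 7
      · exact (hπ _).mpr (hcm ⟨n, hn⟩)
      · rw [coeff_eq_zero_of_natDegree_lt (by omega), map_zero]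
    simp only [cc] at h1
    rw [Polynomial.map_add, Polynomial.map_mul, Polynomial.map_mul, map_C, map_C, map_expand,
      map_expand] at h1
    rw [← h1]
    simp only [RingHom.coe_coe, map_sub, map_one]
  · simp [Pz]
  · simp [Pz]
  · show π (Pz E 5) = 0
    have : Pz E 5 = 0 := rfl
    rw [this, map_zero]
  · simp [vz]
  · simp [vz]

omit [IsAlgClosed E] in
/-- a combination of forms which vanishes on an affine line vanishes on the plane it spans -/
theorem plane_of_line {K : Type*} [Field K] [Algebra E K] [Infinite K]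
    (g h : MvPolynomial (Fin 6) E) (hg : g.IsHomogeneous 6) (hh : h.IsHomogeneous 6) (μ l : K)
    (P v : Fin 6 → K) (hPv : C μ * expand g P v + C l * expand h P v = 0) (a b : K) :
    μ * MvPolynomial.aeval (fun i => a * P i + b * v i) g +
      l * MvPolynomial.aeval (fun i => a * P i + b * v i) h = 0 := by
  by_cases ha : a = 0
  · have h1 := congrArg (fun q : K[X] => q.coeff 6) hPv
    simp only [coeff_add, coeff_C_mul, coeff_zero] at h1
    rw [coeff_top_expand hg, coeff_top_expand hh] at h1
    have h2 : (fun i => a * P i + b * v i) = fun i => b * v i := by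
      funext i; rw [ha]; ring
    rw [h2, aeval_smul_homog hg, aeval_smul_homog hh]
    linear_combination b ^ 6 * h1
  · have h1 := congrArg (fun q : K[X] => q.eval (b / a)) hPv
    simp only [eval_add, eval_mul, eval_C, eval_zero] at h1
    rw [eval_expand, eval_expand] at h1
    have h2 : (fun i => a * P i + b * v i) = fun i => a * (P i + b / a * v i) := by
      funext i; field_simp
    rw [h2, aeval_smul_homog hg, aeval_smul_homog hh]
    linear_combination a ^ 6 * h1

/-- Every sextic form in six variables vanishes on a line meeting the linear space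
`x₁ = x₅ = 0`, over some extension field. -/
theorem exists_line_meeting (h : MvPolynomial (Fin 6) E) (hh : h.IsHomogeneous 6) :
    ∃ (κ : Type u) (_ : Field κ) (_ : Algebra E κ) (P v : Fin 6 → κ),
      expand h P v = 0 ∧ P 1 = 0 ∧ P 5 = 0 ∧
      (∀ a b : κ, (∀ i, a * P i + b * v i = 0) → a = 0 ∧ b = 0) := by
  classical
  obtain ⟨K, _, _, l, P, v, hl, hPv, hP0, hP1, hP5, hv0, hv1⟩ := exists_deformed_line h hh
  have hKinf : Infinite K := Infinite.of_injective _ (algebraMap E K).injective
  have hl1 : l - 1 ≠ 0 := by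
    intro h0
    refine hl 1 ?_
    rw [map_one]
    linear_combination -h0
  obtain ⟨V, hV, hxV⟩ := exists_valuationSubring (E := E) ((l - 1)⁻¹) (by
    intro e he
    by_cases he0 : e = 0
    · rw [he0, map_zero] at he
      exact inv_ne_zero hl1 he.symm
    · refine hl (1 + e⁻¹) ?_
      rw [map_add, map_one, map_inv₀, he, inv_inv]
      ring)
  obtain ⟨A, _, _, κ, _, _, i, r, hi, hiV, hr⟩ := exists_reduction V hV
  -- normalisation
  have hPne : P ≠ 0 := by
    intro h0; rw [h0] at hP0; simp at hP0
  obtain ⟨j, hj0, hj⟩ := exists_max_coord V P hPne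
  let P' : Fin 6 → K := fun m => P m / P j
  let v' : Fin 6 → K := fun m => v m - v j * P' m
  have hv'ne : v' ≠ 0 := by
    intro h0
    have h1 := congrFun h0 0
    have h2 := congrFun h0 1
    simp only [v', P', hP0, hP1, hv0, hv1, Pi.zero_apply] at h1 h2
    rw [zero_div, mul_zero, sub_zero] at h2
    exact one_ne_zero h2
  obtain ⟨m₀, hm0, hm⟩ := exists_max_coord V v' hv'ne
  let v'' : Fin 6 → K := fun m => v' m / v' m₀
  choose aP haP using fun m => hiV _ (hj m)
  choose av hav using fun m => hiV _ (hm m)
  have hlV : l - 1 ∈ V := (V.mem_or_inv_mem (l - 1)).resolve_right hxV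
  have hlV' : l ∈ V := by
    have := V.add_mem _ _ hlV V.one_mem
    simpa using this
  obtain ⟨al, hal⟩ := hiV _ hlV'
  have hral : r al = 1 := by
    have h1 : r (al - 1) = 0 := by
      rw [hr, map_sub, map_one, hal]
      exact Or.inr hxV
    rw [map_sub, map_one] at h1
    exact sub_eq_zero.mp h1
  have hv'j : v' j = 0 := by
    simp only [v', P']
    rw [div_self hj0]; ring
  have hA : C (1 - al) * expand (f₁ E) aP av + C al * expand h aP av = 0 := by
    have hinj : Function.Injective (Polynomial.map (i : A →+* K)) := Polynomial.map_injective _ hi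
    apply hinj
    rw [Polynomial.map_zero, Polynomial.map_add, Polynomial.map_mul, Polynomial.map_mul, map_C,
      map_C, map_expand, map_expand]
    simp only [RingHom.coe_coe, map_sub, map_one, hal, haP, hav]
    apply Polynomial.funext
    intro t
    simp only [eval_zero, eval_add, eval_mul, eval_sub, eval_one, eval_C, eval_expand]
    have hfun : (fun m => P m / P j + t * (v' m / v' m₀)) =
        fun m => ((P j)⁻¹ - t * v j * (P j)⁻¹ * (v' m₀)⁻¹) * P m + (t * (v' m₀)⁻¹) * v m := by
      funext m
      simp only [v', P']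
      ring
    rw [hfun]
    exact plane_of_line (f₁ E) h f₁_homog hh (1 - l) l P v hPv _ _
  have hline : expand h (fun m => r (aP m)) (fun m => r (av m)) = 0 := by
    have h1 := congrArg (Polynomial.map (r : A →+* κ)) hA
    rw [Polynomial.map_zero, Polynomial.map_add, Polynomial.map_mul, Polynomial.map_mul, map_C,
      map_C, map_expand, map_expand] at h1
    simp only [RingHom.coe_coe, map_sub, map_one, hral, sub_self, C_0, zero_mul, zero_add, C_1,
      one_mul] at h1
    exact h1
  refine ⟨κ, inferInstance, inferInstance, fun m => r (aP m), fun m => r (av m), hline,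
    ?_, ?_, ?_⟩
  · have : aP 1 = 0 := hi (by rw [haP, hP1, zero_div, map_zero])
    show r (aP 1) = 0
    rw [this, map_zero]
  · have : aP 5 = 0 := hi (by rw [haP, hP5, zero_div, map_zero])
    show r (aP 5) = 0
    rw [this, map_zero]
  · intro a b hab
    have e1 : aP j = 1 := hi (by rw [haP, div_self hj0, map_one])
    have e2 : av j = 0 := hi (by rw [hav, hv'j, zero_div, map_zero])
    have e3 : av m₀ = 1 := hi (by rw [hav, div_self hm0, map_one])
    have h1 : a * r (aP j) + b * r (av j) = 0 := hab j
    rw [e1, e2, map_one, map_zero] at h1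
    have ha : a = 0 := by linear_combination h1
    have h2 : a * r (aP m₀) + b * r (av m₀) = 0 := hab m₀
    rw [e3, map_one, ha] at h2
    exact ⟨ha, by linear_combination h2⟩

end Exist

end Pool.Agent.Work.PD
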