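import Mathlib
import Pool.Agent.Work.MP_b62148_ag.LineExist

/-!
A line of a sextic hypersurface of dimension at least four which is not defined over the algebraic
closure of the ground field.
-/

namespace Pool.Agent.Work.PD

open Polynomial

section Plucker

variable {F : Type*} [Field F]

/-- the value of the first linear form at `a` -/
noncomputable def L1 (a : Fin 6 → F) : F[X] :=
  C (a 1) - (C (a 0) * X + C (a 2) * X ^ 2 + C (a 3) * X ^ 3 + C (a 4) * X ^ 4)

/-- the value of the second linear form at `a` -/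
noncomputable def L2 (a : Fin 6 → F) : F[X] :=
  C (a 5) - (C (a 0) * X ^ 5 + C (a 2) * X ^ 10 + C (a 3) * X ^ 15 + C (a 4) * X ^ 20)

theorem plucker_zero (a b : Fin 6 → F) (h : L1 a * L2 b - L1 b * L2 a = 0) (i j : Fin 6) :
    a i * b j = a j * b i := by
  have e : L1 a * L2 b - L1 b * L2 a =
      C (a 1 * b 5 - a 5 * b 1) * X ^ 0
      - C (a 0 * b 5 - a 5 * b 0) * X ^ 1 - C (a 2 * b 5 - a 5 * b 2) * X ^ 2
      - C (a 3 * b 5 - a 5 * b 3) * X ^ 3 - C (a 4 * b 5 - a 5 * b 4) * X ^ 4
      - C (a 1 * b 0 - a 0 * b 1) * X ^ 5 - C (a 1 * b 2 - a 2 * b 1) * X ^ 10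
      - C (a 1 * b 3 - a 3 * b 1) * X ^ 15 - C (a 1 * b 4 - a 4 * b 1) * X ^ 20
      + C (a 0 * b 2 - a 2 * b 0) * X ^ 11 + C (a 0 * b 3 - a 3 * b 0) * X ^ 16
      + C (a 0 * b 4 - a 4 * b 0) * X ^ 21
      + C (a 2 * b 0 - a 0 * b 2) * X ^ 7 + C (a 2 * b 3 - a 3 * b 2) * X ^ 17
      + C (a 2 * b 4 - a 4 * b 2) * X ^ 22
      + C (a 3 * b 0 - a 0 * b 3) * X ^ 8 + C (a 3 * b 2 - a 2 * b 3) * X ^ 13
      + C (a 3 * b 4 - a 4 * b 3) * X ^ 23
      + C (a 4 * b 0 - a 0 * b 4) * X ^ 9 + C (a 4 * b 2 - a 2 * b 4) * X ^ 14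
      + C (a 4 * b 3 - a 3 * b 4) * X ^ 19 := by
    unfold L1 L2
    simp only [C_mul, C_sub]
    ring
  rw [e] at h
  have c0 := congrArg (fun q : F[X] => q.coeff 0) h
  have c1 := congrArg (fun q : F[X] => q.coeff 1) h
  have c2 := congrArg (fun q : F[X] => q.coeff 2) h
  have c3 := congrArg (fun q : F[X] => q.coeff 3) h
  have c4 := congrArg (fun q : F[X] => q.coeff 4) h
  have c5 := congrArg (fun q : F[X] => q.coeff 5) h
  have c10 := congrArg (fun q : F[X] => q.coeff 10) h
  have c15 := congrArg (fun q : F[X] => q.coeff 15) h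
  have c20 := congrArg (fun q : F[X] => q.coeff 20) h
  have c11 := congrArg (fun q : F[X] => q.coeff 11) h
  have c16 := congrArg (fun q : F[X] => q.coeff 16) h
  have c21 := congrArg (fun q : F[X] => q.coeff 21) h
  have c17 := congrArg (fun q : F[X] => q.coeff 17) h
  have c22 := congrArg (fun q : F[X] => q.coeff 22) h
  have c23 := congrArg (fun q : F[X] => q.coeff 23) h
  simp only [coeff_add, coeff_sub, coeff_C_mul, coeff_X_pow, coeff_zero] at c0 c1 c2 c3 c4 c5 c10 c15 c20 c11 c16 c21 c17 c22 c23
  norm_num at c0 c1 c2 c3 c4 c5 c10 c15 c20 c11 c16 c21 c17 c22 c23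
  fin_cases i <;> fin_cases j <;> simp only [Fin.isValue, Fin.zero_eta, Fin.mk_one, Fin.reduceFinMk] <;>
    first
    | ring1
    | linear_combination c0
    | linear_combination -c0
    | linear_combination c1
    | linear_combination -c1
    | linear_combination c2
    | linear_combination -c2
    | linear_combination c3
    | linear_combination -c3
    | linear_combination c4
    | linear_combination -c4
    | linear_combination c5
    | linear_combination -c5
    | linear_combination c10
    | linear_combination -c10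
    | linear_combination c15
    | linear_combination -c15
    | linear_combination c20
    | linear_combination -c20
    | linear_combination c11
    | linear_combination -c11
    | linear_combination c16
    | linear_combination -c16
    | linear_combination c21
    | linear_combination -c21
    | linear_combination c17
    | linear_combination -c17
    | linear_combination c22
    | linear_combination -c22
    | linear_combination c23
    | linear_combination -c23

end Plucker

section Subst

variable {k E σ : Type*} [Field k] [Field E] [Algebra k E]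

/-- the linear substitution: six coordinates `s j` of `σ` are used, and `x₁ = α`, `x₅ = β` are
shifted by the linear forms with coefficients powers of `u` -/
noncomputable def subst (s : Fin 6 → σ) (u : E) [DecidableEq σ] (i : σ) : MvPolynomial (Fin 6) E :=
  (if i = s 0 then MvPolynomial.X 0 else 0) +
  (if i = s 1 then MvPolynomial.X 1 + (MvPolynomial.C u * MvPolynomial.X 0 +
    MvPolynomial.C (u ^ 2) * MvPolynomial.X 2 + MvPolynomial.C (u ^ 3) * MvPolynomial.X 3 +
    MvPolynomial.C (u ^ 4) * MvPolynomial.X 4) else 0) +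
  (if i = s 2 then MvPolynomial.X 2 else 0) + (if i = s 3 then MvPolynomial.X 3 else 0) +
  (if i = s 4 then MvPolynomial.X 4 else 0) +
  (if i = s 5 then MvPolynomial.X 5 + (MvPolynomial.C (u ^ 5) * MvPolynomial.X 0 +
    MvPolynomial.C (u ^ 10) * MvPolynomial.X 2 + MvPolynomial.C (u ^ 15) * MvPolynomial.X 3 +
    MvPolynomial.C (u ^ 20) * MvPolynomial.X 4) else 0)

theorem subst_homog (s : Fin 6 → σ) (u : E) [DecidableEq σ] (i : σ) :
    (subst s u i).IsHomogeneous 1 := by
  have hX : ∀ j : Fin 6, (MvPolynomial.X j : MvPolynomial (Fin 6) E).IsHomogeneous 1 :=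
    fun j => MvPolynomial.isHomogeneous_X E j
  have hCX : ∀ (c : E) (j : Fin 6), (MvPolynomial.C c * MvPolynomial.X j :
      MvPolynomial (Fin 6) E).IsHomogeneous 1 := fun c j => by
    have := (MvPolynomial.isHomogeneous_C (Fin 6) c).mul (hX j)
    simpa using this
  have h0 : (0 : MvPolynomial (Fin 6) E).IsHomogeneous 1 := MvPolynomial.isHomogeneous_zero _ _ _
  unfold subst
  refine (((((?_ : MvPolynomial.IsHomogeneous _ 1).add ?_).add ?_).add ?_).add ?_).add ?_
  · split_ifs
    · exact hX 0
    · exact h0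
  · split_ifs
    · exact (hX 1).add ((((hCX _ _).add (hCX _ _)).add (hCX _ _)).add (hCX _ _))
    · exact h0
  · split_ifs
    · exact hX 2
    · exact h0
  · split_ifs
    · exact hX 3
    · exact h0
  · split_ifs
    · exact hX 4
    · exact h0
  · split_ifs
    · exact (hX 5).add ((((hCX _ _).add (hCX _ _)).add (hCX _ _)).add (hCX _ _))
    · exact h0

/-- linear forms evaluate linearly -/
theorem aeval_linear {R : Type*} [CommRing R] [Algebra E R] (s : Fin 6 → σ) (u : E)
    [DecidableEq σ] (i : σ) (x y : Fin 6 → R) (a b : R) :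
    MvPolynomial.aeval (fun j => a * x j + b * y j) (subst s u i) =
      a * MvPolynomial.aeval x (subst s u i) + b * MvPolynomial.aeval y (subst s u i) := by
  unfold subst
  simp only [map_add, map_mul, apply_ite (MvPolynomial.aeval (fun j => a * x j + b * y j)),
    apply_ite (MvPolynomial.aeval x), apply_ite (MvPolynomial.aeval y), MvPolynomial.aeval_X,
    MvPolynomial.aeval_C, map_zero]
  split_ifs <;> ring

variable [DecidableEq σ]

theorem aeval_subst_zero {R : Type*} [CommRing R] [Algebra E R] (s : Fin 6 → σ) (u : E)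
    (i : σ) (hi : ∀ j, i ≠ s j) (x : Fin 6 → R) : MvPolynomial.aeval x (subst s u i) = 0 := by
  unfold subst
  simp only [if_neg (hi 0), if_neg (hi 1), if_neg (hi 2), if_neg (hi 3), if_neg (hi 4),
    if_neg (hi 5), add_zero, map_zero]

theorem aeval_subst_s {R : Type*} [CommRing R] [Algebra E R] (s : Fin 6 → σ)
    (hs : Function.Injective s) (u : E) (x : Fin 6 → R) (w : R) (hw : w = algebraMap E R u) :
    MvPolynomial.aeval x (subst s u (s 0)) = x 0 ∧
    MvPolynomial.aeval x (subst s u (s 1)) =
      x 1 + (w * x 0 + w ^ 2 * x 2 + w ^ 3 * x 3 + w ^ 4 * x 4) ∧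
    MvPolynomial.aeval x (subst s u (s 2)) = x 2 ∧ MvPolynomial.aeval x (subst s u (s 3)) = x 3 ∧
    MvPolynomial.aeval x (subst s u (s 4)) = x 4 ∧
    MvPolynomial.aeval x (subst s u (s 5)) =
      x 5 + (w ^ 5 * x 0 + w ^ 10 * x 2 + w ^ 15 * x 3 + w ^ 20 * x 4) := by
  have h : ∀ a b : Fin 6, (s a = s b) ↔ a = b := fun a b => hs.eq_iff
  unfold subst
  simp only [h]
  refine ⟨?_, ?_, ?_, ?_, ?_, ?_⟩
  all_goals
    simp only [Fin.isValue, Fin.reduceEq, if_true, if_false, zero_add, add_zero, map_add, map_mul,
      map_pow, MvPolynomial.aeval_X, MvPolynomial.aeval_C, ← hw, zero_ne_one, one_ne_zero]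

/-- compatibility of the expansion along a line with the substitution -/
theorem expand_subst {K : Type*} [Field K] [Algebra E K] [Algebra k K] [IsScalarTower k E K]
    (f : MvPolynomial σ k) (s : Fin 6 → σ) (u : E) (P v : Fin 6 → K) :
    expand (MvPolynomial.aeval (subst s u) f : MvPolynomial (Fin 6) E) P v =
      expand f (fun i => MvPolynomial.aeval P (subst s u i))
        (fun i => MvPolynomial.aeval v (subst s u i)) := by
  unfold expand
  have h1 := MvPolynomial.comp_aeval_apply (f := subst s u)
    ((MvPolynomial.aeval (fun i => (C (P i) + X * C (v i) : K[X])) :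
      MvPolynomial (Fin 6) E →ₐ[E] K[X]).restrictScalars k) f
  rw [AlgHom.restrictScalars_apply] at h1
  rw [h1]
  congr 2
  funext i
  rw [AlgHom.restrictScalars_apply]
  have h2 : (fun i => (C (P i) + X * C (v i) : K[X])) =
      fun i => 1 * (algebraMap K K[X] ∘ P) i + X * (algebraMap K K[X] ∘ v) i := by
    funext i
    simp
  rw [h2, aeval_linear, MvPolynomial.aeval_algebraMap_apply, MvPolynomial.aeval_algebraMap_apply,
    one_mul]
  rfl

end Subst

end Pool.Agent.Work.PD
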