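import Mathlib
import Pool.Agent.Work.MP_b62148_ag.Moving

/-!
A line of a sextic hypersurface of dimension at least four which is not defined over the algebraic
closure of the ground field.
-/

namespace Pool.Agent.Work.PD

open Polynomial

section Indep

variable {F K σ : Type*} [Field F] [Field K] [Algebra F K]

/-- Two rational points on a line meeting the generic linear space are proportional. -/
theorem rational_points_dependent (s : Fin 6 → σ) (w : K) (hw : Transcendental F w)
    (P v : σ → K) (hind : ∀ a b : K, (∀ i, a * P i + b * v i = 0) → a = 0 ∧ b = 0)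
    (hout : ∀ i, (∀ j, i ≠ s j) → P i = 0 ∧ v i = 0)
    (h1 : P (s 1) = w * P (s 0) + w ^ 2 * P (s 2) + w ^ 3 * P (s 3) + w ^ 4 * P (s 4))
    (h5 : P (s 5) = w ^ 5 * P (s 0) + w ^ 10 * P (s 2) + w ^ 15 * P (s 3) + w ^ 20 * P (s 4))
    (a₁ b₁ a₂ b₂ c₁ c₂ : K) (hc₁ : c₁ ≠ 0) (hc₂ : c₂ ≠ 0)
    (x y : σ → F) (hx : ∀ i, algebraMap F K (x i) = c₁ * (a₁ * P i + b₁ * v i))
    (hy : ∀ i, algebraMap F K (y i) = c₂ * (a₂ * P i + b₂ * v i)) :
    a₁ * b₂ - a₂ * b₁ = 0 := by
  by_contra hdet
  -- the point P in terms of the two rational points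
  have hP : ∀ i, (c₁ * c₂ * (a₁ * b₂ - a₂ * b₁)) * P i =
      (c₂ * b₂) * algebraMap F K (x i) - (c₁ * b₁) * algebraMap F K (y i) := by
    intro i; rw [hx, hy]; ring
  let p : Fin 6 → F := fun j => x (s j)
  let q : Fin 6 → F := fun j => y (s j)
  have ev1 : ∀ z : σ → F, (aeval w (L1 fun j => z (s j)) : K) = algebraMap F K (z (s 1)) -
      (w * algebraMap F K (z (s 0)) + w ^ 2 * algebraMap F K (z (s 2)) +
        w ^ 3 * algebraMap F K (z (s 3)) + w ^ 4 * algebraMap F K (z (s 4))) := by
    intro z
    unfold L1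
    simp only [map_sub, map_add, map_mul, map_pow, aeval_C, aeval_X]
    ring
  have ev2 : ∀ z : σ → F, (aeval w (L2 fun j => z (s j)) : K) = algebraMap F K (z (s 5)) -
      (w ^ 5 * algebraMap F K (z (s 0)) + w ^ 10 * algebraMap F K (z (s 2)) +
        w ^ 15 * algebraMap F K (z (s 3)) + w ^ 20 * algebraMap F K (z (s 4))) := by
    intro z
    unfold L2
    simp only [map_sub, map_add, map_mul, map_pow, aeval_C, aeval_X]
    ring
  have e1 : (c₂ * b₂) * aeval w (L1 p) - (c₁ * b₁) * aeval w (L1 q) = 0 := by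
    rw [show aeval w (L1 p) = _ from ev1 x, show aeval w (L1 q) = _ from ev1 y]
    linear_combination -(hP (s 1)) + w * hP (s 0) + w ^ 2 * hP (s 2) + w ^ 3 * hP (s 3) +
      w ^ 4 * hP (s 4) + (c₁ * c₂ * (a₁ * b₂ - a₂ * b₁)) * h1
  have e2 : (c₂ * b₂) * aeval w (L2 p) - (c₁ * b₁) * aeval w (L2 q) = 0 := by
    rw [show aeval w (L2 p) = _ from ev2 x, show aeval w (L2 q) = _ from ev2 y]
    linear_combination -(hP (s 5)) + w ^ 5 * hP (s 0) + w ^ 10 * hP (s 2) + w ^ 15 * hP (s 3) +
      w ^ 20 * hP (s 4) + (c₁ * c₂ * (a₁ * b₂ - a₂ * b₁)) * h5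
  have e3 : aeval w (L1 p * L2 q - L1 q * L2 p) = (0 : K) := by
    rw [map_sub, map_mul, map_mul]
    by_cases hb : b₂ = 0
    · have hb₁ : b₁ ≠ 0 := by
        intro h; apply hdet; rw [hb, h]; ring
      have f1 : (aeval w (L1 q) : K) = 0 := by
        have : (c₁ * b₁) * aeval w (L1 q) = 0 := by rw [hb] at e1; linear_combination -e1
        exact (mul_eq_zero.mp this).resolve_left (mul_ne_zero hc₁ hb₁)
      have f2 : (aeval w (L2 q) : K) = 0 := by
        have : (c₁ * b₁) * aeval w (L2 q) = 0 := by rw [hb] at e2; linear_combination -e2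
        exact (mul_eq_zero.mp this).resolve_left (mul_ne_zero hc₁ hb₁)
      rw [f1, f2]; ring
    · have : (c₂ * b₂) * (aeval w (L1 p) * aeval w (L2 q) - aeval w (L1 q) * aeval w (L2 p)) =
          (0 : K) := by
        linear_combination aeval w (L2 q) * e1 - aeval w (L1 q) * e2
      exact (mul_eq_zero.mp this).resolve_left (mul_ne_zero hc₂ hb)
  have e4 : L1 p * L2 q - L1 q * L2 p = 0 := by
    by_contra hne
    exact hw ⟨_, hne, e3⟩
  have hpl := plucker_zero p q e4
  -- all Plücker coordinates vanish
  have hall : ∀ i j, x i * y j = x j * y i := by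
    have hz : ∀ i, (∀ j, i ≠ s j) → x i = 0 ∧ y i = 0 := by
      intro i hi
      obtain ⟨g1, g2⟩ := hout i hi
      constructor
      · apply (algebraMap F K).injective
        rw [hx, g1, g2, map_zero]; ring
      · apply (algebraMap F K).injective
        rw [hy, g1, g2, map_zero]; ring
    intro i j
    by_cases hi : ∃ i', i = s i'
    · by_cases hj : ∃ j', j = s j'
      · obtain ⟨i', rfl⟩ := hi
        obtain ⟨j', rfl⟩ := hj
        exact hpl i' j'
      · push Not at hj
        rw [(hz j hj).1, (hz j hj).2]; ring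
    · push Not at hi
      rw [(hz i hi).1, (hz i hi).2]; ring
  -- contradiction with independence
  obtain ⟨i₀, hi₀⟩ : ∃ i, x i ≠ 0 := by
    by_contra hcon
    push Not at hcon
    have : ∀ i, a₁ * P i + b₁ * v i = 0 := by
      intro i
      have := hx i
      rw [hcon i, map_zero] at this
      exact (mul_eq_zero.mp this.symm).resolve_left hc₁
    obtain ⟨g1, g2⟩ := hind _ _ this
    apply hdet; rw [g1, g2]; ring
  have hdep : ∀ i, (algebraMap F K (y i₀) * (c₁ * a₁) - algebraMap F K (x i₀) * (c₂ * a₂)) * P i +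
      (algebraMap F K (y i₀) * (c₁ * b₁) - algebraMap F K (x i₀) * (c₂ * b₂)) * v i = 0 := by
    intro i
    have g := congrArg (algebraMap F K) (hall i i₀)
    rw [map_mul, map_mul] at g
    have g1 := hx i
    have g2 := hy i
    linear_combination g - algebraMap F K (y i₀) * g1 + algebraMap F K (x i₀) * g2
  obtain ⟨g1, g2⟩ := hind _ _ hdep
  have hx0 : algebraMap F K (x i₀) ≠ 0 := by
    intro h
    exact hi₀ ((algebraMap F K).injective (by rw [h, map_zero]))
  have g3 : algebraMap F K (x i₀) * (c₁ * c₂ * (a₁ * b₂ - a₂ * b₁)) = 0 := by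
    linear_combination (c₁ * b₁) * g1 - (c₁ * a₁) * g2
  exact mul_ne_zero hx0 (mul_ne_zero (mul_ne_zero hc₁ hc₂) hdet) g3

end Indep

section Exist

universe u v

/-- The form vanishes on the whole plane spanned by the line. -/
theorem expand_comb {k K σ : Type*} [Field k] [Field K] [Infinite K] [Algebra k K]
    (f : MvPolynomial σ k) (hf6 : f.IsHomogeneous 6) (P v : σ → K) (hline : expand f P v = 0)
    (a b c d : K) :
    expand f (fun i => a * P i + b * v i) (fun i => c * P i + d * v i) = 0 := by
  have hplane : ∀ x y : K, MvPolynomial.aeval (fun i => x * P i + y * v i) f = 0 := by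
    intro x y
    by_cases hx : x = 0
    · have h1 := congrArg (fun q : K[X] => q.coeff 6) hline
      simp only [coeff_zero] at h1
      rw [coeff_top_expand hf6] at h1
      have h2 : (fun i => x * P i + y * v i) = fun i => y * v i := by
        funext i; rw [hx]; ring
      rw [h2, aeval_smul_homog hf6, h1, mul_zero]
    · have h2 : (fun i => x * P i + y * v i) = fun i => x * (P i + y / x * v i) := by
        funext i; field_simp
      rw [h2, aeval_smul_homog hf6, ← eval_expand, hline, eval_zero, mul_zero]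
  apply Polynomial.funext
  intro t
  rw [eval_expand, eval_zero]
  have h2 : (fun i => a * P i + b * v i + t * (c * P i + d * v i)) =
      fun i => (a + t * c) * P i + (b + t * d) * v i := by
    funext i; ring
  rw [h2]
  exact hplane _ _

/-- A nonzero minor gives independence, also after a field extension. -/
theorem exists_minor {κ : Type*} [Field κ] {n : Type*} (P v : n → κ)
    (hind : ∀ a b : κ, (∀ i, a * P i + b * v i = 0) → a = 0 ∧ b = 0) :
    ∃ i j, P i * v j - P j * v i ≠ 0 := by
  by_contra hcon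
  push Not at hcon
  obtain ⟨i₀, hi₀⟩ : ∃ i, v i ≠ 0 := by
    by_contra h
    push Not at h
    have := hind 0 1 (fun i => by rw [h i]; ring)
    exact one_ne_zero this.2
  have := hind (v i₀) (-P i₀) (fun i => by linear_combination hcon i i₀)
  exact hi₀ this.1

theorem indep_of_minor {K : Type*} [Field K] {n : Type*} (P v : n → K) (i j : n)
    (h : P i * v j - P j * v i ≠ 0) :
    ∀ a b : K, (∀ i, a * P i + b * v i = 0) → a = 0 ∧ b = 0 := by
  intro a b hab
  have h1 : (P i * v j - P j * v i) * a = 0 := by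
    linear_combination v j * hab i - v i * hab j
  have h2 : (P i * v j - P j * v i) * b = 0 := by
    linear_combination P i * hab j - P j * hab i
  exact ⟨(mul_eq_zero.mp h1).resolve_left h, (mul_eq_zero.mp h2).resolve_left h⟩

theorem exists_moving_line {k : Type u} [Field k] [CharZero k] {σ : Type v} [Fintype σ]
    (hcard : 6 ≤ Fintype.card σ) (f : MvPolynomial σ k) (hf6 : f.IsHomogeneous 6) :
    ∃ (K : Type u) (_ : Field K) (_ : IsAlgClosed K) (_ : Algebra (AlgebraicClosure k) K)
      (_ : Algebra k K) (_ : IsScalarTower k (AlgebraicClosure k) K) (P v : σ → K),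
      expand f P v = 0 ∧ v ≠ 0 ∧
      ∀ r c : K, c ≠ 0 → ¬ ∀ j, ∃ e : AlgebraicClosure k, algebraMap _ K e = c * (P j + r * v j) := by
  classical
  obtain ⟨s⟩ : Nonempty (Fin 6 ↪ σ) := Function.Embedding.nonempty_of_card_le (by simpa using hcard)
  let F := AlgebraicClosure k
  let E := AlgebraicClosure (RatFunc F)
  let u : E := algebraMap (RatFunc F) E RatFunc.X
  let h : MvPolynomial (Fin 6) E := MvPolynomial.aeval (subst s u) f
  have hh : h.IsHomogeneous 6 := by
    have := hf6.aeval (subst (s : Fin 6 → σ) u) (subst_homog (s : Fin 6 → σ) u)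
    simpa using this
  obtain ⟨κ, _, _, P', v', hline, hP1, hP5, hind⟩ := exists_line_meeting h hh
  let a1 : Algebra F κ := ((algebraMap E κ).comp (algebraMap F E)).toAlgebra
  let a2 : Algebra k κ := ((algebraMap E κ).comp (algebraMap k E)).toAlgebra
  have t1 : IsScalarTower F E κ := IsScalarTower.of_algebraMap_eq fun _ => rfl
  have t2 : IsScalarTower k E κ := IsScalarTower.of_algebraMap_eq fun _ => rfl
  have t3 : IsScalarTower k F κ := by
    refine IsScalarTower.of_algebraMap_eq fun x => ?_
    show algebraMap E κ (algebraMap k E x) = algebraMap E κ (algebraMap F E (algebraMap k F x))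
    rw [← IsScalarTower.algebraMap_apply k F E]
  let K := AlgebraicClosure κ
  have t4 : IsScalarTower k F K := inferInstance
  have t5 : IsScalarTower k E K := inferInstance
  have t6 : IsScalarTower F E K := inferInstance
  have hKinf : Infinite K := inferInstance
  -- pass to K
  let PK : Fin 6 → K := fun j => algebraMap κ K (P' j)
  let vK : Fin 6 → K := fun j => algebraMap κ K (v' j)
  have hlineK : expand h PK vK = 0 := by
    have := map_expand (IsScalarTower.toAlgHom E κ K) h P' v'
    rw [hline, Polynomial.map_zero] at this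
    exact this.symm
  let P : σ → K := fun i => MvPolynomial.aeval PK (subst (s : Fin 6 → σ) u i)
  let v : σ → K := fun i => MvPolynomial.aeval vK (subst (s : Fin 6 → σ) u i)
  have hPv : expand f P v = 0 := by
    rw [← expand_subst (E := E)]
    exact hlineK
  let w : K := algebraMap E K u
  have hwtr : Transcendental F w := by
    have h1 : Transcendental F (RatFunc.X : RatFunc F) := RatFunc.transcendental_X
    have h2 : Transcendental F u := by
      have := (transcendental_algebraMap_iff (R := F) (A := E)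
        (algebraMap (RatFunc F) E).injective).mpr h1
      exact this
    exact (transcendental_algebraMap_iff (R := F) (A := K) (algebraMap E K).injective).mpr h2
  obtain ⟨i₀, j₀, hminor⟩ := exists_minor P' v' hind
  have hminorK : PK i₀ * vK j₀ - PK j₀ * vK i₀ ≠ 0 := by
    show algebraMap κ K (P' i₀) * algebraMap κ K (v' j₀) -
      algebraMap κ K (P' j₀) * algebraMap κ K (v' i₀) ≠ 0
    rw [← map_mul, ← map_mul, ← map_sub]
    intro h0
    exact hminor ((algebraMap κ K).injective (by rw [h0, map_zero]))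
  have hindK := indep_of_minor PK vK i₀ j₀ hminorK
  have hPK1 : PK 1 = 0 := by show algebraMap κ K (P' 1) = 0; rw [hP1, map_zero]
  have hPK5 : PK 5 = 0 := by show algebraMap κ K (P' 5) = 0; rw [hP5, map_zero]
  have sP := aeval_subst_s (E := E) (s : Fin 6 → σ) s.injective u PK w rfl
  have sv := aeval_subst_s (E := E) (s : Fin 6 → σ) s.injective u vK w rfl
  obtain ⟨sP0, sP1, sP2, sP3, sP4, sP5⟩ := sP
  obtain ⟨sv0, sv1, sv2, sv3, sv4, sv5⟩ := sv
  have hindPv : ∀ a b : K, (∀ i, a * P i + b * v i = 0) → a = 0 ∧ b = 0 := by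
    intro a b hab
    apply hindK
    have g0 := hab (s 0)
    have g1 := hab (s 1)
    have g2 := hab (s 2)
    have g3 := hab (s 3)
    have g4 := hab (s 4)
    have g5 := hab (s 5)
    simp only [P, v] at g0 g1 g2 g3 g4 g5
    rw [sP0, sv0] at g0
    rw [sP1, sv1] at g1
    rw [sP2, sv2] at g2
    rw [sP3, sv3] at g3
    rw [sP4, sv4] at g4
    rw [sP5, sv5] at g5
    intro i
    fin_cases i
    · exact g0
    · show a * PK 1 + b * vK 1 = 0
      linear_combination g1 - w * g0 - w ^ 2 * g2 - w ^ 3 * g3 - w ^ 4 * g4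
    · exact g2
    · exact g3
    · exact g4
    · show a * PK 5 + b * vK 5 = 0
      linear_combination g5 - w ^ 5 * g0 - w ^ 10 * g2 - w ^ 15 * g3 - w ^ 20 * g4
  have hout : ∀ i, (∀ j, i ≠ s j) → P i = 0 ∧ v i = 0 := by
    intro i hi
    exact ⟨aeval_subst_zero _ _ _ hi _, aeval_subst_zero _ _ _ hi _⟩
  have h1 : P (s 1) = w * P (s 0) + w ^ 2 * P (s 2) + w ^ 3 * P (s 3) + w ^ 4 * P (s 4) := by
    simp only [P]
    rw [sP0, sP1, sP2, sP3, sP4, hPK1, zero_add]
  have h5 : P (s 5) = w ^ 5 * P (s 0) + w ^ 10 * P (s 2) + w ^ 15 * P (s 3) + w ^ 20 * P (s 4) := by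
    simp only [P]
    rw [sP0, sP2, sP3, sP4, sP5, hPK5, zero_add]
  have key := rational_points_dependent (F := F) (s : Fin 6 → σ) w hwtr P v hindPv hout h1 h5
  refine ⟨K, inferInstance, inferInstance, inferInstance, inferInstance, inferInstance, ?_⟩
  by_cases hrat : ∃ a b c : K, c ≠ 0 ∧ (a ≠ 0 ∨ b ≠ 0) ∧
      ∀ j, ∃ e : F, algebraMap F K e = c * (a * P j + b * v j)
  · obtain ⟨a, b, c, hc, hab, hx⟩ := hrat
    choose x hx using hx
    -- independent companion
    obtain ⟨a', b', hdet⟩ : ∃ a' b' : K, a' * b - a * b' ≠ 0 := by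
      rcases hab with ha | hb
      · exact ⟨0, 1, by simpa using ha⟩
      · exact ⟨1, 0, by simpa using hb⟩
    refine ⟨fun i => a' * P i + b' * v i, fun i => a * P i + b * v i,
      expand_comb f hf6 P v hPv a' b' a b, ?_, ?_⟩
    · intro h0
      have := hindPv a b (fun i => congrFun h0 i)
      rcases hab with ha | hb
      · exact ha this.1
      · exact hb this.2
    · rintro r c' hc' hy
      choose y hy using hy
      have := key (a' + r * a) (b' + r * b) a b c' c hc' hc y x
        (fun i => by rw [hy i]; ring) hx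
      apply hdet
      linear_combination this
  · refine ⟨P, v, hPv, ?_, ?_⟩
    · intro h0
      have := hindPv 0 1 (fun i => by rw [congrFun h0 i]; simp)
      exact one_ne_zero this.2
    · rintro r c hc hy
      exact hrat ⟨1, r, c, hc, Or.inl one_ne_zero, fun j => by
        obtain ⟨e, he⟩ := hy j
        exact ⟨e, by rw [he]; ring⟩⟩

end Exist

end Pool.Agent.Work.PD
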