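import Mathlib
import Pool.Agent.Work.MP_b62148_ag.DP1
import Pool.Agent.Work.MP_b62148_ag.Cover

/-!
Density of rational points, over the ground field itself, on del Pezzo surfaces of degree one with
a rational point of order two on a smooth fibre of the anticanonical pencil.
-/

namespace Pool.Agent.Work.MP_b62148_ag.OldDelPezzoOne

open Polynomial

/-- The polynomial `z ^ 3 + c(t) z ^ 2 + a(t) z + b(t)` in the variables `t` (index `0`) and `z`
(index `1`). -/
noncomputable def cubicPoly {K : Type*} [Field K] (c a b : K[X]) : MvPolynomial (Fin 2) K :=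
  MvPolynomial.X 1 ^ 3 + aeval (MvPolynomial.X 0) c * MvPolynomial.X 1 ^ 2 +
    aeval (MvPolynomial.X 0) a * MvPolynomial.X 1 + aeval (MvPolynomial.X 0) b

/-- The `K`-points of the surface `w ^ 2 = f (t, z)` are Zariski dense: every polynomial in `w`,
`t`, `z` which vanishes at all of them is a multiple of `w ^ 2 - f`. -/
def SurfaceDense {K : Type*} [Field K] (f : MvPolynomial (Fin 2) K) : Prop :=
  ∀ G : Polynomial (MvPolynomial (Fin 2) K),
    (∀ (x : Fin 2 → K) (w : K), w ^ 2 = MvPolynomial.eval x f →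
      (G.map (MvPolynomial.eval x)).eval w = 0) →
    (X ^ 2 - C f) ∣ G

/-- The exceptional (symmetric) surfaces, for an equation normalised so that `t ^ 3` divides
`b(t)`. -/
def Exceptional {K : Type*} [Field K] (c a b : K[X]) : Prop :=
  b.coeff 3 = 0 ∧ 2 * a.coeff 0 * c.coeff 1 = a.coeff 1 * c.coeff 0 ∧
    8 * a.coeff 0 ^ 2 * a.coeff 3 + a.coeff 1 ^ 3 = 4 * a.coeff 0 * a.coeff 1 * a.coeff 2 ∧
    2 * a.coeff 0 * b.coeff 5 = a.coeff 1 * b.coeff 4

/-- If `K` has characteristic zero and the surface `w ^ 2 = z ^ 3 + c(t) z ^ 2 + a(t) z + b(t)`,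
with `deg c ≤ 2`, `deg a ≤ 4`, `deg b ≤ 6` and `t ^ 3 ∣ b(t)`, has a smooth fibre over `t = 0` and
is not exceptional, then its `K`-points are Zariski dense. -/
theorem result {K : Type*} [Field K] [CharZero K] (c a b : K[X]) (hc : c.natDegree ≤ 2)
    (ha : a.natDegree ≤ 4) (hb : b.natDegree ≤ 6) (hb3 : X ^ 3 ∣ b) (ha0 : a.coeff 0 ≠ 0)
    (hca : c.coeff 0 ^ 2 ≠ 4 * a.coeff 0) (hex : ¬ Exceptional c a b) :
    SurfaceDense (cubicPoly c a b) := by
  rw [X_pow_dvd_iff] at hb3
  intro G hG
  refine Pool.Agent.Work.PD.dvd_of_vanish _ ?_ ?_ G hG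
  · intro h0
    have h1 := congrArg (MvPolynomial.eval ![(0 : K), 1]) h0
    have h2 := congrArg (MvPolynomial.eval ![(0 : K), -1]) h0
    have h3 := congrArg (MvPolynomial.eval ![(0 : K), 2]) h0
    have he : ∀ (z : K) (p : K[X]), MvPolynomial.eval ![(0 : K), z]
        (aeval (MvPolynomial.X 0 : MvPolynomial (Fin 2) K) p) = p.coeff 0 := by
      intro z p
      rw [coeff_zero_eq_eval_zero]
      have := Polynomial.hom_eval₂ p (algebraMap K (MvPolynomial (Fin 2) K))
        (MvPolynomial.eval ![(0 : K), z]) (MvPolynomial.X 0)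
      rw [aeval_def, this, MvPolynomial.eval_X]
      have hid : (MvPolynomial.eval ![(0 : K), z]).comp
          (algebraMap K (MvPolynomial (Fin 2) K)) = RingHom.id K := by
        ext x
        simp [MvPolynomial.algebraMap_eq]
      rw [hid]
      rfl
    simp only [cubicPoly, map_add, map_mul, map_pow, he, MvPolynomial.eval_X,
      Matrix.cons_val_one, Matrix.cons_val_zero, map_zero] at h1 h2 h3
    have h6 : (6 : K) = 0 := by
      linear_combination h3 - 3 * h1 - h2 + 3 * hb3 0 (by norm_num)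
    norm_num at h6
  · intro G' hG'
    exact Pool.Agent.Work.PD.dP1_dense c a b hc ha hb (hb3 0 (by norm_num)) (hb3 1 (by norm_num))
      (hb3 2 (by norm_num)) ha0 hca hex G' hG'

end Pool.Agent.Work.MP_b62148_ag.OldDelPezzoOne
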