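import Mathlib
import Pool.Agent.Work.MP_b62148_ag.Core
import Pool.Agent.Work.MP_b62148_ag.Spec
import Pool.Agent.Work.MP_b62148_ag.Val

/-!
Conic bundle surfaces `w ^ 2 = a(y) + b(y) t + c(y) t ^ 2` with `a, b, c` of degree at most four
and a rational point in a nondegenerate fibre.
-/

namespace Pool.Agent.Work.PD

open Polynomial

section

variable {M : Type*} [Field M]

theorem exists_prime_dvd_not_dvd (W D : M[X]) (hsq : Squarefree W) (hW0 : W ≠ 0) (h : ¬ W ∣ D) :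
    ∃ π : M[X], Prime π ∧ π ∣ W ∧ ¬ π ∣ D := by
  classical
  obtain ⟨u, hu⟩ := EuclideanDomain.gcd_dvd_left W D
  have hg := EuclideanDomain.gcd_dvd_right W D
  set g := EuclideanDomain.gcd W D with hgdef
  have hunit : ¬ IsUnit u := by
    intro hu'
    apply h
    obtain ⟨u', rfl⟩ := hu'
    have h1 : W ∣ g := ⟨(↑u'⁻¹ : M[X]), by
      rw [hu, mul_assoc, Units.mul_inv, mul_one]⟩
    exact h1.trans hg
  have hu0 : u ≠ 0 := by
    rintro rfl
    rw [mul_zero] at hu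
    exact hW0 hu
  obtain ⟨π, hπ, hπu⟩ := WfDvdMonoid.exists_irreducible_factor hunit hu0
  refine ⟨π, hπ.prime, ?_, ?_⟩
  · rw [hu]; exact hπu.mul_left g
  · intro hD
    have h1 : π ∣ g := EuclideanDomain.dvd_gcd (by rw [hu]; exact hπu.mul_left g) hD
    have h2 : π * π ∣ W := by rw [hu]; exact mul_dvd_mul h1 hπu
    exact hπ.not_isUnit (hsq π h2)

/-- the first homogeneous coordinate of the point of the conic -/
noncomputable def cx1 (c₀ : M) : M[X] := X ^ 2 - C c₀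

/-- the second homogeneous coordinate of the point of the conic -/
noncomputable def cx2 (w₀ b₀ : M) : M[X] := C b₀ - C (2 * w₀) * X

/-- the last homogeneous coordinate of the point of the conic -/
noncomputable def cw (w₀ b₀ c₀ : M) : M[X] := C b₀ * X - C w₀ * X ^ 2 - C (c₀ * w₀)

theorem conic_identity (w₀ b₀ c₀ : M) :
    C (w₀ ^ 2) * cx1 c₀ ^ 2 + C b₀ * cx1 c₀ * cx2 w₀ b₀ + C c₀ * cx2 w₀ b₀ ^ 2 =
      cw w₀ b₀ c₀ ^ 2 := by
  unfold cx1 cx2 cw
  simp only [map_mul, map_pow, map_ofNat]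
  ring

theorem derivative_cw (w₀ b₀ c₀ : M) : derivative (cw w₀ b₀ c₀) = cx2 w₀ b₀ := by
  unfold cw cx2
  simp only [derivative_sub, derivative_C_mul, derivative_X, derivative_X_pow, derivative_C,
    map_mul, map_ofNat]
  have h2 : (C (2 : M) : M[X]) = 2 := map_ofNat C 2
  norm_num
  rw [h2]
  ring

theorem cx2_sq (w₀ b₀ c₀ : M) :
    cx2 w₀ b₀ ^ 2 + C (4 * w₀) * cw w₀ b₀ c₀ = C (b₀ ^ 2 - 4 * w₀ ^ 2 * c₀) := by
  unfold cw cx2
  simp only [map_mul, map_ofNat, map_sub, map_pow]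
  ring

theorem cw_squarefree (w₀ b₀ c₀ : M) (hδ : b₀ ^ 2 - 4 * w₀ ^ 2 * c₀ ≠ 0) :
    Squarefree (cw w₀ b₀ c₀) := by
  apply Separable.squarefree
  unfold Separable
  rw [derivative_cw]
  refine ⟨C ((b₀ ^ 2 - 4 * w₀ ^ 2 * c₀)⁻¹) * C (4 * w₀),
    C ((b₀ ^ 2 - 4 * w₀ ^ 2 * c₀)⁻¹) * cx2 w₀ b₀, ?_⟩
  calc _ = C ((b₀ ^ 2 - 4 * w₀ ^ 2 * c₀)⁻¹) * (cx2 w₀ b₀ ^ 2 + C (4 * w₀) * cw w₀ b₀ c₀) := by ring
    _ = 1 := by rw [cx2_sq, ← C_mul, inv_mul_cancel₀ hδ, C_1]

/-- Explicit division with remainder. -/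
theorem conic_remainder (w₀ b₀ c₀ a₁ b₁ c₁ : M) :
    ∃ Q : M[X], C (w₀ ^ 3) * (C a₁ * cx1 c₀ ^ 2 + C b₁ * cx1 c₀ * cx2 w₀ b₀ + C c₁ * cx2 w₀ b₀ ^ 2) =
      cw w₀ b₀ c₀ * Q + C (b₀ ^ 2 - 4 * w₀ ^ 2 * c₀) *
        (C (a₁ * b₀ - b₁ * w₀ ^ 2) * X + C (w₀ * (c₁ * w₀ ^ 2 - a₁ * c₀))) := by
  refine ⟨C a₁ * (C w₀ * (cw w₀ b₀ c₀ - 2 * (C b₀ * X - C (2 * c₀ * w₀))) - C (b₀ ^ 2)) +
    C b₁ * (C (2 * b₀ * w₀ ^ 2) - C (w₀ ^ 2) * cx2 w₀ b₀) - C (4 * w₀ ^ 4 * c₁), ?_⟩
  unfold cw cx1 cx2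
  simp only [map_mul, map_ofNat, map_sub, map_pow]
  ring

theorem natDegree_cw (w₀ b₀ c₀ : M) (hw : w₀ ≠ 0) : (cw w₀ b₀ c₀).natDegree = 2 := by
  have h : cw w₀ b₀ c₀ = C (-w₀) * X ^ 2 + C b₀ * X + C (-(c₀ * w₀)) := by
    unfold cw
    simp only [map_neg]
    ring
  rw [h]
  exact natDegree_quadratic (neg_ne_zero.mpr hw)

theorem cw_not_dvd (w₀ b₀ c₀ a₁ b₁ c₁ : M) (hw : w₀ ≠ 0) (hδ : b₀ ^ 2 - 4 * w₀ ^ 2 * c₀ ≠ 0)
    (hn : ¬ (a₁ * b₀ = b₁ * w₀ ^ 2 ∧ c₁ * w₀ ^ 2 = a₁ * c₀)) :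
    ¬ cw w₀ b₀ c₀ ∣ (C a₁ * cx1 c₀ ^ 2 + C b₁ * cx1 c₀ * cx2 w₀ b₀ + C c₁ * cx2 w₀ b₀ ^ 2) := by
  intro hdvd
  obtain ⟨Q, hQ⟩ := conic_remainder w₀ b₀ c₀ a₁ b₁ c₁
  have h1 : cw w₀ b₀ c₀ ∣ C (b₀ ^ 2 - 4 * w₀ ^ 2 * c₀) *
        (C (a₁ * b₀ - b₁ * w₀ ^ 2) * X + C (w₀ * (c₁ * w₀ ^ 2 - a₁ * c₀))) := by
    have h2 : C (b₀ ^ 2 - 4 * w₀ ^ 2 * c₀) *
        (C (a₁ * b₀ - b₁ * w₀ ^ 2) * X + C (w₀ * (c₁ * w₀ ^ 2 - a₁ * c₀))) =
        C (w₀ ^ 3) * (C a₁ * cx1 c₀ ^ 2 + C b₁ * cx1 c₀ * cx2 w₀ b₀ + C c₁ * cx2 w₀ b₀ ^ 2) -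
        cw w₀ b₀ c₀ * Q := by rw [hQ]; ring
    rw [h2]
    exact dvd_sub (hdvd.mul_left _) (dvd_mul_right _ _)
  have h3 : C (b₀ ^ 2 - 4 * w₀ ^ 2 * c₀) *
        (C (a₁ * b₀ - b₁ * w₀ ^ 2) * X + C (w₀ * (c₁ * w₀ ^ 2 - a₁ * c₀))) = 0 := by
    refine eq_zero_of_dvd_of_natDegree_lt h1 ?_
    rw [natDegree_cw _ _ _ hw]
    refine lt_of_le_of_lt (natDegree_C_mul_le _ _) ?_
    exact lt_of_le_of_lt natDegree_linear_le (by norm_num)
  have h4 := (mul_eq_zero.mp h3).resolve_left (C_ne_zero.mpr hδ)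
  apply hn
  have h5 := congrArg (fun q : M[X] => q.coeff 1) h4
  have h6 := congrArg (fun q : M[X] => q.coeff 0) h4
  simp only [coeff_add, coeff_C_mul, coeff_X_one, coeff_X_zero, coeff_C_zero, coeff_zero,
    mul_zero, zero_add] at h5 h6
  rw [coeff_C_of_ne_zero one_ne_zero] at h5
  constructor
  · linear_combination h5
  · have := (mul_eq_zero.mp h6).resolve_left hw
    linear_combination this

/-- the polynomial `a(y) + b(y) t + c(y) t ^ 2`, `t` having index `0` and `y` index `1` -/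
noncomputable def conicPoly (a b c : M[X]) : MvPolynomial (Fin 2) M :=
  aeval (MvPolynomial.X 1) a + aeval (MvPolynomial.X 1) b * MvPolynomial.X 0 +
    aeval (MvPolynomial.X 1) c * MvPolynomial.X 0 ^ 2

theorem aeval_conicPoly {F : Type*} [Field F] [Algebra M F] (a b c : M[X]) (x : Fin 2 → F) :
    MvPolynomial.aeval x (conicPoly a b c) =
      aeval (x 1) a + aeval (x 1) b * x 0 + aeval (x 1) c * x 0 ^ 2 := by
  have h : ∀ p : M[X], MvPolynomial.aeval x (aeval (MvPolynomial.X 1 : MvPolynomial (Fin 2) M) p) =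
      aeval (x 1) p := by
    intro p
    rw [← Polynomial.aeval_algHom_apply, MvPolynomial.aeval_X]
  unfold conicPoly
  rw [map_add, map_add, map_mul, map_mul, map_pow, h, h, h, MvPolynomial.aeval_X]

theorem aeval_taylor_expand {F : Type*} [Field F] [Algebra M F] (p : M[X]) (hp : p.natDegree ≤ 4)
    (y₀ : M) (s : F) :
    aeval (algebraMap M F y₀ + s) p = algebraMap M F (p.eval y₀) +
      algebraMap M F (p.derivative.eval y₀) * s + algebraMap M F ((taylor y₀ p).coeff 2) * s ^ 2 +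
      algebraMap M F ((taylor y₀ p).coeff 3) * s ^ 3 +
      algebraMap M F ((taylor y₀ p).coeff 4) * s ^ 4 := by
  have h1 : aeval (algebraMap M F y₀ + s) p = aeval s (taylor y₀ p) := by
    rw [taylor_apply, aeval_comp]
    congr 1
    simp [add_comm]
  rw [h1, aeval_eq_sum_range' (n := 5) (by rw [natDegree_taylor]; omega)]
  simp only [Finset.sum_range_succ, Finset.sum_range_zero, Algebra.smul_def, taylor_coeff_zero,
    taylor_coeff_one]
  ring

/-- Density of the points of a conic bundle surface over its ground field. -/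
theorem conic_surface_vanish [CharZero M] (a b c : M[X]) (ha : a.natDegree ≤ 4)
    (hb : b.natDegree ≤ 4) (hc : c.natDegree ≤ 4) (y₀ w₀ : M) (hw₀ : w₀ ≠ 0)
    (haw : a.eval y₀ = w₀ ^ 2) (hδ : b.eval y₀ ^ 2 - 4 * w₀ ^ 2 * c.eval y₀ ≠ 0)
    (hn : ¬ (a.derivative.eval y₀ * b.eval y₀ = b.derivative.eval y₀ * w₀ ^ 2 ∧
      c.derivative.eval y₀ * w₀ ^ 2 = a.derivative.eval y₀ * c.eval y₀))
    (G : MvPolynomial (Fin 2) M)
    (hG : ∀ x : Fin 2 → M, IsSquare (MvPolynomial.eval x (conicPoly a b c)) →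
      MvPolynomial.eval x G = 0) : G = 0 := by
  classical
  let F := RatFunc M
  let ι : M[X] →+* F := algebraMap M[X] F
  have hιinj : Function.Injective ι := IsFractionRing.injective M[X] F
  have hιC : ∀ m : M, ι (C m) = algebraMap M F m := by
    intro m
    rw [IsScalarTower.algebraMap_apply M M[X] F, Polynomial.algebraMap_apply]
    rfl
  set b₀ := b.eval y₀ with hb₀
  set c₀ := c.eval y₀ with hc₀
  let W : M[X] := cw w₀ b₀ c₀
  let x₁ : M[X] := cx1 c₀
  let x₂ : M[X] := cx2 w₀ b₀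
  let comb : M → M → M → M[X] := fun α β γ => C α * x₁ ^ 2 + C β * x₁ * x₂ + C γ * x₂ ^ 2
  have hW0 : W ≠ 0 := by
    intro h
    have := natDegree_cw w₀ b₀ c₀ hw₀
    rw [show cw w₀ b₀ c₀ = 0 from h] at this
    simp at this
  obtain ⟨π, hπ, hπW, hπD⟩ := exists_prime_dvd_not_dvd W
    (comb (a.derivative.eval y₀) (b.derivative.eval y₀) (c.derivative.eval y₀))
    (cw_squarefree _ _ _ hδ) hW0 (cw_not_dvd _ _ _ _ _ _ hw₀ hδ hn)
  obtain ⟨v, hv1, hv2, hv3⟩ := exists_val (F := F) π hπ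
  have hcore := core_infinite v hv3 (q := ι W)
    (d := ι (comb (a.derivative.eval y₀) (b.derivative.eval y₀) (c.derivative.eval y₀)))
    (c := ι (comb ((taylor y₀ a).coeff 2) ((taylor y₀ b).coeff 2) ((taylor y₀ c).coeff 2)))
    (b := ι (comb ((taylor y₀ a).coeff 3) ((taylor y₀ b).coeff 3) ((taylor y₀ c).coeff 3)))
    (a := ι (comb ((taylor y₀ a).coeff 4) ((taylor y₀ b).coeff 4) ((taylor y₀ c).coeff 4)))
    (fun h => hW0 (hιinj (by rw [h, map_zero]))) (V := 1)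
    (by
      rw [← map_pow, hv2]
      exact dvd_pow hπW two_ne_zero)
    (by
      refine le_antisymm (hv1 _) (not_lt.mp ?_)
      rw [hv2]
      exact hπD) (hv1 _) (hv1 _) (hv1 _)
  have hx1 : ι x₁ ≠ 0 := by
    intro h
    have h1 : x₁ = 0 := hιinj (by rw [h, map_zero])
    have h2 : (X ^ 2 - C c₀ : M[X]) ≠ 0 := X_pow_sub_C_ne_zero (by norm_num) _
    exact h2 h1
  let t : F := ι x₂ / ι x₁
  -- vanishing for infinitely many s
  have hvan : ∀ s : F, IsSquare (ι W ^ 2 +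
      ι (comb (a.derivative.eval y₀) (b.derivative.eval y₀) (c.derivative.eval y₀)) * s +
      ι (comb ((taylor y₀ a).coeff 2) ((taylor y₀ b).coeff 2) ((taylor y₀ c).coeff 2)) * s ^ 2 +
      ι (comb ((taylor y₀ a).coeff 3) ((taylor y₀ b).coeff 3) ((taylor y₀ c).coeff 3)) * s ^ 3 +
      ι (comb ((taylor y₀ a).coeff 4) ((taylor y₀ b).coeff 4) ((taylor y₀ c).coeff 4)) * s ^ 4) →
      MvPolynomial.aeval ![t, algebraMap M F y₀ + s] G = 0 := by
    intro s hs
    refine spec_square (conicPoly a b c) G hG _ ?_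
    rw [aeval_conicPoly]
    simp only [Matrix.cons_val_zero, Matrix.cons_val_one]
    rw [aeval_taylor_expand a ha, aeval_taylor_expand b hb, aeval_taylor_expand c hc, haw]
    obtain ⟨z, hz⟩ := hs
    refine ⟨z / ι x₁, ?_⟩
    have hid : ι W ^ 2 = ι (comb (w₀ ^ 2) b₀ c₀) := by
      rw [← map_pow]
      congr 1
      exact (conic_identity w₀ b₀ c₀).symm
    have hcomb : ∀ α β γ : M, ι (comb α β γ) = (algebraMap M F α + algebraMap M F β * t +
        algebraMap M F γ * t ^ 2) * ι x₁ ^ 2 := by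
      intro α β γ
      have ht : ι x₂ = t * ι x₁ := (div_mul_cancel₀ _ hx1).symm
      simp only [comb, map_add, map_mul, map_pow, hιC, ht]
      ring
    rw [div_mul_div_comm, ← hz, hid]
    simp only [hcomb]
    rw [← hb₀, ← hc₀, eq_div_iff (mul_ne_zero hx1 hx1)]
    ring
  -- vanishing on the whole curve
  have hall : ∀ y : F, MvPolynomial.aeval ![t, y] G = 0 := by
    let Gt : F[X] := MvPolynomial.aeval ![C t, X] G
    have hGt : ∀ y : F, Gt.eval y = MvPolynomial.aeval ![t, y] G := by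
      intro y
      have h1 : Gt.eval y = (Polynomial.aeval y : F[X] →ₐ[F] F).restrictScalars M Gt := by
        simp [Polynomial.coe_aeval_eq_eval]
      rw [h1]
      simp only [Gt]
      rw [MvPolynomial.comp_aeval_apply]
      congr 1
      congr 1
      funext i
      fin_cases i <;> simp
    have hGt0 : Gt = 0 := by
      refine eq_zero_of_infinite_isRoot _ ?_
      have hinj : Function.Injective (fun s : F => algebraMap M F y₀ + s) := add_right_injective _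
      refine (hcore.image hinj.injOn).mono ?_
      rintro _ ⟨s, hs, rfl⟩
      show Gt.eval (algebraMap M F y₀ + s) = 0
      rw [hGt]
      exact hvan s hs
    intro y
    rw [← hGt, hGt0, eval_zero]
  -- t is transcendental
  have htr : Transcendental M t := by
    intro halg
    have hX : Transcendental M (RatFunc.X : RatFunc M) := RatFunc.transcendental_X
    apply hX
    let A := algebraicClosure M F
    have hA : Algebra.IsAlgebraic M A := algebraicClosure.isAlgebraic M F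
    have htA : t ∈ A := (mem_algebraicClosure_iff).mpr halg
    have h1 : IsAlgebraic A (RatFunc.X : RatFunc M) := by
      let t' : A := ⟨t, htA⟩
      refine ⟨C t' * (X ^ 2 - C (algebraMap M A c₀)) - (C (algebraMap M A b₀) - C (algebraMap M A (2 * w₀)) * X), ?_, ?_⟩
      · intro h0
        have h2 := congrArg (fun q : A[X] => q.coeff 1) h0
        simp only [coeff_sub, coeff_C_mul, coeff_X_pow, coeff_C_succ, coeff_X_one, coeff_zero] at h2
        norm_num at h2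
        exact hw₀ h2
      · simp only [map_sub, map_mul, map_pow, aeval_C, aeval_X, ← IsScalarTower.algebraMap_apply]
        have h3 : algebraMap A F t' = t := rfl
        rw [h3]
        have h4 : ι x₁ = RatFunc.X ^ 2 - algebraMap M F c₀ := by
          simp only [x₁, cx1, map_sub, map_pow, hιC]
          rfl
        have h5 : ι x₂ = algebraMap M F b₀ - algebraMap M F (2 * w₀) * RatFunc.X := by
          simp only [x₂, cx2, map_sub, map_mul, hιC]
          rfl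
        rw [← h4, ← map_mul, ← h5]
        simp only [t]
        field_simp
        ring
    exact h1.restrictScalars M
  apply MvPolynomial.funext
  intro x
  rw [map_zero]
  let Gy : M[X] := MvPolynomial.aeval ![X, C (x 1)] G
  have hGy : ∀ {B : Type _} [CommRing B] [Algebra M B] (r : B), aeval r Gy =
      MvPolynomial.aeval ![r, algebraMap M B (x 1)] G := by
    intro B _ _ r
    simp only [Gy]
    rw [MvPolynomial.comp_aeval_apply]
    congr 1
    congr 1
    funext i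
    fin_cases i <;> simp
  have hGy0 : Gy = 0 := by
    by_contra hne
    exact htr ⟨Gy, hne, by rw [hGy]; exact hall _⟩
  have h2 := hGy (B := M) (x 0)
  rw [hGy0, map_zero] at h2
  have h3 : ![x 0, algebraMap M M (x 1)] = x := by
    funext i
    fin_cases i <;> rfl
  rw [h3] at h2
  rw [MvPolynomial.aeval_eq_eval] at h2
  exact h2.symm

end

end Pool.Agent.Work.PD
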