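import Mathlib

/-!
Specialisation from the fraction field of a domain with enough points.
-/

namespace Pool.Agent.Work.PD

section QSpec

variable {K : Type*} [Field K] {R : Type*} [CommRing R] [IsDomain R] [Algebra K R]
  {F : Type*} [Field F] [Algebra R F] [IsFractionRing R F] [Algebra K F] [IsScalarTower K R F]

theorem spec_square_of_points (hR : ∀ p : R, (∀ ev : R →ₐ[K] K, ev p = 0) → p = 0)
    {σ : Type*} [Finite σ] (f G : MvPolynomial σ K)
    (h : ∀ x : σ → K, IsSquare (MvPolynomial.eval x f) → MvPolynomial.eval x G = 0)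
    (x : σ → F) (hx : IsSquare (MvPolynomial.aeval x f)) : MvPolynomial.aeval x G = 0 := by
  classical
  obtain ⟨w, hw⟩ := hx
  -- common denominator
  obtain ⟨N, hN⟩ := IsLocalization.exist_integer_multiples_of_finite (nonZeroDivisors R)
    (fun i : Option σ => i.elim w x)
  have hN0 : (N : R) ≠ 0 := nonZeroDivisors.ne_zero N.2
  let R' := Localization.Away (N : R)
  have hunit : IsUnit (algebraMap R F (N : R)) := by
    rw [isUnit_iff_ne_zero]
    simpa using hN0
  let g : R' →+* F := IsLocalization.Away.lift (N : R) hunit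
  have hgalg : ∀ p : R, g (algebraMap R R' p) = algebraMap R F p := fun p =>
    IsLocalization.Away.lift_eq _ _ _
  have hginj : Function.Injective g := by
    rw [injective_iff_map_eq_zero]
    intro r hr
    obtain ⟨k, p, hp⟩ := IsLocalization.Away.surj (N : R) r
    have h1 : g (algebraMap R R' p) = 0 := by rw [← hp, map_mul, hr, zero_mul]
    rw [hgalg] at h1
    have h2 : p = 0 := by simpa using h1
    rw [h2, map_zero] at hp
    have hu : IsUnit ((algebraMap R R' N) ^ k) :=
      (IsLocalization.Away.algebraMap_isUnit (N : R)).pow k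
    exact (hu.mul_left_eq_zero).mp hp
  -- lifts
  have lift : ∀ i : Option σ, ∃ r : R', g r = i.elim w x := by
    intro i
    obtain ⟨p, hp⟩ := hN i
    obtain ⟨u, hu⟩ := IsLocalization.Away.algebraMap_isUnit (S := R') (N : R)
    refine ⟨algebraMap R R' p * ↑u⁻¹, ?_⟩
    have h1 : g (algebraMap R R' p * ↑u⁻¹) * algebraMap R F N = algebraMap R F p := by
      rw [← hgalg N, ← map_mul, mul_assoc, ← hu, Units.inv_mul, mul_one, hgalg]
    have h2 : algebraMap R F (N : R) ≠ 0 := hunit.ne_zero
    have h3 : (i.elim w x) * algebraMap R F N = algebraMap R F p := by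
      rw [hp, Algebra.smul_def, mul_comm]
    exact mul_right_cancel₀ h2 (h1.trans h3.symm)
  choose r hr using lift
  let x' : σ → R' := fun i => r (some i)
  let w' : R' := r none
  have hx' : ∀ i, g (x' i) = x i := fun i => hr (some i)
  have hw' : g w' = w := hr none
  -- evaluation of polynomials
  have halg : ∀ c : K, g (algebraMap R R' (algebraMap K R c)) = algebraMap K F c := by
    intro c
    rw [hgalg, ← IsScalarTower.algebraMap_apply K R F]
  let φ : K →+* R' := (algebraMap R R').comp (algebraMap K R)
  have evalg : ∀ P : MvPolynomial σ K,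
      g (MvPolynomial.eval₂ φ x' P) = MvPolynomial.aeval x P := by
    intro P
    rw [MvPolynomial.hom_eval₂]
    rw [MvPolynomial.aeval_def]
    congr 1
    · ext c; exact halg c
    · ext i; exact hx' i
  have hf' : MvPolynomial.eval₂ φ x' f = w' * w' := by
    apply hginj
    rw [evalg, map_mul, hw', hw]
  -- evaluations
  have key : ∀ (θ : R →ₐ[K] K) (ev : R' →+* K),
      (∀ p : R, ev (algebraMap R R' p) = θ p) →
      ev (MvPolynomial.eval₂ φ x' G) = 0 := by
    intro θ ev hev
    have e : ∀ P : MvPolynomial σ K,
        ev (MvPolynomial.eval₂ φ x' P) = MvPolynomial.eval (fun i => ev (x' i)) P := by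
      intro P
      rw [MvPolynomial.hom_eval₂, MvPolynomial.eval, MvPolynomial.coe_eval₂Hom]
      congr 1
      ext c
      simp [φ, hev]
    rw [e]
    apply h
    rw [← e, hf', map_mul]
    exact ⟨_, rfl⟩
  have hG : MvPolynomial.eval₂ φ x' G = 0 := by
    obtain ⟨k, p, hp⟩ := IsLocalization.Away.surj (N : R) (MvPolynomial.eval₂ φ x' G)
    have hp0 : (N : R) * p = 0 := by
      apply hR
      intro θ
      rw [map_mul, mul_eq_zero]
      by_cases hθ : θ (N : R) = 0
      · left; exact hθ
      · right
        have hu : IsUnit ((θ : R →+* K) (N : R)) := by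
          rw [isUnit_iff_ne_zero]; exact hθ
        have := key θ (IsLocalization.Away.lift (N : R) hu) (fun p =>
          IsLocalization.Away.lift_eq _ _ _)
        have h4 := congrArg (IsLocalization.Away.lift (S := R') (N : R) hu) hp
        rw [map_mul, this, zero_mul, IsLocalization.Away.lift_eq] at h4
        exact h4.symm
    rcases mul_eq_zero.mp hp0 with h0 | h0
    · exact absurd h0 hN0
    · rw [h0, map_zero] at hp
      have hu : IsUnit ((algebraMap R R' N) ^ k) :=
        (IsLocalization.Away.algebraMap_isUnit (N : R)).pow k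
      exact (hu.mul_left_eq_zero).mp hp
  rw [← evalg, hG, map_zero]

omit [IsDomain R] in
theorem enough_points_mvPolynomial [Infinite K] {ρ : Type*} (p : MvPolynomial ρ K)
    (hp : ∀ ev : MvPolynomial ρ K →ₐ[K] K, ev p = 0) : p = 0 := by
  apply MvPolynomial.funext
  intro θ
  rw [map_zero]
  exact hp (MvPolynomial.aeval θ)

end QSpec

end Pool.Agent.Work.PD
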