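import Mathlib
import Pool.Agent.Work.MP_b62148_ag.QSpec
import Pool.Agent.Work.MP_b62148_ag.QConic
import Pool.Agent.Work.MP_b62148_ag.QBil

/-!
Quadric bundles `w ^ 2 = q(x)` whose coefficients have degree at most four in the base variable `y`
and a section over the hyperplane `y = y₀`.
-/

namespace Pool.Agent.Work.PD

open Polynomial

section Form

variable {L : Type*} [Field L] {n m : ℕ}

/-- the polynomial `∑ S i j * x i * x j` -/
noncomputable def quadForm (S : Matrix (Fin n) (Fin n) (MvPolynomial (Fin (m + 1)) L)) :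
    MvPolynomial (Fin n ⊕ Fin (m + 1)) L :=
  ∑ i, ∑ j, MvPolynomial.rename Sum.inr (S i j) * MvPolynomial.X (Sum.inl i) *
    MvPolynomial.X (Sum.inl j)

theorem aeval_quadForm {M : Type*} [CommRing M] [Algebra L M]
    (S : Matrix (Fin n) (Fin n) (MvPolynomial (Fin (m + 1)) L)) (x : Fin n → M)
    (t : Fin (m + 1) → M) :
    MvPolynomial.aeval (Sum.elim x t) (quadForm S) =
      bil (fun i j => MvPolynomial.aeval t (S i j)) x x := by
  unfold quadForm bil
  simp only [map_sum, map_mul, MvPolynomial.aeval_X, MvPolynomial.aeval_rename, Sum.elim_inl]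
  rfl

/-- evaluation in terms of `finSuccEquiv` -/
theorem aeval_cons_eq {M : Type*} [CommRing M] [Algebra L M] (y : M)
    (z : Fin m → M) (p : MvPolynomial (Fin (m + 1)) L) :
    MvPolynomial.aeval (Fin.cons y z : Fin (m + 1) → M) p =
      ((MvPolynomial.finSuccEquiv L m p).map
        (MvPolynomial.aeval z : MvPolynomial (Fin m) L →ₐ[L] M).toRingHom).eval y := by
  induction p using MvPolynomial.induction_on with
  | C a =>
    have h : MvPolynomial.finSuccEquiv L m (MvPolynomial.C a) = C (MvPolynomial.C a) := by
      have := (MvPolynomial.finSuccEquiv L m).commutes a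
      rw [MvPolynomial.algebraMap_eq] at this
      rw [this]
      rfl
    rw [h]
    simp
  | add p q hp hq => rw [map_add, map_add, Polynomial.map_add, eval_add, hp, hq]
  | mul_X p i hp =>
    rw [map_mul, map_mul, Polynomial.map_mul, eval_mul, hp, MvPolynomial.aeval_X]
    congr 1
    refine Fin.cases ?_ (fun j => ?_) i
    · simp [MvPolynomial.finSuccEquiv_X_zero]
    · simp [MvPolynomial.finSuccEquiv_X_succ]

end Form

section Main

variable {L : Type*} [Field L] [CharZero L] {n m : ℕ}

theorem quadric_bundle_vanish (S : Matrix (Fin n) (Fin n) (MvPolynomial (Fin (m + 1)) L))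
    (hS : ∀ i j, S i j = S j i) (hdeg : ∀ i j, (S i j).degreeOf 0 ≤ 4) (hn : 2 ≤ n) (y₀ : L)
    (S₀ S₁ : Matrix (Fin n) (Fin n) (MvPolynomial (Fin m) L))
    (hS₀ : ∀ i j, S₀ i j = (MvPolynomial.finSuccEquiv L m (S i j)).eval (MvPolynomial.C y₀))
    (hS₁ : ∀ i j, S₁ i j =
      (MvPolynomial.finSuccEquiv L m (S i j)).derivative.eval (MvPolynomial.C y₀))
    (hdet : S₀.det ≠ 0) (hnp : ∃ i j k l, S₁ i j * S₀ k l ≠ S₀ i j * S₁ k l)
    (v : Fin n → MvPolynomial (Fin m) L) (w : MvPolynomial (Fin m) L) (hw : w ≠ 0)
    (hv : w ^ 2 = bil (fun i j => S₀ i j) v v)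
    (G : MvPolynomial (Fin n ⊕ Fin (m + 1)) L)
    (hG : ∀ x : Fin n ⊕ Fin (m + 1) → L, IsSquare (MvPolynomial.eval x (quadForm S)) →
      MvPolynomial.eval x G = 0) : G = 0 := by
  classical
  let A := MvPolynomial (Fin m) L
  let R := MvPolynomial (Fin m ⊕ Fin n) L
  let M := FractionRing R
  have hRM : Function.Injective (algebraMap R M) := IsFractionRing.injective R M
  have hS₀symm : ∀ i j, S₀ i j = S₀ j i := by
    intro i j
    rw [hS₀, hS₀, hS i j]
  have hS₁symm : ∀ i j, S₁ i j = S₁ j i := by
    intro i j
    rw [hS₁, hS₁, hS i j]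
  let emb : A →ₐ[L] R := MvPolynomial.rename Sum.inl
  let zM : Fin m → M := fun j => algebraMap R M (MvPolynomial.X (Sum.inl j))
  let embM : A →ₐ[L] M := MvPolynomial.aeval zM
  have hemb : ∀ p : A, embM p = algebraMap R M (emb p) := by
    intro p
    have h : embM = (IsScalarTower.toAlgHom L R M).comp emb := by
      apply MvPolynomial.algHom_ext
      intro j
      rw [AlgHom.comp_apply]
      show MvPolynomial.aeval zM (MvPolynomial.X j) =
        algebraMap R M (MvPolynomial.rename Sum.inl (MvPolynomial.X j))
      rw [MvPolynomial.rename_X, MvPolynomial.aeval_X]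
    rw [h]
    rfl
  let U : Fin n → M := fun i => algebraMap R M (MvPolynomial.X (Sum.inr i))
  let vM : Fin n → M := fun i => embM (v i)
  let P : Fin n → Fin n → M[X] := fun i j => (MvPolynomial.finSuccEquiv L m (S i j)).map embM.toRingHom
  have hPdeg : ∀ i j, (P i j).natDegree ≤ 4 := by
    intro i j
    refine natDegree_map_le.trans ?_
    rw [MvPolynomial.natDegree_finSuccEquiv]
    exact hdeg i j
  have hPsymm : ∀ i j, P i j = P j i := by
    intro i j
    simp only [P, hS i j]
  have hCy : embM.toRingHom (MvPolynomial.C y₀) = algebraMap L M y₀ :=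
    MvPolynomial.aeval_C _ _
  have hP0 : ∀ i j, (P i j).eval (algebraMap L M y₀) = embM (S₀ i j) := by
    intro i j
    simp only [P]
    rw [← hCy, eval_map_apply, hS₀]
    rfl
  have hP1 : ∀ i j, (P i j).derivative.eval (algebraMap L M y₀) = embM (S₁ i j) := by
    intro i j
    simp only [P]
    rw [← hCy, derivative_map, eval_map_apply, hS₁]
    rfl
  -- the coefficients of the conic bundle surface
  let bp : (Fin n → M) → (Fin n → M) → M[X] := fun x x' =>
    bil P (fun i => C (x i)) (fun i => C (x' i))
  have hbpdeg : ∀ x x', (bp x x').natDegree ≤ 4 := by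
    intro x x'
    refine natDegree_sum_le_of_forall_le _ _ fun i _ => ?_
    refine natDegree_sum_le_of_forall_le _ _ fun j _ => ?_
    exact (natDegree_mul_C_le _ _).trans ((natDegree_mul_C_le _ _).trans (hPdeg i j))
  have hbpeval : ∀ x x' (y : M), (bp x x').eval y = bil (fun i j => (P i j).eval y) x x' := by
    intro x x' y
    simp only [bp]
    rw [← Polynomial.coe_evalRingHom, map_bil]
    simp
  have hbp0 : ∀ x x', (bp x x').eval (algebraMap L M y₀) =
      bil (fun i j => embM (S₀ i j)) x x' := by
    intro x x'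
    rw [hbpeval]
    simp only [hP0]
  have hbp1 : ∀ x x', (bp x x').derivative.eval (algebraMap L M y₀) =
      bil (fun i j => embM (S₁ i j)) x x' := by
    intro x x'
    simp only [bp, bil, derivative_sum, derivative_mul, derivative_C, mul_zero, add_zero,
      eval_finsetSum, eval_mul, eval_C, hP1]
  let a : M[X] := bp vM vM
  let b : M[X] := C 2 * bp vM U
  let c : M[X] := bp U U
  have hbdeg : b.natDegree ≤ 4 := (natDegree_C_mul_le _ _).trans (hbpdeg _ _)
  let G2 : MvPolynomial (Fin 2) M := MvPolynomial.aeval
    (Sum.elim (fun i => MvPolynomial.C (vM i) + MvPolynomial.X 0 * MvPolynomial.C (U i))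
      (Fin.cons (MvPolynomial.X 1) (fun j => MvPolynomial.C (zM j)) :
        Fin (m + 1) → MvPolynomial (Fin 2) M)) G
  have hG2eval : ∀ x : Fin 2 → M, MvPolynomial.eval x G2 = MvPolynomial.aeval
      (Sum.elim (fun i => vM i + x 0 * U i) (Fin.cons (x 1) zM : Fin (m + 1) → M)) G := by
    intro x
    have h1 : MvPolynomial.eval x G2 =
        ((MvPolynomial.aeval x : MvPolynomial (Fin 2) M →ₐ[M] M).restrictScalars L) G2 := by
      rw [AlgHom.restrictScalars_apply, MvPolynomial.aeval_eq_eval]
    rw [h1]
    simp only [G2]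
    rw [MvPolynomial.comp_aeval_apply]
    congr 2
    funext i
    rcases i with i | i
    · simp
    · refine Fin.cases ?_ (fun j => ?_) i
      · simp
      · simp
  have hform : ∀ x : Fin 2 → M, MvPolynomial.eval x (conicPoly a b c) = MvPolynomial.aeval
      (Sum.elim (fun i => vM i + x 0 * U i) (Fin.cons (x 1) zM : Fin (m + 1) → M))
        (quadForm S) := by
    intro x
    have h1 : MvPolynomial.eval x (conicPoly a b c) =
        MvPolynomial.aeval x (conicPoly a b c) := by
      rw [MvPolynomial.aeval_eq_eval]
    rw [h1, aeval_conicPoly, aeval_quadForm]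
    simp only [coe_aeval_eq_eval, a, b, c, eval_mul, eval_C, hbpeval]
    have h2 : ∀ i j, MvPolynomial.aeval (Fin.cons (x 1) zM : Fin (m + 1) → M) (S i j) =
        (P i j).eval (x 1) := fun i j => aeval_cons_eq (x 1) zM (S i j)
    simp only [h2]
    have h3 : (fun i => vM i + x 0 * U i) = vM + x 0 • U := by
      funext i; simp
    rw [h3, bil_polar _ (fun i j => by rw [hPsymm]), bil_smul_left, bil_smul_right, bil_smul_right]
    ring
  have hwM : embM w ≠ 0 := by
    rw [hemb]
    intro h0
    have h1 : emb w = 0 := hRM (by rw [h0, map_zero])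
    exact hw (MvPolynomial.rename_injective _ Sum.inl_injective (by rw [map_zero]; exact h1))
  -- specialisations from R to A
  let spc : (Fin n → A) → R →ₐ[L] A := fun u => MvPolynomial.aeval (Sum.elim MvPolynomial.X u)
  have hspc_emb : ∀ (u : Fin n → A) (p : A), spc u (emb p) = p := by
    intro u p
    show MvPolynomial.aeval (Sum.elim MvPolynomial.X u) (MvPolynomial.rename Sum.inl p) = p
    rw [MvPolynomial.aeval_rename]
    have : (Sum.elim MvPolynomial.X u : Fin m ⊕ Fin n → A) ∘ Sum.inl = MvPolynomial.X := rfl
    rw [this, MvPolynomial.aeval_X_left]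
    rfl
  have hspc_X : ∀ (u : Fin n → A) (i : Fin n), spc u (MvPolynomial.X (Sum.inr i)) = u i := by
    intro u i
    show MvPolynomial.aeval (Sum.elim MvPolynomial.X u) (MvPolynomial.X (Sum.inr i)) = u i
    rw [MvPolynomial.aeval_X]
    rfl
  let XU : Fin n → R := fun i => MvPolynomial.X (Sum.inr i)
  have h2A : (2 : A) ≠ 0 := two_ne_zero
  have hG20 : G2 = 0 := by
    refine conic_surface_vanish a b c (hbpdeg _ _) hbdeg (hbpdeg _ _) (algebraMap L M y₀) (embM w)
      hwM ?_ ?_ ?_ G2 ?_
    · rw [show a.eval _ = _ from hbp0 vM vM, ← map_pow, hv]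
      exact (map_bil (embM : A →+* M) _ _ _).symm
    · -- the discriminant
      intro h0
      have e1 : b.eval (algebraMap L M y₀) ^ 2 - 4 * embM w ^ 2 * c.eval (algebraMap L M y₀) =
          algebraMap R M (4 * (bil (fun i j => emb (S₀ i j)) (fun i => emb (v i)) XU ^ 2 -
            emb (w ^ 2) * bil (fun i j => emb (S₀ i j)) XU XU)) := by
        simp only [b, c, eval_mul, eval_C, hbp0]
        rw [map_mul, map_sub, map_pow, map_mul, map_bil, map_bil]
        simp only [← hemb, XU, map_ofNat, map_pow]
        ring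
      rw [e1] at h0
      have h1 : (4 * (bil (fun i j => emb (S₀ i j)) (fun i => emb (v i)) XU ^ 2 -
            emb (w ^ 2) * bil (fun i j => emb (S₀ i j)) XU XU) : R) = 0 :=
        hRM (by rw [h0, map_zero])
      refine not_rank_one h2A hn S₀ hS₀symm hdet v (w ^ 2) (pow_ne_zero 2 hw) fun u => ?_
      have h3 := congrArg (spc u) h1
      rw [map_mul, map_sub, map_pow, map_mul, map_zero] at h3
      have h4 : ∀ (T : Fin n → Fin n → A) (p q : Fin n → R), spc u (bil (fun i j => emb (T i j)) p q) =
          bil T (fun i => spc u (p i)) (fun i => spc u (q i)) := by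
        intro T p q
        have := map_bil (spc u : R →+* A) (fun i j => emb (T i j)) p q
        simp only [RingHom.coe_coe, hspc_emb] at this
        exact this
      rw [h4, h4] at h3
      simp only [hspc_emb, XU, hspc_X, map_ofNat] at h3
      have h5 := (mul_eq_zero.mp h3).resolve_left (by norm_num)
      exact sub_eq_zero.mp h5
    · -- not proportional
      rintro ⟨-, h0⟩
      rw [show c.derivative.eval _ = _ from hbp1 U U, show a.derivative.eval _ = _ from hbp1 vM vM,
        show c.eval _ = _ from hbp0 U U] at h0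
      have h1 : (emb (w ^ 2) * bil (fun i j => emb (S₁ i j)) XU XU : R) =
          emb (bil (fun i j => S₁ i j) v v) * bil (fun i j => emb (S₀ i j)) XU XU := by
        apply hRM
        rw [map_mul, map_mul, map_bil, map_bil, ← hemb, ← hemb]
        simp only [← hemb, XU]
        rw [map_pow]
        have h6 : embM (bil (fun i j => S₁ i j) v v) = bil (fun i j => embM (S₁ i j)) vM vM :=
          map_bil (embM : A →+* M) _ _ _
        rw [h6]
        linear_combination h0
      have h7 : ∀ u : Fin n → A, w ^ 2 * bil (fun i j => S₁ i j) u u =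
          bil (fun i j => S₁ i j) v v * bil (fun i j => S₀ i j) u u := by
        intro u
        have h3 := congrArg (spc u) h1
        rw [map_mul, map_mul] at h3
        have h4 : ∀ (T : Fin n → Fin n → A) (p q : Fin n → R), spc u (bil (fun i j => emb (T i j)) p q) =
            bil T (fun i => spc u (p i)) (fun i => spc u (q i)) := by
          intro T p q
          have := map_bil (spc u : R →+* A) (fun i j => emb (T i j)) p q
          simp only [RingHom.coe_coe, hspc_emb] at this
          exact this
        rw [h4, h4] at h3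
        simp only [hspc_emb, XU, hspc_X] at h3
        exact h3
      have h8 := proportional_of_forms h2A (fun i j => S₁ i j) (fun i j => S₀ i j) hS₁symm hS₀symm
        _ _ h7
      obtain ⟨i, j, k, l, hne⟩ := hnp
      apply hne
      apply mul_left_cancel₀ (pow_ne_zero 2 hw)
      linear_combination S₀ k l * h8 i j - S₀ i j * h8 k l
    · intro x hx
      rw [hG2eval]
      rw [hform] at hx
      exact spec_square_of_points (R := R) (F := M) enough_points_mvPolynomial (quadForm S) G hG _ hx
  -- conclusion
  apply MvPolynomial.funext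
  intro θ
  rw [map_zero]
  let y₁ : L := θ (Sum.inr 0)
  let ζ : Fin m → L := fun j => θ (Sum.inr j.succ)
  let g : R := MvPolynomial.aeval (Sum.elim (fun i => emb (v i) + MvPolynomial.X (Sum.inr i))
    (Fin.cons (MvPolynomial.C y₁) (fun j => MvPolynomial.X (Sum.inl j)) : Fin (m + 1) → R)) G
  have hg0 : g = 0 := by
    apply hRM
    rw [map_zero]
    have h1 : algebraMap R M g = (IsScalarTower.toAlgHom L R M) g := rfl
    rw [h1]
    simp only [g]
    rw [MvPolynomial.comp_aeval_apply]
    have h2 := hG2eval ![1, algebraMap L M y₁]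
    rw [hG20, map_zero] at h2
    rw [h2]
    congr 2
    funext i
    rcases i with i | i
    · simp only [Sum.elim_inl, map_add, Matrix.cons_val_zero, one_mul]
      rw [show (IsScalarTower.toAlgHom L R M) (emb (v i)) = vM i from (hemb (v i)).symm]
      rfl
    · refine Fin.cases ?_ (fun j => ?_) i
      · simp only [Sum.elim_inr, Fin.cons_zero, Matrix.cons_val_one, Matrix.cons_val_zero]
        rw [← MvPolynomial.algebraMap_eq, AlgHom.commutes]
      · simp only [Sum.elim_inr, Fin.cons_succ]
        rfl
  let ζv : Fin n → L := fun i => MvPolynomial.aeval ζ (v i)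
  let ev : R →ₐ[L] L := MvPolynomial.aeval (Sum.elim ζ (fun i => θ (Sum.inl i) - ζv i))
  have h3 := congrArg ev hg0
  simp only [g] at h3
  rw [map_zero, MvPolynomial.comp_aeval_apply] at h3
  have h4 : (fun i => ev (Sum.elim (fun i => emb (v i) + MvPolynomial.X (Sum.inr i))
    (Fin.cons (MvPolynomial.C y₁) (fun j => MvPolynomial.X (Sum.inl j)) : Fin (m + 1) → R) i)) =
      θ := by
    funext i
    rcases i with i | i
    · simp only [Sum.elim_inl, map_add]
      have h5 : ev (emb (v i)) = ζv i := by
        show MvPolynomial.aeval (Sum.elim ζ (fun i => θ (Sum.inl i) - ζv i))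
          (MvPolynomial.rename Sum.inl (v i)) = _
        rw [MvPolynomial.aeval_rename]
        rfl
      have h6 : ev (MvPolynomial.X (Sum.inr i)) = θ (Sum.inl i) - ζv i := by
        show MvPolynomial.aeval (Sum.elim ζ (fun i => θ (Sum.inl i) - ζv i))
          (MvPolynomial.X (Sum.inr i)) = _
        rw [MvPolynomial.aeval_X]
        rfl
      rw [h5, h6]
      ring
    · refine Fin.cases ?_ (fun j => ?_) i
      · simp only [Sum.elim_inr, Fin.cons_zero]
        rw [← MvPolynomial.algebraMap_eq, AlgHom.commutes]
        rfl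
      · simp only [Sum.elim_inr, Fin.cons_succ]
        show MvPolynomial.aeval (Sum.elim ζ (fun i => θ (Sum.inl i) - ζv i))
          (MvPolynomial.X (Sum.inl j)) = _
        rw [MvPolynomial.aeval_X]
        rfl
  rw [h4, MvPolynomial.aeval_eq_eval] at h3
  exact h3

end Main

end Pool.Agent.Work.PD
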