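import Mathlib
import Pool.Agent.Work.MP_b62148_ag.QBundle

/-!
Quadric bundles whose fibres over infinitely many values of `y` are proportional up to squares.
-/

namespace Pool.Agent.Work.PD

open Polynomial

section Wronskian

variable {A : Type*} [CommRing A] [IsDomain A] [CharZero A]

/-- Polynomials with vanishing Wronskian are proportional. -/
theorem proportional_of_wronskian (p g : A[X]) (hg : g ≠ 0)
    (h : p.derivative * g = p * g.derivative) :
    C g.leadingCoeff * p = C (p.coeff g.natDegree) * g := by
  by_contra hne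
  set r := C g.leadingCoeff * p - C (p.coeff g.natDegree) * g with hr
  have hr0 : r ≠ 0 := sub_ne_zero.mpr hne
  have hrg : r.derivative * g = r * g.derivative := by
    rw [hr]
    simp only [derivative_sub, derivative_C_mul]
    linear_combination C g.leadingCoeff * h
  have hcd : r.coeff g.natDegree = 0 := by
    rw [hr, coeff_sub, coeff_C_mul, coeff_C_mul]
    simp only [leadingCoeff]
    ring
  set d := g.natDegree with hd
  set e := r.natDegree with he
  have hX : ∀ q : A[X], (X * derivative q).natDegree ≤ q.natDegree := by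
    intro q
    rw [natDegree_le_iff_coeff_eq_zero]
    intro N hN
    rcases N with _ | N
    · simp
    · rw [coeff_X_mul, coeff_derivative, coeff_eq_zero_of_natDegree_lt hN, zero_mul]
  have hXc : ∀ (q : A[X]) (N : ℕ), (X * derivative q).coeff N = q.coeff N * N := by
    intro q N
    rcases N with _ | N
    · simp
    · rw [coeff_X_mul, coeff_derivative]
      push_cast
      ring
  have h1 : (X * r.derivative * g).coeff (e + d) = (r * (X * g.derivative)).coeff (e + d) := by
    congr 1
    linear_combination X * hrg
  rw [coeff_mul_add_eq_of_natDegree_le (hX r) le_rfl, coeff_mul_add_eq_of_natDegree_le le_rfl (hX g), hXc,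
    hXc] at h1
  have h2 : r.leadingCoeff * g.leadingCoeff * ((e : A) - (d : A)) = 0 := by
    simp only [leadingCoeff]
    rw [← he, ← hd]
    linear_combination h1
  have h3 : (e : A) - (d : A) = 0 :=
    (mul_eq_zero.mp h2).resolve_left
      (mul_ne_zero (leadingCoeff_ne_zero.mpr hr0) (leadingCoeff_ne_zero.mpr hg))
  have h4 : e = d := by exact_mod_cast sub_eq_zero.mp h3
  rw [← h4] at hcd
  exact hr0 (leadingCoeff_eq_zero.mp hcd)

end Wronskian

section Const

variable {L : Type*} [Field L] [CharZero L] {n m : ℕ} {M : Type*} [Field M] [Algebra L M]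

theorem const_vanish (S : Matrix (Fin n) (Fin n) (MvPolynomial (Fin (m + 1)) L))
    (hS : ∀ i j, S i j = S j i) (z : Fin m → M)
    (hz : Function.Injective (MvPolynomial.aeval z : MvPolynomial (Fin m) L →ₐ[L] M))
    (y₁ w : M) (v : Fin n → M) (hw : w ≠ 0)
    (hvw : w ^ 2 = bil (fun i j => MvPolynomial.aeval (Fin.cons y₁ z : Fin (m + 1) → M) (S i j)) v v)
    (Y : Set M) (hY : Y.Infinite)
    (hYκ : ∀ y ∈ Y, ∃ κ : M, ∀ i j, MvPolynomial.aeval (Fin.cons y z : Fin (m + 1) → M) (S i j) =
      κ ^ 2 * MvPolynomial.aeval (Fin.cons y₁ z : Fin (m + 1) → M) (S i j))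
    (G : MvPolynomial (Fin n ⊕ Fin (m + 1)) L)
    (hG : ∀ x : Fin n ⊕ Fin (m + 1) → M, IsSquare (MvPolynomial.aeval x (quadForm S)) →
      MvPolynomial.aeval x G = 0) : G = 0 := by
  classical
  have hMc : CharZero M := charZero_of_injective_algebraMap (algebraMap L M).injective
  set T : Fin n → Fin n → M :=
    fun i j => MvPolynomial.aeval (Fin.cons y₁ z : Fin (m + 1) → M) (S i j) with hT
  have hTs : ∀ i j, T i j = T j i := fun i j => by simp only [hT, hS i j]
  -- step 1
  have s1 : ∀ x : Fin n → M, IsSquare (bil T x x) → ∀ y : M,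
      MvPolynomial.aeval (Sum.elim x (Fin.cons y z : Fin (m + 1) → M)) G = 0 := by
    intro x hx
    have h1 : ∀ y ∈ Y, MvPolynomial.aeval (Sum.elim x (Fin.cons y z : Fin (m + 1) → M)) G = 0 := by
      intro y hy
      apply hG
      rw [aeval_quadForm]
      obtain ⟨κ, hκ⟩ := hYκ y hy
      obtain ⟨r, hr⟩ := hx
      refine ⟨κ * r, ?_⟩
      have h2 : bil (fun i j => MvPolynomial.aeval (Fin.cons y z : Fin (m + 1) → M) (S i j)) x x =
          κ ^ 2 * bil T x x := by
        unfold bil
        rw [Finset.mul_sum]
        refine Finset.sum_congr rfl fun i _ => ?_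
        rw [Finset.mul_sum]
        refine Finset.sum_congr rfl fun j _ => ?_
        show MvPolynomial.aeval (Fin.cons y z : Fin (m + 1) → M) (S i j) * x i * x j =
          κ ^ 2 * (MvPolynomial.aeval (Fin.cons y₁ z : Fin (m + 1) → M) (S i j) * x i * x j)
        rw [hκ]
        ring
      rw [h2, hr]
      ring
    let Gt : M[X] := MvPolynomial.aeval
      (Sum.elim (fun i => C (x i)) (Fin.cons X (fun j => C (z j)) : Fin (m + 1) → M[X])) G
    have hGt : ∀ y : M, Gt.eval y =
        MvPolynomial.aeval (Sum.elim x (Fin.cons y z : Fin (m + 1) → M)) G := by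
      intro y
      have h3 : Gt.eval y = (Polynomial.aeval y : M[X] →ₐ[M] M).restrictScalars L Gt := by
        simp [Polynomial.coe_aeval_eq_eval]
      rw [h3]
      simp only [Gt]
      rw [MvPolynomial.comp_aeval_apply]
      congr 2
      funext i
      rcases i with i | i
      · simp
      · refine Fin.cases ?_ (fun j => ?_) i
        · simp
        · simp
    have hGt0 : Gt = 0 := by
      refine eq_zero_of_infinite_isRoot _ (hY.mono ?_)
      intro y hy
      show Gt.eval y = 0
      rw [hGt]
      exact h1 y hy
    intro y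
    rw [← hGt, hGt0, eval_zero]
  -- step 2
  have s2 : ∀ (u : Fin n → M) (y : M),
      MvPolynomial.aeval (Sum.elim u (Fin.cons y z : Fin (m + 1) → M)) G = 0 := by
    intro u y
    let Gt : M[X] := MvPolynomial.aeval
      (Sum.elim (fun i => C (u i) + X * C (v i))
        (Fin.cons (C y) (fun j => C (z j)) : Fin (m + 1) → M[X])) G
    have hGt : ∀ τ : M, Gt.eval τ =
        MvPolynomial.aeval (Sum.elim (u + τ • v) (Fin.cons y z : Fin (m + 1) → M)) G := by
      intro τ
      have h3 : Gt.eval τ = (Polynomial.aeval τ : M[X] →ₐ[M] M).restrictScalars L Gt := by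
        simp [Polynomial.coe_aeval_eq_eval]
      rw [h3]
      simp only [Gt]
      rw [MvPolynomial.comp_aeval_apply]
      congr 2
      funext i
      rcases i with i | i
      · simp
        exact mul_comm _ _
      · refine Fin.cases ?_ (fun j => ?_) i
        · simp
        · simp
    set β := bil T v u with hβ
    let τ : M → M := fun r => (r ^ 2 - bil T u u) / (2 * (β - w * r))
    have hτ : ∀ r : M, β - w * r ≠ 0 → Gt.eval (τ r) = 0 := by
      intro r hr
      rw [hGt]
      apply s1
      refine ⟨r + τ r * w, ?_⟩
      rw [bil_polar T hTs, bil_smul_right, bil_smul_left, bil_smul_right, bil_symm hTs u v, ← hβ,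
        ← hvw]
      have h2 : τ r * (2 * (β - w * r)) = r ^ 2 - bil T u u :=
        div_mul_cancel₀ _ (mul_ne_zero two_ne_zero hr)
      linear_combination h2
    have hGt0 : Gt = 0 := by
      by_contra hne
      apply Set.infinite_univ (α := M)
      have hcover : (Set.univ : Set M) ⊆ {r | β - w * r = 0} ∪
          ⋃ ρ ∈ (Gt.roots.toFinset : Set M), {r : M | (X ^ 2 + C (2 * ρ * w) * X -
            C (bil T u u + 2 * ρ * β) : M[X]).eval r = 0} := by
        intro r _
        by_cases hr : β - w * r = 0
        · left; exact hr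
        · right
          refine Set.mem_biUnion (x := τ r) ?_ ?_
          · simp only [Finset.mem_coe, Multiset.mem_toFinset, mem_roots hne]
            exact hτ r hr
          · show (X ^ 2 + C (2 * τ r * w) * X - C (bil T u u + 2 * τ r * β) : M[X]).eval r = 0
            have h2 : τ r * (2 * (β - w * r)) = r ^ 2 - bil T u u :=
              div_mul_cancel₀ _ (mul_ne_zero two_ne_zero hr)
            simp only [eval_sub, eval_add, eval_pow, eval_X, eval_mul, eval_C]
            linear_combination -h2
      refine Set.Finite.subset ?_ hcover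
      refine Set.Finite.union ?_ (Set.Finite.biUnion (Finset.finite_toSet _) ?_)
      · refine Set.Finite.subset (Set.finite_singleton (β / w)) ?_
        intro r hr
        rw [Set.mem_singleton_iff, eq_div_iff hw]
        have : β - w * r = 0 := hr
        linear_combination -this
      · intro ρ _
        have hne2 : (X ^ 2 + C (2 * ρ * w) * X - C (bil T u u + 2 * ρ * β) : M[X]) ≠ 0 := by
          intro h
          have := congrArg (fun q : M[X] => q.coeff 2) h
          simp at this
        refine (Multiset.finite_toSet (X ^ 2 + C (2 * ρ * w) * X -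
          C (bil T u u + 2 * ρ * β) : M[X]).roots).subset ?_
        intro r hr
        exact (mem_roots hne2).mpr hr
    have h5 := hGt 0
    rw [hGt0, eval_zero, zero_smul, add_zero] at h5
    exact h5.symm
  -- step 3
  apply MvPolynomial.funext
  intro θ
  rw [map_zero]
  let g : MvPolynomial (Fin m) L := MvPolynomial.aeval
    (Sum.elim (fun i => MvPolynomial.C (θ (Sum.inl i)))
      (Fin.cons (MvPolynomial.C (θ (Sum.inr 0))) MvPolynomial.X :
        Fin (m + 1) → MvPolynomial (Fin m) L)) G
  have hg0 : g = 0 := by
    apply hz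
    rw [map_zero]
    simp only [g]
    rw [MvPolynomial.comp_aeval_apply]
    have h6 := s2 (fun i => algebraMap L M (θ (Sum.inl i))) (algebraMap L M (θ (Sum.inr 0)))
    rw [← h6]
    congr 2
    funext i
    rcases i with i | i
    · simp
    · refine Fin.cases ?_ (fun j => ?_) i
      · simp
      · simp
  have h7 := congrArg (MvPolynomial.aeval (fun j : Fin m => θ (Sum.inr j.succ)) :
    MvPolynomial (Fin m) L →ₐ[L] L) hg0
  simp only [g] at h7
  rw [map_zero, MvPolynomial.comp_aeval_apply] at h7
  have h8 : (fun i => (MvPolynomial.aeval (fun j : Fin m => θ (Sum.inr j.succ)) :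
      MvPolynomial (Fin m) L →ₐ[L] L) (Sum.elim (fun i => MvPolynomial.C (θ (Sum.inl i)))
      (Fin.cons (MvPolynomial.C (θ (Sum.inr 0))) MvPolynomial.X :
        Fin (m + 1) → MvPolynomial (Fin m) L) i)) = θ := by
    funext i
    rcases i with i | i
    · simp
    · refine Fin.cases ?_ (fun j => ?_) i
      · simp
      · simp
  rw [h8, MvPolynomial.aeval_eq_eval] at h7
  exact h7

end Const

end Pool.Agent.Work.PD
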