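import Mathlib
import Pool.Agent.Work.MP_b62148_ag.QSpec
import Pool.Agent.Work.MP_b62148_ag.Spec
import Pool.Agent.Work.MP_b62148_ag.Val

/-!
The generic line through a point of affine space.
-/

namespace Pool.Agent.Work.PD

open Polynomial

universe u

theorem exists_generic_line_through {L : Type u} [Field L] [CharZero L] {m : ℕ} (ζ : Fin m → L) :
    ∃ (M : Type u) (_ : Field M) (_ : Algebra L M) (z : Fin m → M)
      (v : Valuation M (WithZero (Multiplicative ℤ))),
      Function.Injective (MvPolynomial.aeval z : MvPolynomial (Fin m) L →ₐ[L] M) ∧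
      (∀ p : MvPolynomial (Fin m) L, v (MvPolynomial.aeval z p) ≤ 1) ∧
      (∀ p : MvPolynomial (Fin m) L, v (MvPolynomial.aeval z p) < 1 ↔ MvPolynomial.eval ζ p = 0) ∧
      (∀ n : ℕ, n ≠ 0 → v (n : M) = 1) ∧
      ∀ (σ : Type) [Finite σ] (f G : MvPolynomial σ L),
        (∀ x : σ → L, IsSquare (MvPolynomial.eval x f) → MvPolynomial.eval x G = 0) →
        ∀ x : σ → M, IsSquare (MvPolynomial.aeval x f) → MvPolynomial.aeval x G = 0 := by
  classical
  let R := MvPolynomial (Fin m) L
  let K₂ := FractionRing R
  let M := RatFunc K₂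
  have hK₂ : CharZero K₂ := charZero_of_injective_algebraMap (algebraMap L K₂).injective
  have hRK : Function.Injective (algebraMap R K₂) := IsFractionRing.injective R K₂
  let ι : K₂[X] →+* M := algebraMap K₂[X] M
  have hιinj : Function.Injective ι := IsFractionRing.injective K₂[X] M
  obtain ⟨v, hv1, hv2, hv3⟩ := exists_val (F := M) (X : K₂[X]) Polynomial.prime_X
  let U : Fin m → K₂ := fun j => algebraMap R K₂ (MvPolynomial.X j)
  let z' : Fin m → K₂[X] := fun j => C (algebraMap L K₂ (ζ j)) + X * C (U j)
  let ιL : K₂[X] →ₐ[L] M := IsScalarTower.toAlgHom L K₂[X] M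
  let z : Fin m → M := fun j => ιL (z' j)
  have hz : ∀ p : R, MvPolynomial.aeval z p = ι (MvPolynomial.aeval z' p) := by
    intro p
    have := MvPolynomial.comp_aeval_apply (f := z') ιL p
    exact this.symm
  have hz0 : ∀ p : R, (MvPolynomial.aeval z' p).eval 0 = algebraMap L K₂ (MvPolynomial.eval ζ p) := by
    intro p
    have h1 : (MvPolynomial.aeval z' p).eval 0 =
        ((Polynomial.aeval (0 : K₂) : K₂[X] →ₐ[K₂] K₂).restrictScalars L)
          (MvPolynomial.aeval z' p) := by
      simp [Polynomial.coe_aeval_eq_eval]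
    rw [h1, MvPolynomial.comp_aeval_apply]
    have h2 : (fun i => ((Polynomial.aeval (0 : K₂) : K₂[X] →ₐ[K₂] K₂).restrictScalars L) (z' i)) =
        fun i => algebraMap L K₂ (ζ i) := by
      funext i
      simp [z']
    rw [h2]
    have h3 := MvPolynomial.aeval_algebraMap_apply (A := L) (B := K₂) ζ p
    rw [MvPolynomial.aeval_eq_eval] at h3
    exact h3
  refine ⟨M, inferInstance, inferInstance, z, v, ?_, ?_, ?_, hv3, ?_⟩
  · rw [injective_iff_map_eq_zero]
    intro p hp
    rw [hz] at hp
    have h1 : MvPolynomial.aeval z' p = 0 := hιinj (by rw [hp, map_zero])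
    have h2 := congrArg ((Polynomial.aeval (1 : K₂) : K₂[X] →ₐ[K₂] K₂).restrictScalars L) h1
    rw [MvPolynomial.comp_aeval_apply, map_zero] at h2
    have h3 : (fun i => ((Polynomial.aeval (1 : K₂) : K₂[X] →ₐ[K₂] K₂).restrictScalars L) (z' i)) =
        fun i => algebraMap R K₂ (MvPolynomial.C (ζ i) + MvPolynomial.X i) := by
      funext i
      simp only [z', U, AlgHom.restrictScalars_apply, map_add, map_mul, aeval_C, aeval_X, one_mul,
        Algebra.algebraMap_self, RingHom.id_apply]
      congr 1
    rw [h3] at h2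
    have h7 := MvPolynomial.aeval_algebraMap_apply (A := R) (B := K₂)
      (fun i => (MvPolynomial.C (ζ i) + MvPolynomial.X i : R)) p
    have h4 : MvPolynomial.aeval (fun i => (MvPolynomial.C (ζ i) + MvPolynomial.X i : R)) p = 0 := by
      apply hRK
      rw [map_zero, ← h7]
      exact h2
    have h5 := congrArg (MvPolynomial.aeval (fun i => (MvPolynomial.X i - MvPolynomial.C (ζ i) : R)) :
      R →ₐ[L] R) h4
    rw [MvPolynomial.comp_aeval_apply, map_zero] at h5
    have h6 : (fun i => (MvPolynomial.aeval (fun i => (MvPolynomial.X i - MvPolynomial.C (ζ i) : R)) :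
        R →ₐ[L] R) (MvPolynomial.C (ζ i) + MvPolynomial.X i)) = MvPolynomial.X := by
      funext i
      rw [map_add, MvPolynomial.aeval_X, MvPolynomial.aeval_C, MvPolynomial.algebraMap_eq]
      ring
    rw [h6, MvPolynomial.aeval_X_left] at h5
    exact h5
  · intro p
    rw [hz]
    exact hv1 _
  · intro p
    rw [hz, hv2, X_dvd_iff, coeff_zero_eq_eval_zero, hz0]
    exact map_eq_zero (algebraMap L K₂)
  · intro σ _ f G hG x hx
    have h1 : ∀ y : σ → K₂, IsSquare (MvPolynomial.eval y (MvPolynomial.map (algebraMap L K₂) f)) →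
        MvPolynomial.eval y (MvPolynomial.map (algebraMap L K₂) G) = 0 := by
      intro y hy
      rw [MvPolynomial.eval_map, ← MvPolynomial.aeval_def] at hy ⊢
      exact spec_square_of_points (R := R) (F := K₂) enough_points_mvPolynomial f G hG y hy
    have h2 := spec_square (K := K₂) (F := M) (MvPolynomial.map (algebraMap L K₂) f)
      (MvPolynomial.map (algebraMap L K₂) G) h1 x (by
        rw [MvPolynomial.aeval_map_algebraMap]
        exact hx)
    rw [MvPolynomial.aeval_map_algebraMap] at h2
    exact h2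

end Pool.Agent.Work.PD
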