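import Mathlib
import Pool.Agent.Work.MP_b62148_ag.QLang
import Pool.Agent.Work.MP_b62148_ag.QBundle
import Pool.Agent.Work.MP_b62148_ag.Cover

/-!
Potential density of quadric bundles, first case.
-/

namespace Pool.Agent.Work.PD

open Polynomial

section Prep

variable {k : Type*} [Field k] {n m : ℕ}

theorem finSuccEquiv_map {L : Type*} [Field L] (φ : k →+* L)
    (p : MvPolynomial (Fin (m + 1)) k) :
    MvPolynomial.finSuccEquiv L m (MvPolynomial.map φ p) =
      (MvPolynomial.finSuccEquiv k m p).map (MvPolynomial.map φ) := by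
  have hC : ∀ (F : Type _) [Field F] (a : F), MvPolynomial.finSuccEquiv F m (MvPolynomial.C a) =
      C (MvPolynomial.C a) := by
    intro F _ a
    have := (MvPolynomial.finSuccEquiv F m).commutes a
    rw [MvPolynomial.algebraMap_eq] at this
    rw [this]
    rfl
  have hC' : ∀ a : L, MvPolynomial.finSuccEquiv L m (MvPolynomial.C a) =
      C (MvPolynomial.C a) := by
    intro a
    have := (MvPolynomial.finSuccEquiv L m).commutes a
    rw [MvPolynomial.algebraMap_eq] at this
    rw [this]
    rfl
  induction p using MvPolynomial.induction_on with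
  | C a => rw [MvPolynomial.map_C, hC', hC]; simp
  | add p q hp hq => rw [map_add, map_add, map_add, hp, hq, Polynomial.map_add]
  | mul_X p i hp =>
    rw [map_mul, map_mul, map_mul, hp, Polynomial.map_mul]
    congr 1
    rw [MvPolynomial.map_X]
    refine Fin.cases ?_ (fun j => ?_) i
    · rw [MvPolynomial.finSuccEquiv_X_zero, MvPolynomial.finSuccEquiv_X_zero, map_X]
    · rw [MvPolynomial.finSuccEquiv_X_succ, MvPolynomial.finSuccEquiv_X_succ, map_C,
        MvPolynomial.map_X]

theorem map_quadForm {L : Type*} [Field L] (φ : k →+* L)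
    (S : Matrix (Fin n) (Fin n) (MvPolynomial (Fin (m + 1)) k)) :
    MvPolynomial.map φ (quadForm S) = quadForm (S.map (MvPolynomial.map φ)) := by
  unfold quadForm
  simp only [map_sum, map_mul, MvPolynomial.map_X, MvPolynomial.map_rename, Matrix.map_apply]

/-- A finite family of polynomials over the algebraic closure, and a finite family of elements,
are defined over a finite extension. -/
theorem exists_descend {τ ι : Type*} [Finite ι] (f : ι → MvPolynomial τ (AlgebraicClosure k))
    (η : AlgebraicClosure k) :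
    ∃ (L : IntermediateField k (AlgebraicClosure k)) (_ : FiniteDimensional k L)
      (g : ι → MvPolynomial τ L) (η' : L), (∀ i, MvPolynomial.map (algebraMap L _) (g i) = f i) ∧
        algebraMap L (AlgebraicClosure k) η' = η := by
  classical
  have := Fintype.ofFinite ι
  let s : Finset (AlgebraicClosure k) :=
    insert η (Finset.univ.biUnion fun i => (f i).support.image fun d => (f i).coeff d)
  let L : IntermediateField k (AlgebraicClosure k) := IntermediateField.adjoin k (s : Set _)
  have hfd : FiniteDimensional k L := by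
    apply IntermediateField.finiteDimensional_adjoin
    intro a _
    exact Algebra.IsIntegral.isIntegral a
  have hmem : ∀ i d, (f i).coeff d ∈ L := by
    intro i d
    by_cases hd : d ∈ (f i).support
    · apply IntermediateField.subset_adjoin
      simp only [s, Finset.coe_insert, Finset.coe_biUnion]
      right
      simp only [Set.mem_iUnion]
      refine ⟨i, by simp, ?_⟩
      simp only [Finset.coe_image]
      exact ⟨d, hd, rfl⟩
    · rw [MvPolynomial.notMem_support_iff.mp hd]
      exact L.zero_mem
  refine ⟨L, hfd, fun i => ∑ d ∈ (f i).support, MvPolynomial.monomial d ⟨(f i).coeff d, hmem i d⟩,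
    ⟨η, IntermediateField.subset_adjoin k _ (by simp [s])⟩, ?_, rfl⟩
  intro i
  rw [map_sum]
  simp only [MvPolynomial.map_monomial]
  exact MvPolynomial.support_sum_monomial_coeff (f i)

end Prep

section GoodPoint

variable {K : Type*} [Field K]

/-- bordered matrix -/
def border {A : Type*} [CommRing A] {n : ℕ} (S : Fin n → Fin n → A) :
    Fin (n + 1) → Fin (n + 1) → A :=
  fun i j => (Fin.cases (Fin.cases (-1) (fun _ => 0) j)
    (fun i' => Fin.cases 0 (fun j' => S i' j') j) i : A)

theorem bil_border {A : Type*} [CommRing A] {n : ℕ} (S : Fin n → Fin n → A)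
    (v : Fin (n + 1) → A) :
    bil (border S) v v = - v 0 ^ 2 + bil S (fun i => v i.succ) (fun i => v i.succ) := by
  unfold bil border
  rw [Fin.sum_univ_succ]
  simp only [Fin.cases_zero, Fin.cases_succ]
  rw [Fin.sum_univ_succ]
  simp only [Fin.cases_zero, Fin.cases_succ, zero_mul, Finset.sum_const_zero, add_zero]
  congr 1
  · ring
  · refine Finset.sum_congr rfl fun i _ => ?_
    rw [Fin.sum_univ_succ]
    simp

theorem exists_good_point [IsAlgClosed K] [CharZero K] {n m : ℕ} (hnm : 2 ^ m ≤ n)
    (S₀ : Matrix (Fin n) (Fin n) (MvPolynomial (Fin m) K)) (hS : ∀ i j, S₀ i j = S₀ j i)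
    (hdet : S₀.det ≠ 0) :
    ∃ (v : Fin n → MvPolynomial (Fin m) K) (w : MvPolynomial (Fin m) K), w ≠ 0 ∧
      w ^ 2 = bil (fun i j => S₀ i j) v v := by
  obtain ⟨v, hv0, hv⟩ := exists_isotropic (N := n + 1) (m := m) (by omega)
    (border fun i j => S₀ i j)
  rw [bil_border] at hv
  by_cases hw : v 0 = 0
  · have hv' : (fun i : Fin n => v i.succ) ≠ 0 := by
      intro h
      apply hv0
      funext i
      refine Fin.cases hw (fun j => ?_) i
      exact congrFun h j
    have hq : bil (fun i j => S₀ i j) (fun i => v i.succ) (fun i => v i.succ) = 0 := by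
      rw [hw] at hv
      linear_combination hv
    obtain ⟨u, hu⟩ : ∃ u, bil (fun i j => S₀ i j) u (fun i => v i.succ) ≠ 0 := by
      by_contra hcon
      push Not at hcon
      exact hv' (eq_zero_of_bil_eq_zero S₀ hdet _ hcon)
    set B := bil (fun i j => S₀ i j) with hB
    set v' : Fin n → MvPolynomial (Fin m) K := fun i => v i.succ with hv'def
    refine ⟨(1 - B u u) • v' + (2 * B u v') • u, 2 * B u v', mul_ne_zero two_ne_zero hu, ?_⟩
    have hBpol := bil_polar (fun i j => S₀ i j) hS ((1 - B u u) • v') ((2 * B u v') • u)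
    have hBsymm : B v' u = B u v' := bil_symm (S := fun i j => S₀ i j) hS v' u
    rw [bil_smul_left, bil_smul_right, bil_smul_left, bil_smul_right, bil_smul_left,
      bil_smul_right, ← hB, hBsymm, hq] at hBpol
    rw [hBpol]
    ring
  · exact ⟨fun i => v i.succ, v 0, hw, by linear_combination -hv⟩

end GoodPoint

section CaseOne

variable {k : Type*} [Field k] [CharZero k] {n m : ℕ}

theorem exists_eval_ne_zero {p : (MvPolynomial (Fin m) k)[X]} (hp : p ≠ 0) :
    ∃ y₀ : k, p.eval (MvPolynomial.C y₀) ≠ 0 := by
  classical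
  by_contra hcon
  push Not at hcon
  apply hp
  refine eq_zero_of_infinite_isRoot _ ?_
  refine (Set.infinite_range_of_injective (f := fun y : k =>
    (MvPolynomial.C y : MvPolynomial (Fin m) k)) (MvPolynomial.C_injective _ _)).mono ?_
  rintro _ ⟨y, rfl⟩
  exact hcon y

/-- the matrix over the univariate polynomial ring in `y` -/
noncomputable def yMat (S : Matrix (Fin n) (Fin n) (MvPolynomial (Fin (m + 1)) k)) :
    Matrix (Fin n) (Fin n) (MvPolynomial (Fin m) k)[X] :=
  S.map (MvPolynomial.finSuccEquiv k m)

theorem case_one (S : Matrix (Fin n) (Fin n) (MvPolynomial (Fin (m + 1)) k))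
    (hS : ∀ i j, S i j = S j i) (hdeg : ∀ i j, (S i j).degreeOf 0 ≤ 4) (hn : 2 ≤ n)
    (hnm : 2 ^ m ≤ n) (hdet : S.det ≠ 0)
    (hnp : ∃ i j k' l, (yMat S i j).derivative * yMat S k' l ≠
      yMat S i j * (yMat S k' l).derivative) :
    ∃ (L : IntermediateField k (AlgebraicClosure k)) (_ : FiniteDimensional k L),
      MvPolynomial.map (algebraMap k L) (quadForm S) ≠ 0 ∧
      ∀ G : MvPolynomial (Fin n ⊕ Fin (m + 1)) L,
        (∀ x, IsSquare (MvPolynomial.eval x (MvPolynomial.map (algebraMap k L) (quadForm S))) →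
          MvPolynomial.eval x G = 0) → G = 0 := by
  classical
  obtain ⟨i₁, j₁, k₁, l₁, hnp⟩ := hnp
  have hdetY : (yMat S).det ≠ 0 := by
    have h1 : (yMat S).det = MvPolynomial.finSuccEquiv k m S.det := by
      have := AlgHom.map_det (MvPolynomial.finSuccEquiv k m).toAlgHom S
      rw [yMat]
      exact this.symm
    rw [h1]
    simpa using hdet
  obtain ⟨y₀, hy₀⟩ := exists_eval_ne_zero (mul_ne_zero hdetY (sub_ne_zero.mpr hnp))
  rw [eval_mul] at hy₀
  obtain ⟨hy1, hy2⟩ := mul_ne_zero_iff.mp hy₀
  let K := AlgebraicClosure k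
  let φ : k →+* K := algebraMap k K
  let S₀ : Matrix (Fin n) (Fin n) (MvPolynomial (Fin m) k) := fun i j =>
    (yMat S i j).eval (MvPolynomial.C y₀)
  let S₁ : Matrix (Fin n) (Fin n) (MvPolynomial (Fin m) k) := fun i j =>
    (yMat S i j).derivative.eval (MvPolynomial.C y₀)
  have hdet0 : S₀.det ≠ 0 := by
    have h1 : S₀.det = (yMat S).det.eval (MvPolynomial.C y₀) := by
      rw [← Polynomial.coe_evalRingHom, RingHom.map_det]
      rfl
    rw [h1]; exact hy1
  have hS₀ : ∀ i j, S₀ i j = S₀ j i := by
    intro i j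
    simp only [S₀, yMat, Matrix.map_apply, hS i j]
  -- a point over the algebraic closure
  have hmapdet : ∀ (L' : Type _) [Field L'] (ψ : k →+* L'),
      (S₀.map (MvPolynomial.map ψ)).det ≠ 0 := by
    intro L' _ ψ
    have h1 : (S₀.map (MvPolynomial.map ψ)).det = MvPolynomial.map ψ S₀.det := by
      rw [RingHom.map_det]
      rfl
    rw [h1]
    intro h0
    exact hdet0 (MvPolynomial.map_injective ψ ψ.injective (by rw [h0, map_zero]))
  obtain ⟨v, w, hw0, hvw⟩ := exists_good_point (K := K) hnm (S₀.map (MvPolynomial.map φ))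
    (fun i j => by simp only [Matrix.map_apply, hS₀ i j]) (hmapdet K φ)
  obtain ⟨L, hL, g, -, hg, -⟩ := exists_descend (k := k)
    (fun o : Option (Fin n) => o.elim w v) 0
  let ψ : k →+* L := algebraMap k L
  let ρ : L →+* K := algebraMap L K
  have hρψ : ρ.comp ψ = φ := by
    ext x; rfl
  have hρinj : Function.Injective (MvPolynomial.map ρ : MvPolynomial (Fin m) L → _) :=
    MvPolynomial.map_injective ρ ρ.injective
  let wL : MvPolynomial (Fin m) L := g none
  let vL : Fin n → MvPolynomial (Fin m) L := fun i => g (some i)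
  have hwL : MvPolynomial.map ρ wL = w := hg none
  have hvL : ∀ i, MvPolynomial.map ρ (vL i) = v i := fun i => hg (some i)
  have hwL0 : wL ≠ 0 := by
    intro h
    rw [h, map_zero] at hwL
    exact hw0 hwL.symm
  have hvwL : wL ^ 2 = bil (fun i j => MvPolynomial.map ψ (S₀ i j)) vL vL := by
    apply hρinj
    rw [map_pow, hwL, hvw, map_bil]
    congr 1
    · funext i j
      rw [MvPolynomial.map_map, hρψ]
      rfl
    · funext i; exact (hvL i).symm
    · funext i; exact (hvL i).symm
  have hySL : ∀ i j, MvPolynomial.finSuccEquiv L m ((S.map (MvPolynomial.map ψ)) i j) =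
      (yMat S i j).map (MvPolynomial.map ψ) := by
    intro i j
    rw [Matrix.map_apply, finSuccEquiv_map]
    rfl
  have hCy : MvPolynomial.map ψ (MvPolynomial.C y₀) =
      (MvPolynomial.C (ψ y₀) : MvPolynomial (Fin m) L) := MvPolynomial.map_C _ _
  refine ⟨L, hL, ?_, ?_⟩
  · intro h0
    have h1 := congrArg (MvPolynomial.aeval (Sum.elim vL
      (Fin.cons (MvPolynomial.C (ψ y₀)) MvPolynomial.X : Fin (m + 1) → MvPolynomial (Fin m) L))) h0
    rw [map_quadForm, aeval_quadForm, map_zero] at h1
    apply hwL0
    have h2 : wL ^ 2 = 0 := by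
      rw [hvwL, ← h1]
      congr 1
      funext i j
      rw [aeval_cons_eq, hySL]
      have h3 : (MvPolynomial.aeval MvPolynomial.X :
          MvPolynomial (Fin m) L →ₐ[L] MvPolynomial (Fin m) L).toRingHom = RingHom.id _ := by
        ext x <;> simp
      rw [h3, Polynomial.map_id, ← hCy, eval_map_apply]
    exact pow_eq_zero_iff (two_ne_zero) |>.mp h2
  · intro G hG
    have hCL : CharZero L := charZero_of_injective_algebraMap (algebraMap k L).injective
    rw [map_quadForm] at hG
    refine quadric_bundle_vanish (S.map (MvPolynomial.map ψ))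
      (fun i j => by simp only [Matrix.map_apply, hS i j]) ?_ hn (ψ y₀)
      (S₀.map (MvPolynomial.map ψ)) (S₁.map (MvPolynomial.map ψ)) ?_ ?_ (hmapdet L ψ) ?_ vL wL
      hwL0 hvwL G hG
    · intro i j
      rw [← MvPolynomial.natDegree_finSuccEquiv, hySL]
      refine natDegree_map_le.trans ?_
      rw [yMat, Matrix.map_apply, MvPolynomial.natDegree_finSuccEquiv]
      exact hdeg i j
    · intro i j
      rw [hySL, Matrix.map_apply, ← hCy, eval_map_apply]
    · intro i j
      rw [hySL, Matrix.map_apply, ← hCy, derivative_map, eval_map_apply]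
    · refine ⟨i₁, j₁, k₁, l₁, ?_⟩
      simp only [Matrix.map_apply]
      rw [← map_mul, ← map_mul]
      intro h
      apply hy2
      rw [eval_sub, eval_mul, eval_mul]
      exact sub_eq_zero.mpr (MvPolynomial.map_injective ψ ψ.injective h)

end CaseOne

end Pool.Agent.Work.PD
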