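import Mathlib

/-!
Square free part of a polynomial in one variable over a domain, up to constants.
-/

namespace Pool.Agent.Work.PD

open Polynomial

theorem exists_squarefree_mul_sq {Q : Type*} [Field Q] : ∀ (N : ℕ) (g : Q[X]), g ≠ 0 →
    g.natDegree ≤ N → ∃ G₀ E : Q[X], Squarefree G₀ ∧ E ≠ 0 ∧ g = G₀ * E ^ 2 := by
  intro N
  induction N with
  | zero =>
    intro g hg hN
    refine ⟨g, 1, ?_, one_ne_zero, by ring⟩
    have h1 : g = C (g.coeff 0) := eq_C_of_natDegree_le_zero hN
    have h2 : g.coeff 0 ≠ 0 := fun h => hg (by rw [h1, h, C_0])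
    rw [h1]
    exact (isUnit_C.mpr (isUnit_iff_ne_zero.mpr h2)).squarefree
  | succ N ih =>
    intro g hg hN
    by_cases hsq : Squarefree g
    · exact ⟨g, 1, hsq, one_ne_zero, by ring⟩
    · unfold Squarefree at hsq
      push Not at hsq
      obtain ⟨p, ⟨q, hq⟩, hp⟩ := hsq
      have hp0 : p ≠ 0 := by
        rintro rfl
        rw [zero_mul, zero_mul] at hq
        exact hg hq
      have hq0 : q ≠ 0 := by
        rintro rfl
        rw [mul_zero] at hq
        exact hg hq
      have hpd : 1 ≤ p.natDegree := by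
        by_contra h
        push Not at h
        have h1 : p = C (p.coeff 0) := eq_C_of_natDegree_le_zero (by omega)
        have h2 : p.coeff 0 ≠ 0 := fun h => hp0 (by rw [h1, h, C_0])
        apply hp
        rw [h1]
        exact isUnit_C.mpr (isUnit_iff_ne_zero.mpr h2)
      have hdeg : q.natDegree ≤ N := by
        rw [hq, natDegree_mul (mul_ne_zero hp0 hp0) hq0, natDegree_mul hp0 hp0] at hN
        omega
      obtain ⟨G₀, E, h1, h2, h3⟩ := ih q hq0 hdeg
      exact ⟨G₀, p * E, h1, mul_ne_zero hp0 h2, by rw [hq, h3]; ring⟩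

theorem exists_squarefree_part {A : Type*} [CommRing A] [IsDomain A] [CharZero A] (g : A[X])
    (hg : g ≠ 0) :
    ∃ (c : A) (g₀ e α β : A[X]) (ρ : A), c ≠ 0 ∧ ρ ≠ 0 ∧ C c * g = g₀ * e ^ 2 ∧
      α * g₀ + β * g₀.derivative = C ρ := by
  classical
  let Q := FractionRing A
  have hAQ : Function.Injective (algebraMap A Q) := IsFractionRing.injective A Q
  have hQ : CharZero Q := charZero_of_injective_algebraMap hAQ
  have hmap : Function.Injective (Polynomial.map (algebraMap A Q)) :=
    Polynomial.map_injective _ hAQ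
  obtain ⟨G₀, E, hsq, hE, hgE⟩ := exists_squarefree_mul_sq _ (g.map (algebraMap A Q))
    (by
      intro h
      exact hg (hmap (by rw [h, Polynomial.map_zero]))) le_rfl
  obtain ⟨b₁, hb₁, h₁⟩ := IsLocalization.integerNormalization_spec (nonZeroDivisors A) G₀
  obtain ⟨b₂, hb₂, h₂⟩ := IsLocalization.integerNormalization_spec (nonZeroDivisors A) E
  set g₀ := IsLocalization.integerNormalization (nonZeroDivisors A) G₀ with hg₀
  set e := IsLocalization.integerNormalization (nonZeroDivisors A) E with he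
  have hb₁0 : b₁ ≠ 0 := nonZeroDivisors.ne_zero hb₁
  have hb₂0 : b₂ ≠ 0 := nonZeroDivisors.ne_zero hb₂
  have hsm : ∀ (b : A) (p : Q[X]), b • p = C (algebraMap A Q b) * p := by
    intro b p
    rw [← smul_eq_C_mul, algebraMap_smul]
  rw [hsm] at h₁ h₂
  have hu₁ : algebraMap A Q b₁ ≠ 0 := fun h => hb₁0 (hAQ (by rw [h, map_zero]))
  have hsep : (g₀.map (algebraMap A Q)).Separable := by
    rw [PerfectField.separable_iff_squarefree, h₁]
    have hun : IsUnit (C (algebraMap A Q b₁)) := isUnit_C.mpr (isUnit_iff_ne_zero.mpr hu₁)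
    obtain ⟨u, hu⟩ := hun
    rw [← hu]
    intro x hx
    apply hsq x
    exact (Units.dvd_mul_left).mp hx
  obtain ⟨a', b', hab⟩ := hsep
  obtain ⟨b₃, hb₃, h₃⟩ := IsLocalization.integerNormalization_spec (nonZeroDivisors A) a'
  obtain ⟨b₄, hb₄, h₄⟩ := IsLocalization.integerNormalization_spec (nonZeroDivisors A) b'
  rw [hsm] at h₃ h₄
  refine ⟨b₁ * b₂ ^ 2, g₀, e, C b₄ * IsLocalization.integerNormalization (nonZeroDivisors A) a',
    C b₃ * IsLocalization.integerNormalization (nonZeroDivisors A) b', b₃ * b₄,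
    mul_ne_zero hb₁0 (pow_ne_zero 2 hb₂0),
    mul_ne_zero (nonZeroDivisors.ne_zero hb₃) (nonZeroDivisors.ne_zero hb₄), ?_, ?_⟩
  · apply hmap
    simp only [Polynomial.map_mul, Polynomial.map_pow, map_C, h₁, h₂, hgE]
    simp only [map_mul, map_pow]
    ring
  · apply hmap
    rw [derivative_map] at hab
    simp only [Polynomial.map_mul, Polynomial.map_add, map_C, h₃, h₄, map_mul]
    linear_combination (C (algebraMap A Q b₃) * C (algebraMap A Q b₄)) * hab

end Pool.Agent.Work.PD
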