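import Mathlib
import Pool.Agent.Work.MP_b62148_ag.QPot
import Pool.Agent.Work.MP_b62148_ag.QConst
import Pool.Agent.Work.MP_b62148_ag.QSquare
import Pool.Agent.Work.MP_b62148_ag.QGen

/-!
Potential density of quadric bundles, second case.
-/

namespace Pool.Agent.Work.PD

open Polynomial

section Taylor

theorem eval₂_add_taylor {A M : Type*} [CommRing A] [Field M] (ω : A →+* M) (p : A[X])
    (hp : p.natDegree ≤ 4) (Y : A) (s : M) :
    p.eval₂ ω (ω Y + s) = ω (p.eval Y) + ω (p.derivative.eval Y) * s +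
      ω ((taylor Y p).coeff 2) * s ^ 2 + ω ((taylor Y p).coeff 3) * s ^ 3 +
      ω ((taylor Y p).coeff 4) * s ^ 4 := by
  have h1 : p.eval₂ ω (ω Y + s) = (taylor Y p).eval₂ ω s := by
    rw [taylor_apply, eval₂_comp]
    congr 1
    simp [add_comm]
  rw [h1, eval₂_eq_sum_range' ω (n := 5) (by rw [natDegree_taylor]; omega)]
  simp only [Finset.sum_range_succ, Finset.sum_range_zero, taylor_coeff_zero, taylor_coeff_one]
  ring

end Taylor

section CaseTwo

universe u

variable {k : Type u} [Field k] [CharZero k] {n m : ℕ}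

theorem case_two (S : Matrix (Fin n) (Fin n) (MvPolynomial (Fin (m + 1)) k))
    (hS : ∀ i j, S i j = S j i) (hdeg : ∀ i j, (S i j).degreeOf 0 ≤ 4) (hn : 2 ≤ n) (hm : 0 < m)
    (hnm : 2 ^ m ≤ n) (hdet : S.det ≠ 0)
    (hp : ∀ i j k' l, (yMat S i j).derivative * yMat S k' l =
      yMat S i j * (yMat S k' l).derivative) :
    ∃ (L : IntermediateField k (AlgebraicClosure k)) (_ : FiniteDimensional k L),
      MvPolynomial.map (algebraMap k L) (quadForm S) ≠ 0 ∧
      ∀ G : MvPolynomial (Fin n ⊕ Fin (m + 1)) L,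
        (∀ x, IsSquare (MvPolynomial.eval x (MvPolynomial.map (algebraMap k L) (quadForm S))) →
          MvPolynomial.eval x G = 0) → G = 0 := by
  classical
  let A := MvPolynomial (Fin m) k
  let K := AlgebraicClosure k
  let φ : k →+* K := algebraMap k K
  let P : Matrix (Fin n) (Fin n) A[X] := yMat S
  have hdetY : P.det ≠ 0 := by
    have h1 : (yMat S).det = MvPolynomial.finSuccEquiv k m S.det := by
      have := AlgHom.map_det (MvPolynomial.finSuccEquiv k m).toAlgHom S
      rw [yMat]
      exact this.symm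
    show (yMat S).det ≠ 0
    rw [h1]
    simpa using hdet
  have hPs : ∀ i j, P i j = P j i := fun i j => by
    simp only [P, yMat, Matrix.map_apply, hS i j]
  obtain ⟨i₁, j₁, hg⟩ : ∃ i j, P i j ≠ 0 := by
    by_contra hcon
    push Not at hcon
    apply hdetY
    have h1 : P = 0 := by
      ext1 i j
      exact hcon i j
    have : Nonempty (Fin n) := ⟨⟨0, by omega⟩⟩
    rw [h1]
    exact Matrix.det_zero
  set g : A[X] := P i₁ j₁ with hgdef
  obtain ⟨c₁, g₀, e, α, β, ρ, hc₁, hρ, hcg, hBez⟩ := exists_squarefree_part g hg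
  let c : A := c₁ * g.leadingCoeff
  let a : Fin n → Fin n → A := fun i j => (P i j).coeff g.natDegree
  have hc : c ≠ 0 := mul_ne_zero hc₁ (leadingCoeff_ne_zero.mpr hg)
  have hid : ∀ i j, C c * P i j = C (a i j) * (g₀ * e ^ 2) := by
    intro i j
    have h1 := proportional_of_wronskian (P i j) g hg (hp i j i₁ j₁)
    simp only [c, a]
    rw [C_mul]
    linear_combination C c₁ * h1 + C ((P i j).coeff g.natDegree) * hcg
  have hge : g₀ * e ^ 2 ≠ 0 := by
    rw [← hcg]
    exact mul_ne_zero (C_ne_zero.mpr hc₁) hg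
  have hg₀ : g₀ ≠ 0 := left_ne_zero_of_mul hge
  have he : e ≠ 0 := by
    rintro h
    rw [h] at hge
    simp at hge
  have hg₀deg : g₀.natDegree ≤ 4 := by
    have h1 : (C c₁ * g).natDegree ≤ 4 := by
      refine (natDegree_C_mul_le _ _).trans ?_
      rw [hgdef]
      simp only [P, yMat, Matrix.map_apply]
      rw [MvPolynomial.natDegree_finSuccEquiv]
      exact hdeg _ _
    rw [hcg, natDegree_mul hg₀ (pow_ne_zero 2 he)] at h1
    omega
  -- the point ζ
  obtain ⟨ζ, hζ⟩ : ∃ ζ : Fin m → k, MvPolynomial.eval ζ (ρ * g₀.leadingCoeff) ≠ 0 := by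
    by_contra hcon
    push Not at hcon
    exact mul_ne_zero hρ (leadingCoeff_ne_zero.mpr hg₀)
      (MvPolynomial.funext fun ζ => by rw [hcon, map_zero])
  rw [map_mul] at hζ
  obtain ⟨hζ1, hζ2⟩ := mul_ne_zero_iff.mp hζ
  let h : k[X] := g₀.map (MvPolynomial.eval ζ)
  have hhdeg : h.natDegree = g₀.natDegree := natDegree_map_of_leadingCoeff_ne_zero _ hζ2
  obtain ⟨η, hη⟩ : ∃ η : K, 0 < g₀.natDegree → aeval η h = 0 := by
    by_cases hd : 0 < g₀.natDegree
    · obtain ⟨η, hη⟩ := IsAlgClosed.exists_aeval_eq_zero K h (by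
        intro h0
        have h1 : h.natDegree = 0 := natDegree_eq_of_degree_eq_some (n := 0) h0
        rw [hhdeg] at h1
        omega)
      exact ⟨η, fun _ => hη⟩
    · exact ⟨0, fun h => absurd h hd⟩
  have hη' : 0 < g₀.natDegree → aeval η (derivative h) ≠ 0 := by
    intro hd h0
    have h1 := congrArg (fun q : A[X] => aeval η (q.map (MvPolynomial.eval ζ))) hBez
    simp only [Polynomial.map_add, Polynomial.map_mul, map_add, map_mul, map_C, aeval_C] at h1
    rw [← derivative_map, show aeval η (g₀.map (MvPolynomial.eval ζ)) = 0 from hη hd,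
      show aeval η (derivative (g₀.map (MvPolynomial.eval ζ))) = 0 from h0, mul_zero, mul_zero,
      add_zero] at h1
    apply hζ1
    apply (algebraMap k K).injective
    rw [← h1, map_zero]
  -- the base point `y₁`
  let i₀ : Fin m := ⟨0, hm⟩
  let y1 : k → MvPolynomial (Fin m) K := fun t => MvPolynomial.C η +
    MvPolynomial.C (φ t) * (MvPolynomial.X i₀ - MvPolynomial.C (φ (ζ i₀)))
  have hy1inj : Function.Injective y1 := by
    intro s t hst
    have h1 := congrArg (MvPolynomial.eval (fun _ : Fin m => φ (ζ i₀) + 1)) hst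
    simp only [y1, map_add, map_mul, map_sub, MvPolynomial.eval_C, MvPolynomial.eval_X] at h1
    apply φ.injective
    linear_combination h1
  have hKinj : Function.Injective (MvPolynomial.map φ : A → MvPolynomial (Fin m) K) :=
    MvPolynomial.map_injective φ φ.injective
  obtain ⟨t, ht⟩ : ∃ t : k, ((P.det).map (MvPolynomial.map φ)).eval (y1 t) ≠ 0 := by
    by_contra hcon
    push Not at hcon
    apply hdetY
    apply Polynomial.map_injective _ hKinj
    rw [Polynomial.map_zero]
    refine eq_zero_of_infinite_isRoot _ ?_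
    refine (Set.infinite_range_of_injective hy1inj).mono ?_
    rintro _ ⟨t, rfl⟩
    exact hcon t
  let SK : Matrix (Fin n) (Fin n) (MvPolynomial (Fin m) K) := fun i j =>
    ((P i j).map (MvPolynomial.map φ)).eval (y1 t)
  have hSKdet : SK.det ≠ 0 := by
    have h1 : SK.det = ((P.det).map (MvPolynomial.map φ)).eval (y1 t) := by
      rw [← Polynomial.coe_mapRingHom, ← Polynomial.coe_evalRingHom, RingHom.map_det,
        RingHom.map_det]
      rfl
    rw [h1]; exact ht
  obtain ⟨v, w, hw0, hvw⟩ := exists_good_point (K := K) hnm SK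
    (fun i j => by simp only [SK, hPs i j]) hSKdet
  obtain ⟨L, hL, gL, ηL, hgL, hηL⟩ := exists_descend (k := k)
    (fun o : Option (Fin n) => o.elim w v) η
  have hCL : CharZero L := charZero_of_injective_algebraMap (algebraMap k L).injective
  let ψ : k →+* L := algebraMap k L
  let ρL : L →+* K := algebraMap L K
  have hρψ : ρL.comp ψ = φ := by
    ext x; rfl
  have hρinj : Function.Injective (MvPolynomial.map ρL : MvPolynomial (Fin m) L → _) :=
    MvPolynomial.map_injective ρL ρL.injective
  have hψinj : Function.Injective (MvPolynomial.map ψ : A → MvPolynomial (Fin m) L) :=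
    MvPolynomial.map_injective ψ ψ.injective
  let wL : MvPolynomial (Fin m) L := gL none
  let vL : Fin n → MvPolynomial (Fin m) L := fun i => gL (some i)
  have hwL : MvPolynomial.map ρL wL = w := hgL none
  have hvL : ∀ i, MvPolynomial.map ρL (vL i) = v i := fun i => hgL (some i)
  have hwL0 : wL ≠ 0 := by
    intro h
    rw [h, map_zero] at hwL
    exact hw0 hwL.symm
  let Y₁ : MvPolynomial (Fin m) L := MvPolynomial.C ηL +
    MvPolynomial.C (ψ t) * (MvPolynomial.X i₀ - MvPolynomial.C (ψ (ζ i₀)))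
  have hY₁ : MvPolynomial.map ρL Y₁ = y1 t := by
    simp only [Y₁, y1, map_add, map_mul, map_sub, MvPolynomial.map_C, MvPolynomial.map_X]
    rw [show ρL ηL = η from hηL]
    rfl
  have hPL : ∀ i j, MvPolynomial.map ρL (((P i j).map (MvPolynomial.map ψ)).eval Y₁) = SK i j := by
    intro i j
    simp only [SK]
    rw [← hY₁, ← eval_map_apply, Polynomial.map_map]
    congr 2
    apply MvPolynomial.ringHom_ext
    · intro x
      simp [← hρψ]
    · intro j
      simp
  have hvwL : wL ^ 2 = bil (fun i j => ((P i j).map (MvPolynomial.map ψ)).eval Y₁) vL vL := by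
    apply hρinj
    rw [map_pow, hwL, hvw, map_bil]
    congr 1
    · funext i j
      exact (hPL i j).symm
    · funext i; exact (hvL i).symm
    · funext i; exact (hvL i).symm
  -- the generic line through ζ
  obtain ⟨M, _, _, z, val, hz, hv1, hv2, hv3, hspec⟩ := exists_generic_line_through
    (fun j => ψ (ζ j))
  let αz : MvPolynomial (Fin m) L →ₐ[L] M := MvPolynomial.aeval z
  let ω : A →+* M := (αz : MvPolynomial (Fin m) L →+* M).comp (MvPolynomial.map ψ)
  have hωinj : Function.Injective ω := hz.comp hψinj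
  let y₁ : M := αz Y₁
  have hE : ∀ (i j : Fin n) (y : M), MvPolynomial.aeval (Fin.cons y z : Fin (m + 1) → M)
      (S.map (MvPolynomial.map ψ) i j) = (P i j).eval₂ ω y := by
    intro i j y
    rw [aeval_cons_eq, Matrix.map_apply, finSuccEquiv_map, Polynomial.map_map, eval_map]
    rfl
  have hE1 : ∀ p : A[X], p.eval₂ ω y₁ = αz ((p.map (MvPolynomial.map ψ)).eval Y₁) := by
    intro p
    simp only [y₁, ω]
    rw [← eval₂_map]
    exact (Polynomial.hom_eval₂ _ (RingHom.id _) (αz : MvPolynomial (Fin m) L →+* M) Y₁).symm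
  have hidE : ∀ i j (y : M), ω c * (P i j).eval₂ ω y = ω (a i j) * (g₀.eval₂ ω y * e.eval₂ ω y ^ 2) := by
    intro i j y
    have h1 := congrArg (eval₂ ω y) (hid i j)
    rw [eval₂_mul, eval₂_mul, eval₂_mul, eval₂_pow, eval₂_C, eval₂_C] at h1
    exact h1
  have hωc : ω c ≠ 0 := fun h => hc (hωinj (by rw [h, map_zero]))
  have hform : (αz wL) ^ 2 = bil (fun i j => (P i j).eval₂ ω y₁) (fun i => αz (vL i))
      (fun i => αz (vL i)) := by
    rw [← map_pow, hvwL]
    have h1 := map_bil (αz : MvPolynomial (Fin m) L →+* M)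
      (fun i j => ((P i j).map (MvPolynomial.map ψ)).eval Y₁) vL vL
    simp only [RingHom.coe_coe] at h1
    rw [h1]
    simp only [hE1]
  have hαw : αz wL ≠ 0 := fun h => hwL0 (hz (by rw [show MvPolynomial.aeval z wL = 0 from h, map_zero]))
  have hne : g₀.eval₂ ω y₁ ≠ 0 ∧ e.eval₂ ω y₁ ≠ 0 := by
    have h1 : ∃ i j, (P i j).eval₂ ω y₁ ≠ 0 := by
      by_contra hcon
      push Not at hcon
      apply hαw
      have h2 : (αz wL) ^ 2 = 0 := by
        rw [hform]
        unfold bil
        simp [hcon]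
      exact pow_eq_zero_iff (two_ne_zero) |>.mp h2
    obtain ⟨i, j, hij⟩ := h1
    have h2 := mul_ne_zero hωc hij
    rw [hidE] at h2
    have h3 := right_ne_zero_of_mul h2
    refine ⟨left_ne_zero_of_mul h3, fun h => ?_⟩
    rw [h] at h3
    simp at h3
  obtain ⟨hgy, hey⟩ := hne
  let Y : Set M := {y | IsSquare (g₀.eval₂ ω y₁ * g₀.eval₂ ω y)}
  have hYκ : ∀ y ∈ Y, ∃ κ : M, ∀ i j, (P i j).eval₂ ω y = κ ^ 2 * (P i j).eval₂ ω y₁ := by
    rintro y ⟨r, hr⟩
    refine ⟨r * e.eval₂ ω y / (g₀.eval₂ ω y₁ * e.eval₂ ω y₁), fun i j => ?_⟩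
    apply mul_left_cancel₀ hωc
    have h1 := hidE i j y
    have h2 := hidE i j y₁
    have h3 : ω c * ((r * e.eval₂ ω y / (g₀.eval₂ ω y₁ * e.eval₂ ω y₁)) ^ 2 *
        (P i j).eval₂ ω y₁) = (r * e.eval₂ ω y / (g₀.eval₂ ω y₁ * e.eval₂ ω y₁)) ^ 2 *
        (ω c * (P i j).eval₂ ω y₁) := by ring
    rw [h3, h2, h1]
    field_simp
    linear_combination (ω (a i j) * eval₂ ω y e ^ 2) * hr
  have hYinf : Y.Infinite := by
    by_cases hd : 0 < g₀.natDegree
    · -- the core argument
      let gL₀ : (MvPolynomial (Fin m) L)[X] := g₀.map (MvPolynomial.map ψ)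
      have hgL₀deg : gL₀.natDegree ≤ 4 := natDegree_map_le.trans hg₀deg
      have hev : ∀ y : M, g₀.eval₂ ω y = gL₀.eval₂ (αz : MvPolynomial (Fin m) L →+* M) y := by
        intro y
        simp only [gL₀, ω]
        rw [eval₂_map]
      have hexp := fun s : M => eval₂_add_taylor (αz : MvPolynomial (Fin m) L →+* M) gL₀ hgL₀deg Y₁ s
      have hev0 : ∀ q : k[X], ∀ p : A[X], p.map (MvPolynomial.eval ζ) = q →
          MvPolynomial.eval (fun j => ψ (ζ j)) ((p.map (MvPolynomial.map ψ)).eval Y₁) =
            (q.map ψ).eval ηL := by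
        intro q p hpq
        rw [← hpq, ← eval_map_apply, Polynomial.map_map, Polynomial.map_map]
        have h1 : MvPolynomial.eval (fun j => ψ (ζ j)) Y₁ = ηL := by
          simp [Y₁]
        rw [h1]
        congr 2
        apply MvPolynomial.ringHom_ext
        · intro x
          simp
        · intro j
          simp
      have hρq : ∀ q : k[X], ρL ((q.map ψ).eval ηL) = aeval η q := by
        intro q
        rw [← hηL, ← eval_map_apply, Polynomial.map_map, hρψ, aeval_def, eval_map]
      have hv0 : val (αz (gL₀.eval Y₁)) < 1 := by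
        rw [hv2, hev0 h g₀ rfl]
        apply ρL.injective
        rw [hρq, map_zero]
        exact hη hd
      have hvd : val (αz (gL₀.derivative.eval Y₁)) = 1 := by
        refine le_antisymm (hv1 _) (not_lt.mp ?_)
        rw [hv2]
        simp only [gL₀]
        rw [derivative_map, hev0 (derivative h) g₀.derivative (by rw [← derivative_map])]
        intro h0
        apply hη' hd
        rw [← hρq, h0, map_zero]
      have hq0 : αz (gL₀.eval Y₁) ≠ 0 := by
        have := hgy
        rw [hE1] at this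
        exact this
      set V := val (αz (gL₀.eval Y₁)) with hV
      have hV0 : V ≠ 0 := by rw [hV]; exact (Valuation.ne_zero_iff val).mpr hq0
      have hcore := core_infinite val hv3 (q := αz (gL₀.eval Y₁))
        (d := αz (gL₀.eval Y₁) * αz (gL₀.derivative.eval Y₁))
        (c := αz (gL₀.eval Y₁) * αz ((taylor Y₁ gL₀).coeff 2))
        (b := αz (gL₀.eval Y₁) * αz ((taylor Y₁ gL₀).coeff 3))
        (a := αz (gL₀.eval Y₁) * αz ((taylor Y₁ gL₀).coeff 4)) hq0 (V := V)
        (by
          rw [map_pow, ← hV, pow_two]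
          exact mul_lt_of_lt_one_left (zero_lt_iff.mpr hV0) hv0)
        (by rw [map_mul, hvd, mul_one])
        (by rw [map_mul, ← hV]; exact mul_le_of_le_one_right' (hv1 _))
        (by rw [map_mul, ← hV]; exact mul_le_of_le_one_right' (hv1 _))
        (by rw [map_mul, ← hV]; exact mul_le_of_le_one_right' (hv1 _))
      have hinj : Function.Injective (fun s : M => y₁ + s) := add_right_injective _
      refine (hcore.image hinj.injOn).mono ?_
      rintro _ ⟨s, hs, rfl⟩
      show IsSquare (g₀.eval₂ ω y₁ * g₀.eval₂ ω (y₁ + s))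
      have h5 : g₀.eval₂ ω (y₁ + s) = αz (gL₀.eval Y₁) + αz (gL₀.derivative.eval Y₁) * s +
          αz ((taylor Y₁ gL₀).coeff 2) * s ^ 2 + αz ((taylor Y₁ gL₀).coeff 3) * s ^ 3 +
          αz ((taylor Y₁ gL₀).coeff 4) * s ^ 4 := by
        rw [hev]
        exact hexp s
      have h6 : g₀.eval₂ ω y₁ = αz (gL₀.eval Y₁) := hE1 g₀
      rw [h5, h6]
      obtain ⟨r, hr⟩ := hs
      refine ⟨r, ?_⟩
      rw [← hr]
      ring
    · have h1 : g₀ = C (g₀.coeff 0) := eq_C_of_natDegree_le_zero (by omega)
      have h2 : Y = Set.univ := by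
        ext y
        refine ⟨fun _ => Set.mem_univ _, fun _ => ?_⟩
        show IsSquare (g₀.eval₂ ω y₁ * g₀.eval₂ ω y)
        rw [h1, eval₂_C, eval₂_C]
        exact ⟨_, rfl⟩
      have hMc : CharZero M := charZero_of_injective_algebraMap (algebraMap L M).injective
      rw [h2]
      exact Set.infinite_univ
  refine ⟨L, hL, ?_, ?_⟩
  · intro h0
    have h1 := congrArg (MvPolynomial.aeval (Sum.elim (fun i => αz (vL i))
      (Fin.cons y₁ z : Fin (m + 1) → M))) h0
    rw [map_quadForm, aeval_quadForm, map_zero] at h1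
    apply hαw
    have h2 : (αz wL) ^ 2 = 0 := by
      rw [hform, ← h1]
      congr 1
      funext i j
      exact (hE i j y₁).symm
    exact pow_eq_zero_iff (two_ne_zero) |>.mp h2
  · intro G hG
    rw [map_quadForm] at hG
    refine const_vanish (S.map (MvPolynomial.map ψ)) (fun i j => by
      simp only [Matrix.map_apply, hS i j]) z hz y₁ (αz wL) (fun i => αz (vL i)) hαw ?_ Y hYinf ?_ G
      (hspec _ _ G hG)
    · rw [hform]
      congr 1
      funext i j
      exact (hE i j y₁).symm
    · intro y hy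
      obtain ⟨κ, hκ⟩ := hYκ y hy
      refine ⟨κ, fun i j => ?_⟩
      rw [hE, hE]
      exact hκ i j

end CaseTwo

end Pool.Agent.Work.PD
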