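import Mathlib
import Pool.Agent.Work.MP_b62148_ag.QTwo

/-!
Potential density of rational points on conic and quadric bundles `w ^ 2 = q(x)` over a rational
base of dimension at least two, the coefficients of the quadratic form `q` being polynomials of
degree at most four in one of the base variables and of arbitrary degree in the others.
-/

namespace Pool.Agent.Work.MP_b62148_ag.OldQuadricBundle

/-- The polynomial `∑ S i j (y, z) * x i * x j` in the variables `x i` (with index `Sum.inl i`) and
the base variables `y` (with index `Sum.inr 0`) and `z 1, ..., z m` (the other `Sum.inr l`). -/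
noncomputable def quadForm {k : Type*} [Field k] {n m : ℕ}
    (S : Matrix (Fin n) (Fin n) (MvPolynomial (Fin (m + 1)) k)) :
    MvPolynomial (Fin n ⊕ Fin (m + 1)) k :=
  ∑ i, ∑ j, MvPolynomial.rename Sum.inr (S i j) * MvPolynomial.X (Sum.inl i) *
    MvPolynomial.X (Sum.inl j)

/-- The `K`-points of `w ^ 2 = f` are Zariski dense: every polynomial in `w` and the variables of
`f` which vanishes at all of them is a multiple of `w ^ 2 - f`. -/
def CoverDense {K : Type*} [Field K] {σ : Type*} (f : MvPolynomial σ K) : Prop :=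
  ∀ G : Polynomial (MvPolynomial σ K),
    (∀ (x : σ → K) (w : K), w ^ 2 = MvPolynomial.eval x f →
      (G.map (MvPolynomial.eval x)).eval w = 0) →
    (Polynomial.X ^ 2 - Polynomial.C f) ∣ G

/-- Let `S` be a symmetric `n × n` matrix of polynomials in `y, z 1, ..., z m`, of degree at most
four in `y`, with nonzero determinant, where `m ≥ 1` and `n ≥ 2 ^ m`. Then the quadric bundle
`w ^ 2 = ∑ S i j (y, z) * x i * x j` is potentially dense. For `m = 1` and `n = 2` these are conic
bundles over the plane. -/
theorem result {k : Type*} [Field k] [CharZero k] {n m : ℕ} (hm : 1 ≤ m) (hn : 2 ^ m ≤ n)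
    (S : Matrix (Fin n) (Fin n) (MvPolynomial (Fin (m + 1)) k)) (hS : S.IsSymm)
    (hdet : S.det ≠ 0) (hdeg : ∀ i j, (S i j).degreeOf 0 ≤ 4) :
    ∃ L : IntermediateField k (AlgebraicClosure k), FiniteDimensional k L ∧
      CoverDense (MvPolynomial.map (algebraMap k L) (quadForm S)) := by
  have hn2 : 2 ≤ n := by
    have h1 : 2 ^ 1 ≤ 2 ^ m := Nat.pow_le_pow_right (by norm_num) hm
    omega
  have hS' : ∀ i j, S i j = S j i := fun i j => (hS.apply i j).symm
  have key : ∃ (L : IntermediateField k (AlgebraicClosure k)) (_ : FiniteDimensional k L),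
      MvPolynomial.map (algebraMap k L) (Pool.Agent.Work.PD.quadForm S) ≠ 0 ∧
      ∀ G : MvPolynomial (Fin n ⊕ Fin (m + 1)) L,
        (∀ x, IsSquare (MvPolynomial.eval x
          (MvPolynomial.map (algebraMap k L) (Pool.Agent.Work.PD.quadForm S))) →
          MvPolynomial.eval x G = 0) → G = 0 := by
    by_cases hp : ∃ i j k' l, (Pool.Agent.Work.PD.yMat S i j).derivative *
        Pool.Agent.Work.PD.yMat S k' l ≠
      Pool.Agent.Work.PD.yMat S i j * (Pool.Agent.Work.PD.yMat S k' l).derivative
    · exact Pool.Agent.Work.PD.case_one S hS' hdeg hn2 hn hdet hp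
    · push Not at hp
      exact Pool.Agent.Work.PD.case_two S hS' hdeg hn2 hm hn hdet hp
  obtain ⟨L, hL, hne, h⟩ := key
  refine ⟨L, hL, ?_⟩
  intro G hG
  exact Pool.Agent.Work.PD.dvd_of_vanish _ hne h G hG

end Pool.Agent.Work.MP_b62148_ag.OldQuadricBundle
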