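import Mathlib
import Pool.Agent.Work.MP_b62148_ag.Quintic.MainT
import Pool.Agent.Work.MP_b62148_ag.Quintic.PolQ

/-!
Every smooth quintic hypersurface over a field of characteristic zero which contains a linear
three-space defined over the field is unirational over the field.
-/

namespace Pool.Agent.Work.MP_b62148_ag.OldQuinticThreeSpace

open MvPolynomial

/-- The form `F` is smooth: its partial derivatives have no common zero over the algebraic closure
other than the origin (for a form of positive degree in characteristic zero this says that the
projective hypersurface `F = 0` is smooth). -/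
def IsSmoothForm {K : Type*} [Field K] {σ : Type*} (F : MvPolynomial σ K) : Prop :=
  ∀ x : σ → AlgebraicClosure K, (∀ i, aeval x (pderiv i F) = 0) → x = 0

/-- The hypersurface `F = 0` is unirational over `K`: there are polynomials `P_i` in `m` variables
over `K`, for some `m`, with `F (P) = 0` identically, and such that every polynomial vanishing
identically at `P` is a multiple of `F` (the resulting map from affine space to the
hypersurface `F = 0` is dominant). -/
def Unirational {K : Type*} [Field K] {σ : Type*} (F : MvPolynomial σ K) : Prop :=
  ∃ (m : ℕ) (P : σ → MvPolynomial (Fin m) K),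
    aeval P F = 0 ∧ ∀ G : MvPolynomial σ K, aeval P G = 0 → F ∣ G

/-- The `K`-points of the (affine cone over the) hypersurface `F = 0` are Zariski dense: every
polynomial vanishing at all of them is a multiple of `F`. -/
def DensePoints {K : Type*} [Field K] {σ : Type*} (F : MvPolynomial σ K) : Prop :=
  ∀ G : MvPolynomial σ K, (∀ x : σ → K, eval x F = 0 → eval x G = 0) → F ∣ G

/-- A smooth quintic form over a field `K` of characteristic zero which vanishes on the span of four
linearly independent vectors of `K ^ (n + 1)` defines a hypersurface which is unirational over `K`
and has Zariski dense `K`-points. -/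
theorem result {K : Type*} [Field K] [CharZero K] (n : ℕ) (F : MvPolynomial (Fin (n + 1)) K)
    (hF : F.IsHomogeneous 5) (hs : IsSmoothForm F) (v : Fin 4 → Fin (n + 1) → K)
    (hv : LinearIndependent K v) (h : ∀ s : Fin 4 → K, eval (fun i => ∑ j, s j * v j i) F = 0) :
    Unirational F ∧ DensePoints F := by
  obtain ⟨T, hT⟩ := Pool.Agent.Work.PD5.exists_isTen F hF
  have hcard : 4 ≤ n + 1 := by
    have := hv.fintype_card_le_finrank
    simpa using this
  have hiso : Pool.Agent.Work.PD5.Iso T v := by
    apply Pool.Agent.Work.PD5.iso_of_vanish
    intro s
    rw [← hT.aeval_eq, aeval_eq_eval]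
    exact h s
  exact Pool.Agent.Work.PD5.space_final F hF hs (by simp; omega) T hT v hv hiso

end Pool.Agent.Work.MP_b62148_ag.OldQuinticThreeSpace
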