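import Mathlib
import Pool.Agent.Work.MP_b62148_ag.GoodPoint
import Pool.Agent.Work.MP_b62148_ag.Moving2
import Pool.Agent.Work.MP_b62148_ag.Descent2

/-!
Potential density of square values of a smooth sextic form in at least six variables.
-/

namespace Pool.Agent.Work.PD

theorem squares_dense_of_smooth' {k : Type*} [Field k] [CharZero k] {σ : Type*} [Fintype σ]
    (f : MvPolynomial σ k) (hf6 : f.IsHomogeneous 6) (hs : SmoothForm f)
    (hcard : 6 ≤ Fintype.card σ) :
    ∃ (L : IntermediateField k (AlgebraicClosure k)) (_ : FiniteDimensional k L),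
      ∀ G : MvPolynomial σ L,
        (∀ x : σ → L, IsSquare (MvPolynomial.eval x (MvPolynomial.map (algebraMap k L) f)) →
          MvPolynomial.eval x G = 0) → G = 0 := by
  obtain ⟨K, _, _, _, _, _, P, v, hline, hv, hnr⟩ := exists_moving_line hcard f hf6
  obtain ⟨P', hline', hdata | hdata⟩ :=
    exists_good_data (E := AlgebraicClosure k) f hf6 hs P v hline hv hnr
  · obtain ⟨ξ₀, ξ₁, h2, h3, h4, h5⟩ := hdata
    obtain ⟨L, hL, P'', v'', ζ₀, ζ₁, h1', h2', h3', h4', h5'⟩ :=
      exists_finite_line f P' v ξ₀ ξ₁ hline' h2 h3 h4 h5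
    refine ⟨L, hL, ?_⟩
    intro G hG
    refine dense_of_line (MvPolynomial.map (algebraMap k L) f) G ?_ hG P'' v'' ?_ ζ₀ ζ₁ ?_ ?_ ?_ ?_
    · exact (hf6.map _).totalDegree_le
    · rw [expand_map]; exact h1'
    · rw [dirDE_map]; exact h2'
    · rw [dirDE_map]; exact h3'
    · rw [dirDE_map]; exact h4'
    · rw [dirDE_map]; exact h5'
  · obtain ⟨ξ, ζ, h2, h3, h4, h5⟩ := hdata
    obtain ⟨L, hL, P'', v'', ξ'', ζ'', h1', h2', h3', h4', h5'⟩ :=
      exists_finite_line2 f P' v ξ ζ hline' h2 h3 h4 h5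
    refine ⟨L, hL, ?_⟩
    intro G hG
    refine dense_of_line2 (MvPolynomial.map (algebraMap k L) f) G ?_ hG P'' v'' ξ'' ζ'' ?_ ?_ ?_ ?_ ?_
    · exact (hf6.map _).totalDegree_le
    · rw [expand_map]; exact h1'
    · rw [expand_map]; exact h2'
    · rw [ee_map]; exact h3'
    · rw [nn_map]; exact h4'
    · rw [expand_map]; exact h5'

end Pool.Agent.Work.PD
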