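import Mathlib
import Pool.Agent.Work.MP_b62148_ag.Smooth5
import Pool.Agent.Work.MP_b62148_ag.Cover

/-!
Potential density of rational points on the smooth Fano varieties given as double covers
`w ^ 2 = f (x_0, ..., x_n)` of projective space branched along a smooth sextic hypersurface.
-/

namespace Pool.Agent.Work.MP_b62148_ag.OldSexticCover

/-- The form `f` is smooth: its partial derivatives have no common zero over the algebraic closure
other than the origin (for a form of positive degree in characteristic zero this says that the
projective hypersurface `f = 0` is smooth). -/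
def IsSmoothForm {k : Type*} [Field k] {σ : Type*} (f : MvPolynomial σ k) : Prop :=
  ∀ x : σ → AlgebraicClosure k,
    (∀ i, MvPolynomial.aeval x (MvPolynomial.pderiv i f) = 0) → x = 0

/-- The `K`-points of the (affine cone over the) double cover `w ^ 2 = f x` are Zariski dense: every
polynomial in `w` and the `x_i` which vanishes at all of them is a multiple of `w ^ 2 - f`. -/
def CoverDense {K : Type*} [Field K] {σ : Type*} (f : MvPolynomial σ K) : Prop :=
  ∀ G : Polynomial (MvPolynomial σ K),
    (∀ (x : σ → K) (w : K), w ^ 2 = MvPolynomial.eval x f →
      (G.map (MvPolynomial.eval x)).eval w = 0) →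
    (Polynomial.X ^ 2 - Polynomial.C f) ∣ G

/-- Double covers of projective space of dimension `n ≥ 5` branched along a smooth sextic
hypersurface are potentially dense. -/
theorem result {k : Type*} [Field k] [CharZero k] (n : ℕ) (hn : 5 ≤ n)
    (f : MvPolynomial (Fin (n + 1)) k) (hf : f.IsHomogeneous 6) (hs : IsSmoothForm f) :
    ∃ L : IntermediateField k (AlgebraicClosure k), FiniteDimensional k L ∧
      CoverDense (MvPolynomial.map (algebraMap k L) f) := by
  obtain ⟨L, hL, h⟩ := Pool.Agent.Work.PD.squares_dense_of_smooth' f hf hs (by simpa using by omega)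
  refine ⟨L, hL, ?_⟩
  intro G hG
  refine Pool.Agent.Work.PD.dvd_of_vanish _ ?_ h G hG
  intro h0
  have hf0 : f = 0 := by
    apply MvPolynomial.map_injective (algebraMap k L) (algebraMap k L).injective
    rw [h0, map_zero]
  subst hf0
  have h1 := congrFun (hs (fun _ => 1) (fun i => by simp)) 0
  simp at h1

end Pool.Agent.Work.MP_b62148_ag.OldSexticCover
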