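import Mathlib
import Pool.Agent.Work.MP_b62148_ag.Line2
import Pool.Agent.Work.MP_b62148_ag.Cover

/-!
Density of rational points, over the ground field itself, on sextic double covers
`w ^ 2 = f (x_1, ..., x_n)` whose branch divisor contains a rational line.
-/

namespace Pool.Agent.Work.MP_b62148_ag.OldSexticLine

open Polynomial

/-- The restriction `f (P + t v)` of `f` to a line, as a polynomial in `t`. -/
noncomputable def restrict {K : Type*} [Field K] {n : ℕ} (f : MvPolynomial (Fin n) K)
    (P v : Fin n → K) : K[X] :=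
  MvPolynomial.aeval (fun i => C (P i) + X * C (v i)) f

/-- The derivative of `f` in the direction `ξ`. -/
noncomputable def dirDeriv {K : Type*} [Field K] {n : ℕ} (f : MvPolynomial (Fin n) K)
    (ξ : Fin n → K) : MvPolynomial (Fin n) K :=
  ∑ i, MvPolynomial.C (ξ i) * MvPolynomial.pderiv i f

/-- The `K`-points of `w ^ 2 = f (x)` are Zariski dense: every polynomial in `w` and the `x_i` which
vanishes at all of them is a multiple of `w ^ 2 - f`. -/
def CoverDense {K : Type*} [Field K] {n : ℕ} (f : MvPolynomial (Fin n) K) : Prop :=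
  ∀ G : Polynomial (MvPolynomial (Fin n) K),
    (∀ (x : Fin n → K) (w : K), w ^ 2 = MvPolynomial.eval x f →
      (G.map (MvPolynomial.eval x)).eval w = 0) →
    (X ^ 2 - C f) ∣ G

/-- The line `P + t v` of the hypersurface `f = 0` satisfies one of the two non degeneracy
conditions: (1) some line `P + s ξ` meets the hypersurface at `P` with multiplicity exactly three
and `f` has non zero mixed second derivative along `v` and `ξ` at `P`; (2) some directional
derivative of `f` vanishes to order exactly two at `P` along the line `P + t v`. -/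
def Nondegenerate {K : Type*} [Field K] {n : ℕ} (f : MvPolynomial (Fin n) K)
    (P v : Fin n → K) : Prop :=
  (∃ ξ : Fin n → K, (restrict f P ξ).coeff 1 = 0 ∧ (restrict f P ξ).coeff 2 = 0 ∧
    (restrict f P ξ).coeff 3 ≠ 0 ∧ (restrict (dirDeriv f ξ) P v).coeff 1 ≠ 0) ∨
  (∃ ξ : Fin n → K, (restrict (dirDeriv f ξ) P v).coeff 0 = 0 ∧
    (restrict (dirDeriv f ξ) P v).coeff 1 = 0 ∧ (restrict (dirDeriv f ξ) P v).coeff 2 ≠ 0)

/-- Let `K` be a field of characteristic zero and `f` a polynomial of total degree at most six over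
`K` which vanishes on a line `P + t v`. If the hypersurface `f = 0` is smooth at `P` and the line
is non degenerate, then the `K`-points of `w ^ 2 = f (x)` are Zariski dense. -/
theorem result {K : Type*} [Field K] [CharZero K] {n : ℕ} (f : MvPolynomial (Fin n) K)
    (hf : f.totalDegree ≤ 6) (P v : Fin n → K) (hline : restrict f P v = 0)
    (hsm : ∃ i, MvPolynomial.eval P (MvPolynomial.pderiv i f) ≠ 0) (hnd : Nondegenerate f P v) :
    CoverDense f := by
  classical
  have hf0 : f ≠ 0 := by
    rintro rfl
    obtain ⟨i, hi⟩ := hsm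
    simp at hi
  obtain ⟨i, hi⟩ := hsm
  have hdir : ∀ ξ : Fin n → K, restrict (dirDeriv f ξ) P v =
      Pool.Agent.Work.PD.dirD f P v ξ := by
    intro ξ
    unfold restrict dirDeriv Pool.Agent.Work.PD.dirD Pool.Agent.Work.PD.grad
      Pool.Agent.Work.PD.expand
    rw [map_sum]
    refine Finset.sum_congr rfl fun i _ => ?_
    rw [map_mul, MvPolynomial.aeval_C]
    rfl
  have hline' : Pool.Agent.Work.PD.expand f P v = 0 := hline
  have hsingle : (Pool.Agent.Work.PD.dirD f P v (Pi.single i 1)).coeff 0 ≠ 0 := by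
    have h : Pool.Agent.Work.PD.dirD f P v (Pi.single i 1) =
        Pool.Agent.Work.PD.expand (MvPolynomial.pderiv i f) P v :=
      Pool.Agent.Work.PD.dirDE_single f P v i
    rw [h, Pool.Agent.Work.PD.coeff_zero_expand, MvPolynomial.aeval_eq_eval]
    exact hi
  intro G hG
  refine Pool.Agent.Work.PD.dvd_of_vanish f hf0 ?_ G hG
  intro G' hG'
  rcases hnd with ⟨ξ, h1, h2, h3, h4⟩ | ⟨ξ, h0, h1, h2⟩
  · refine Pool.Agent.Work.PD.dense_of_line2 f G' hf hG' P v ξ (Pi.single i 1) hline' h1 ?_ ?_ ?_
    · rw [hdir] at h4; exact h4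
    · have h2' : (Pool.Agent.Work.PD.expand f P ξ).coeff 2 = 0 := h2
      have h3' : (Pool.Agent.Work.PD.expand f P ξ).coeff 3 ≠ 0 := h3
      have h5 : (fun i => Pool.Agent.Work.PD.ee f P v ξ * ξ i -
          (Pool.Agent.Work.PD.expand f P ξ).coeff 2 * v i) =
          fun i => Pool.Agent.Work.PD.ee f P v ξ * ξ i := by
        funext i; rw [h2']; ring
      unfold Pool.Agent.Work.PD.nn
      rw [h5, Pool.Agent.Work.PD.coeff_expand_smul]
      refine mul_ne_zero (pow_ne_zero _ ?_) h3'
      rw [hdir] at h4; exact h4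
    · have hP0 : (fun i => P i + (0 : K) * v i) = P := by funext i; ring
      have := Pool.Agent.Work.PD.coeff_one_shift f P v (Pi.single i 1) 0
      rw [hP0] at this
      rw [this, ← coeff_zero_eq_eval_zero]
      exact hsingle
  · rw [hdir] at h0 h1 h2
    exact Pool.Agent.Work.PD.dense_of_line f G' hf hG' P v hline' ξ (Pi.single i 1) h0 h1 h2
      hsingle

end Pool.Agent.Work.MP_b62148_ag.OldSexticLine
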