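import Mathlib
import Pool.Agent.Work.MP_b62148_ag.QK.Top

/-!
Density of rational points on smooth quartic hypersurfaces over the rational numbers with one
rational point and one suitable real point.
-/

namespace Pool.Agent.Work.MP_b62148_ag.QuarticRationalRes

open MvPolynomial

/-- The form `F` is smooth: its partial derivatives have no common zero over the algebraic closure
other than the origin (for a form of positive degree in characteristic zero this says that the
projective hypersurface `F = 0` is smooth). -/
def IsSmoothForm {K : Type*} [Field K] {σ : Type*} (F : MvPolynomial σ K) : Prop :=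
  ∀ x : σ → AlgebraicClosure K, (∀ i, aeval x (pderiv i F) = 0) → x = 0

/-- The matrix of the second partial derivatives of `F` at `p`. -/
noncomputable def hessian {K : Type*} [Field K] {m : ℕ} (F : MvPolynomial (Fin m) K) (p : Fin m → K) :
    Matrix (Fin m) (Fin m) K :=
  Matrix.of fun i j => eval p (pderiv i (pderiv j F))

/-- The second fundamental form of the hypersurface `F = 0` at the real zero `x` is indefinite:
the quadratic form of the second partial derivatives of `F` at `x` takes positive and negative
values on the kernel of the gradient of `F` at `x`. -/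
def IndefiniteAt {m : ℕ} (F : MvPolynomial (Fin m) ℚ) (x : Fin m → ℝ) : Prop :=
  ∃ u w : Fin m → ℝ, ∑ i, aeval x (pderiv i F) * u i = 0 ∧ ∑ i, aeval x (pderiv i F) * w i = 0 ∧
    0 < ∑ i, ∑ j, aeval x (pderiv i (pderiv j F)) * u i * u j ∧
    ∑ i, ∑ j, aeval x (pderiv i (pderiv j F)) * w i * w j < 0

/-- The rational points of the (affine cone over the) hypersurface `F = 0` are Zariski dense: every
polynomial vanishing at all of them is a multiple of `F`. -/
def DensePoints {K : Type*} [Field K] {σ : Type*} (F : MvPolynomial σ K) : Prop :=
  ∀ G : MvPolynomial σ K, (∀ x : σ → K, eval x F = 0 → eval x G = 0) → F ∣ G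

/-- Let `F` be a smooth quartic form over the rational numbers in `n + 1` variables, `n ≥ 9`, `p` a
rational and `q` a real point of the hypersurface `F = 0` such that the line through them meets the
hypersurface at `p` with multiplicity three (and once at `q`), the second fundamental forms at `p`
and `q` are indefinite, and the Hessian at `p` has rank at least seven. Then the rational points are
Zariski dense. -/
theorem result (n : ℕ) (hn : 9 ≤ n) (F : MvPolynomial (Fin (n + 1)) ℚ) (hF : F.IsHomogeneous 4)
    (hs : IsSmoothForm F) (p : Fin (n + 1) → ℚ) (hr : 7 ≤ (hessian F p).rank)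
    (q : Fin (n + 1) → ℝ) (c : ℝ) (hc : c ≠ 0)
    (hpq : ∀ t : ℝ, aeval (fun i => (p i : ℝ) + t * q i) F = c * t ^ 3)
    (hip : IndefiniteAt F fun i => (p i : ℝ)) (hiq : IndefiniteAt F q) : DensePoints F :=
  fun G hG => Pool.Agent.Work.QK.top_rat (by simp; omega) F hF hs p hr q c hc hpq hip hiq G hG

end Pool.Agent.Work.MP_b62148_ag.QuarticRationalRes
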