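import Mathlib
import Pool.Agent.Results.MP_b62148_ag.SmallDegrees
import Pool.Agent.Work.MP_b62148_ag.Quintic.IrredQ
import Pool.Agent.Work.MP_b62148_ag.Quintic.FixAnyQ

/-!
The theorem on smooth quintics follows from the theorem on complete intersections of small degrees.
-/

namespace Pool.Agent.Work.MP_b62148_ag.SmallDegreesCor

open MvPolynomial Pool.Agent.Results.MP_b62148_ag

/-- The form `F` is smooth: its partial derivatives have no common zero over the algebraic closure
other than the origin. -/
def IsSmoothForm {k : Type*} [Field k] {σ : Type*} (F : MvPolynomial σ k) : Prop :=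
  ∀ x : σ → AlgebraicClosure k, (∀ i, aeval x (pderiv i F) = 0) → x = 0

/-- The hypersurface `F = 0` is unirational over `K`. -/
def Unirational {K : Type*} [Field K] {σ : Type*} (F : MvPolynomial σ K) : Prop :=
  ∃ (m : ℕ) (P : σ → MvPolynomial (Fin m) K),
    aeval P F = 0 ∧ ∀ G : MvPolynomial σ K, aeval P G = 0 → F ∣ G

/-- The points of the hypersurface `F = 0` over `K` are Zariski dense. -/
def DensePoints {K : Type*} [Field K] {σ : Type*} (F : MvPolynomial σ K) : Prop :=
  ∀ G : MvPolynomial σ K, (∀ x : σ → K, eval x F = 0 → eval x G = 0) → F ∣ G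

/-- divisibility from vanishing at the zeros over the closure -/
theorem dvd_of_zeros {K : Type*} [Field K] {σ : Type*} [Finite σ] (F : MvPolynomial σ K)
    (hF : Irreducible F) (H : MvPolynomial σ K)
    (h : ∀ x : σ → AlgebraicClosure K, aeval x F = 0 → aeval x H = 0) : F ∣ H := by
  have h1 : H ∈ (Ideal.span {F}).radical := by
    rw [← MvPolynomial.vanishingIdeal_zeroLocus_eq_radical (K := AlgebraicClosure K),
      MvPolynomial.mem_vanishingIdeal_iff]
    intro x hx
    rw [MvPolynomial.mem_zeroLocus_iff] at hx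
    exact h x (hx F (Ideal.subset_span rfl))
  obtain ⟨n, hn⟩ := h1
  rw [Ideal.mem_span_singleton] at hn
  exact hF.prime.dvd_of_dvd_pow hn

/-- the theorem on smooth quintics -/
theorem smoothQuintic {k : Type*} [Field k] [CharZero k] (n : ℕ) (hn : 17 ≤ n)
    (F : MvPolynomial (Fin (n + 1)) k) (hF : F.IsHomogeneous 5) (hs : IsSmoothForm F) :
    ∃ L : IntermediateField k (AlgebraicClosure k), FiniteDimensional k L ∧
      Unirational (map (algebraMap k L) F) ∧ DensePoints (map (algebraMap k L) F) := by
  classical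
  obtain ⟨v, hv⟩ := Pool.Agent.Work.PD5.exists_li_any (σ := Fin (n + 1)) (AlgebraicClosure k) 18
    (by rw [Fintype.card_fin]; omega)
  obtain ⟨L, hL, -, ⟨m, P, hP, hdom⟩, hden⟩ := SmallDegrees.result n 1 (fun _ => 5)
    (fun _ => by norm_num) (Or.inr (by simp)) (by simp; omega) (fun _ => F) (fun _ => hF) 4
    (by simp) (Or.inr ⟨rfl, fun _ => rfl⟩) (Or.inr (Or.inr ⟨rfl, fun _ => rfl,
      v, hv, fun s hs0 => by
        by_contra hcon
        push Not at hcon
        apply hs0
        have h1 := hs _ fun l => hcon 0 l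
        funext j
        refine (Fintype.linearIndependent_iff.mp hv) s ?_ j
        rw [← h1]
        funext l
        rw [Finset.sum_apply]
        rfl⟩))
  have hsm : Pool.Agent.Work.PD.SmoothForm (map (algebraMap k L) F) :=
    Pool.Agent.Work.PD5.smooth_map F hs
  have hirr : Irreducible (map (algebraMap k L) F) :=
    Pool.Agent.Work.PD5.irreducible_of_smooth _ (hF.map _) hsm (by rw [Fintype.card_fin]; omega)
  refine ⟨L, hL, ⟨m, P, hP 0, fun H hH => ?_⟩, fun H hH => ?_⟩
  · exact dvd_of_zeros _ hirr H fun x hx => hdom H hH x fun _ => hx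
  · exact dvd_of_zeros _ hirr H fun x hx => hden H (fun y hy => hH y (hy 0)) x fun _ => hx

end Pool.Agent.Work.MP_b62148_ag.SmallDegreesCor
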