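import Mathlib
import Pool.Agent.Work.MP_b62148_ag.GenLine
import Pool.Agent.Work.MP_b62148_ag.Descent

/-!
Potential density of square values of a smooth sextic form in at least eight variables.
-/

namespace Pool.Agent.Work.PD

theorem squares_dense_of_smooth {k : Type*} [Field k] [CharZero k] {σ : Type*} [Fintype σ]
    (f : MvPolynomial σ k) (hf6 : f.IsHomogeneous 6) (hs : SmoothForm f)
    (hcard : 8 ≤ Fintype.card σ) :
    ∃ (L : IntermediateField k (AlgebraicClosure k)) (_ : FiniteDimensional k L),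
      ∀ G : MvPolynomial σ L,
        (∀ x : σ → L, IsSquare (MvPolynomial.eval x (MvPolynomial.map (algebraMap k L) f)) →
          MvPolynomial.eval x G = 0) → G = 0 := by
  obtain ⟨g, hg, P, v, ξ₀, ξ₁, h1, h2, h3, h4, h5⟩ := exists_generic_line f hf6 hs hcard
  obtain ⟨L, hL, P', v', ζ₀, ζ₁, h1', h2', h3', h4', h5'⟩ :=
    exists_finite_line f P v ξ₀ ξ₁ h1 h2 h3 h4 h5
  refine ⟨L, hL, ?_⟩
  intro G hG
  refine dense_of_line (MvPolynomial.map (algebraMap k L) f) G ?_ hG P' v' ?_ ζ₀ ζ₁ ?_ ?_ ?_ ?_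
  · exact (hf6.map _).totalDegree_le
  · rw [expand_map]; exact h1'
  · rw [dirDE_map]; exact h2'
  · rw [dirDE_map]; exact h3'
  · rw [dirDE_map]; exact h4'
  · rw [dirDE_map]; exact h5'

end Pool.Agent.Work.PD
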